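import Pool.Agent.Lib.P9Q.K5

/-!
# P9Q.K6: closed one-manifolds are finite disjoint unions of circles

`M` is locally connected (every point has an open neighbourhood homeomorphic to `ℝ`; the images of
small intervals are connected neighbourhoods). So the connected components are open
(`isOpen_connectedComponent`), and finite in number by compactness. Each component `C` (as a
subtype) is compact, Hausdorff, connected and satisfies `Arcs`: if `φ` is an arc of `M` with
`x ∈ range φ`, `x ∈ C`, then `range φ` is connected, so contained in `C`, and `φ` corestricts to an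
open embedding into `C`. By `circle_homeo` `C ≃ₜ TC`. Choose `n` and a bijection of `Fin n` with the
finite set `ConnectedComponents M` and glue: `(i, x) ↦ (homeomorphism of the component i) x` is a
continuous bijection from the compact space `Fin n × TC` to the Hausdorff space `M`
(`Continuous.homeoOfEquivCompactToT2`; continuity can be tested for fixed `i`,
`continuous_prod_of_discrete_left` or similar). If `M` is nonempty then `0 < n`.
-/

namespace Pool.Agent.Lib.P9Q

open Set Topology

namespace K6Aux

theorem range_sub {M : Type*} [TopologicalSpace M] {φ : ℝ → M} (hφ : IsOpenEmbedding φ) {x : M}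
    (hx : x ∈ range φ) : range φ ⊆ connectedComponent x :=
  (isPreconnected_range hφ.continuous).subset_connectedComponent hx

theorem comp_open {M : Type*} [TopologicalSpace M] (hM : Arcs M) (x : M) :
    IsOpen (connectedComponent x) := by
  rw [isOpen_iff_mem_nhds]
  intro y hy
  obtain ⟨φ, hφ, hyφ⟩ := hM y
  rw [connectedComponent_eq hy]
  exact Filter.mem_of_superset (hφ.isOpen_range.mem_nhds hyφ) (range_sub hφ hyφ)

theorem circ {M : Type*} [TopologicalSpace M] [T2Space M] [CompactSpace M]
    (hM : Arcs M) (x : M) : Nonempty (connectedComponent x ≃ₜ TC) := by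
  have : CompactSpace (connectedComponent x) :=
    isCompact_iff_compactSpace.1 isClosed_connectedComponent.isCompact
  have : ConnectedSpace (connectedComponent x) :=
    Subtype.connectedSpace isConnected_connectedComponent
  apply circle_homeo
  rintro ⟨y, hy⟩
  obtain ⟨φ, hφ, t, ht⟩ := hM y
  have hsub : ∀ t, φ t ∈ connectedComponent x := by
    intro s
    have := range_sub hφ ⟨t, ht⟩ (mem_range_self s)
    rwa [← connectedComponent_eq hy] at this
  refine ⟨fun t => ⟨φ t, hsub t⟩, ?_, t, Subtype.ext ht⟩
  exact IsOpenEmbedding.of_comp _ (comp_open hM x).isOpenEmbedding_subtypeVal hφ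

end K6Aux

theorem classify {M : Type*} [TopologicalSpace M] [T2Space M] [CompactSpace M] [Nonempty M]
    (hM : Arcs M) : ∃ n : ℕ, 0 < n ∧ Nonempty (M ≃ₜ Fin n × TC) := by
  have : DiscreteTopology (ConnectedComponents M) := by
    rw [discreteTopology_iff_isOpen_singleton]
    intro c
    obtain ⟨x, rfl⟩ := ConnectedComponents.surjective_coe c
    rw [← ConnectedComponents.isQuotientMap_coe.isOpen_preimage,
      connectedComponents_preimage_singleton]
    exact K6Aux.comp_open hM x
  have : Finite (ConnectedComponents M) := finite_of_compact_of_discrete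
  obtain ⟨n, ⟨e⟩⟩ := Finite.exists_equiv_fin (ConnectedComponents M)
  have hC : ∀ c : ConnectedComponents M,
      Nonempty ((((↑) : M → ConnectedComponents M) ⁻¹' {c} : Set M) ≃ₜ TC) := by
    intro c
    obtain ⟨x, rfl⟩ := ConnectedComponents.surjective_coe c
    rw [connectedComponents_preimage_singleton]
    exact K6Aux.circ hM x
  have h : ∀ c : ConnectedComponents M,
      ((((↑) : M → ConnectedComponents M) ⁻¹' {c} : Set M) ≃ₜ TC) := fun c => (hC c).some
  have hbij : Function.Bijective (fun p : Fin n × TC => (((h (e.symm p.1)).symm p.2 : _) : M)) := by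
    constructor
    · rintro ⟨i, x⟩ ⟨j, y⟩ hxy
      simp only at hxy
      have hi : ((((h (e.symm i)).symm x : _) : M) : ConnectedComponents M) = e.symm i :=
        ((h (e.symm i)).symm x).2
      have hj : ((((h (e.symm j)).symm y : _) : M) : ConnectedComponents M) = e.symm j :=
        ((h (e.symm j)).symm y).2
      rw [hxy, hj] at hi
      have hij : i = j := (e.symm.injective hi).symm
      subst hij
      have := (h (e.symm i)).symm.injective (Subtype.ext hxy)
      rw [this]
    · intro m
      have hm : m ∈ (((↑) : M → ConnectedComponents M) ⁻¹' {e.symm (e m)} : Set M) := by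
        simp
      exact ⟨(e m, h (e.symm (e m)) ⟨m, hm⟩), by simp⟩
  have hcont : Continuous (fun p : Fin n × TC => (((h (e.symm p.1)).symm p.2 : _) : M)) := by
    rw [continuous_prod_of_discrete_left]
    intro i
    exact continuous_subtype_val.comp (h (e.symm i)).symm.continuous
  refine ⟨n, ?_, ⟨(Continuous.homeoOfEquivCompactToT2 (f := Equiv.ofBijective _ hbij) hcont).symm⟩⟩
  exact Fin.pos (e (Classical.arbitrary M : M))

end Pool.Agent.Lib.P9Q
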