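import Pool.Agent.Lib.P9Q.Defs

/-!
# P9Q.K7: charts give arcs, and manifolds of dimension zero

`arcs_of_charted`: let `e = chartAt (EuclideanSpace ℝ (Fin 1)) x`; `EuclideanSpace ℝ (Fin 1)` is
homeomorphic to `ℝ` (`v ↦ v 0`); the open set `e.target` contains a ball around `e x`, which
corresponds to an interval `Ioo (u - r) (u + r)`; compose a homeomorphism of `ℝ` with this interval
with the inverse chart (an open embedding on the target: `OpenPartialHomeomorph`).
`discrete_of_charted`: `EuclideanSpace ℝ (Fin 0)` has one point, so the source of the chart at `x`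
is `{x}` (the chart is injective on its source) and open. A compact discrete space is finite.
`fin_cls`: `M ≃ₜ M` is a finite type. `{ω | F ω = e}` is measurable for every `e` (finite
intersection over `m` of `{ω | F ω m = e m}`; the σ-algebra `borel M` of the discrete space is `⊤`).
Enumerate the classes: there is `c : (M ≃ₜ M) → ℕ` with `c e = c e' ↔ HConj e e'` (`HConj` is an
equivalence relation on a finite type; take an injection of the quotient to `ℕ`). Put
`a ω k p q := (k = c (F ω))`: `SIso (a ω) (a ω')` iff `c (F ω) = c (F ω')`.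
-/

namespace Pool.Agent.Lib.P9Q

open Set Topology

theorem arcs_of_charted {M : Type*} [TopologicalSpace M]
    [ChartedSpace (EuclideanSpace ℝ (Fin 1)) M] : Arcs M := by
  intro x
  let e := chartAt (EuclideanSpace ℝ (Fin 1)) x
  have hx : e x ∈ e.target := e.map_source (mem_chart_source _ x)
  obtain ⟨r, hr, hb⟩ := Metric.isOpen_iff.1 e.open_target (e x) hx
  let u : OpenPartialHomeomorph (EuclideanSpace ℝ (Fin 1)) (EuclideanSpace ℝ (Fin 1)) :=
    OpenPartialHomeomorph.univBall (e x) r
  have hus : u.source = univ := OpenPartialHomeomorph.univBall_source _ _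
  have hut : u.target = Metric.ball (e x) r := OpenPartialHomeomorph.univBall_target _ hr
  let v := u.trans e.symm
  have hvs : v.source = univ := by
    rw [OpenPartialHomeomorph.trans_source, hus, univ_inter]
    rw [eq_univ_iff_forall]
    intro y
    rw [mem_preimage]
    have h1 : u y ∈ u.target := u.map_source (by rw [hus]; exact mem_univ y)
    rw [hut] at h1
    exact hb h1
  let w : ℝ ≃ₜ EuclideanSpace ℝ (Fin 1) :=
    (Homeomorph.funUnique (Fin 1) ℝ).symm.trans
      (EuclideanSpace.equiv (Fin 1) ℝ).symm.toHomeomorph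
  refine ⟨v ∘ w, (OpenPartialHomeomorph.to_isOpenEmbedding v hvs).comp w.isOpenEmbedding, ?_⟩
  obtain ⟨t, ht⟩ := w.surjective 0
  refine ⟨t, ?_⟩
  change e.symm (u (w t)) = x
  rw [ht]
  have h0 : u 0 = e x := OpenPartialHomeomorph.univBall_apply_zero _ _
  rw [h0]
  exact e.left_inv (mem_chart_source _ x)

theorem discrete_of_charted {M : Type*} [TopologicalSpace M]
    [ChartedSpace (EuclideanSpace ℝ (Fin 0)) M] : DiscreteTopology M := by
  rw [discreteTopology_iff_isOpen_singleton]
  intro x
  let e := chartAt (EuclideanSpace ℝ (Fin 0)) x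
  have h : e.source = {x} := by
    ext y
    rw [mem_singleton_iff]
    constructor
    · intro hy
      exact e.injOn hy (mem_chart_source _ x) (Subsingleton.elim _ _)
    · intro hy
      rw [hy]
      exact mem_chart_source _ x
  rw [← h]
  exact e.open_source

theorem fin_cls {M : Type*} [TopologicalSpace M] [DiscreteTopology M] [Finite M] {Ω : Type*}
    [MeasurableSpace Ω] (F : Ω → M ≃ₜ M)
    (hF : ∀ m, @Measurable Ω M _ (borel M) fun ω => F ω m) :
    Cls fun ω ω' => HConj (F ω) (F ω') := by
  classical
  have hfin : Finite (M ≃ₜ M) :=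
    Finite.of_injective (fun e : M ≃ₜ M => (e : M → M)) DFunLike.coe_injective
  let st : Setoid (M ≃ₜ M) :=
    { r := HConj
      iseqv :=
        { refl := fun f => ⟨Homeomorph.refl M, fun m => rfl⟩
          symm := by
            rintro f g ⟨h, hh⟩
            refine ⟨h.symm, fun m => ?_⟩
            rw [Homeomorph.symm_apply_eq, hh, h.apply_symm_apply]
          trans := by
            rintro f g k ⟨h, hh⟩ ⟨h', hh'⟩
            refine ⟨h.trans h', fun m => ?_⟩
            rw [Homeomorph.trans_apply, Homeomorph.trans_apply, hh, hh'] } }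
  obtain ⟨c, hc⟩ := exists_injective_nat (Quotient st)
  have hev : ∀ e : M ≃ₜ M, MeasurableSet {ω | F ω = e} := by
    intro e
    have h1 : {ω | F ω = e} = ⋂ m : M, {ω | F ω m = e m} := by
      ext ω
      simp only [mem_setOf_eq, mem_iInter]
      exact ⟨fun h m => by rw [h], fun h => Homeomorph.ext h⟩
    rw [h1]
    refine MeasurableSet.iInter fun m => ?_
    have h2 : @MeasurableSet M (borel M) {e m} :=
      MeasurableSpace.measurableSet_generateFrom (isOpen_discrete _)
    exact hF m h2
  refine ⟨fun ω k _ _ => k = c (Quotient.mk st (F ω)), fun k p q => ?_, fun ω ω' => ?_⟩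
  · have h1 : {ω | k = c (Quotient.mk st (F ω))} =
        ⋃ e : {e : M ≃ₜ M // k = c (Quotient.mk st e)}, {ω | F ω = e.1} := by
      ext ω
      simp only [mem_setOf_eq, mem_iUnion]
      constructor
      · intro h
        exact ⟨⟨F ω, h⟩, rfl⟩
      · rintro ⟨e, he⟩
        rw [he]
        exact e.2
    rw [h1]
    exact MeasurableSet.iUnion fun e => hev e.1
  · constructor
    · intro h
      have h1 : Quotient.mk st (F ω) = Quotient.mk st (F ω') := Quotient.sound h
      refine ⟨1, fun k x y => ?_⟩
      beta_reduce
      rw [h1]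
    · rintro ⟨σ, hσ⟩
      have h1 := (hσ (c (Quotient.mk st (F ω))) 0 0).1 rfl
      exact Quotient.exact (hc h1)

end Pool.Agent.Lib.P9Q
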