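import Pool.Agent.Lib.P9Q.Defs

/-!
# P9Q.AWord: the group generated by a lift and the translation

`act F (FreeGroup.of true) = TT`, `act F (FreeGroup.of false) = F`. `act_mon`: induction over the
free group (`FreeGroup.induction_on`): the set of `γ` for which `act F γ` is strictly monotone and
`sgn s γ = 1`, or strictly antitone and `sgn s γ = -1`, contains the generators and is closed under
products and inverses (inverse of a strictly monotone (antitone) bijection of `ℝ`).
`HL.zpow_add`: for all `n m : ℤ` and `x`, `(F ^ n) (x + m) = (F ^ n) x + (s ^ n) m` with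
`s ^ n : ℤˣ` (first `n = 1`: induction on `m`, then inverse, then induction on `n`).
`act_eq`: every `act F γ` has the form `x ↦ (F ^ n) x + m`: the set of these maps contains the
generators and is closed under products and inverses by `HL.zpow_add`. `exists_act`: conversely
`x ↦ (F ^ n) x + m` is `act F (of true ^ m * of false ^ n)`.
-/

namespace Pool.Agent.Lib.P9Q

open Set

namespace AWordAux

theorem ai (σ : Equiv.Perm ℝ) (x : ℝ) : σ (σ⁻¹ x) = x := σ.apply_symm_apply x

theorem strictMono_inv {σ : Equiv.Perm ℝ} (h : StrictMono σ) : StrictMono (⇑(σ⁻¹)) := by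
  intro a b hab
  by_contra hcon
  push Not at hcon
  have h1 := h.monotone hcon
  rw [ai, ai] at h1
  linarith

theorem strictAnti_inv {σ : Equiv.Perm ℝ} (h : StrictAnti σ) : StrictAnti (⇑(σ⁻¹)) := by
  intro a b hab
  by_contra hcon
  push Not at hcon
  have h1 := h.antitone hcon
  rw [ai, ai] at h1
  linarith

/-- `σ` commutes with the integer translations up to the sign `t`. -/
def QQ (σ : Equiv.Perm ℝ) (t : ℤˣ) : Prop :=
  ∀ (m : ℤ) (x : ℝ), σ (x + m) = σ x + ((t : ℤ) : ℝ) * m

theorem QQ.one : QQ 1 1 := by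
  intro m x
  simp

theorem QQ.mul {σ σ' : Equiv.Perm ℝ} {t t' : ℤˣ} (h : QQ σ t) (h' : QQ σ' t') :
    QQ (σ * σ') (t * t') := by
  intro m x
  rw [Equiv.Perm.mul_apply, Equiv.Perm.mul_apply, h' m x]
  have h1 := h ((t' : ℤ) * m) (σ' x)
  push_cast at h1 ⊢
  rw [h1]
  ring

theorem QQ.inv {σ : Equiv.Perm ℝ} {t : ℤˣ} (h : QQ σ t) : QQ σ⁻¹ t⁻¹ := by
  intro m x
  have ht : t⁻¹ = t := by
    rcases Int.units_eq_one_or t with rfl | rfl <;> rfl
  have ht2 : ((t : ℤ) : ℝ) * ((t : ℤ) : ℝ) = 1 := by
    rcases Int.units_eq_one_or t with rfl | rfl <;> simp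
  rw [ht, Equiv.Perm.inv_eq_iff_eq]
  have h1 := h ((t : ℤ) * m) (σ⁻¹ x)
  push_cast at h1
  rw [h1, ai, ← mul_assoc, ht2, one_mul]

theorem QQ.zpow {σ : Equiv.Perm ℝ} {t : ℤˣ} (h : QQ σ t) (n : ℤ) : QQ (σ ^ n) (t ^ n) := by
  induction n using Int.induction_on with
  | zero =>
    rw [zpow_zero, zpow_zero]
    exact QQ.one
  | succ n ih =>
    rw [zpow_add_one, zpow_add_one]
    exact ih.mul h
  | pred n ih =>
    rw [zpow_sub_one, zpow_sub_one]
    exact ih.mul h.inv

end AWordAux

open AWordAux

theorem act_true (F : Equiv.Perm ℝ) (x : ℝ) : act F (FreeGroup.of true) x = x + 1 := by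
  simp [act, TT]

theorem act_false (F : Equiv.Perm ℝ) (x : ℝ) : act F (FreeGroup.of false) x = F x := by
  simp [act]

theorem act_mon {F : Equiv.Perm ℝ} {s : ℤˣ} (hF : HL F s) : Mon (act F) (sgn s) := by
  have key : ∀ γ : FreeGroup Bool, (sgn s γ = 1 → StrictMono (act F γ)) ∧
      (sgn s γ = -1 → StrictAnti (act F γ)) := by
    have hne : (1 : ℤˣ) ≠ -1 := by decide
    intro γ
    induction γ using FreeGroup.induction_on with
    | C1 =>
      rw [map_one, map_one]
      exact ⟨fun _ => fun a b hab => hab, fun h => absurd h hne⟩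
    | of b =>
      have h1 : sgn s (FreeGroup.of b) = if b then 1 else s := by
        simp [sgn]
      have h2 : act F (FreeGroup.of b) = if b then TT else F := by
        simp [act]
      have h3 : sgn s (pure b) = if b then 1 else s := h1
      have h4 : act F (pure b) = if b then TT else F := h2
      cases b with
      | true =>
        rw [if_pos rfl] at h1 h2
        rw [h1, h2]
        refine ⟨fun _ => ?_, fun h => absurd h hne⟩
        intro a b hab
        simp only [TT, Equiv.coe_addRight]
        linarith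
      | false =>
        rw [if_neg (by decide)] at h1 h2
        rw [h1, h2]
        exact ⟨hF.inc, hF.dec⟩
    | inv_of b ih =>
      rw [map_inv, map_inv]
      refine ⟨fun h => strictMono_inv (ih.1 ?_), fun h => strictAnti_inv (ih.2 ?_)⟩
      · rw [← inv_inv (sgn s (FreeGroup.of b)), h]
        rfl
      · rw [← inv_inv (sgn s (FreeGroup.of b)), h]
        rfl
    | mul x y ihx ihy =>
      rw [map_mul, map_mul]
      rcases Int.units_eq_one_or (sgn s x) with hx | hx <;>
        rcases Int.units_eq_one_or (sgn s y) with hy | hy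
      · rw [hx, hy]
        refine ⟨fun _ => (ihx.1 hx).comp (ihy.1 hy), fun h => absurd h (by decide)⟩
      · rw [hx, hy]
        refine ⟨fun h => absurd h (by decide), fun _ => ?_⟩
        intro a b hab
        exact ihx.1 hx (ihy.2 hy hab)
      · rw [hx, hy]
        refine ⟨fun h => absurd h (by decide), fun _ => ?_⟩
        intro a b hab
        exact ihx.2 hx (ihy.1 hy hab)
      · rw [hx, hy]
        refine ⟨fun _ => ?_, fun h => absurd h (by decide)⟩
        intro a b hab
        exact ihx.2 hx (ihy.2 hy hab)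
  exact ⟨fun γ => (key γ).1, fun γ => (key γ).2⟩

theorem HL.add_int {F : Equiv.Perm ℝ} {s : ℤˣ} (hF : HL F s) (m : ℤ) (x : ℝ) :
    F (x + m) = F x + ((s : ℤ) : ℝ) * m := by
  induction m using Int.induction_on with
  | zero => simp
  | succ m ih =>
    push_cast at ih ⊢
    rw [← add_assoc, hF.per, ih]
    ring
  | pred m ih =>
    have h1 := hF.per (x + (-(m : ℤ) - 1 : ℤ))
    have e : x + ((-(m : ℤ) - 1 : ℤ) : ℝ) + 1 = x + ((-(m : ℤ) : ℤ) : ℝ) := by
      push_cast
      ring
    rw [e, ih] at h1
    push_cast at h1 ⊢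
    linarith

theorem HL.zpow_add {F : Equiv.Perm ℝ} {s : ℤˣ} (hF : HL F s) (n m : ℤ) (x : ℝ) :
    (F ^ n) (x + m) = (F ^ n) x + (((s ^ n : ℤˣ) : ℤ) : ℝ) * m :=
  QQ.zpow (fun m x => hF.add_int m x) n m x

theorem act_eq {F : Equiv.Perm ℝ} {s : ℤˣ} (hF : HL F s) (γ : FreeGroup Bool) :
    ∃ n m : ℤ, ∀ x, act F γ x = (F ^ n) x + m := by
  have hinv : ∀ σ : Equiv.Perm ℝ, (∃ n m : ℤ, ∀ x, σ x = (F ^ n) x + m) →
      ∃ n m : ℤ, ∀ x, (σ⁻¹) x = (F ^ n) x + m := by
    rintro σ ⟨n, m, h⟩
    refine ⟨-n, ((s ^ (-n) : ℤˣ) : ℤ) * (-m), fun x => ?_⟩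
    rw [Equiv.Perm.inv_eq_iff_eq, h]
    have h1 := hF.zpow_add (-n) (-m) x
    push_cast at h1 ⊢
    rw [← h1, ← Equiv.Perm.mul_apply, ← zpow_add, add_neg_cancel, zpow_zero, Equiv.Perm.one_apply]
    ring
  induction γ using FreeGroup.induction_on with
  | C1 => exact ⟨0, 0, fun x => by simp⟩
  | of b =>
    cases b with
    | true => exact ⟨0, 1, fun x => by
        have h := act_true F x
        rw [zpow_zero, Equiv.Perm.one_apply, Int.cast_one]
        exact h⟩
    | false => exact ⟨1, 0, fun x => by
        have h := act_false F x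
        rw [zpow_one, Int.cast_zero, add_zero]
        exact h⟩
  | inv_of b ih =>
    rw [map_inv]
    exact hinv _ ih
  | mul x y ihx ihy =>
    obtain ⟨n, m, h⟩ := ihx
    obtain ⟨n', m', h'⟩ := ihy
    refine ⟨n + n', ((s ^ n : ℤˣ) : ℤ) * m' + m, fun z => ?_⟩
    rw [map_mul, Equiv.Perm.mul_apply, h, h', hF.zpow_add n m', _root_.zpow_add,
      Equiv.Perm.mul_apply]
    push_cast
    ring

theorem exists_act (F : Equiv.Perm ℝ) (n m : ℤ) :
    ∃ γ : FreeGroup Bool, ∀ x, act F γ x = (F ^ n) x + m := by
  refine ⟨FreeGroup.of true ^ m * FreeGroup.of false ^ n, fun x => ?_⟩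
  have h1 : act F (FreeGroup.of true) = TT := by
    simp [act]
  have h2 : act F (FreeGroup.of false) = F := by
    simp [act]
  rw [map_mul, map_zpow, map_zpow, h1, h2, Equiv.Perm.mul_apply]
  have h3 : ∀ (k : ℤ) (y : ℝ), (TT ^ k) y = y + k := by
    intro k
    induction k using Int.induction_on with
    | zero =>
      intro y
      simp
    | succ k ih =>
      intro y
      have e : TT y = y + 1 := rfl
      rw [zpow_add_one, Equiv.Perm.mul_apply, ih, e]
      push_cast
      ring
    | pred k ih =>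
      intro y
      have e : TT⁻¹ y = y - 1 := rfl
      rw [zpow_sub_one, Equiv.Perm.mul_apply, ih, e]
      push_cast
      ring
  rw [h3]

/-- Two actions are intertwined as soon as the generators are. -/
theorem act_intertwine {F G : Equiv.Perm ℝ} (H : ℝ ≃o ℝ) (h1 : ∀ x, H (x + 1) = H x + 1)
    (h2 : ∀ x, H (F x) = G (H x)) (γ : FreeGroup Bool) (x : ℝ) :
    H (act F γ x) = act G γ (H x) := by
  have key : ∀ γ : FreeGroup Bool, ∀ x, H (act F γ x) = act G γ (H x) := by
    intro γ
    induction γ using FreeGroup.induction_on with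
    | C1 =>
      intro x
      rw [map_one, map_one]
      rfl
    | of b =>
      intro x
      cases b with
      | true =>
        have e1 := act_true F x
        have e2 := act_true G (H x)
        exact (congrArg H e1).trans ((h1 x).trans e2.symm)
      | false =>
        have e1 := act_false F x
        have e2 := act_false G (H x)
        exact (congrArg H e1).trans ((h2 x).trans e2.symm)
    | inv_of b ih =>
      intro x
      rw [map_inv, map_inv, eq_comm, Equiv.Perm.inv_eq_iff_eq, ← ih, ai]
    | mul a b iha ihb =>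
      intro x
      rw [map_mul, map_mul, Equiv.Perm.mul_apply, Equiv.Perm.mul_apply, iha, ihb]
  exact key γ x

end Pool.Agent.Lib.P9Q
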