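import Pool.Agent.Lib.P9Q.Defs

/-!
# P9Q.DExt: monotone bijections between dense sets

Proof of `dense_ext`. Put `H x = sSup (h '' (S ∩ Iic x))` (nonempty and bounded above since `S` is
dense and `h` is monotone). `H = h` on `S`. `H` is strictly monotone: for `x < y` choose
`s < t` in `S` with `x < s < t < y`; `H x ≤ h s < h t ≤ H y`. `H` is surjective: for `z : ℝ` let
`x = sSup {s ∈ S | h s ≤ z}`; then `H x = z`, because for `z < z'` there is `s' ∈ S'` between and
its preimage `s` has `s ≥ x`, and so on (density of `S'`). `StrictMono.orderIsoOfSurjective`.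

Proof of `eq_of_dense`. A monotone or antitone surjective function `ℝ → ℝ` is continuous
(`Monotone.continuous_of_surjective`, and for antitone functions compose with negation); two
continuous functions which agree on a dense set are equal (`Continuous.ext_on`).
-/

namespace Pool.Agent.Lib.P9Q

open Set

theorem dense_ext {S S' : Set ℝ} (hS : Dense S) (hS' : Dense S') (h : ℝ → ℝ)
    (hb : BijOn h S S') (hm : StrictMonoOn h S) : ∃ H : ℝ ≃o ℝ, ∀ x ∈ S, H x = h x := by
  have hne : ∀ x : ℝ, (h '' (S ∩ Iic x)).Nonempty := by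
    intro x
    obtain ⟨s, hs, hsx⟩ := hS.exists_lt x
    exact ⟨h s, s, ⟨hs, hsx.le⟩, rfl⟩
  have hbd : ∀ x : ℝ, BddAbove (h '' (S ∩ Iic x)) := by
    intro x
    obtain ⟨t, ht, hxt⟩ := hS.exists_gt x
    refine ⟨h t, ?_⟩
    rintro _ ⟨s, ⟨hs, hsx⟩, rfl⟩
    exact (hm hs ht (lt_of_le_of_lt hsx hxt)).le
  have hle : ∀ s ∈ S, ∀ x, s ≤ x → h s ≤ sSup (h '' (S ∩ Iic x)) := by
    intro s hs x hsx
    exact le_csSup (hbd x) ⟨s, ⟨hs, hsx⟩, rfl⟩
  have hge : ∀ s ∈ S, ∀ x, x ≤ s → sSup (h '' (S ∩ Iic x)) ≤ h s := by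
    intro s hs x hxs
    refine csSup_le (hne x) ?_
    rintro _ ⟨u, ⟨hu, hux⟩, rfl⟩
    exact hm.monotoneOn hu hs (le_trans hux hxs)
  have hmono : StrictMono (fun x => sSup (h '' (S ∩ Iic x))) := by
    intro x y hxy
    obtain ⟨s, hs, hxs, hsy⟩ := hS.exists_between hxy
    obtain ⟨t, ht, hst, hty⟩ := hS.exists_between hsy
    exact lt_of_le_of_lt (hge s hs x hxs.le) (lt_of_lt_of_le (hm hs ht hst) (hle t ht y hty.le))
  have hsurj : Function.Surjective (fun x => sSup (h '' (S ∩ Iic x))) := by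
    intro z
    have hAne : {s | s ∈ S ∧ h s ≤ z}.Nonempty := by
      obtain ⟨s', hs', hlt⟩ := hS'.exists_lt z
      obtain ⟨s, hs, rfl⟩ := hb.surjOn hs'
      exact ⟨s, hs, hlt.le⟩
    have hup : ∀ t ∈ S, z < h t → ∀ s ∈ {s | s ∈ S ∧ h s ≤ z}, s ≤ t := by
      intro t ht hzt s hs
      exact ((hm.lt_iff_lt hs.1 ht).1 (lt_of_le_of_lt hs.2 hzt)).le
    have hAbd : BddAbove {s | s ∈ S ∧ h s ≤ z} := by
      obtain ⟨t', ht', hlt⟩ := hS'.exists_gt z
      obtain ⟨t, ht, rfl⟩ := hb.surjOn ht'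
      exact ⟨t, hup t ht hlt⟩
    refine ⟨sSup {s | s ∈ S ∧ h s ≤ z}, ?_⟩
    refine le_antisymm ?_ ?_
    · refine csSup_le (hne _) ?_
      rintro _ ⟨s, ⟨hs, hsx⟩, rfl⟩
      by_contra hcon
      obtain ⟨s', hs', h1, h2⟩ := hS'.exists_between (not_le.1 hcon)
      obtain ⟨t, ht, rfl⟩ := hb.surjOn hs'
      have h3 : t < s := (hm.lt_iff_lt ht hs).1 h2
      have h4 : sSup {s | s ∈ S ∧ h s ≤ z} ≤ t := csSup_le hAne (hup t ht h1)
      exact absurd (le_trans hsx h4) (not_le.2 h3)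
    · by_contra hcon
      obtain ⟨s', hs', h1, h2⟩ := hS'.exists_between (not_le.1 hcon)
      obtain ⟨t, ht, rfl⟩ := hb.surjOn hs'
      have h3 : t ≤ sSup {s | s ∈ S ∧ h s ≤ z} := le_csSup hAbd ⟨ht, h2.le⟩
      exact absurd (hle t ht _ h3) (not_le.2 h1)
  refine ⟨StrictMono.orderIsoOfSurjective _ hmono hsurj, fun x hx => ?_⟩
  rw [StrictMono.coe_orderIsoOfSurjective]
  exact le_antisymm (hge x hx x le_rfl) (hle x hx x le_rfl)

theorem DExtAux.cont {f : ℝ → ℝ} (hf : StrictMono f ∨ StrictAnti f)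
    (hf' : Function.Surjective f) : Continuous f := by
  rcases hf with hf | hf
  · exact hf.monotone.continuous_of_surjective hf'
  · have h1 : Monotone (fun x => -f x) := fun x y hxy => neg_le_neg (hf.antitone hxy)
    have h2 : Function.Surjective (fun x => -f x) := by
      intro z
      obtain ⟨x, hx⟩ := hf' (-z)
      exact ⟨x, by simp only [hx, neg_neg]⟩
    have h3 : Continuous (fun x => -(-f x)) := (h1.continuous_of_surjective h2).neg
    simp only [neg_neg] at h3
    exact h3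

theorem eq_of_dense {S : Set ℝ} (hS : Dense S) {f g : ℝ → ℝ} (hf : StrictMono f ∨ StrictAnti f)
    (hf' : Function.Surjective f) (hg : StrictMono g ∨ StrictAnti g)
    (hg' : Function.Surjective g) (h : ∀ x ∈ S, f x = g x) : f = g :=
  Continuous.ext_on hS (DExtAux.cont hf hf') (DExtAux.cont hg hg') h

theorem continuous_of_mono {f : ℝ → ℝ} (hf : StrictMono f ∨ StrictAnti f)
    (hf' : Function.Surjective f) : Continuous f := DExtAux.cont hf hf'

end Pool.Agent.Lib.P9Q
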