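import Pool.Agent.Lib.P9Q.TNum
import Pool.Agent.Lib.P9Q.DExt

/-!
# P9Q.DIrr: irrational translation number

Let `t = trn F` and `Φ` from `trn_semi`. (1) `Φ ((F^n) x + m) = Φ x + n t + m` for `n m : ℤ`.
(2) The set `{n t + m}` is dense in `ℝ` (`t` irrational: `dense_addSubgroupClosure_pair_iff` or
`AddSubgroup.dense_of_no_min`). (3) The range of `Φ` is dense, so `Φ` is continuous
(`Monotone.continuous_of_denseRange`).
Case I: `Φ` injective. Then it is strictly monotone, continuous and unbounded in both directions,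
hence surjective, and gives `H : ℝ ≃o ℝ` (`StrictMono.orderIsoOfSurjective`). `UU (act F) = ∅`: let
`a < x < b` with `Good (act F) a b`; by (2) there are `n, m` with `0 < n t + m < Φ b - Φ x`; the
element `γ` with `act F γ y = (F^n) y + m` (`exists_act`) satisfies
`Φ x < Φ (act F γ x) < Φ b`, so `act F γ x ∈ Ioo x b ⊆ Ioo a b`: both alternatives of `Good` fail.
Case II: `Φ u = Φ v` with `u < v`. Let `D = {x | ∃ c d, c < x ∧ x < d ∧ Φ c = Φ d}`.
`D ⊆ UU (act F)`: `Good (act F) c d`, because `act F γ x = (F^n) x + m` (`act_eq`); if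
`n t + m = 0` then `n = m = 0` and the map is the identity; otherwise for `x ∈ Ioo c d`
`Φ (act F γ x) = Φ x + n t + m ≠ Φ x`, while `Φ` is constant on `Ioo c d`, so
`act F γ x ∉ Ioo c d`.
`D` is dense: otherwise there are `c < d` with `Ioo c d ∩ D = ∅`; then `Φ` is injective on
`Ioo c d`. Take `c < c' < d' < d`; `Φ c' < Φ d'`; by (2) choose `n, m` with
`Φ c' < Φ u + n t + m < Φ d'`. The points `u' = (F^n) u + m < v' = (F^n) v + m` satisfy
`Φ u' = Φ v' ∈ (Φ c', Φ d')`, so `c' < u' < v' < d'`: contradiction with injectivity.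
-/

namespace Pool.Agent.Lib.P9Q

open Set

namespace DIrrAux

theorem phi_int {Φ : ℝ → ℝ} (h1 : ∀ x, Φ (x + 1) = Φ x + 1) (m : ℤ) :
    ∀ x, Φ (x + m) = Φ x + m := by
  induction m using Int.induction_on with
  | zero => intro x; simp
  | succ k ih =>
    intro x
    push_cast
    rw [← add_assoc, h1]
    have := ih x
    push_cast at this
    rw [this]
    ring
  | pred k ih =>
    intro x
    push_cast
    have h2 := h1 (x + (-(k : ℝ) - 1))
    have e : x + (-(k : ℝ) - 1) + 1 = x + ((-(k : ℤ) : ℤ) : ℝ) := by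
      push_cast
      ring
    rw [e, ih x] at h2
    push_cast at h2
    linarith

theorem phi_pow {Φ : ℝ → ℝ} {F : Equiv.Perm ℝ} {t : ℝ} (h2 : ∀ x, Φ (F x) = Φ x + t) (n : ℤ) :
    ∀ x, Φ ((F ^ n) x) = Φ x + n * t := by
  induction n using Int.induction_on with
  | zero => intro x; simp
  | succ k ih =>
    intro x
    rw [zpow_add_one, Equiv.Perm.mul_apply, ih, h2]
    push_cast
    ring
  | pred k ih =>
    intro x
    rw [zpow_sub_one, Equiv.Perm.mul_apply, ih]
    have h3 := h2 (F⁻¹ x)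
    have h4 : F (F⁻¹ x) = x := F.apply_symm_apply x
    rw [h4] at h3
    push_cast
    linarith

theorem exists_between {t : ℝ} (hi : Irrational t) {a b : ℝ} (hab : a < b) :
    ∃ n m : ℤ, a < n * t + m ∧ n * t + m < b := by
  have h : Dense (AddSubgroup.closure {t, (1 : ℝ)} : Set ℝ) := by
    rw [dense_addSubgroupClosure_pair_iff, div_one]
    exact hi
  obtain ⟨z, hz, hz1, hz2⟩ := h.exists_between hab
  obtain ⟨n, m, hnm⟩ := AddSubgroup.mem_closure_pair.1 hz
  refine ⟨n, m, ?_⟩
  rw [zsmul_eq_mul, zsmul_eq_mul, mul_one] at hnm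
  rw [hnm]
  exact ⟨hz1, hz2⟩

theorem eq_zero {t : ℝ} (hi : Irrational t) {n m : ℤ} (h : (n : ℝ) * t + m = 0) :
    n = 0 ∧ m = 0 := by
  by_cases hn : n = 0
  · subst hn
    refine ⟨rfl, ?_⟩
    have h1 : (m : ℝ) = 0 := by simpa using h
    exact_mod_cast h1
  · exfalso
    apply hi
    have hn' : (n : ℝ) ≠ 0 := by exact_mod_cast hn
    refine ⟨-(m : ℚ) / (n : ℚ), ?_⟩
    push_cast
    field_simp
    linarith

theorem mid_mem {F : Equiv.Perm ℝ} (hF : HL F 1) (hi : Irrational (trn F)) {Φ : ℝ → ℝ}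
    (hm : Monotone Φ) (hΦ : ∀ (n m : ℤ) x, Φ ((F ^ n) x + m) = Φ x + (n * trn F + m))
    {p q : ℝ} (hpq : p < q) (h : Φ p = Φ q) : (p + q) / 2 ∈ UU (act F) := by
  have hc : ∀ x ∈ Ioo p q, Φ x = Φ p := by
    intro x hx
    exact le_antisymm (by rw [h]; exact hm hx.2.le) (hm hx.1.le)
  refine ⟨p, q, by linarith, by linarith, ?_⟩
  intro γ
  obtain ⟨n, m, hnm⟩ := act_eq hF γ
  by_cases h0 : (n : ℝ) * trn F + m = 0
  · right
    intro x _
    obtain ⟨hn, hm0⟩ := eq_zero hi h0
    rw [hnm, hn, hm0]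
    simp
  · left
    intro x hx hx'
    have h1 := hΦ n m x
    rw [← hnm, hc _ hx', hc _ hx] at h1
    apply h0
    linarith

end DIrrAux

open DIrrAux

theorem irr_dichotomy {F : Equiv.Perm ℝ} (hF : HL F 1) (hi : Irrational (trn F)) :
    Dense (UU (act F)) ∨ (UU (act F) = ∅ ∧
      ∃ H : ℝ ≃o ℝ, (∀ x, H (x + 1) = H x + 1) ∧ ∀ x, H (F x) = H x + trn F) := by
  obtain ⟨Φ, hm, h1, h2⟩ := trn_semi hF
  have hΦ : ∀ (n m : ℤ) x, Φ ((F ^ n) x + m) = Φ x + (n * trn F + m) := by
    intro n m x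
    rw [phi_int h1, phi_pow h2]
    ring
  by_cases hinj : Function.Injective Φ
  · right
    have hs : StrictMono Φ := hm.strictMono_of_injective hinj
    have hd : DenseRange Φ := by
      refine dense_of_exists_between fun a b hab => ?_
      obtain ⟨n, m, hn1, hn2⟩ := exists_between hi (a := a - Φ 0) (b := b - Φ 0) (by linarith)
      refine ⟨Φ ((F ^ n) 0 + m), ⟨_, rfl⟩, ?_⟩
      rw [hΦ]
      exact ⟨by linarith, by linarith⟩
    have hcont : Continuous Φ := hm.continuous_of_denseRange hd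
    have hsurj : Function.Surjective Φ := by
      intro y
      have h3 : ∃ a, Φ a ≤ y := by
        refine ⟨0 + ((⌊y - Φ 0⌋ : ℤ) : ℝ), ?_⟩
        rw [phi_int h1]
        have := Int.floor_le (y - Φ 0)
        linarith
      have h4 : ∃ b, y ≤ Φ b := by
        refine ⟨0 + ((⌈y - Φ 0⌉ : ℤ) : ℝ), ?_⟩
        rw [phi_int h1]
        have := Int.le_ceil (y - Φ 0)
        linarith
      exact mem_range_of_exists_le_of_exists_ge hcont h3 h4
    refine ⟨?_, StrictMono.orderIsoOfSurjective Φ hs hsurj, h1, h2⟩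
    rw [Set.eq_empty_iff_forall_notMem]
    rintro x ⟨a, b, hax, hxb, hg⟩
    have h5 : (0 : ℝ) < Φ b - Φ x := sub_pos.2 (hs hxb)
    obtain ⟨n, m, hn1, hn2⟩ := exists_between hi h5
    obtain ⟨γ, hγ⟩ := exists_act F n m
    have h6 : Φ (act F γ x) = Φ x + (n * trn F + m) := by rw [hγ, hΦ]
    have h7 : x < act F γ x := by
      rw [← hs.lt_iff_lt, h6]
      linarith
    have h8 : act F γ x < b := by
      rw [← hs.lt_iff_lt, h6]
      linarith
    rcases hg γ with h9 | h9
    · exact h9 x ⟨hax, hxb⟩ ⟨hax.trans h7, h8⟩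
    · have h10 := h9 x ⟨hax, hxb⟩
      rw [h10] at h7
      exact lt_irrefl _ h7
  · left
    have huv : ∃ u v : ℝ, u ≠ v ∧ Φ u = Φ v := by
      unfold Function.Injective at hinj
      push Not at hinj
      obtain ⟨u, v, h3, h4⟩ := hinj
      exact ⟨u, v, h4, h3⟩
    obtain ⟨u, v, huv, he⟩ := huv
    have key : ∀ p q : ℝ, p ≠ q → Φ p = Φ q → (p + q) / 2 ∈ UU (act F) := by
      intro p q hpq h
      rcases lt_or_gt_of_ne hpq with h3 | h3
      · exact mid_mem hF hi hm hΦ h3 h
      · rw [add_comm]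
        exact mid_mem hF hi hm hΦ h3 h.symm
    refine dense_of_exists_between fun c d hcd => ?_
    rcases (hm hcd.le).eq_or_lt with h3 | h3
    · exact ⟨(c + d) / 2, key c d hcd.ne h3, by constructor <;> linarith⟩
    · obtain ⟨n, m, hn1, hn2⟩ := exists_between hi (a := Φ c - Φ u) (b := Φ d - Φ u)
        (by linarith)
      have h4 := hΦ n m u
      have h5 := hΦ n m v
      have h6 : (F ^ n) u + m ≠ (F ^ n) v + m := by
        intro h7
        exact huv ((F ^ n).injective (add_right_cancel h7))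
      have h8 : Φ ((F ^ n) u + m) = Φ ((F ^ n) v + m) := by rw [h4, h5, he]
      have h9 : ∀ w, Φ w = Φ u + (n * trn F + m) → c < w ∧ w < d := by
        intro w hw
        constructor
        · by_contra h10
          have := hm (not_lt.1 h10)
          linarith
        · by_contra h10
          have := hm (not_lt.1 h10)
          linarith
      have h10 := h9 _ h4
      have h11 := h9 _ (h8.symm.trans h4)
      exact ⟨_, key _ _ h6 h8, by constructor <;> linarith [h10.1, h10.2, h11.1, h11.2]⟩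

end Pool.Agent.Lib.P9Q
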