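import Pool.Agent.Lib.P9Q.DRat

/-!
# P9Q.DRev: density of the good set, orientation reversing case

`F` is strictly antitone with `F (x + 1) = F x - 1`; `K = F^2` satisfies `HL K 1`. For `l : ℤ` the
antitone continuous bijection `A l x = F x + l` has exactly one fixed point `z l`. We have
`(A l)^2 = K` (`F (F x + l) + l = F (F x) - l + l`), so `K (z l) = z l`; and
`z (l + 2) = z l + 1`. So `Z = range z = {z 0 + k} ∪ {z 1 + k}` (`k : ℤ`) is closed with empty
interior (it is countable), its complement is open and dense.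
Apply `rat_good` to `K` with `q = 1`, `p = 0`, `x₀ = z 0`: the complement of the frontier of
`P = {y | K y = y}` is contained in `UU (act K)`; it is open and dense. Hence
`D = (frontier P)ᶜ ∩ Zᶜ` is dense (`Dense.inter_of_isOpen_left`), and `D ⊆ UU (act F)`:
let `y ∈ D`; there are `c < y < d` with `Good (act K) c d`, and we may shrink (a subinterval of a
good interval is good) so that `Ioo c d ∩ Z = ∅`. Claim `Good (act F) c d`. By `act_eq`
`act F γ x = (F^n) x + m`. If `n = 2 k` this is `(K^k) x + m = act K γ' x` for some `γ'`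
(`exists_act`), fine. If `n = 2 k + 1` the map `g x = (F^(2k+1)) x + m` is antitone and
`g (z m) = z m` (`(F^(2k+1)) (z m) = F (K^k (z m)) = F (z m)`); as `z m ∉ Ioo c d`, every
`x ∈ Ioo c d` and its image lie strictly on different sides of `z m`, so `g x ∉ Ioo c d`.
-/

namespace Pool.Agent.Lib.P9Q

open Set

namespace DRevAux

theorem sq_HL {F : Equiv.Perm ℝ} (hF : HL F (-1)) : HL (F ^ 2) 1 := by
  have hd := hF.dec rfl
  refine ⟨fun _ => ?_, fun h => absurd h (by decide), fun x => ?_⟩
  · intro a b hab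
    rw [pow_two, Equiv.Perm.mul_apply, Equiv.Perm.mul_apply]
    exact hd (hd hab)
  · have h := hF.zpow_add 2 1 x
    have e : ((F ^ (2 : ℤ)) : Equiv.Perm ℝ) = F ^ 2 := by norm_cast
    rw [e] at h
    simpa using h

theorem cont {F : Equiv.Perm ℝ} (hF : HL F (-1)) : Continuous F :=
  continuous_of_mono (Or.inr (hF.dec rfl)) F.surjective

/-- Fixed points of `x ↦ F x + l`. -/
theorem exists_fix {F : Equiv.Perm ℝ} (hF : HL F (-1)) (l : ℤ) : ∃ z, F z + l = z := by
  have hc : Continuous fun x => F x + l - x := ((cont hF).add continuous_const).sub continuous_id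
  obtain ⟨N, hN⟩ := exists_nat_ge (|F 0 + l|)
  have h1 : F (-(N : ℝ)) = F 0 + N := by
    have h := hF.add_int (-(N : ℤ)) 0
    push_cast at h
    rw [zero_add] at h
    rw [h]
    ring
  have h2 : F (N : ℝ) = F 0 - N := by
    have h := hF.add_int (N : ℤ) 0
    push_cast at h
    rw [zero_add] at h
    rw [h]
    ring
  have h3 := le_abs_self (F 0 + l)
  have h4 := neg_abs_le (F 0 + l)
  have hN0 : (0 : ℝ) ≤ N := Nat.cast_nonneg N
  have key := intermediate_value_Icc' (a := -(N : ℝ)) (b := N) (by linarith) hc.continuousOn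
  obtain ⟨z, -, hz⟩ := key (show (0 : ℝ) ∈ _ from ⟨by simp only [h2]; linarith,
    by simp only [h1]; linarith⟩)
  exact ⟨z, by simp only at hz; linarith⟩

/-- The set of all these fixed points. -/
def ZZ (F : Equiv.Perm ℝ) : Set ℝ := {y | ∃ l : ℤ, F y + l = y}

theorem ZZ_eq (F : Equiv.Perm ℝ) : ZZ F = (fun y => y - F y) ⁻¹' range ((↑) : ℤ → ℝ) := by
  ext y
  constructor
  · rintro ⟨l, hl⟩
    exact ⟨l, by simp only; linarith⟩
  · rintro ⟨l, hl⟩
    exact ⟨l, by simp only at hl; linarith⟩

theorem ZZ_closed {F : Equiv.Perm ℝ} (hF : HL F (-1)) : IsClosed (ZZ F) := by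
  rw [ZZ_eq]
  exact Int.isClosedEmbedding_coe_real.isClosed_range.preimage (continuous_id.sub (cont hF))

theorem ZZ_dense {F : Equiv.Perm ℝ} (hF : HL F (-1)) : Dense (ZZ F)ᶜ := by
  have hd := hF.dec rfl
  have hi : Function.Injective fun y => y - F y := by
    have : StrictMono fun y => y - F y := by
      intro a b hab
      have := hd hab
      simp only
      linarith
    exact this.injective
  have hc : (ZZ F).Countable := by
    rw [ZZ_eq]
    exact (countable_range _).preimage_of_injOn hi.injOn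
  exact hc.dense_compl ℝ

theorem good_mono {F : Equiv.Perm ℝ} {c d c' d' : ℝ} (hc : c ≤ c') (hd : d' ≤ d)
    (h : Good (act F) c d) : Good (act F) c' d' := by
  intro γ
  rcases h γ with h1 | h1
  · left
    intro x hx hx'
    exact h1 x ⟨lt_of_le_of_lt hc hx.1, lt_of_lt_of_le hx.2 hd⟩
      ⟨lt_of_le_of_lt hc hx'.1, lt_of_lt_of_le hx'.2 hd⟩
  · right
    intro x hx
    exact h1 x ⟨lt_of_le_of_lt hc hx.1, lt_of_lt_of_le hx.2 hd⟩

theorem fix_odd {F : Equiv.Perm ℝ} (hF : HL F (-1)) {w : ℝ} {m k : ℤ} (hw : F w + m = w) :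
    (F ^ (2 * k + 1)) w + m = w := by
  have h1 : F w = w - m := by linarith
  have h2 : F (F w) = w := by
    have h := hF.add_int (-m) w
    push_cast at h
    rw [h1, sub_eq_add_neg, h, h1]
    ring
  have h3 : (F ^ (2 : ℤ)) w = w := by
    have e : ((F ^ (2 : ℤ)) : Equiv.Perm ℝ) = F ^ 2 := by norm_cast
    rw [e, pow_two, Equiv.Perm.mul_apply, h2]
  have h4 : ((F ^ (2 : ℤ)) ^ k) w = w := Equiv.Perm.zpow_apply_eq_self_of_apply_eq_self h3 k
  rw [add_comm (2 * k) 1, zpow_add, Equiv.Perm.mul_apply, zpow_mul, h4, zpow_one, hw]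

theorem good_rev {F : Equiv.Perm ℝ} (hF : HL F (-1)) {c d : ℝ} (hg : Good (act (F ^ 2)) c d)
    (hZ : Ioo c d ⊆ (ZZ F)ᶜ) : Good (act F) c d := by
  intro γ
  obtain ⟨n, m, h⟩ := act_eq hF γ
  rcases Int.even_or_odd' n with ⟨k, rfl | rfl⟩
  · obtain ⟨γ', hγ'⟩ := exists_act (F ^ 2) k m
    have e : ∀ x, act F γ x = act (F ^ 2) γ' x := by
      intro x
      rw [h, hγ', zpow_mul]
      norm_cast
    rcases hg γ' with h1 | h1
    · left
      intro x hx
      rw [e]
      exact h1 x hx
    · right
      intro x hx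
      rw [e]
      exact h1 x hx
  · left
    obtain ⟨w, hw⟩ := exists_fix hF m
    have hgw : act F γ w = w := by rw [h, fix_odd hF hw]
    have hanti : StrictAnti (act F γ) := by
      rcases Int.units_eq_one_or (sgn (-1) γ) with hs | hs
      · exfalso
        have hm := (act_mon hF).inc γ hs
        have h1 : act F γ (w + 1) = act F γ w - 1 := by
          rw [h, h]
          have h2 := hF.zpow_add (2 * k + 1) 1 w
          have h3 : ((-1 : ℤˣ) ^ (2 * k + 1)) = -1 := by
            rw [zpow_add, zpow_mul, zpow_one]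
            norm_num
          rw [h3] at h2
          push_cast at h2
          rw [h2]
          ring
        have h4 := hm (show w < w + 1 by linarith)
        linarith
      · exact (act_mon hF).dec γ hs
    have hwn : w ∉ Ioo c d := fun hc => hZ hc ⟨m, hw⟩
    intro x hx hx'
    rcases le_or_gt w c with h1 | h1
    · have h2 := hanti (lt_of_le_of_lt h1 hx.1)
      rw [hgw] at h2
      linarith [hx'.1]
    · have h3 : d ≤ w := by
        by_contra hcon
        exact hwn ⟨h1, not_le.1 hcon⟩
      have h2 := hanti (lt_of_lt_of_le hx.2 h3)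
      rw [hgw] at h2
      linarith [hx'.2]

end DRevAux

open DRevAux

theorem dense_rev {F : Equiv.Perm ℝ} (hF : HL F (-1)) : Dense (UU (act F)) := by
  have hK := sq_HL hF
  obtain ⟨w, hw⟩ := exists_fix hF 0
  have hx : ((F ^ 2) ^ 1) w = w + ((0 : ℤ) : ℝ) := by
    have h1 : F w = w := by simpa using hw
    rw [pow_one, pow_two, Equiv.Perm.mul_apply, h1, h1]
    simp
  have hsub := rat_good hK (q := 1) (p := 0) one_pos (by simpa using isCoprime_one_right) hx
  have hden := dense_frontier_compl hK 1 0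
  have hD := hden.inter_of_isOpen_left (ZZ_dense hF) isClosed_frontier.isOpen_compl
  refine hD.mono ?_
  rintro y ⟨hy1, hy2⟩
  obtain ⟨c, d, hc, hd, hg⟩ := hsub hy1
  obtain ⟨l, u, hlu, hI⟩ := mem_nhds_iff_exists_Ioo_subset.1
    ((ZZ_closed hF).isOpen_compl.mem_nhds hy2)
  refine ⟨max c l, min d u, max_lt hc hlu.1, lt_min hd hlu.2, ?_⟩
  refine good_rev hF (good_mono (le_max_left _ _) (min_le_left _ _) hg) ?_
  intro x hx
  exact hI ⟨lt_of_le_of_lt (le_max_right _ _) hx.1, lt_of_lt_of_le hx.2 (min_le_right _ _)⟩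

end Pool.Agent.Lib.P9Q
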