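import Pool.Agent.Lib.P9Q.Defs

/-!
# P9Q.PLift: lifting a bijection of classes to a permutation

Proof. For every value `v` in the common range the fibres `c ⁻¹' {v}` and `c' ⁻¹' {v}` are
countable and infinite, so there is a bijection between them (`Set.Countable`, `Set.Infinite`,
`Denumerable` or `Cardinal.mk_eq_aleph0`); glue (`Equiv.sigmaFiberEquiv`, `Equiv.sigmaCongrRight`).
For `v` outside the range both fibres are empty.
-/

namespace Pool.Agent.Lib.P9Q

open Set

theorem lift_perm {Q C : Type*} [Countable Q] (c c' : Q → C) (h : range c = range c')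
    (hi : ∀ x, (c ⁻¹' {c x}).Infinite) (hi' : ∀ x, (c' ⁻¹' {c' x}).Infinite) :
    ∃ σ : Equiv.Perm Q, ∀ x, c' (σ x) = c x := by
  classical
  have h1 : ∀ v : C, Nonempty ({x // c x = v} ≃ {x // c' x = v}) := by
    intro v
    by_cases hv : v ∈ range c
    · obtain ⟨x, rfl⟩ := hv
      have hv' : c x ∈ range c' := h ▸ mem_range_self x
      obtain ⟨y, hy⟩ := hv'
      have i1 : Infinite {z // c z = c x} := (hi x).to_subtype
      have i2 : Infinite {z // c' z = c x} := by
        have h2 := (hi' y).to_subtype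
        rw [hy] at h2
        exact h2
      obtain ⟨d1⟩ := nonempty_denumerable {z // c z = c x}
      obtain ⟨d2⟩ := nonempty_denumerable {z // c' z = c x}
      exact ⟨Denumerable.equiv₂ _ _⟩
    · have hv' : v ∉ range c' := h ▸ hv
      have e1 : IsEmpty {z // c z = v} := ⟨fun z => hv ⟨z.1, z.2⟩⟩
      have e2 : IsEmpty {z // c' z = v} := ⟨fun z => hv' ⟨z.1, z.2⟩⟩
      exact ⟨Equiv.equivOfIsEmpty _ _⟩
  have e : ∀ v : C, ({x // c x = v} ≃ {x // c' x = v}) := fun v => (h1 v).some
  let σ : Equiv.Perm Q := ((Equiv.sigmaFiberEquiv c).symm.trans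
    (Equiv.sigmaCongrRight e)).trans (Equiv.sigmaFiberEquiv c')
  refine ⟨σ, fun x => ?_⟩
  exact (e (c x) ⟨x, rfl⟩).2

end Pool.Agent.Lib.P9Q
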