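import Pool.Agent.Lib.P9Q.GCases
import Pool.Agent.Lib.P9Q.PLift

/-!
# P9Q.LInv: conjugate actions have isomorphic line structures

`Good ρ a b ↔ Good ρ' (H a) (H b)`, so `x ∈ UU ρ ↔ H x ∈ UU ρ'` and
`Conn ρ x y ↔ Conn ρ' (H x) (H y)` (`H` maps `uIcc x y` onto `uIcc (H x) (H y)`).
Let `c : ℚ ⊕ ℕ → Option (Set ℝ)` be `some {y' | Conn ρ' (H r) y'}` for `inl r`, `r ∈ UU ρ`, and
`none` otherwise; `c' = some {y' | Conn ρ' s y'}` for `inl s`, `s ∈ UU ρ'`, and `none` otherwise.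
The ranges are equal: every component contains a rational (`Conn_exists`, applied to `ρ` and `ρ'`;
`H` and `H.symm` map components to components). The fibres are infinite: the fibre of `none`
contains all `inr n`; the fibre of a component contains infinitely many rationals
(`comp_infinite`; for `c` the rationals of the component `{y | Conn ρ r y}`). By `lift_perm` there
is a permutation `σ` with `c' (σ q) = c q`. So for `r ∈ UU ρ`: `σ (inl r) = inl s` with
`Conn ρ' (H r) s`, and the other elements go to elements which are not valid. Check the relations: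
`some (γ, false)`: `Conn ρ (ρ γ r) t ↔ Conn ρ' (H (ρ γ r)) (H t) ↔ Conn ρ' (ρ' γ (H r)) (H t)
↔ Conn ρ' (ρ' γ s) t'` (`Conn_act`, transitivity; if `r` or `t` is not valid both sides are false:
`Conn.left`, `Conn.right`, `UU_inv`).
`none`: `lt_of_lt` for `ρ'` in both directions (`H` is increasing).
`some (γ, true)`: `Conn ρ (ρ γ r) r ↔ Conn ρ' (ρ' γ s) s` as above, and then by `comp_cases` for
`ρ'`: `r < ρ γ r ↔ H r < ρ' γ (H r) ↔ s < ρ' γ s` (same component).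
-/

namespace Pool.Agent.Lib.P9Q

open Set

variable {Γ : Type*} [Group Γ] {ρ ρ' : Γ →* Equiv.Perm ℝ} {ε : Γ →* ℤˣ}

theorem good_transport (H : ℝ ≃o ℝ) (hH : ∀ γ x, H (ρ γ x) = ρ' γ (H x)) {a b : ℝ}
    (h : Good ρ a b) : Good ρ' (H a) (H b) := by
  intro γ
  have key : ∀ y, y ∈ Ioo (H a) (H b) → H.symm y ∈ Ioo a b := by
    intro y hy
    constructor
    · rw [← H.lt_iff_lt]; simpa using hy.1
    · rw [← H.lt_iff_lt]; simpa using hy.2
  rcases h γ with h1 | h1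
  · left
    intro y hy hy'
    apply h1 (H.symm y) (key y hy)
    have e : ρ' γ y = H (ρ γ (H.symm y)) := by rw [hH]; simp
    rw [e] at hy'
    exact ⟨H.lt_iff_lt.1 hy'.1, H.lt_iff_lt.1 hy'.2⟩
  · right
    intro y hy
    have e : ρ' γ y = H (ρ γ (H.symm y)) := by rw [hH]; simp
    rw [e, h1 _ (key y hy)]
    simp

theorem UU_transport (H : ℝ ≃o ℝ) (hH : ∀ γ x, H (ρ γ x) = ρ' γ (H x)) {x : ℝ}
    (h : x ∈ UU ρ) : H x ∈ UU ρ' := by
  obtain ⟨a, b, h1, h2, h3⟩ := h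
  exact ⟨H a, H b, H.lt_iff_lt.2 h1, H.lt_iff_lt.2 h2, good_transport H hH h3⟩

theorem Conn_transport (H : ℝ ≃o ℝ) (hH : ∀ γ x, H (ρ γ x) = ρ' γ (H x)) {x y : ℝ}
    (h : Conn ρ x y) : Conn ρ' (H x) (H y) := by
  intro z hz
  have hz' : H.symm z ∈ uIcc x y := by
    rw [mem_uIcc] at hz ⊢
    rcases hz with hz | hz
    · left
      constructor
      · rw [← H.le_iff_le]; simpa using hz.1
      · rw [← H.le_iff_le]; simpa using hz.2
    · right
      constructor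
      · rw [← H.le_iff_le]; simpa using hz.1
      · rw [← H.le_iff_le]; simpa using hz.2
  have := UU_transport H hH (h hz')
  simpa using this

theorem symm_equivariant (H : ℝ ≃o ℝ) (hH : ∀ γ x, H (ρ γ x) = ρ' γ (H x)) :
    ∀ γ x, H.symm (ρ' γ x) = ρ γ (H.symm x) := by
  intro γ x
  apply H.injective
  rw [hH]
  simp

theorem Conn_back (H : ℝ ≃o ℝ) (hH : ∀ γ x, H (ρ γ x) = ρ' γ (H x)) {x y : ℝ}
    (h : Conn ρ' (H x) (H y)) : Conn ρ x y := by
  have := Conn_transport (ρ := ρ') (ρ' := ρ) H.symm (symm_equivariant H hH) h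
  simpa using this

theorem line_one_dir (hρ : Mon ρ ε) (hρ' : Mon ρ' ε) (H : ℝ ≃o ℝ)
    (hH : ∀ γ x, H (ρ γ x) = ρ' γ (H x)) (σ : ℚ ⊕ ℕ → ℚ ⊕ ℕ)
    (hA : ∀ r : ℚ, (r : ℝ) ∈ UU ρ → ∃ s : ℚ, σ (Sum.inl r) = Sum.inl s ∧ Conn ρ' (H r) s) :
    ∀ k x y, lineStr ρ k x y → lineStr ρ' k (σ x) (σ y) := by
  intro k x y h
  match k, x, y, h with
  | none, Sum.inl r, Sum.inl s, h =>
    obtain ⟨h1, h2, h3, h4⟩ := h
    obtain ⟨r', er, hr⟩ := hA r (Conn_self.1 h2)
    obtain ⟨s', es, hs⟩ := hA s (Conn_self.1 h3)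
    rw [er, es]
    refine ⟨?_, Conn_self.2 hr.right, Conn_self.2 hs.right, ?_⟩
    · exact lt_of_lt (H.lt_iff_lt.2 h1) (fun h => h4 (Conn_back H hH h)) hr hs
    · intro h5
      exact h4 (Conn_back H hH ((hr.trans h5).trans hs.symm))
  | some (γ, false), Sum.inl r, Sum.inl s, h =>
    have h : Conn ρ (ρ γ r) s := h
    obtain ⟨r', er, hr⟩ := hA r ((UU_inv hρ γ).1 h.left)
    obtain ⟨s', es, hs⟩ := hA s h.right
    rw [er, es]
    change Conn ρ' (ρ' γ r') s'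
    have h1 := Conn_transport H hH h
    rw [hH] at h1
    have h2 : Conn ρ' (ρ' γ (H r)) (ρ' γ r') := (Conn_act hρ' γ).2 hr
    exact (h2.symm.trans h1).trans hs
  | some (γ, true), Sum.inl r, y, h =>
    have h : Conn ρ (ρ γ r) r ∧ (r : ℝ) < ρ γ r := by
      cases y <;> exact h
    obtain ⟨r', er, hr⟩ := hA r h.1.right
    rw [er]
    have h1 := Conn_transport H hH h.1
    rw [hH] at h1
    have h2 : Conn ρ' (ρ' γ (H r)) (ρ' γ r') := (Conn_act hρ' γ).2 hr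
    have h3 : H r < ρ' γ (H r) := by rw [← hH]; exact H.lt_iff_lt.2 h.2
    have goal : Conn ρ' (ρ' γ r') r' ∧ (r' : ℝ) < ρ' γ r' := by
      refine ⟨(h2.symm.trans h1).trans hr, ?_⟩
      have hself : Conn ρ' (H r) (H r) := Conn_self.2 hr.left
      rcases comp_cases hρ' h1.symm with h4 | h4 | h4
      · have := h4 _ hself
        rw [this] at h3
        exact absurd h3 (lt_irrefl _)
      · exact h4 _ hr
      · exact absurd (h4 _ hself) (not_lt.2 h3.le)
    cases σ y <;> exact goal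
  | none, Sum.inl r, Sum.inr s, h => exact h.elim
  | none, Sum.inr r, Sum.inl s, h => exact h.elim
  | none, Sum.inr r, Sum.inr s, h => exact h.elim
  | some (γ, false), Sum.inl r, Sum.inr s, h => exact h.elim
  | some (γ, false), Sum.inr r, Sum.inl s, h => exact h.elim
  | some (γ, false), Sum.inr r, Sum.inr s, h => exact h.elim
  | some (γ, true), Sum.inr r, Sum.inl s, h => exact h.elim
  | some (γ, true), Sum.inr r, Sum.inr s, h => exact h.elim

open Classical in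
/-- The colouring of the points by the components (seen in the target). -/
noncomputable def lcol (ρ ρ' : Γ →* Equiv.Perm ℝ) (H : ℝ → ℝ) : ℚ ⊕ ℕ → Option (Set ℝ)
  | Sum.inl r => if (r : ℝ) ∈ UU ρ then some {y | Conn ρ' (H r) y} else none
  | Sum.inr _ => none

theorem lcol_inl (ρ ρ' : Γ →* Equiv.Perm ℝ) (H : ℝ → ℝ) {r : ℚ} (h : (r : ℝ) ∈ UU ρ) :
    lcol ρ ρ' H (Sum.inl r) = some {y | Conn ρ' (H r) y} := if_pos h

theorem Conn_set_eq {x y : ℝ} (h : Conn ρ x y) : {z | Conn ρ x z} = {z | Conn ρ y z} := by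
  ext z
  exact ⟨fun h1 => h.symm.trans h1, fun h1 => h.trans h1⟩

theorem lcol_cases (ρ ρ' : Γ →* Equiv.Perm ℝ) (H : ℝ → ℝ) (x : ℚ ⊕ ℕ) :
    lcol ρ ρ' H x = none ∨ ∃ r : ℚ, x = Sum.inl r ∧ (r : ℝ) ∈ UU ρ ∧
      lcol ρ ρ' H x = some {y | Conn ρ' (H r) y} := by
  match x with
  | Sum.inr n => left; rfl
  | Sum.inl r =>
    by_cases h : (r : ℝ) ∈ UU ρ
    · right
      exact ⟨r, rfl, h, if_pos h⟩
    · left
      exact if_neg h

theorem lcol_fibre (ρ ρ' : Γ →* Equiv.Perm ℝ) (H : ℝ → ℝ)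
    (hHC : ∀ x y, Conn ρ x y → Conn ρ' (H x) (H y)) (x : ℚ ⊕ ℕ) :
    (lcol ρ ρ' H ⁻¹' {lcol ρ ρ' H x}).Infinite := by
  rcases lcol_cases ρ ρ' H x with h | ⟨r, _, hr, h⟩
  · have h1 : (range (Sum.inr : ℕ → ℚ ⊕ ℕ)).Infinite :=
      infinite_range_of_injective Sum.inr_injective
    refine h1.mono ?_
    rintro _ ⟨n, rfl⟩
    rw [mem_preimage, mem_singleton_iff, h]
    rfl
  · have h1 : ((Sum.inl : ℚ → ℚ ⊕ ℕ) '' {s : ℚ | Conn ρ r s}).Infinite :=
      (comp_infinite hr).image Sum.inl_injective.injOn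
    refine h1.mono ?_
    rintro _ ⟨s, hs, rfl⟩
    rw [mem_preimage, mem_singleton_iff, h]
    have hs : Conn ρ r s := hs
    rw [lcol_inl ρ ρ' H hs.right, Conn_set_eq (hHC _ _ hs)]

theorem line_iso (hρ : Mon ρ ε) (hρ' : Mon ρ' ε) (H : ℝ ≃o ℝ)
    (hH : ∀ γ x, H (ρ γ x) = ρ' γ (H x)) : SIso (lineStr ρ) (lineStr ρ') := by
  have hHs := symm_equivariant H hH
  have hr : range (lcol ρ ρ' H) = range (lcol ρ' ρ' id) := by
    apply Subset.antisymm
    · rintro _ ⟨x, rfl⟩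
      rcases lcol_cases ρ ρ' H x with h | ⟨r, _, hr, h⟩
      · exact ⟨Sum.inr 0, by rw [h]; rfl⟩
      · obtain ⟨s, hs⟩ := Conn_exists (UU_transport H hH hr)
        refine ⟨Sum.inl s, ?_⟩
        rw [h, lcol_inl ρ' ρ' id hs.right]
        exact congrArg some (Conn_set_eq hs).symm
    · rintro _ ⟨x, rfl⟩
      rcases lcol_cases ρ' ρ' id x with h | ⟨s, _, hs, h⟩
      · exact ⟨Sum.inr 0, by rw [h]; rfl⟩
      · obtain ⟨r, hr⟩ := Conn_exists (UU_transport (ρ := ρ') (ρ' := ρ) H.symm hHs hs)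
        refine ⟨Sum.inl r, ?_⟩
        rw [h, lcol_inl ρ ρ' H hr.right]
        have h1 := Conn_transport H hH hr
        rw [OrderIso.apply_symm_apply] at h1
        exact congrArg some (Conn_set_eq h1).symm
  obtain ⟨σ, hσ⟩ := lift_perm (lcol ρ ρ' H) (lcol ρ' ρ' id) hr
    (lcol_fibre ρ ρ' H fun x y h => Conn_transport H hH h)
    (lcol_fibre ρ' ρ' id fun x y h => h)
  have hA : ∀ r : ℚ, (r : ℝ) ∈ UU ρ → ∃ s : ℚ, σ (Sum.inl r) = Sum.inl s ∧
      Conn ρ' (H r) s := by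
    intro r hr
    have h1 := hσ (Sum.inl r)
    rw [lcol_inl ρ ρ' H hr] at h1
    rcases lcol_cases ρ' ρ' id (σ (Sum.inl r)) with h | ⟨s, es, hs, h⟩
    · rw [h1] at h
      cases h
    · rw [h1] at h
      refine ⟨s, es, ?_⟩
      have h2 : {y | Conn ρ' (H r) y} = {y | Conn ρ' (id (s : ℝ)) y} := Option.some.inj h
      have h3 : (s : ℝ) ∈ {y | Conn ρ' (id (s : ℝ)) y} := Conn_self.2 hs
      rw [← h2] at h3
      exact h3
  have hB : ∀ s : ℚ, (s : ℝ) ∈ UU ρ' → ∃ r : ℚ, σ.symm (Sum.inl s) = Sum.inl r ∧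
      Conn ρ (H.symm s) r := by
    intro s hs
    have h1 := hσ (σ.symm (Sum.inl s))
    rw [Equiv.apply_symm_apply, lcol_inl ρ' ρ' id hs] at h1
    rcases lcol_cases ρ ρ' H (σ.symm (Sum.inl s)) with h | ⟨r, er, hr, h⟩
    · rw [← h1] at h
      cases h
    · rw [← h1] at h
      refine ⟨r, er, ?_⟩
      have h2 : {y | Conn ρ' (id (s : ℝ)) y} = {y | Conn ρ' (H r) y} := Option.some.inj h
      have h3 : (s : ℝ) ∈ {y | Conn ρ' (id (s : ℝ)) y} := Conn_self.2 hs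
      rw [h2] at h3
      have h4 := Conn_transport (ρ := ρ') (ρ' := ρ) H.symm hHs h3
      rw [OrderIso.symm_apply_apply] at h4
      exact h4.symm
  refine ⟨σ, fun k x y => ⟨line_one_dir hρ hρ' H hH σ hA k x y, fun h => ?_⟩⟩
  have := line_one_dir hρ' hρ H.symm hHs σ.symm hB k (σ x) (σ y) h
  simpa using this

end Pool.Agent.Lib.P9Q
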