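import Pool.Agent.Lib.P9Q.LMain
import Pool.Agent.Lib.P9Q.LInv
import Pool.Agent.Lib.P9Q.DRev
import Pool.Agent.Lib.P9Q.DIrr

/-!
# P9Q.BConj: the structure `BB` is a complete invariant of lifts

`dich`: if `s = -1` use `dense_rev`. If `s = 1`: `trn F` irrational: `irr_dichotomy`; otherwise
`trn_rat` and `dense_rat`.

`BB_conj`: let `σ` be an isomorphism. The relations `Sum.inr c` (any two elements) show
`(s = 1 ∧ trn F < c) ↔ (s' = 1 ∧ trn G < c)` for all rational `c`. If `s = 1` take `c > trn F`: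
`s' = 1`; and conversely; so `s = s'` (`Int.units_eq_one_or`), and if `s = 1`,
`trn F = trn G` (rationals are dense). The relations `Sum.inl k` show
`SIso (lineStr (act F)) (lineStr (act G))`. In particular (relation `some (1, false)`) `UU (act F)`
contains a rational iff `UU (act G)` does; as these sets are open (`isOpen_UU`), one is empty iff
the other is. By `dich` either both are dense, and `line_conj` (with `act_mon`) gives `H` with
`H (act F γ x) = act G γ (H x)`, in particular for the generators (`act_true`, `act_false`); or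
`s = 1` and both `F` and `G` are conjugate, by `H₁`, `H₂` commuting with the translation, to
`x ↦ x + trn F = x + trn G`; take `H = H₁.trans H₂.symm`.

`BB_iso`: `act_intertwine`, `line_iso` and, if `s = 1`, `trn_tconj`.
-/

namespace Pool.Agent.Lib.P9Q

open Set

namespace BConjAux

/-- A point of the good set on one side gives a point of the good set on the other side. -/
theorem nonempty_of_iso {Γ : Type*} [Group Γ] {ρ ρ' : Γ →* Equiv.Perm ℝ}
    (h : SIso (lineStr ρ) (lineStr ρ')) {x : ℝ} (hx : x ∈ UU ρ) : (UU ρ').Nonempty := by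
  obtain ⟨σ, hσ⟩ := h
  obtain ⟨r, hr⟩ := Conn_exists hx
  have h1 : lineStr ρ (some (1, false)) (Sum.inl r) (Sum.inl r) := by
    show Conn ρ (ρ 1 r) r
    rw [map_one]
    exact Conn_self.2 (Conn.right hr)
  have h2 := (hσ (some (1, false)) (Sum.inl r) (Sum.inl r)).1 h1
  rcases hq : σ (Sum.inl r) with t | m
  · rw [hq] at h2
    have h3 : Conn ρ' (ρ' 1 t) t := h2
    exact ⟨t, Conn.right h3⟩
  · rw [hq] at h2
    exact absurd h2 (by intro h; exact h)

/-- The lifts conjugate to the same translation are conjugate. -/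
theorem tconj_of_translation {F G : Equiv.Perm ℝ} {t : ℝ} (H₁ H₂ : ℝ ≃o ℝ)
    (h1 : ∀ x, H₁ (x + 1) = H₁ x + 1) (h1' : ∀ x, H₁ (F x) = H₁ x + t)
    (h2 : ∀ x, H₂ (x + 1) = H₂ x + 1) (h2' : ∀ x, H₂ (G x) = H₂ x + t) : TConj F G := by
  refine ⟨H₁.trans H₂.symm, fun x => ?_, fun x => ?_⟩
  · apply H₂.injective
    rw [OrderIso.trans_apply, OrderIso.trans_apply, h2, OrderIso.apply_symm_apply,
      OrderIso.apply_symm_apply, h1]
  · apply H₂.injective
    rw [OrderIso.trans_apply, OrderIso.trans_apply, h2', OrderIso.apply_symm_apply,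
      OrderIso.apply_symm_apply, h1']

end BConjAux

theorem dich {F : Equiv.Perm ℝ} {s : ℤˣ} (hF : HL F s) :
    Dense (UU (act F)) ∨ (s = 1 ∧ UU (act F) = ∅ ∧
      ∃ H : ℝ ≃o ℝ, (∀ x, H (x + 1) = H x + 1) ∧ ∀ x, H (F x) = H x + trn F) := by
  rcases Int.units_eq_one_or s with rfl | rfl
  · by_cases hi : Irrational (trn F)
    · rcases irr_dichotomy hF hi with h | ⟨h1, h2⟩
      · exact Or.inl h
      · exact Or.inr ⟨rfl, h1, h2⟩
    · obtain ⟨q, p, x, hq, hpq, hx⟩ := trn_rat hF hi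
      exact Or.inl (dense_rat hF hq hpq hx)
  · exact Or.inl (dense_rev hF)

theorem BB_conj {F G : Equiv.Perm ℝ} {s s' : ℤˣ} (hF : HL F s) (hG : HL G s')
    (h : SIso (BB F s) (BB G s')) : s = s' ∧ TConj F G := by
  obtain ⟨σ, hσ⟩ := h
  have hc : ∀ c : ℚ, (s = 1 ∧ trn F < c) ↔ (s' = 1 ∧ trn G < c) := fun c =>
    hσ (Sum.inr c) (Sum.inl 0) (Sum.inl 0)
  have hss : s = s' := by
    rcases Int.units_eq_one_or s with h1 | h1
    · obtain ⟨c, hc1⟩ := exists_rat_gt (trn F)
      rw [h1, ((hc c).1 ⟨h1, hc1⟩).1]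
    · rcases Int.units_eq_one_or s' with h2 | h2
      · obtain ⟨c, hc1⟩ := exists_rat_gt (trn G)
        rw [h2, ((hc c).2 ⟨h2, hc1⟩).1]
      · rw [h1, h2]
  subst hss
  refine ⟨rfl, ?_⟩
  have hline : SIso (lineStr (act F)) (lineStr (act G)) := ⟨σ, fun k x y => hσ (Sum.inl k) x y⟩
  rcases dich hF with hd | ⟨h1, h2, H₁, h3, h4⟩
  · rcases dich hG with hd' | ⟨h1', h2', _⟩
    · obtain ⟨H, hH⟩ := line_conj (act_mon hF) (act_mon hG) hd hd' hline
      refine ⟨H, fun x => ?_, fun x => ?_⟩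
      · have := hH (FreeGroup.of true) x
        rwa [act_true, act_true] at this
      · have := hH (FreeGroup.of false) x
        rwa [act_false, act_false] at this
    · exfalso
      obtain ⟨x, hx⟩ := hd.nonempty
      obtain ⟨y, hy⟩ := BConjAux.nonempty_of_iso hline hx
      rw [h2'] at hy
      exact hy
  · rcases dich hG with hd' | ⟨h1', h2', H₂, h3', h4'⟩
    · exfalso
      obtain ⟨x, hx⟩ := hd'.nonempty
      obtain ⟨y, hy⟩ := BConjAux.nonempty_of_iso hline.symm hx
      rw [h2] at hy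
      exact hy
    · have ht : trn F = trn G := by
        refine le_antisymm (not_lt.1 fun hlt => ?_) (not_lt.1 fun hlt => ?_)
        · obtain ⟨c, hc1, hc2⟩ := exists_rat_btwn hlt
          exact absurd ((hc c).2 ⟨h1, hc1⟩).2 (not_lt.2 hc2.le)
        · obtain ⟨c, hc1, hc2⟩ := exists_rat_btwn hlt
          exact absurd ((hc c).1 ⟨h1, hc1⟩).2 (not_lt.2 hc2.le)
      rw [← ht] at h4'
      exact BConjAux.tconj_of_translation H₁ H₂ h3 h4 h3' h4'

theorem BB_iso {F G : Equiv.Perm ℝ} {s : ℤˣ} (hF : HL F s) (hG : HL G s) (h : TConj F G) :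
    SIso (BB F s) (BB G s) := by
  obtain ⟨H, h1, h2⟩ := h
  obtain ⟨σ, hσ⟩ := line_iso (act_mon hF) (act_mon hG) H (fun γ x => act_intertwine H h1 h2 γ x)
  refine ⟨σ, fun k x y => ?_⟩
  rcases k with k | c
  · exact hσ k x y
  · show (s = 1 ∧ trn F < c) ↔ (s = 1 ∧ trn G < c)
    refine and_congr_right fun hs => ?_
    subst hs
    rw [trn_tconj hF hG ⟨H, h1, h2⟩]

end Pool.Agent.Lib.P9Q
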