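import Pool.Agent.Lib.P9Q.Lift

/-!
# P9Q.CDefs: the structure attached to a homeomorphism of the circle (nothing to prove)
-/

namespace Pool.Agent.Lib.P9Q

open Set

/-- The lift of `f` with `0 ≤ F 0 < 1`. -/
noncomputable def clift (f : TC ≃ₜ TC) : Equiv.Perm ℝ := (exists_lift f).choose

/-- The sign of `f`: `1` iff `f` preserves the orientation. -/
noncomputable def sg (f : TC ≃ₜ TC) : ℤˣ := (exists_lift f).choose_spec.choose

theorem clift_HL (f : TC ≃ₜ TC) : HL (clift f) (sg f) :=
  (exists_lift f).choose_spec.choose_spec.1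

theorem clift_isLift (f : TC ≃ₜ TC) : IsLift (clift f) f :=
  (exists_lift f).choose_spec.choose_spec.2.1

theorem clift_nonneg (f : TC ≃ₜ TC) : 0 ≤ clift f 0 :=
  (exists_lift f).choose_spec.choose_spec.2.2.1

theorem clift_lt (f : TC ≃ₜ TC) : clift f 0 < 1 :=
  (exists_lift f).choose_spec.choose_spec.2.2.2

/-- The first distinguished lift: translation number in `[0, 1)` if `f` preserves the
orientation. -/
noncomputable def L1 (f : TC ≃ₜ TC) : Equiv.Perm ℝ :=
  if sg f = 1 then TT ^ (-⌊trn (clift f)⌋) * clift f else clift f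

/-- The second distinguished lift: equal to the first one if `f` preserves the orientation. -/
noncomputable def L2 (f : TC ≃ₜ TC) : Equiv.Perm ℝ :=
  if sg f = 1 then L1 f else TT ^ (1 : ℤ) * clift f

/-- The two distinguished lifts. -/
noncomputable def LL (b : Bool) (f : TC ≃ₜ TC) : Equiv.Perm ℝ := if b then L2 f else L1 f

/-- `f` or its conjugate by the reflection. -/
noncomputable def orf (b : Bool) (f : TC ≃ₜ TC) : TC ≃ₜ TC := if b then rfl' f else f

/-- The four structures attached to `f`. -/
noncomputable def circ (f : TC ≃ₜ TC) :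
    Bool × Bool → Str (Option (FreeGroup Bool × Bool) ⊕ ℚ) (ℚ ⊕ ℕ) :=
  fun b => BB (LL b.2 (orf b.1 f)) (sg (orf b.1 f))

theorem LL_HL (b : Bool) (f : TC ≃ₜ TC) : HL (LL b f) (sg f) := by
  unfold LL L2 L1
  split_ifs
  · exact (clift_HL f).trans_mul _
  · exact (clift_HL f).trans_mul _
  · exact (clift_HL f).trans_mul _
  · exact clift_HL f

theorem LL_isLift (b : Bool) (f : TC ≃ₜ TC) : IsLift (LL b f) f := by
  unfold LL L2 L1
  split_ifs
  · exact (clift_isLift f).trans_mul _
  · exact (clift_isLift f).trans_mul _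
  · exact (clift_isLift f).trans_mul _
  · exact clift_isLift f

end Pool.Agent.Lib.P9Q
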