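import Pool.Agent.Lib.P9Q.CDefs
import Pool.Agent.Lib.P9Q.BConj

/-!
# P9Q.CInc: conjugacy by a homeomorphism with an increasing lift

`circ_inc`. Let `F = clift f`, `G = clift g`. The permutation `H F H⁻¹` (`H` as a permutation) is a
lift of `h f h⁻¹ = g` and satisfies `HL _ (sg f)`, so by `lift_sign`, `lift_unique`
`sg f = sg g =: s` and `H (F x) = G (H x) + m` for some integer `m`.
Case `s = 1`: `TConj F (TT^m * G)`, so `trn F = m + trn G` (`trn_tconj`, `trn_add`),
`⌊trn F⌋ = m + ⌊trn G⌋`, and `H (L1 f x) = H (F x) - ⌊trn F⌋ = G (H x) + m - ⌊trn F⌋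
= G (H x) - ⌊trn G⌋ = L1 g (H x)`. `L2 = L1`. Take `τ = 1`.
Case `s = -1`: `L1 = clift`, `L2 = TT * clift`. For `k : ℤ` let `H_k x = H x - k`; since `G` has
sign `-1`, `H_k (F x) = G (H x) + m - k` and `G (H_k x) = G (H x) + k`. If `m = 2k`:
`H_k (F x) = G (H_k x)` and `H_k (F x + 1) = G (H_k x) + 1`: take `τ = 1`. If `m = 2k + 1`:
`H_k (F x) = G (H_k x) + 1`, so `TConj (L1 f) (L2 g)`; and `H_{k+1} (F x + 1) = G (H x) + k + 1
= G (H_{k+1} x)`, so `TConj (L2 f) (L1 g)`: take `τ = Equiv.swap true false` (`Bool.not`).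
In all cases `BB_iso` (with `LL_HL` and `sg f = sg g`) gives the isomorphisms.

`circ_back`: `BB_conj` gives `H`; `descend` gives `h`; for `x : ℝ`:
`h (f (π x)) = h (π (F x)) = π (H (F x)) = π (G (H x)) = g (π (H x)) = g (h (π x))`, where
`F = LL b f`, `G = LL b' g` (`LL_isLift`).
`hconj_rfl`: conjugate by `Homeomorph.neg`.
-/

namespace Pool.Agent.Lib.P9Q

open Set

namespace CIncAux

lemma per_int {G : Equiv.Perm ℝ} {s : ℤˣ} (hG : HL G s) (x : ℝ) (n : ℤ) :
    G (x + n) = G x + ((s : ℤ) : ℝ) * n := by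
  induction n using Int.induction_on with
  | zero => simp
  | succ i ih =>
    have h := hG.per (x + (i : ℤ))
    push_cast at ih h ⊢
    rw [← add_assoc, h, ih]
    ring
  | pred i ih =>
    have h := hG.per (x + ((-(i : ℤ) - 1 : ℤ) : ℝ))
    push_cast at ih h ⊢
    have e : x + (-(i : ℝ) - 1) + 1 = x + -(i : ℝ) := by ring
    rw [e, ih] at h
    linarith

lemma H_int (H : ℝ ≃o ℝ) (hH : ∀ x, H (x + 1) = H x + 1) (x : ℝ) (n : ℤ) :
    H (x + n) = H x + n := by
  have h : HL (H.toEquiv : Equiv.Perm ℝ) 1 :=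
    ⟨fun _ => H.strictMono, fun h => absurd h (by decide), fun x => by simpa using hH x⟩
  have := per_int h x n
  simpa using this

lemma symm_per (H : ℝ ≃o ℝ) (hH : ∀ x, H (x + 1) = H x + 1) (y : ℝ) :
    H.symm (y + 1) = H.symm y + 1 := by
  apply H.injective
  rw [hH, H.apply_symm_apply, H.apply_symm_apply]

/-- the conjugate of a lift by an increasing homeomorphism -/
lemma conj_HL {F : Equiv.Perm ℝ} {s : ℤˣ} (hF : HL F s) (H : ℝ ≃o ℝ)
    (hH : ∀ x, H (x + 1) = H x + 1) :
    HL ((H.toEquiv.symm.trans F).trans H.toEquiv : Equiv.Perm ℝ) s := by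
  refine ⟨fun hs x y hxy => ?_, fun hs x y hxy => ?_, fun x => ?_⟩
  · exact H.strictMono (hF.inc hs (H.symm.strictMono hxy))
  · exact H.strictMono (hF.dec hs (H.symm.strictMono hxy))
  · change H (F (H.symm (x + 1))) = H (F (H.symm x)) + ((s : ℤ) : ℝ)
    rw [symm_per H hH, hF.per, H_int H hH]

/-- The translate of `H`. -/
noncomputable def Hk (H : ℝ ≃o ℝ) (k : ℤ) : ℝ ≃o ℝ := H.trans (OrderIso.addRight (-(k : ℝ)))

lemma Hk_apply (H : ℝ ≃o ℝ) (k : ℤ) (x : ℝ) : Hk H k x = H x - k := by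
  simp [Hk, sub_eq_add_neg]

lemma Hk_per (H : ℝ ≃o ℝ) (hH : ∀ x, H (x + 1) = H x + 1) (k : ℤ) (x : ℝ) :
    Hk H k (x + 1) = Hk H k x + 1 := by
  rw [Hk_apply, Hk_apply, hH]
  ring

end CIncAux

open CIncAux

theorem circ_inc {f g : TC ≃ₜ TC} (h : TC ≃ₜ TC) (H : ℝ ≃o ℝ) (hH : ∀ x, H (x + 1) = H x + 1)
    (hh : ∀ x : ℝ, h (x : TC) = ((H x : ℝ) : TC)) (hc : ∀ m, h (f m) = g (h m)) :
    ∃ τ : Equiv.Perm Bool, ∀ b, SIso (BB (LL b f) (sg f)) (BB (LL (τ b) g) (sg g)) := by
  have hF := clift_HL f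
  have hG := clift_HL g
  have hF' := conj_HL hF H hH
  have hl' : IsLift ((H.toEquiv.symm.trans (clift f)).trans H.toEquiv : Equiv.Perm ℝ) g := by
    intro y
    change ((H (clift f (H.symm y)) : ℝ) : TC) = g (y : TC)
    rw [← hh, clift_isLift f, hc, hh, H.apply_symm_apply]
  have hs : sg f = sg g := lift_sign hF' hG hl' (clift_isLift g)
  obtain ⟨m, hm⟩ := lift_unique hG hF' (clift_isLift g) hl'
  have key : ∀ x, H (clift f x) = clift g (H x) + m := by
    intro x
    have h1 := congrArg (fun P : Equiv.Perm ℝ => P (H x)) hm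
    simp only [Equiv.Perm.mul_apply, TT_zpow] at h1
    rw [← h1]
    change H (clift f x) = H (clift f (H.symm (H x)))
    rw [H.symm_apply_apply]
  -- it is enough to find conjugacies of the lifts
  suffices hT : ∃ τ : Equiv.Perm Bool, ∀ b, TConj (LL b f) (LL (τ b) g) by
    obtain ⟨τ, hτ⟩ := hT
    refine ⟨τ, fun b => ?_⟩
    have h1 := LL_HL b f
    have h2 := LL_HL (τ b) g
    rw [← hs] at h2 ⊢
    exact BB_iso h1 h2 (hτ b)
  rcases Int.units_eq_one_or (sg f) with h1 | h1
  · -- orientation preserving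
    have h1' : sg g = 1 := hs ▸ h1
    rw [h1] at hF
    rw [h1'] at hG
    have hT : TConj (clift f) (TT ^ m * clift g) :=
      ⟨H, hH, fun x => by rw [Equiv.Perm.mul_apply, TT_zpow]; exact key x⟩
    have hadd := trn_add hG m
    have ht : trn (clift f) = m + trn (clift g) := by
      rw [trn_tconj hF hadd.1 hT, hadd.2]
    have hfl : ⌊trn (clift f)⌋ = m + ⌊trn (clift g)⌋ := by
      rw [ht, Int.floor_intCast_add]
    have hL1f : L1 f = TT ^ (-⌊trn (clift f)⌋) * clift f := if_pos h1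
    have hL1g : L1 g = TT ^ (-⌊trn (clift g)⌋) * clift g := if_pos h1'
    have hL2f : L2 f = L1 f := if_pos h1
    have hL2g : L2 g = L1 g := if_pos h1'
    have hLf : ∀ b, LL b f = L1 f := by
      intro b
      unfold LL
      split_ifs
      · exact hL2f
      · rfl
    have hLg : ∀ b, LL b g = L1 g := by
      intro b
      unfold LL
      split_ifs
      · exact hL2g
      · rfl
    refine ⟨1, fun b => ?_⟩
    rw [hLf, hLg]
    refine ⟨H, hH, fun x => ?_⟩
    rw [hL1f, hL1g, Equiv.Perm.mul_apply, Equiv.Perm.mul_apply, TT_zpow, TT_zpow, H_int H hH, key,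
      hfl]
    push_cast
    ring
  · -- orientation reversing
    have h1' : sg g = -1 := hs ▸ h1
    have hne : ¬ sg f = 1 := by rw [h1]; decide
    have hne' : ¬ sg g = 1 := by rw [h1']; decide
    rw [h1'] at hG
    have hLf : LL false f = clift f := by
      unfold LL L1
      rw [if_neg (by decide), if_neg hne]
    have hLg : LL false g = clift g := by
      unfold LL L1
      rw [if_neg (by decide), if_neg hne']
    have hLf' : LL true f = TT ^ (1 : ℤ) * clift f := by
      unfold LL L2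
      rw [if_pos rfl, if_neg hne]
    have hLg' : LL true g = TT ^ (1 : ℤ) * clift g := by
      unfold LL L2
      rw [if_pos rfl, if_neg hne']
    have hGk : ∀ (y : ℝ) (k : ℤ), clift g (y - k) = clift g y + k := by
      intro y k
      have := per_int hG y (-k)
      push_cast at this
      rw [sub_eq_add_neg, this]
      simp
    have hH1 : ∀ x, H (x + ((1 : ℤ) : ℝ)) = H x + ((1 : ℤ) : ℝ) := fun x => H_int H hH x 1
    rcases Int.even_or_odd' m with ⟨k, hk | hk⟩
    · refine ⟨1, fun b => ?_⟩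
      refine ⟨Hk H k, Hk_per H hH k, fun x => ?_⟩
      cases b
      · change Hk H k (LL false f x) = LL false g (Hk H k x)
        rw [hLf, hLg, Hk_apply, Hk_apply, hGk, key, hk]
        push_cast
        ring
      · change Hk H k (LL true f x) = LL true g (Hk H k x)
        rw [hLf', hLg', Equiv.Perm.mul_apply, Equiv.Perm.mul_apply, TT_zpow, TT_zpow, Hk_apply,
          Hk_apply, hGk, hH1, key, hk]
        push_cast
        ring
    · refine ⟨Equiv.swap false true, fun b => ?_⟩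
      cases b
      · refine ⟨Hk H k, Hk_per H hH k, fun x => ?_⟩
        rw [Equiv.swap_apply_left]
        rw [hLf, hLg', Equiv.Perm.mul_apply, TT_zpow, Hk_apply, Hk_apply, hGk, key, hk]
        push_cast
        ring
      · refine ⟨Hk H (k + 1), Hk_per H hH (k + 1), fun x => ?_⟩
        rw [Equiv.swap_apply_right]
        rw [hLf', hLg, Equiv.Perm.mul_apply, TT_zpow, Hk_apply, Hk_apply, hGk, hH1, key, hk]
        push_cast
        ring

theorem circ_back {f g : TC ≃ₜ TC} {b b' : Bool}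
    (h : SIso (BB (LL b f) (sg f)) (BB (LL b' g) (sg g))) : HConj f g := by
  obtain ⟨-, H, hH, hc⟩ := BB_conj (LL_HL b f) (LL_HL b' g) h
  obtain ⟨k, hk⟩ := descend H hH
  refine ⟨k, fun m => ?_⟩
  obtain ⟨x, rfl⟩ := QuotientAddGroup.mk_surjective m
  change k (f (x : TC)) = g (k (x : TC))
  rw [← LL_isLift b f x, hk, hc, LL_isLift b' g, hk]

theorem hconj_rfl (f : TC ≃ₜ TC) : HConj f (rfl' f) := by
  refine ⟨Homeomorph.neg TC, fun m => ?_⟩
  rw [rfl'_apply]
  change -(f m) = -f (-(-m))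
  rw [neg_neg]

theorem HConj.symm {M : Type*} [TopologicalSpace M] {f g : M ≃ₜ M} (h : HConj f g) :
    HConj g f := by
  obtain ⟨k, hk⟩ := h
  refine ⟨k.symm, fun m => ?_⟩
  apply k.injective
  rw [hk, k.apply_symm_apply, k.apply_symm_apply]

theorem HConj.trans {M : Type*} [TopologicalSpace M] {f g k : M ≃ₜ M} (h : HConj f g)
    (h' : HConj g k) : HConj f k := by
  obtain ⟨a, ha⟩ := h
  obtain ⟨b, hb⟩ := h'
  refine ⟨a.trans b, fun m => ?_⟩
  change b (a (f m)) = k (b (a m))
  rw [ha, hb]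

end Pool.Agent.Lib.P9Q
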