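import Pool.Agent.Lib.P9Q.Defs

/-!
# P9Q.SBun: isomorphisms of bundles of structures

Proof. (⇐) Given `τ` and isomorphisms `σ j : a j → a' (τ j)` put `σ (j, q) = (τ j, σ j q)`
(a permutation of `J × Q`: `Equiv.sigmaCongr` like, or `Equiv.ofBijective`).
(⇒) Let `σ` be an isomorphism. By the relation `none`, `(σ (j, q)).1` depends only on `j` (compare
`(j, q)` and `(j, q')`), call it `τ j`; `τ` is injective (again the relation `none`, which is
preserved in both directions) and surjective (`σ` is surjective, `Q` nonempty). The relation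
`some none`: `(e j, q) ` and `(j, q)` are related in `Bun e a`, so `τ (e j) = e' (τ j)`. The second
components give for every `j` a map `σ j : Q → Q`, `σ (j, q) = (τ j, σ j q)`, which is bijective
(injective: `σ` is; surjective: if `σ (j', q') = (τ j, q)` then `τ j' = τ j`, so `j' = j`), and
`a j k x y ↔ a' (τ j) k (σ j x) (σ j y)` by the relation `some (some k)`.
-/

namespace Pool.Agent.Lib.P9Q

open Set

theorem Bun_iso {J K Q : Type*} [Nonempty Q] (e e' : J → J) (a a' : J → Str K Q) :
    SIso (Bun e a) (Bun e' a') ↔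
      ∃ τ : Equiv.Perm J, (∀ j, τ (e j) = e' (τ j)) ∧ ∀ j, SIso (a j) (a' (τ j)) := by
  constructor
  · rintro ⟨σ, hσ⟩
    obtain ⟨q0⟩ := ‹Nonempty Q›
    have h0 : ∀ x y : J × Q, x.1 = y.1 ↔ (σ x).1 = (σ y).1 := fun x y => hσ none x y
    have h1 : ∀ x y : J × Q, y.1 = e x.1 ↔ (σ y).1 = e' (σ x).1 := fun x y => hσ (some none) x y
    have h2 : ∀ (k : K) (x y : J × Q), (x.1 = y.1 ∧ a x.1 k x.2 y.2) ↔
        ((σ x).1 = (σ y).1 ∧ a' (σ x).1 k (σ x).2 (σ y).2) := fun k x y => hσ (some (some k)) x y
    have hc : ∀ j q, (σ (j, q)).1 = (σ (j, q0)).1 := fun j q => (h0 (j, q) (j, q0)).1 rfl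
    let τ : Equiv.Perm J :=
      { toFun := fun j => (σ (j, q0)).1
        invFun := fun j => (σ.symm (j, q0)).1
        left_inv := by
          intro j
          have h3 := (h0 (σ.symm ((σ (j, q0)).1, q0)) (j, q0)).2 (by rw [Equiv.apply_symm_apply])
          exact h3
        right_inv := by
          intro j
          have h3 := (h0 (σ.symm (j, q0)) ((σ.symm (j, q0)).1, q0)).1 rfl
          rw [Equiv.apply_symm_apply] at h3
          exact h3.symm }
    have hτ : ∀ j, τ j = (σ (j, q0)).1 := fun _ => rfl
    refine ⟨τ, ?_, ?_⟩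
    · intro j
      exact (h1 (j, q0) (e j, q0)).1 rfl
    · intro j
      have hb : Function.Bijective (fun q => (σ (j, q)).2) := by
        constructor
        · intro q q' h
          have h3 : σ (j, q) = σ (j, q') := Prod.ext ((hc j q).trans (hc j q').symm) h
          exact (Prod.ext_iff.1 (σ.injective h3)).2
        · intro q
          have h3 := (h0 (σ.symm ((σ (j, q0)).1, q)) (j, q0)).2 (by rw [Equiv.apply_symm_apply])
          refine ⟨(σ.symm ((σ (j, q0)).1, q)).2, ?_⟩
          have h4 : (j, (σ.symm ((σ (j, q0)).1, q)).2) = σ.symm ((σ (j, q0)).1, q) :=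
            Prod.ext h3.symm rfl
          change (σ (j, (σ.symm ((σ (j, q0)).1, q)).2)).2 = q
          rw [h4, Equiv.apply_symm_apply]
      refine ⟨Equiv.ofBijective _ hb, ?_⟩
      intro k x y
      have h3 := h2 k (j, x) (j, y)
      rw [hc j x, hc j y] at h3
      change a j k x y ↔ a' (σ (j, q0)).1 k (σ (j, x)).2 (σ (j, y)).2
      constructor
      · intro h4
        exact (h3.1 ⟨rfl, h4⟩).2
      · intro h4
        exact (h3.2 ⟨rfl, h4⟩).2
  · rintro ⟨τ, h1, h2⟩
    choose s hs using h2
    let σ : Equiv.Perm (J × Q) :=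
      { toFun := fun x => (τ x.1, s x.1 x.2)
        invFun := fun y => (τ.symm y.1, (s (τ.symm y.1)).symm y.2)
        left_inv := by
          intro x
          apply Prod.ext
          · simp
          · simp
        right_inv := by
          intro x
          apply Prod.ext
          · simp
          · simp }
    refine ⟨σ, ?_⟩
    intro k x y
    match k with
    | none =>
      change x.1 = y.1 ↔ τ x.1 = τ y.1
      exact τ.injective.eq_iff.symm
    | some none =>
      change y.1 = e x.1 ↔ τ y.1 = e' (τ x.1)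
      rw [← h1]
      exact τ.injective.eq_iff.symm
    | some (some k) =>
      change (x.1 = y.1 ∧ a x.1 k x.2 y.2) ↔
        (τ x.1 = τ y.1 ∧ a' (τ x.1) k (s x.1 x.2) (s y.1 y.2))
      constructor
      · rintro ⟨h3, h4⟩
        refine ⟨by rw [h3], ?_⟩
        rw [← h3]
        exact (hs x.1 k x.2 y.2).1 h4
      · rintro ⟨h3, h4⟩
        have h5 := τ.injective h3
        refine ⟨h5, ?_⟩
        rw [← h5] at h4
        exact (hs x.1 k x.2 y.2).2 h4

end Pool.Agent.Lib.P9Q
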