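import Pool.Agent.Lib.P9Q.CInc
import Pool.Agent.Lib.P9Q.SBun

/-!
# P9Q.CMain: the complete invariant of a homeomorphism of the circle

By `Bun_iso` the right side says: there is `τ : Perm (Bool × Bool)` with
`SIso (circ f j) (circ g (τ j))` for all `j`.
(⇐) Take `j = (false, false)` and `τ j = (c, b')`: `circ_back` gives `HConj f (orf c g)`, and
`HConj (orf c g) g` by `hconj_rfl`.
(⇒) Let `h` conjugate `f` to `g`; `lift_inc_or_dec h`. First case: `h` has the increasing lift `H`,
and `h' x = - h (- x)` has the increasing lift `- H (- x)` and conjugates `rfl' f` to `rfl' g`;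
`circ_inc` for `(f, g, h)` and `(rfl' f, rfl' g, h')` gives permutations `τ₀`, `τ₁` of `Bool`; take
`τ (b, b') = (b, τ_b b')`. Second case: `k x = h (- x)` has the increasing lift `H` and conjugates
`rfl' f` to `g`: `k (rfl' f x) = h (f (-x)) = g (h (-x)) = g (k x)`; and
`k' x = - h x = - k (- x)` has the increasing lift `- H (- x)` and conjugates `f` to `rfl' g`:
`k' (f x) = - g (h x) = rfl' g (- h x)`. `circ_inc` gives `τ₀`, `τ₁`; take
`τ (b, b') = (!b, τ_b b')`.
-/

namespace Pool.Agent.Lib.P9Q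

open Set

namespace CMainAux

theorem orf_false (f : TC ≃ₜ TC) : orf false f = f := rfl

theorem orf_true (f : TC ≃ₜ TC) : orf true f = rfl' f := rfl

/-- The map `- H (- x)`. -/
noncomputable def ng (H : ℝ ≃o ℝ) : ℝ ≃o ℝ where
  toFun x := -H (-x)
  invFun x := -H.symm (-x)
  left_inv x := by simp
  right_inv x := by simp
  map_rel_iff' := by
    intro a b
    change -H (-a) ≤ -H (-b) ↔ a ≤ b
    rw [neg_le_neg_iff, H.le_iff_le, neg_le_neg_iff]

theorem ng_apply (H : ℝ ≃o ℝ) (x : ℝ) : ng H x = -H (-x) := rfl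

theorem ng_per (H : ℝ ≃o ℝ) (hH : ∀ x, H (x + 1) = H x + 1) (x : ℝ) : ng H (x + 1) = ng H x + 1 := by
  rw [ng_apply, ng_apply]
  have h := hH (-(x + 1))
  have e : -(x + 1) + 1 = -x := by ring
  rw [e] at h
  rw [h]
  ring

/-- The conjugate by the reflection of a homeomorphism with an increasing lift. -/
theorem ng_lift {h : TC ≃ₜ TC} {H : ℝ ≃o ℝ} (hh : ∀ x : ℝ, h (x : TC) = ((H x : ℝ) : TC)) (x : ℝ) :
    rfl' h (x : TC) = ((ng H x : ℝ) : TC) := by
  rw [rfl'_apply, ng_apply]
  have h1 := hh (-x)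
  rw [AddCircle.coe_neg] at h1
  rw [h1, AddCircle.coe_neg]

theorem mk (f g : TC ≃ₜ TC) (c : Bool)
    (h0 : ∃ τ : Equiv.Perm Bool, ∀ b, SIso (BB (LL b f) (sg f)) (BB (LL (τ b) (orf c g)) (sg (orf c g))))
    (h1 : ∃ τ : Equiv.Perm Bool, ∀ b, SIso (BB (LL b (rfl' f)) (sg (rfl' f)))
      (BB (LL (τ b) (orf (!c) g)) (sg (orf (!c) g)))) :
    SIso (Bun id (circ f)) (Bun id (circ g)) := by
  obtain ⟨τ0, h0⟩ := h0
  obtain ⟨τ1, h1⟩ := h1
  rw [Bun_iso]
  let t : Bool → Equiv.Perm Bool := fun b => if b then τ1 else τ0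
  let s : Equiv.Perm Bool := if c then Equiv.boolNot else 1
  refine ⟨⟨fun j => (s j.1, t j.1 j.2), fun j => (s.symm j.1, (t (s.symm j.1)).symm j.2), ?_, ?_⟩, fun _ => rfl, ?_⟩
  · rintro ⟨a, b⟩
    simp
  · rintro ⟨a, b⟩
    simp
  · rintro ⟨a, b⟩
    cases a
    · have e : s false = c := by
        cases c <;> rfl
      change SIso (BB (LL b f) (sg f)) (BB (LL (τ0 b) (orf (s false) g)) (sg (orf (s false) g)))
      rw [e]
      exact h0 b
    · have e : s true = !c := by
        cases c <;> rfl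
      change SIso (BB (LL b (rfl' f)) (sg (rfl' f))) (BB (LL (τ1 b) (orf (s true) g)) (sg (orf (s true) g)))
      rw [e]
      exact h1 b

end CMainAux

open CMainAux

theorem circ_iso (f g : TC ≃ₜ TC) :
    HConj f g ↔ SIso (Bun id (circ f)) (Bun id (circ g)) := by
  constructor
  · rintro ⟨h, hc⟩
    obtain ⟨H, hH, hh | hh⟩ := lift_inc_or_dec h
    · refine mk f g false (circ_inc h H hH hh hc) ?_
      refine circ_inc (rfl' h) (ng H) (ng_per H hH) (ng_lift hh) fun m => ?_
      change -h (-(-f (-m))) = -g (-(-h (-m)))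
      rw [neg_neg, neg_neg, hc]
    · refine mk f g true ?_ ?_
      · -- `k' x = - h x`
        refine circ_inc (rfl' ((Homeomorph.neg TC).trans h)) (ng H) (ng_per H hH) (ng_lift hh) fun m => ?_
        change -h (-(-f m)) = -g (-(-h (-(-m))))
        rw [neg_neg, neg_neg, neg_neg, hc]
      · refine circ_inc ((Homeomorph.neg TC).trans h) H hH hh fun m => ?_
        change h (-(-f (-m))) = g (h (-m))
        rw [neg_neg, hc]
  · intro h
    rw [Bun_iso] at h
    obtain ⟨τ, -, h⟩ := h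
    have h0 := h (false, false)
    have h1 : HConj f (orf (τ (false, false)).1 g) := circ_back h0
    refine h1.trans ?_
    cases (τ (false, false)).1
    · exact ⟨Homeomorph.refl _, fun _ => rfl⟩
    · exact (hconj_rfl g).symm

end Pool.Agent.Lib.P9Q
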