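import Pool.Agent.Lib.P9Q.AWord
import Pool.Agent.Lib.P9Q.DExt

/-!
# P9Q.DRat: density of the good set, rational translation number

Let `G y = (F^q) y - p`, an increasing bijection commuting with `F` and with all integer
translations, and `P = {y | G y = y}` = `{y | (F^q) y = y + p}`: closed, nonempty, invariant under
`F`, `F⁻¹` and integer translations (so unbounded on both sides). Let `a p + b q = 1` and
`S y = (F^a) y + b`. On `P`: `S^q y = (F^(aq)) y + b q = y + a p + b q = y + 1`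
(`(F^q)^a y = y + a p` on `P`), so `S y > y` on `P` (if `S y ≤ y` then `S^q y ≤ y`), and `S`
preserves `P`. By `act_eq` `act F γ x = (F^n) x + m`; with `i = b n - a m`, `j = p n + q m` this is
`G^i (S^j x)` for all `x` (`q i + a j = n`, `b j - p i = m`; all the maps commute, `HL.zpow_add`).
It may be convenient to work in the group `Equiv.Perm ℝ` with `G = TT^(-p) * F^q`,
`S = TT^b * F^a`.

`rat_good`: let `y` be outside the frontier of `P`.
Case A, `y` in the interior of `P`: choose `c < y < d` with `Ioo c d ⊆ P` and `d < S c`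
(continuity of `S` at `y`, `S y > y`). For `x ∈ Ioo c d`: `j = 0`: `G^i x = x`. `j ≥ 1`:
`G^i (S^j x) = S^j x ≥ S x > S c > d`. `j ≤ -1`: `G^i (S^j x) = S^j x ≤ S⁻¹ x < c` (as
`x < d < S c`). So `Good (act F) c d`.
Case B, `y ∉ P`: let `α` be the largest point of `P` below `y`, `β` the smallest above
(`P` closed, unbounded on both sides). `G` maps `(α, β)` to itself and `G z - z` has no zero there,
so it has a constant sign; say `G z > z` on `(α, β)` (otherwise replace `G` by `G⁻¹`). Choose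
`α < c < y < d < β` with `d < G c`. For `x ∈ Ioo c d`: `j = 0, i = 0`: identity. `j = 0, i ≥ 1`:
`G^i x ≥ G x > G c > d`; `i ≤ -1`: `G^i x ≤ G⁻¹ x < c`. `j ≥ 1`: `S^j x > S^j α ≥ S α ≥ β`
(`S α ∈ P`, `S α > α`) and `G^i` fixes `β`, so `G^i (S^j x) > β > d`. `j ≤ -1`: similarly
`G^i (S^j x) < α < c`. So `Good (act F) c d`.
`dense_rat`: the frontier of the closed set `P` has empty interior (`interior_frontier`), so its
complement is dense.
-/

namespace Pool.Agent.Lib.P9Q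

open Set

namespace DRatAux

theorem ai (G : Equiv.Perm ℝ) (x : ℝ) : G (G⁻¹ x) = x := G.apply_symm_apply x

theorem ia (G : Equiv.Perm ℝ) (x : ℝ) : G⁻¹ (G x) = x := G.symm_apply_apply x

theorem inv_mono {G : Equiv.Perm ℝ} (h : StrictMono G) : StrictMono (G⁻¹ : Equiv.Perm ℝ) := by
  intro x y hxy
  by_contra hn
  rw [not_lt] at hn
  have h1 := h.monotone hn
  rw [ai, ai] at h1
  exact absurd hxy (not_lt.2 h1)

theorem pow_mono {G : Equiv.Perm ℝ} (h : StrictMono G) (n : ℕ) :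
    StrictMono (G ^ n : Equiv.Perm ℝ) := by
  rw [Equiv.Perm.coe_pow]
  exact h.iterate n

theorem zpow_mono {G : Equiv.Perm ℝ} (h : StrictMono G) (n : ℤ) :
    StrictMono (G ^ n : Equiv.Perm ℝ) := by
  cases n with
  | ofNat n =>
    rw [Int.ofNat_eq_natCast, zpow_natCast]
    exact pow_mono h n
  | negSucc n =>
    rw [zpow_negSucc]
    exact inv_mono (pow_mono h (n + 1))

theorem tt_pow (m : ℕ) (x : ℝ) : (TT ^ m) x = x + m := by
  induction m with
  | zero => simp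
  | succ m ih =>
    rw [pow_succ', Equiv.Perm.mul_apply, ih]
    show x + m + 1 = x + ((m + 1 : ℕ) : ℝ)
    push_cast
    ring

theorem tt_zpow (m : ℤ) (x : ℝ) : (TT ^ m) x = x + m := by
  cases m with
  | ofNat n =>
    rw [Int.ofNat_eq_natCast, zpow_natCast, tt_pow]
    simp
  | negSucc n =>
    rw [zpow_negSucc, Equiv.Perm.inv_eq_iff_eq, tt_pow]
    push_cast
    ring

theorem up {H : Equiv.Perm ℝ} (h : StrictMono H) {x : ℝ} (hx : x ≤ H x) (n : ℕ) :
    H x ≤ (H ^ (n + 1)) x := by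
  induction n with
  | zero => simp
  | succ n ih =>
    rw [pow_succ', Equiv.Perm.mul_apply]
    exact h.monotone (hx.trans ih)

theorem down {H : Equiv.Perm ℝ} (h : StrictMono H) {x : ℝ} (hx : H x ≤ x) (n : ℕ) :
    (H ^ (n + 1)) x ≤ H x := by
  induction n with
  | zero => simp
  | succ n ih =>
    rw [pow_succ', Equiv.Perm.mul_apply]
    exact (h.monotone ih).trans (h.monotone hx)

theorem up_int {H : Equiv.Perm ℝ} (h : StrictMono H) {x : ℝ} (hx : x ≤ H x) {j : ℤ} (hj : 0 < j) :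
    H x ≤ (H ^ j) x := by
  obtain ⟨n, hn⟩ := Int.eq_ofNat_of_zero_le hj.le
  subst hn
  rw [zpow_natCast]
  obtain ⟨k, rfl⟩ : ∃ k, n = k + 1 := ⟨n - 1, by omega⟩
  exact up h hx k

theorem inv_le {H : Equiv.Perm ℝ} (h : StrictMono H) {x y : ℝ} (hx : x ≤ H y) : H⁻¹ x ≤ y := by
  have h1 := (inv_mono h).monotone hx
  rwa [ia] at h1

theorem inv_lt {H : Equiv.Perm ℝ} (h : StrictMono H) {x y : ℝ} (hx : x < H y) : H⁻¹ x < y := by
  have h1 := inv_mono h hx
  rwa [ia] at h1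

theorem down_int {H : Equiv.Perm ℝ} (h : StrictMono H) {x : ℝ} (hx : x ≤ H x) {j : ℤ}
    (hj : j < 0) : (H ^ j) x ≤ H⁻¹ x := by
  obtain ⟨n, hn⟩ := Int.eq_ofNat_of_zero_le (show 0 ≤ -j by omega)
  have e : j = -(n : ℤ) := by omega
  subst e
  rw [zpow_neg, zpow_natCast, ← inv_pow]
  obtain ⟨k, rfl⟩ : ∃ k, n = k + 1 := ⟨n - 1, by omega⟩
  exact down (inv_mono h) (inv_le h hx) k

theorem coreA {G S : Equiv.Perm ℝ} (hS : StrictMono S) (hGS : Commute G S) {y : ℝ}
    (hy : y ∈ interior {z : ℝ | G z = z}) (hyS : ∀ z, G z = z → z < S z) :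
    ∃ c d, c < y ∧ y < d ∧ ∀ i j : ℤ, (∀ x ∈ Ioo c d, (G ^ i) ((S ^ j) x) ∉ Ioo c d) ∨
      (∀ x ∈ Ioo c d, (G ^ i) ((S ^ j) x) = x) := by
  have hyP : G y = y := (interior_subset hy : y ∈ {z : ℝ | G z = z})
  have hyy := hyS y hyP
  have hcS : Continuous S := continuous_of_mono (Or.inl hS) S.surjective
  obtain ⟨d0, hd0⟩ : ∃ d0, d0 = (y + S y) / 2 := ⟨_, rfl⟩
  have h1 : y < d0 := by linarith
  have h2 : d0 < S y := by linarith
  have hn : {z : ℝ | G z = z} ∩ ({z | d0 < S z} ∩ Iio d0) ∈ nhds y := by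
    refine Filter.inter_mem (mem_interior_iff_mem_nhds.1 hy) (Filter.inter_mem ?_ (Iio_mem_nhds h1))
    exact (isOpen_lt continuous_const hcS).mem_nhds h2
  obtain ⟨l, u, hyl, hlu⟩ := mem_nhds_iff_exists_Ioo_subset.1 hn
  have hc : (l + y) / 2 ∈ Ioo l u := ⟨by linarith [hyl.1], by linarith [hyl.1, hyl.2]⟩
  have hcs := hlu hc
  have hu : u ≤ d0 := by
    by_contra h3
    rw [not_le] at h3
    have h4 := hlu (⟨hyl.1.trans h1, h3⟩ : d0 ∈ Ioo l u)
    exact lt_irrefl _ (show d0 < d0 from h4.2.2)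
  have hdc : u < S ((l + y) / 2) := lt_of_le_of_lt hu hcs.2.1
  refine ⟨(l + y) / 2, u, by linarith [hyl.1], hyl.2, fun i j => ?_⟩
  have hfix : ∀ x ∈ Ioo ((l + y) / 2) u, G x = x := fun x hx =>
    (hlu ⟨lt_trans hc.1 hx.1, hx.2⟩).1
  have hrw : ∀ x ∈ Ioo ((l + y) / 2) u, (G ^ i) ((S ^ j) x) = (S ^ j) x := by
    intro x hx
    rw [← Equiv.Perm.mul_apply, (hGS.zpow_zpow i j).eq, Equiv.Perm.mul_apply,
      Equiv.Perm.zpow_apply_eq_self_of_apply_eq_self (hfix x hx)]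
  rcases lt_trichotomy j 0 with hj | hj | hj
  · left
    intro x hx hx'
    rw [hrw x hx] at hx'
    have h3 := down_int hS (hyS x (hfix x hx)).le hj
    have h4 : S⁻¹ x < (l + y) / 2 := inv_lt hS (hx.2.trans hdc)
    linarith [hx'.1]
  · right
    intro x hx
    rw [hrw x hx, hj, zpow_zero, Equiv.Perm.one_apply]
  · left
    intro x hx hx'
    rw [hrw x hx] at hx'
    have h3 := up_int hS (hyS x (hfix x hx)).le hj
    have h4 := hS hx.1
    linarith [hx'.2]

theorem coreB {G S : Equiv.Perm ℝ} (hG : StrictMono G) (hS : StrictMono S) {y α β : ℝ}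
    (hα : G α = α) (hβ : G β = β) (hαy : α < y) (hyβ : y < β) (h1 : β ≤ S α) (hy : y < G y) :
    ∃ c d, c < y ∧ y < d ∧ ∀ i j : ℤ, (∀ x ∈ Ioo c d, (G ^ i) ((S ^ j) x) ∉ Ioo c d) ∨
      (∀ x ∈ Ioo c d, (G ^ i) ((S ^ j) x) = x) := by
  have hcG : Continuous G := continuous_of_mono (Or.inl hG) G.surjective
  obtain ⟨d0, hd0⟩ : ∃ d0, d0 = (y + G y) / 2 := ⟨_, rfl⟩
  have h2 : y < d0 := by linarith
  have h3 : d0 < G y := by linarith
  have hn : {z | d0 < G z} ∩ (Iio d0 ∩ Ioo α β) ∈ nhds y := by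
    refine Filter.inter_mem ?_ (Filter.inter_mem (Iio_mem_nhds h2) (Ioo_mem_nhds hαy hyβ))
    exact (isOpen_lt continuous_const hcG).mem_nhds h3
  obtain ⟨l, u, hyl, hlu⟩ := mem_nhds_iff_exists_Ioo_subset.1 hn
  have hc : (l + y) / 2 ∈ Ioo l u := ⟨by linarith [hyl.1], by linarith [hyl.1, hyl.2]⟩
  have hcs := hlu hc
  have hu : u ≤ d0 := by
    by_contra h4
    rw [not_le] at h4
    have h5 := hlu (⟨hyl.1.trans h2, h4⟩ : d0 ∈ Ioo l u)
    exact lt_irrefl _ (show d0 < d0 from h5.2.1)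
  have huβ : u ≤ β := by
    by_contra h4
    rw [not_le] at h4
    have h5 := hlu (⟨hyl.1.trans hyβ, h4⟩ : β ∈ Ioo l u)
    exact lt_irrefl _ (show β < β from h5.2.2.2)
  have hαc : α < (l + y) / 2 := hcs.2.2.1
  have hdc : u < G ((l + y) / 2) := lt_of_le_of_lt hu hcs.1
  refine ⟨(l + y) / 2, u, by linarith [hyl.1], hyl.2, fun i j => ?_⟩
  have hαS : α ≤ S α := by linarith
  have hβS : β ≤ S β := h1.trans (hS.monotone (hαy.trans hyβ).le)
  rcases lt_trichotomy j 0 with hj | hj | hj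
  · left
    intro x hx hx'
    have h4 : (S ^ j) x < α := by
      have h5 : (S ^ j) x < (S ^ j) β := zpow_mono hS j (lt_of_lt_of_le hx.2 huβ)
      have h6 := down_int hS hβS hj
      have h7 := inv_le hS h1
      linarith
    have h5 := zpow_mono hG i h4
    rw [Equiv.Perm.zpow_apply_eq_self_of_apply_eq_self hα] at h5
    linarith [hx'.1]
  · rw [hj]
    rcases lt_trichotomy i 0 with hi | hi | hi
    · left
      intro x hx hx'
      rw [zpow_zero, Equiv.Perm.one_apply] at hx'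
      have h4 : x ≤ G x := by
        have h5 := hG hx.1
        linarith [hx.2]
      have h5 := down_int hG h4 hi
      have h6 : G⁻¹ x < (l + y) / 2 := inv_lt hG (hx.2.trans hdc)
      linarith [hx'.1]
    · right
      intro x hx
      rw [hi, zpow_zero, zpow_zero, Equiv.Perm.one_apply, Equiv.Perm.one_apply]
    · left
      intro x hx hx'
      rw [zpow_zero, Equiv.Perm.one_apply] at hx'
      have h5 := hG hx.1
      have h4 : x ≤ G x := by linarith [hx.2]
      have h6 := up_int hG h4 hi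
      linarith [hx'.2]
  · left
    intro x hx hx'
    have h4 : β < (S ^ j) x := by
      have h5 : (S ^ j) α < (S ^ j) x := zpow_mono hS j (hαc.trans hx.1)
      have h6 := up_int hS hαS hj
      linarith
    have h5 := zpow_mono hG i h4
    rw [Equiv.Perm.zpow_apply_eq_self_of_apply_eq_self hβ] at h5
    linarith [hx'.2]

theorem core {G S : Equiv.Perm ℝ} (hG : StrictMono G) (hS : StrictMono S) (hGS : Commute G S)
    (hyS : ∀ z, G z = z → z < S z) (hlo : ∀ y, ∃ z, G z = z ∧ z < y)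
    (hup : ∀ y, ∃ z, G z = z ∧ y < z) {y : ℝ} (hy : y ∉ frontier {z : ℝ | G z = z}) :
    ∃ c d, c < y ∧ y < d ∧ ∀ i j : ℤ, (∀ x ∈ Ioo c d, (G ^ i) ((S ^ j) x) ∉ Ioo c d) ∨
      (∀ x ∈ Ioo c d, (G ^ i) ((S ^ j) x) = x) := by
  by_cases hyi : y ∈ interior {z : ℝ | G z = z}
  · exact coreA hS hGS hyi hyS
  have hyP : G y ≠ y := fun h => hy ⟨subset_closure h, hyi⟩
  have hcG : Continuous G := continuous_of_mono (Or.inl hG) G.surjective
  have hcl : IsClosed {z : ℝ | G z = z} := isClosed_eq hcG continuous_id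
  have hSP : ∀ z, G z = z → G (S z) = S z := by
    intro z hz
    have h1 : (G * S) z = (S * G) z := by rw [hGS.eq]
    rw [Equiv.Perm.mul_apply, Equiv.Perm.mul_apply, hz] at h1
    exact h1
  obtain ⟨α, hα, hαy, hαm⟩ : ∃ α, G α = α ∧ α < y ∧ ∀ z, G z = z → z ≤ y → z ≤ α := by
    have hbd : BddAbove ({z : ℝ | G z = z} ∩ Iic y) := ⟨y, fun z hz => hz.2⟩
    have hne : ({z : ℝ | G z = z} ∩ Iic y).Nonempty := by
      obtain ⟨z, hz, hzy⟩ := hlo y
      exact ⟨z, hz, hzy.le⟩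
    have hmem := (hcl.inter isClosed_Iic).csSup_mem hne hbd
    refine ⟨_, hmem.1, lt_of_le_of_ne hmem.2 ?_, fun z hz hzy => le_csSup hbd ⟨hz, hzy⟩⟩
    intro h
    apply hyP
    rw [← h]
    exact hmem.1
  obtain ⟨β, hβ, hyβ, hβm⟩ : ∃ β, G β = β ∧ y < β ∧ ∀ z, G z = z → y ≤ z → β ≤ z := by
    have hbd : BddBelow ({z : ℝ | G z = z} ∩ Ici y) := ⟨y, fun z hz => hz.2⟩
    have hne : ({z : ℝ | G z = z} ∩ Ici y).Nonempty := by
      obtain ⟨z, hz, hzy⟩ := hup y
      exact ⟨z, hz, hzy.le⟩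
    have hmem := (hcl.inter isClosed_Ici).csInf_mem hne hbd
    refine ⟨_, hmem.1, lt_of_le_of_ne hmem.2 ?_, fun z hz hzy => csInf_le hbd ⟨hz, hzy⟩⟩
    intro h
    apply hyP
    rw [h]
    exact hmem.1
  have h1 : β ≤ S α := by
    rcases le_total (S α) y with h | h
    · exact absurd (hαm _ (hSP α hα) h) (not_le.2 (hyS α hα))
    · exact hβm _ (hSP α hα) h
  rcases lt_or_gt_of_ne hyP with h2 | h2
  · have hG' := inv_mono hG
    have hα' : G⁻¹ α = α := by rw [Equiv.Perm.inv_eq_iff_eq, hα]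
    have hβ' : G⁻¹ β = β := by rw [Equiv.Perm.inv_eq_iff_eq, hβ]
    have h3 : y < G⁻¹ y := by
      have h4 := hG' h2
      rwa [ia] at h4
    obtain ⟨c, d, hcy, hyd, h⟩ := coreB hG' hS hα' hβ' hαy hyβ h1 h3
    refine ⟨c, d, hcy, hyd, fun i j => ?_⟩
    have h5 := h (-i) j
    rwa [inv_zpow, zpow_neg, inv_inv] at h5
  · exact coreB hG hS hα hβ hαy hyβ h1 h2

theorem zadd {F : Equiv.Perm ℝ} (hF : HL F 1) (n m : ℤ) (x : ℝ) :
    (F ^ n) (x + m) = (F ^ n) x + m := by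
  rw [hF.zpow_add, one_zpow]
  simp

theorem comm {F : Equiv.Perm ℝ} (hF : HL F 1) (m n : ℤ) : Commute (TT ^ m) (F ^ n) := by
  ext x
  rw [Equiv.Perm.mul_apply, Equiv.Perm.mul_apply, tt_zpow, tt_zpow, zadd hF]

theorem gs {F : Equiv.Perm ℝ} (hF : HL F 1) (p q a b i j : ℤ) :
    (TT ^ (-p) * F ^ q) ^ i * (TT ^ b * F ^ a) ^ j =
      TT ^ (-p * i + b * j) * F ^ (q * i + a * j) := by
  rw [(comm hF (-p) q).mul_zpow, (comm hF b a).mul_zpow, ← zpow_mul, ← zpow_mul, ← zpow_mul,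
    ← zpow_mul, zpow_add, zpow_add, mul_assoc, mul_assoc, ← mul_assoc (F ^ (q * i)),
    ← (comm hF (b * j) (q * i)).eq, mul_assoc]

end DRatAux

open DRatAux

theorem rat_good {F : Equiv.Perm ℝ} (hF : HL F 1) {q : ℕ} {p : ℤ} (hq : 0 < q)
    (hpq : IsCoprime p (q : ℤ)) {x₀ : ℝ} (hx : (F ^ q) x₀ = x₀ + p) :
    (frontier {y : ℝ | (F ^ q) y = y + p})ᶜ ⊆ UU (act F) := by
  intro y hy
  obtain ⟨a, b, hab⟩ := hpq
  obtain ⟨G, hG⟩ : ∃ G : Equiv.Perm ℝ, G = TT ^ (-p) * F ^ (q : ℤ) := ⟨_, rfl⟩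
  obtain ⟨S, hS⟩ : ∃ S : Equiv.Perm ℝ, S = TT ^ b * F ^ a := ⟨_, rfl⟩
  have hFm : StrictMono F := hF.inc rfl
  have hTm : ∀ m : ℤ, StrictMono (TT ^ m : Equiv.Perm ℝ) := by
    intro m x y hxy
    rw [tt_zpow, tt_zpow]
    linarith
  have hGm : StrictMono G := by
    rw [hG]
    exact (hTm _).comp (zpow_mono hFm _)
  have hSm : StrictMono S := by
    rw [hS]
    exact (hTm _).comp (zpow_mono hFm _)
  have hgs : ∀ i j : ℤ, G ^ i * S ^ j = TT ^ (-p * i + b * j) * F ^ ((q : ℤ) * i + a * j) := by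
    intro i j
    rw [hG, hS]
    exact gs hF p q a b i j
  have hcomm : Commute G S := by
    have h1 := hgs 1 1
    rw [zpow_one, zpow_one] at h1
    show G * S = S * G
    rw [h1, hG, hS]
    rw [mul_assoc, ← mul_assoc (F ^ a), ← (comm hF (-p) a).eq, mul_assoc, ← mul_assoc, ← zpow_add,
      ← zpow_add]
    congr 2 <;> ring
  have hGP : ∀ z, G z = z ↔ (F ^ q) z = z + p := by
    intro z
    rw [hG, Equiv.Perm.mul_apply, tt_zpow, zpow_natCast]
    push_cast
    constructor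
    · intro h
      linarith
    · intro h
      linarith
  have hset : {z : ℝ | (F ^ q) z = z + p} = {z : ℝ | G z = z} := by
    ext z
    exact (hGP z).symm
  rw [hset] at hy
  have hk : ∀ k : ℤ, G (x₀ + k) = x₀ + k := by
    intro k
    rw [hGP, ← zpow_natCast, zadd hF, zpow_natCast, hx]
    ring
  have hlo : ∀ y, ∃ z, G z = z ∧ z < y := by
    intro y
    obtain ⟨n, hn⟩ := exists_int_lt (y - x₀)
    exact ⟨x₀ + n, hk n, by linarith⟩
  have hup : ∀ y, ∃ z, G z = z ∧ y < z := by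
    intro y
    obtain ⟨n, hn⟩ := exists_int_gt (y - x₀)
    exact ⟨x₀ + n, hk n, by linarith⟩
  have hyS : ∀ z, G z = z → z < S z := by
    intro z hz
    by_contra hn
    rw [not_lt] at hn
    have h1 : (G ^ (-a) * S ^ (q : ℤ)) z = z + 1 := by
      rw [hgs]
      have e1 : (-p * -a + b * (q : ℤ)) = 1 := by
        rw [← hab]
        ring
      have e2 : ((q : ℤ) * -a + a * (q : ℤ)) = 0 := by ring
      rw [e1, e2, zpow_zero, mul_one, tt_zpow]
      norm_num
    rw [(hcomm.zpow_zpow (-a) (q : ℤ)).eq, Equiv.Perm.mul_apply,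
      Equiv.Perm.zpow_apply_eq_self_of_apply_eq_self hz, zpow_natCast] at h1
    obtain ⟨k, hk'⟩ : ∃ k, q = k + 1 := ⟨q - 1, by omega⟩
    rw [hk'] at h1
    have h2 := down hSm hn k
    linarith
  obtain ⟨c, d, hcy, hyd, h⟩ := core hGm hSm hcomm hyS hlo hup hy
  refine ⟨c, d, hcy, hyd, fun γ => ?_⟩
  obtain ⟨n, m, hγ⟩ := act_eq hF γ
  have h1 := h (b * n - a * m) (p * n + q * m)
  have h2 : ∀ x, act F γ x = (G ^ (b * n - a * m)) ((S ^ (p * n + q * m)) x) := by
    intro x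
    rw [hγ, ← Equiv.Perm.mul_apply, hgs]
    have e1 : (-p * (b * n - a * m) + b * (p * n + (q : ℤ) * m)) = m := by
      linear_combination m * hab
    have e2 : ((q : ℤ) * (b * n - a * m) + a * (p * n + (q : ℤ) * m)) = n := by
      linear_combination n * hab
    rw [e1, e2, Equiv.Perm.mul_apply, tt_zpow]
  simp only [h2]
  exact h1

theorem dense_frontier_compl {F : Equiv.Perm ℝ} (hF : HL F 1) (q : ℕ) (p : ℤ) :
    Dense (frontier {y : ℝ | (F ^ q) y = y + p})ᶜ := by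
  have hFm : StrictMono F := hF.inc rfl
  have hm : StrictMono (F ^ q : Equiv.Perm ℝ) := pow_mono hFm q
  have hc : Continuous (F ^ q : Equiv.Perm ℝ) :=
    continuous_of_mono (Or.inl hm) (F ^ q : Equiv.Perm ℝ).surjective
  have hcl : IsClosed {y : ℝ | (F ^ q) y = y + p} :=
    isClosed_eq hc (continuous_id.add continuous_const)
  rw [← interior_eq_empty_iff_dense_compl]
  exact interior_frontier hcl

theorem dense_rat {F : Equiv.Perm ℝ} (hF : HL F 1) {q : ℕ} {p : ℤ} (hq : 0 < q)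
    (hpq : IsCoprime p (q : ℤ)) {x₀ : ℝ} (hx : (F ^ q) x₀ = x₀ + p) : Dense (UU (act F)) :=
  (dense_frontier_compl hF q p).mono (rat_good hF hq hpq hx)

end Pool.Agent.Lib.P9Q
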