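import Mathlib

/-!
# P9Q: common definitions (MP_9aeaaa_lc, Q2 in dimension at most one)

Everything here is proved; please do not change it.

Plan. `E_M` (topological conjugacy) is Borel reducible to an action of the group of all
permutations of `ℕ` iff `dim M ≤ 1`.  Here we treat dimension one (all homeomorphisms).  A closed
one-manifold is `n` circles; a homeomorphism of the circle lifts to the real line; the group
generated by the lift `F` and the translation `T` acts on `ℝ` by monotone and antitone maps; the
structure on the rational numbers given by the components of the set `UU` (order, action of the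
group, direction of motion of the stabilisers) is a complete invariant.
-/

namespace Pool.Agent.Lib.P9Q

open Set

/-- A structure on `Q` in a language of binary relation symbols indexed by `K`. -/
abbrev Str (K Q : Type*) := K → Q → Q → Prop

/-- Isomorphism of structures. -/
def SIso {K Q : Type*} (a b : Str K Q) : Prop :=
  ∃ σ : Equiv.Perm Q, ∀ k x y, a k x y ↔ b k (σ x) (σ y)

/-- `E` is reducible, by a measurable map, to isomorphism of structures on `ℕ`. -/
def Cls {X : Type*} [MeasurableSpace X] (E : X → X → Prop) : Prop :=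
  ∃ a : X → Str ℕ ℕ, (∀ k p q, MeasurableSet {x | a x k p q}) ∧ ∀ x y, E x y ↔ SIso (a x) (a y)

theorem SIso.refl {K Q : Type*} (a : Str K Q) : SIso a a := ⟨1, fun _ _ _ => Iff.rfl⟩

theorem SIso.symm {K Q : Type*} {a b : Str K Q} (h : SIso a b) : SIso b a := by
  obtain ⟨σ, hσ⟩ := h
  exact ⟨σ⁻¹, fun k x y => by rw [hσ]; simp⟩

theorem SIso.trans {K Q : Type*} {a b c : Str K Q} (h : SIso a b) (h' : SIso b c) : SIso a c := by
  obtain ⟨σ, hσ⟩ := h
  obtain ⟨τ, hτ⟩ := h'
  exact ⟨τ * σ, fun k x y => by rw [hσ, hτ]; rfl⟩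

/-- A bundle of structures over an index set with a self-map. -/
def Bun {J K Q : Type*} (e : J → J) (a : J → Str K Q) : Str (Option (Option K)) (J × Q) :=
  fun k x y => match k with
    | none => x.1 = y.1
    | some none => y.1 = e x.1
    | some (some k) => x.1 = y.1 ∧ a x.1 k x.2 y.2

/-! ## Groups acting on the real line -/

section Line

variable {Γ : Type*} [Group Γ]

/-- Every element of the group moves `(a, b)` off itself or fixes it pointwise. -/
def Good (ρ : Γ →* Equiv.Perm ℝ) (a b : ℝ) : Prop :=
  ∀ γ, (∀ x ∈ Ioo a b, ρ γ x ∉ Ioo a b) ∨ (∀ x ∈ Ioo a b, ρ γ x = x)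

/-- The good set. -/
def UU (ρ : Γ →* Equiv.Perm ℝ) : Set ℝ := {x | ∃ a b, a < x ∧ x < b ∧ Good ρ a b}

/-- The points between `x` and `y` are all in the good set. -/
def Conn (ρ : Γ →* Equiv.Perm ℝ) (x y : ℝ) : Prop := uIcc x y ⊆ UU ρ

/-- Every element acts monotonically or antitonically, according to the sign `ε`. -/
structure Mon (ρ : Γ →* Equiv.Perm ℝ) (ε : Γ →* ℤˣ) : Prop where
  inc : ∀ γ, ε γ = 1 → StrictMono (ρ γ)
  dec : ∀ γ, ε γ = -1 → StrictAnti (ρ γ)

/-- The structure of an action: order, action of the group on the components, and direction of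
motion. The elements `Sum.inr n` are junk. -/
def lineStr (ρ : Γ →* Equiv.Perm ℝ) : Str (Option (Γ × Bool)) (ℚ ⊕ ℕ) :=
  fun k x y => match k, x, y with
    | none, Sum.inl r, Sum.inl s => (r : ℝ) < s ∧ Conn ρ r r ∧ Conn ρ s s ∧ ¬ Conn ρ r s
    | some (γ, false), Sum.inl r, Sum.inl s => Conn ρ (ρ γ r) s
    | some (γ, true), Sum.inl r, _ => Conn ρ (ρ γ r) r ∧ (r : ℝ) < ρ γ r
    | _, _, _ => False

end Line

/-! ## Lifts of circle homeomorphisms -/

/-- The translation by one. -/
def TT : Equiv.Perm ℝ := Equiv.addRight 1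

/-- The action of the free group on two generators given by the translation and `F`. -/
noncomputable def act (F : Equiv.Perm ℝ) : FreeGroup Bool →* Equiv.Perm ℝ :=
  FreeGroup.lift fun b => if b then TT else F

/-- The sign character: the generator `false` has sign `s`. -/
def sgn (s : ℤˣ) : FreeGroup Bool →* ℤˣ := FreeGroup.lift fun b => if b then 1 else s

/-- `F` is a lift of a circle homeomorphism which preserves (`s = 1`) or reverses (`s = -1`) the
orientation. -/
structure HL (F : Equiv.Perm ℝ) (s : ℤˣ) : Prop where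
  inc : s = 1 → StrictMono F
  dec : s = -1 → StrictAnti F
  per : ∀ x, F (x + 1) = F x + ((s : ℤ) : ℝ)

open Classical in
/-- The translation number (`0` if `F` is not an increasing lift). -/
noncomputable def trn (F : Equiv.Perm ℝ) : ℝ :=
  if h : StrictMono F ∧ ∀ x, F (x + 1) = F x + 1 then
    CircleDeg1Lift.translationNumber ⟨⟨F, h.1.monotone⟩, h.2⟩
  else 0

/-- `F` and `G` are conjugate by an increasing homeomorphism commuting with the translation. -/
def TConj (F G : Equiv.Perm ℝ) : Prop :=
  ∃ H : ℝ ≃o ℝ, (∀ x, H (x + 1) = H x + 1) ∧ ∀ x, H (F x) = G (H x)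

/-- The complete structure of a lift with sign `s`: the structure of the action, and the
translation number if `s = 1`. -/
noncomputable def BB (F : Equiv.Perm ℝ) (s : ℤˣ) :
    Str (Option (FreeGroup Bool × Bool) ⊕ ℚ) (ℚ ⊕ ℕ) :=
  fun k x y => match k with
    | Sum.inl k => lineStr (act F) k x y
    | Sum.inr c => s = 1 ∧ trn F < c

/-- The circle. -/
abbrev TC := AddCircle (1 : ℝ)

/-- `F` is a lift of `f`. -/
def IsLift (F : Equiv.Perm ℝ) (f : TC ≃ₜ TC) : Prop := ∀ x : ℝ, ((F x : ℝ) : TC) = f (x : TC)

/-- Topological conjugacy of homeomorphisms. -/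
def HConj {M : Type*} [TopologicalSpace M] (f g : M ≃ₜ M) : Prop :=
  ∃ h : M ≃ₜ M, ∀ m, h (f m) = g (h m)

/-- The conjugate by the reflection. -/
noncomputable def rfl' (f : TC ≃ₜ TC) : TC ≃ₜ TC :=
  ((Homeomorph.neg TC).trans f).trans (Homeomorph.neg TC)

theorem rfl'_apply (f : TC ≃ₜ TC) (x : TC) : rfl' f x = -f (-x) := rfl

/-! ## One-manifolds -/

/-- Every point has an open neighbourhood homeomorphic to the real line. -/
def Arcs (M : Type*) [TopologicalSpace M] : Prop :=
  ∀ x : M, ∃ φ : ℝ → M, Topology.IsOpenEmbedding φ ∧ x ∈ range φ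

end Pool.Agent.Lib.P9Q
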