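import Pool.Agent.Lib.P9Q.Defs

/-!
# P9Q.Eqv: equivariant extension of local maps

Situation: a group `Γ` acts on `X` (by `ρ`) and on `X'` (by `ρ'`), `S ⊆ X` and `S' ⊆ X'` are
invariant; `c : S → A` (here a function on `X`) and `c' : X' → A'` are the classes; `τ : A → A'` is
a correspondence of classes, equivariant in the sense of `hτ`. For every point `a ∈ S` a local map
`loc a : X → X'` of the class of `a` onto the corresponding class is given, commuting with the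
stabiliser of the class.

Proof. Let `a ~ b` iff `a, b ∈ S` and there is `γ` with `c (ρ γ a) = c b`. This is an equivalence
relation on `S` (`hc`: the action respects classes). Choose a representative `s a` of the class of
`a` for `~` (so `s a = s b` if `a ~ b`; `Quotient.out` for the setoid on the subtype `S`), and
`g a : Γ` with `c (ρ (g a) (s a)) = c a`. Put `H x = ρ' (g x) (loc (s x) (ρ (g x)⁻¹ x))`.
One may choose `g x` depending only on `c x`?  This is not needed if one proves first: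
(*) if `γ, γ'` both satisfy `c (ρ γ b) = c x = c (ρ γ' b)`, then
`ρ' γ (loc b (ρ γ⁻¹ x)) = ρ' γ' (loc b (ρ γ'⁻¹ x))`. Indeed `η = γ'⁻¹ γ` satisfies
`c (ρ η b) = c b`, and `ρ γ'⁻¹ x = ρ η (ρ γ⁻¹ x)` where `ρ γ⁻¹ x` has the class of `b`; apply
`hstab`.
Equivariance: `s (ρ δ x) = s x` and, by (*), `H (ρ δ x) = ρ' (δ g x) (loc (s x) (ρ (δ g x)⁻¹ (ρ δ x)))
= ρ' δ (H x)`. Injectivity on `S`: `c' (H x) = τ (c x)`, so `H x = H y` gives `c x = c y` (`hinj`),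
so `s x = s y`, and by (*) one may use the same group element for `x` and `y`; then injectivity of
`ρ'` and of `loc`. Surjectivity: for `z ∈ S'` there is `a ∈ S` with `τ (c a) = c' z` (`hsurj`); the
point `ρ' (g a)⁻¹ z` has the class `τ (c (s a))` (by `hτ`), so it is `loc (s a) w`; take
`x = ρ (g a) w`.
The last statement holds with `b = s a` and `γ = g a` by (*).
-/

namespace Pool.Agent.Lib.P9Q

open Set

theorem equivariant_extension {Γ X X' A A' : Type*} [Group Γ] (ρ : Γ →* Equiv.Perm X)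
    (ρ' : Γ →* Equiv.Perm X') (S : Set X) (S' : Set X') (hS : ∀ γ, ∀ x ∈ S, ρ γ x ∈ S)
    (hS' : ∀ γ, ∀ x ∈ S', ρ' γ x ∈ S') (c : X → A) (c' : X' → A') (τ : A → A')
    (hc : ∀ γ, ∀ x ∈ S, ∀ y ∈ S, c x = c y → c (ρ γ x) = c (ρ γ y))
    (hc' : ∀ γ, ∀ x ∈ S', ∀ y ∈ S', c' x = c' y → c' (ρ' γ x) = c' (ρ' γ y))
    (hinj : ∀ x ∈ S, ∀ y ∈ S, τ (c x) = τ (c y) → c x = c y)
    (hsurj : ∀ z ∈ S', ∃ x ∈ S, τ (c x) = c' z)
    (hτ : ∀ γ, ∀ x ∈ S, ∀ z ∈ S', τ (c x) = c' z → τ (c (ρ γ x)) = c' (ρ' γ z))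
    (loc : X → X → X')
    (hloc : ∀ a ∈ S, BijOn (loc a) {x | x ∈ S ∧ c x = c a} {z | z ∈ S' ∧ c' z = τ (c a)})
    (hstab : ∀ a ∈ S, ∀ γ, c (ρ γ a) = c a → ∀ x ∈ S, c x = c a →
      loc a (ρ γ x) = ρ' γ (loc a x)) :
    ∃ H : X → X', BijOn H S S' ∧ (∀ γ, ∀ x ∈ S, H (ρ γ x) = ρ' γ (H x)) ∧
      (∀ x ∈ S, c' (H x) = τ (c x)) ∧
      ∀ a ∈ S, ∃ γ, ∃ b ∈ S, c (ρ γ b) = c a ∧
        ∀ x ∈ S, c x = c a → H x = ρ' γ (loc b (ρ γ⁻¹ x)) := by
  classical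
  have inv1 : ∀ γ x, ρ γ⁻¹ (ρ γ x) = x := by
    intro γ x
    rw [← Equiv.Perm.mul_apply, ← map_mul]; simp
  have inv2 : ∀ γ x, ρ γ (ρ γ⁻¹ x) = x := by
    intro γ x
    rw [← Equiv.Perm.mul_apply, ← map_mul]; simp
  have inv2' : ∀ γ x, ρ' γ (ρ' γ⁻¹ x) = x := by
    intro γ x
    rw [← Equiv.Perm.mul_apply, ← map_mul]; simp
  have back : ∀ γ, ∀ b ∈ S, ∀ x ∈ S, c (ρ γ b) = c x → c (ρ γ⁻¹ x) = c b := by
    intro γ b hb x hx h
    have := hc γ⁻¹ x hx (ρ γ b) (hS γ b hb) h.symm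
    rwa [inv1] at this
  -- the setoid of orbits of classes
  let st : Setoid S :=
    { r := fun a b => ∃ γ, c (ρ γ a.1) = c b.1
      iseqv :=
        { refl := fun a => ⟨1, by simp⟩
          symm := by
            rintro ⟨a, ha⟩ ⟨b, hb⟩ ⟨γ, h⟩
            exact ⟨γ⁻¹, back γ a ha b hb h⟩
          trans := by
            rintro ⟨a, ha⟩ ⟨b, hb⟩ ⟨d, hd⟩ ⟨γ, h⟩ ⟨δ, h'⟩
            refine ⟨δ * γ, ?_⟩
            have := hc δ (ρ γ a) (hS γ a ha) b hb h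
            simpa [map_mul, Equiv.Perm.mul_apply] using this.trans h' } }
  let sub : S → S := fun a => (Quotient.mk st a).out
  have hsub : ∀ a : S, ∃ γ, c (ρ γ (sub a).1) = c a.1 := fun a => Quotient.mk_out (s := st) a
  have hsub' : ∀ a b : S, (∃ γ, c (ρ γ a.1) = c b.1) → sub a = sub b := by
    intro a b h
    have : Quotient.mk st a = Quotient.mk st b := Quotient.sound h
    simp only [sub, this]
  let s : X → X := fun x => if h : x ∈ S then (sub ⟨x, h⟩).1 else x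
  have hs : ∀ x ∈ S, s x ∈ S := by
    intro x hx; simp only [s, dif_pos hx]; exact (sub ⟨x, hx⟩).2
  have hs1 : ∀ x ∈ S, ∃ γ, c (ρ γ (s x)) = c x := by
    intro x hx; simp only [s, dif_pos hx]; exact hsub ⟨x, hx⟩
  have hs2 : ∀ x ∈ S, ∀ y ∈ S, (∃ γ, c (ρ γ x) = c y) → s x = s y := by
    intro x hx y hy h
    simp only [s, dif_pos hx, dif_pos hy]
    rw [hsub' ⟨x, hx⟩ ⟨y, hy⟩ h]
  have hs3 : ∀ x ∈ S, ∀ y ∈ S, c x = c y → s x = s y := by
    intro x hx y hy h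
    exact hs2 x hx y hy ⟨1, by simpa using h⟩
  let g : X → Γ := fun x => if h : ∃ γ, c (ρ γ (s x)) = c x then h.choose else 1
  have hg : ∀ x ∈ S, c (ρ (g x) (s x)) = c x := by
    intro x hx
    simp only [g, dif_pos (hs1 x hx)]
    exact (hs1 x hx).choose_spec
  have star : ∀ b ∈ S, ∀ x ∈ S, ∀ γ γ', c (ρ γ b) = c x → c (ρ γ' b) = c x →
      ρ' γ (loc b (ρ γ⁻¹ x)) = ρ' γ' (loc b (ρ γ'⁻¹ x)) := by
    intro b hb x hx γ γ' h h'
    have hy : c (ρ γ⁻¹ x) = c b := back γ b hb x hx h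
    have hη : c (ρ (γ'⁻¹ * γ) b) = c b := by
      rw [map_mul, Equiv.Perm.mul_apply]
      exact back γ' b hb _ (hS γ b hb) (h'.trans h.symm)
    have hst := hstab b hb (γ'⁻¹ * γ) hη (ρ γ⁻¹ x) (hS _ _ hx) hy
    have e1 : ρ (γ'⁻¹ * γ) (ρ γ⁻¹ x) = ρ γ'⁻¹ x := by
      rw [map_mul, Equiv.Perm.mul_apply, inv2]
    rw [e1] at hst
    rw [hst, ← Equiv.Perm.mul_apply, ← map_mul]
    congr 2
    group
  let H : X → X' := fun x => ρ' (g x) (loc (s x) (ρ (g x)⁻¹ x))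
  have hH : ∀ x ∈ S, ∀ γ, c (ρ γ (s x)) = c x → H x = ρ' γ (loc (s x) (ρ γ⁻¹ x)) := by
    intro x hx γ h
    exact star (s x) (hs x hx) x hx _ _ (hg x hx) h
  have hloc1 : ∀ x ∈ S, loc (s x) (ρ (g x)⁻¹ x) ∈ S' ∧
      c' (loc (s x) (ρ (g x)⁻¹ x)) = τ (c (s x)) := by
    intro x hx
    exact (hloc (s x) (hs x hx)).mapsTo ⟨hS _ _ hx, back (g x) _ (hs x hx) x hx (hg x hx)⟩
  have hmem : ∀ x ∈ S, H x ∈ S' := fun x hx => hS' _ _ (hloc1 x hx).1
  have hcls : ∀ x ∈ S, c' (H x) = τ (c x) := by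
    intro x hx
    have := hτ (g x) (s x) (hs x hx) _ (hloc1 x hx).1 (hloc1 x hx).2.symm
    rw [hg x hx] at this
    exact this.symm
  refine ⟨H, ⟨hmem, ?_, ?_⟩, ?_, hcls, ?_⟩
  · -- injectivity
    intro x hx y hy hxy
    have hcxy : c x = c y := by
      apply hinj x hx y hy
      rw [← hcls x hx, ← hcls y hy, hxy]
    have hsxy : s x = s y := hs3 x hx y hy hcxy
    have h1 : c (ρ (g x) (s y)) = c y := by rw [← hsxy, hg x hx, hcxy]
    have h2 : H x = ρ' (g x) (loc (s x) (ρ (g x)⁻¹ x)) := rfl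
    rw [h2, hH y hy _ h1, ← hsxy] at hxy
    have h3 := (ρ' (g x)).injective hxy
    have h4 := (hloc (s x) (hs x hx)).injOn
      ⟨hS _ _ hx, back (g x) _ (hs x hx) x hx (hg x hx)⟩
      ⟨hS _ _ hy, back (g x) _ (hs x hx) y hy (by rw [hg x hx, hcxy])⟩ h3
    exact (ρ (g x)⁻¹).injective h4
  · -- surjectivity
    intro z hz
    obtain ⟨a, ha, haz⟩ := hsurj z hz
    have h1 : c' (ρ' (g a)⁻¹ z) = τ (c (s a)) := by
      rw [← hτ (g a)⁻¹ a ha z hz haz, back (g a) _ (hs a ha) a ha (hg a ha)]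
    obtain ⟨w, ⟨hw, hcw⟩, hwz⟩ := (hloc (s a) (hs a ha)).surjOn ⟨hS' (g a)⁻¹ z hz, h1⟩
    have hx : ρ (g a) w ∈ S := hS _ _ hw
    have hcx : c (ρ (g a) w) = c a := (hc (g a) w hw (s a) (hs a ha) hcw).trans (hg a ha)
    have hsx : s (ρ (g a) w) = s a := hs3 _ hx a ha hcx
    refine ⟨ρ (g a) w, hx, ?_⟩
    rw [hH _ hx (g a) (by rw [hsx, hg a ha, hcx]), hsx, inv1, hwz, inv2']
  · -- equivariance
    intro δ x hx
    have hx' : ρ δ x ∈ S := hS _ _ hx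
    have hsx : s (ρ δ x) = s x := (hs2 x hx _ hx' ⟨δ, rfl⟩).symm
    have h1 : c (ρ (δ * g x) (s (ρ δ x))) = c (ρ δ x) := by
      rw [hsx, map_mul, Equiv.Perm.mul_apply]
      exact hc δ _ (hS _ _ (hs x hx)) x hx (hg x hx)
    have h2 : ρ (δ * g x)⁻¹ (ρ δ x) = ρ (g x)⁻¹ x := by
      rw [mul_inv_rev, map_mul, Equiv.Perm.mul_apply, inv1]
    rw [hH _ hx' _ h1, h2, hsx, map_mul, Equiv.Perm.mul_apply]
  · intro a ha
    refine ⟨g a, s a, hs a ha, hg a ha, ?_⟩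
    intro x hx hxa
    have hsx : s x = s a := hs3 x hx a ha hxa
    rw [hH x hx (g a) (by rw [hsx, hg a ha, hxa]), hsx]

end Pool.Agent.Lib.P9Q
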