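import Pool.Agent.Lib.P9Q.DExt

/-!
# P9Q.GBase: the good set and its components

Proofs. `isOpen_UU`: the interval `(a, b)` around `x` is contained in `UU ρ`.
`UU_inv`: one direction is enough (use `γ⁻¹`). If `x ∈ (a, b)` and `Good ρ a b`, then `ρ γ` is a
monotone or antitone bijection (`Mon`, `Int.units_eq_one_or`), so it maps `Ioo a b` onto
`Ioo a' b'`, `a' = min (ρ γ a) (ρ γ b)`, `b' = max ...`, and `Good ρ a' b'` holds: for `δ` apply
`Good ρ a b` to `γ⁻¹ δ γ`.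
`Conn` is symmetric (`uIcc_comm`) and transitive (`uIcc_subset_uIcc_union_uIcc`); `Conn ρ x x` iff
`x ∈ UU ρ`. `Conn_act`: a monotone or antitone bijection maps `uIcc x y` onto
`uIcc (ρ γ x) (ρ γ y)`; use `UU_inv`. The class `{y | Conn ρ x y}` is open (an open interval around
`y` inside `UU ρ`), order connected, and if `x ∈ UU ρ` it contains infinitely many rationals
(it contains an interval). `lt_of_lt`: choose `z ∈ [x, y]` outside `UU ρ`; then `x' < z < y'`,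
because otherwise `z ∈ uIcc x x'` or `z ∈ uIcc y y'` (both are subsets of `UU ρ`).
-/

namespace Pool.Agent.Lib.P9Q

open Set

variable {Γ : Type*} [Group Γ] {ρ : Γ →* Equiv.Perm ℝ} {ε : Γ →* ℤˣ}

theorem isOpen_UU (ρ : Γ →* Equiv.Perm ℝ) : IsOpen (UU ρ) := by
  rw [isOpen_iff_mem_nhds]
  rintro x ⟨a, b, ha, hb, hg⟩
  filter_upwards [Ioo_mem_nhds ha hb] with y hy
  exact ⟨a, b, hy.1, hy.2, hg⟩

theorem Mon.mono (hρ : Mon ρ ε) (γ : Γ) : StrictMono (ρ γ) ∨ StrictAnti (ρ γ) := by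
  rcases Int.units_eq_one_or (ε γ) with h | h
  · exact Or.inl (hρ.inc γ h)
  · exact Or.inr (hρ.dec γ h)

theorem Mon.cont (hρ : Mon ρ ε) (γ : Γ) : Continuous (ρ γ) := by
  rcases hρ.mono γ with h | h
  · exact h.monotone.continuous_of_surjective (ρ γ).surjective
  · have h1 : Monotone fun x => -(ρ γ x) := fun x y hxy => neg_le_neg (h.antitone hxy)
    have h2 : Function.Surjective fun x => -(ρ γ x) := fun y => by
      obtain ⟨x, hx⟩ := (ρ γ).surjective (-y)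
      exact ⟨x, by simp [hx]⟩
    have h3 : Continuous fun x => -(-(ρ γ x)) := (h1.continuous_of_surjective h2).neg
    have h4 : (fun x => -(-(ρ γ x))) = ρ γ := funext fun x => neg_neg _
    rwa [h4] at h3

namespace GBaseAux

theorem good_act {γ : Γ} {a b a' b' : ℝ} (h : ∀ z, ρ γ z ∈ Ioo a' b' ↔ z ∈ Ioo a b)
    (hg : Good ρ a b) : Good ρ a' b' := by
  intro δ
  have key : ∀ y, ρ δ y = ρ γ (ρ (γ⁻¹ * δ * γ) (ρ γ⁻¹ y)) := fun y => by
    rw [← Equiv.Perm.mul_apply, ← Equiv.Perm.mul_apply, ← map_mul, ← map_mul]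
    congr 2
    group
  have hy' : ∀ y, ρ γ (ρ γ⁻¹ y) = y := fun y => by
    rw [← Equiv.Perm.mul_apply, ← map_mul, mul_inv_cancel, map_one]
    rfl
  rcases hg (γ⁻¹ * δ * γ) with h1 | h1
  · left
    intro y hy hc
    have hz : ρ γ⁻¹ y ∈ Ioo a b := (h _).1 (by rw [hy']; exact hy)
    rw [key, h] at hc
    exact h1 _ hz hc
  · right
    intro y hy
    have hz : ρ γ⁻¹ y ∈ Ioo a b := (h _).1 (by rw [hy']; exact hy)
    rw [key, h1 _ hz, hy']

theorem UU_fwd (hρ : Mon ρ ε) (γ : Γ) {x : ℝ} (hx : x ∈ UU ρ) : ρ γ x ∈ UU ρ := by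
  obtain ⟨a, b, ha, hb, hg⟩ := hx
  rcases hρ.mono γ with h | h
  · exact ⟨ρ γ a, ρ γ b, h ha, h hb, good_act (γ := γ)
      (fun z => by simp only [mem_Ioo, h.lt_iff_lt]) hg⟩
  · exact ⟨ρ γ b, ρ γ a, h hb, h ha, good_act (γ := γ)
      (fun z => by simp only [mem_Ioo, h.lt_iff_gt, and_comm]) hg⟩

theorem inv_apply (γ : Γ) (y : ℝ) : ρ γ⁻¹ (ρ γ y) = y := by
  rw [← Equiv.Perm.mul_apply, ← map_mul, inv_mul_cancel, map_one]
  rfl

theorem mem_uIcc_act (hρ : Mon ρ ε) (γ : Γ) {x y w : ℝ} :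
    ρ γ w ∈ uIcc (ρ γ x) (ρ γ y) ↔ w ∈ uIcc x y := by
  rcases hρ.mono γ with h | h
  · simp only [mem_uIcc, h.le_iff_le]
  · simp only [mem_uIcc, h.le_iff_ge]
    tauto

end GBaseAux

open GBaseAux

theorem UU_inv (hρ : Mon ρ ε) (γ : Γ) {x : ℝ} : ρ γ x ∈ UU ρ ↔ x ∈ UU ρ := by
  constructor
  · intro h
    have := UU_fwd hρ γ⁻¹ h
    rwa [inv_apply] at this
  · exact UU_fwd hρ γ

theorem Conn_self {x : ℝ} : Conn ρ x x ↔ x ∈ UU ρ := by
  unfold Conn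
  rw [uIcc_self, singleton_subset_iff]

theorem Conn.symm {x y : ℝ} (h : Conn ρ x y) : Conn ρ y x := by
  unfold Conn at *
  rwa [uIcc_comm]

theorem Conn.trans {x y z : ℝ} (h : Conn ρ x y) (h' : Conn ρ y z) : Conn ρ x z :=
  uIcc_subset_uIcc_union_uIcc.trans (union_subset h h')

theorem Conn.left {x y : ℝ} (h : Conn ρ x y) : x ∈ UU ρ := h left_mem_uIcc

theorem Conn.right {x y : ℝ} (h : Conn ρ x y) : y ∈ UU ρ := h right_mem_uIcc

theorem Conn_act (hρ : Mon ρ ε) (γ : Γ) {x y : ℝ} :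
    Conn ρ (ρ γ x) (ρ γ y) ↔ Conn ρ x y := by
  constructor
  · intro h w hw
    exact (UU_inv hρ γ).1 (h ((mem_uIcc_act hρ γ).2 hw))
  · intro h z hz
    obtain ⟨w, rfl⟩ := (ρ γ).surjective z
    exact (UU_inv hρ γ).2 (h ((mem_uIcc_act hρ γ).1 hz))

theorem comp_open (x : ℝ) : IsOpen {y | Conn ρ x y} := by
  rw [isOpen_iff_mem_nhds]
  intro y hy
  obtain ⟨l, u, hyl, hlu⟩ := mem_nhds_iff_exists_Ioo_subset.1
    ((isOpen_UU ρ).mem_nhds (Conn.right hy))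
  filter_upwards [Ioo_mem_nhds hyl.1 hyl.2] with z hz
  exact Conn.trans hy ((ordConnected_Ioo.uIcc_subset hyl hz).trans hlu)

theorem comp_ordConnected (x : ℝ) : {y | Conn ρ x y}.OrdConnected := by
  refine ordConnected_of_uIcc_subset_left (x := x) ?_
  intro y hy z hz
  exact (uIcc_subset_uIcc_left hz).trans hy

theorem comp_infinite {x : ℝ} (hx : x ∈ UU ρ) : {r : ℚ | Conn ρ x r}.Infinite := by
  have hmem : {y | Conn ρ x y} ∈ nhds x := (comp_open x).mem_nhds (Conn_self.2 hx)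
  obtain ⟨l, u, hxl, hlu⟩ := mem_nhds_iff_exists_Ioo_subset.1 hmem
  obtain ⟨q, hq1, hq2⟩ := exists_rat_btwn hxl.2
  obtain ⟨q', hq3, hq4⟩ := exists_rat_btwn hq2
  refine (Set.Ioo_infinite (a := q) (b := q') (by exact_mod_cast hq3)).mono ?_
  intro r hr
  refine hlu ⟨hxl.1.trans (hq1.trans ?_), lt_trans ?_ hq4⟩
  · exact_mod_cast hr.1
  · exact_mod_cast hr.2

theorem Conn_exists {x : ℝ} (hx : x ∈ UU ρ) : ∃ r : ℚ, Conn ρ x r :=
  (comp_infinite hx).nonempty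

theorem lt_of_lt {x y x' y' : ℝ} (h : x < y) (hn : ¬ Conn ρ x y) (hx : Conn ρ x x')
    (hy : Conn ρ y y') : x' < y' := by
  unfold Conn at hn
  rw [not_subset] at hn
  obtain ⟨z, hz, hzU⟩ := hn
  rw [uIcc_of_le h.le] at hz
  have h1 : x' < z := by
    by_contra hc
    exact hzU (hx (mem_uIcc.2 (Or.inl ⟨hz.1, not_lt.1 hc⟩)))
  have h2 : z < y' := by
    by_contra hc
    exact hzU (hy (mem_uIcc.2 (Or.inr ⟨not_lt.1 hc, hz.2⟩)))
  exact h1.trans h2

end Pool.Agent.Lib.P9Q
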