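import Pool.Agent.Lib.P9Q.GBase

/-!
# P9Q.GCases: elements which preserve a component

Let `I = {y | Conn ρ x y}` (an open interval contained in `UU ρ`) and suppose `ρ γ x ∈ I`. Then
`ρ γ` maps `I` into itself (`Conn_act`, transitivity).

Fact 1: if `z ∈ I` and `ρ γ z = z` then `ρ γ` is the identity on a neighbourhood of `z`: take
`a < z < b` with `Good ρ a b`; the first alternative fails at `z`.
Fact 2 (`comp_sign`): `ε γ = 1`. Otherwise `ρ γ` is antitone and continuous, `g y = ρ γ y - y`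
satisfies: `g x = 0`, or `g x` and `g (ρ γ x)` have opposite signs (if `x < ρ γ x` then
`ρ γ (ρ γ x) < ρ γ x`), so by the intermediate value theorem there is a fixed point `z` in
`uIcc x (ρ γ x) ⊆ I`; by fact 1 `ρ γ` is the identity near `z`, contradiction with antitonicity.
Fact 3: `Fix = {y ∈ I | ρ γ y = y}` is closed in `I` and open by fact 1; `I` is preconnected
(order connected), so `Fix` is empty or equal to `I`. If it is empty then `g` has no zero on `I`,
so it has a constant sign on `I` (intermediate value theorem).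
`comp_rigid`: if moreover `ρ γ y = y` for one `y ∈ I`, then `ρ γ` is the identity on `I`.
-/

namespace Pool.Agent.Lib.P9Q

open Set

variable {Γ : Type*} [Group Γ] {ρ : Γ →* Equiv.Perm ℝ} {ε : Γ →* ℤˣ}

namespace GCasesAux

theorem fix_near {γ : Γ} {z : ℝ} (hz : z ∈ UU ρ) (hf : ρ γ z = z) :
    ∀ᶠ y in nhds z, ρ γ y = y := by
  obtain ⟨a, b, ha, hb, hg⟩ := hz
  rcases hg γ with h | h
  · exact absurd (show ρ γ z ∈ Ioo a b by rw [hf]; exact ⟨ha, hb⟩) (h z ⟨ha, hb⟩)
  · filter_upwards [Ioo_mem_nhds ha hb] with y hy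
    exact h y hy

end GCasesAux

open GCasesAux

theorem comp_maps (hρ : Mon ρ ε) {x : ℝ} {γ : Γ} (h : Conn ρ x (ρ γ x)) {y : ℝ}
    (hy : Conn ρ x y) : Conn ρ x (ρ γ y) :=
  h.trans ((Conn_act hρ γ).2 hy)

theorem comp_bij (hρ : Mon ρ ε) {x : ℝ} {γ : Γ} (h : Conn ρ x (ρ γ x)) :
    BijOn (ρ γ) {y | Conn ρ x y} {y | Conn ρ x y} := by
  refine ⟨fun y hy => comp_maps hρ h hy, (ρ γ).injective.injOn, ?_⟩
  intro z hz
  obtain ⟨w, rfl⟩ := (ρ γ).surjective z
  exact ⟨w, (Conn_act hρ γ).1 (h.symm.trans hz), rfl⟩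

theorem comp_sign (hρ : Mon ρ ε) {x : ℝ} {γ : Γ} (h : Conn ρ x (ρ γ x)) : ε γ = 1 := by
  rcases Int.units_eq_one_or (ε γ) with h1 | h1
  · exact h1
  exfalso
  have ha : StrictAnti (ρ γ) := hρ.dec γ h1
  have hc : Continuous (ρ γ) := hρ.cont γ
  have hg : ContinuousOn (fun y => ρ γ y - y) (uIcc x (ρ γ x)) := (hc.sub continuous_id).continuousOn
  have h0 : (0 : ℝ) ∈ uIcc ((fun y => ρ γ y - y) x) ((fun y => ρ γ y - y) (ρ γ x)) := by
    rw [mem_uIcc]
    rcases le_total x (ρ γ x) with hx | hx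
    · right
      have := ha.antitone hx
      constructor
      · show ρ γ (ρ γ x) - ρ γ x ≤ 0
        linarith
      · show 0 ≤ ρ γ x - x
        linarith
    · left
      have := ha.antitone hx
      constructor
      · show ρ γ x - x ≤ 0
        linarith
      · show 0 ≤ ρ γ (ρ γ x) - ρ γ x
        linarith
  obtain ⟨z, hz, hz0⟩ := intermediate_value_uIcc hg h0
  have hzf : ρ γ z = z := by
    have : ρ γ z - z = 0 := hz0
    linarith
  have hev := fix_near (γ := γ) (h hz) hzf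
  obtain ⟨l, u, hzl, hlu⟩ := mem_nhds_iff_exists_Ioo_subset.1 hev
  obtain ⟨w, hw1, hw2⟩ := exists_between hzl.2
  have hw : ρ γ w = w := hlu ⟨hzl.1.trans hw1, hw2⟩
  have := ha hw1
  rw [hw, hzf] at this
  exact absurd this (not_lt.2 hw1.le)

theorem comp_rigid (hρ : Mon ρ ε) {x : ℝ} {γ : Γ} (h : Conn ρ x (ρ γ x)) {y : ℝ}
    (hy : Conn ρ x y) (hf : ρ γ y = y) : ∀ z, Conn ρ x z → ρ γ z = z := by
  have hpre : IsPreconnected {y | Conn ρ x y} := (comp_ordConnected x).isPreconnected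
  have hU : IsOpen {y | ∀ᶠ w in nhds y, ρ γ w = w} := isOpen_setOfPred_eventually_nhds
  have hV : IsOpen {y | ρ γ y ≠ y} := isOpen_ne_fun (hρ.cont γ) continuous_id
  have hd : Disjoint {y | ∀ᶠ w in nhds y, ρ γ w = w} {y | ρ γ y ≠ y} := by
    rw [Set.disjoint_left]
    intro w hw hw'
    exact hw' hw.self_of_nhds
  have hsub : {y | Conn ρ x y} ⊆ {y | ∀ᶠ w in nhds y, ρ γ w = w} ∪ {y | ρ γ y ≠ y} := by
    intro w hw
    by_cases hc : ρ γ w = w
    · exact Or.inl (fix_near (Conn.right hw) hc)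
    · exact Or.inr hc
  have key := hpre.subset_left_of_subset_union hU hV hd hsub ⟨y, hy, fix_near (Conn.right hy) hf⟩
  intro z hz
  exact (key hz).self_of_nhds

theorem comp_cases (hρ : Mon ρ ε) {x : ℝ} {γ : Γ} (h : Conn ρ x (ρ γ x)) :
    (∀ y, Conn ρ x y → ρ γ y = y) ∨ (∀ y, Conn ρ x y → y < ρ γ y) ∨
      (∀ y, Conn ρ x y → ρ γ y < y) := by
  by_cases hex : ∃ y, Conn ρ x y ∧ ρ γ y = y
  · obtain ⟨y, hy, hf⟩ := hex
    exact Or.inl (comp_rigid hρ h hy hf)
  right
  push Not at hex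
  have hpre : IsPreconnected {y | Conn ρ x y} := (comp_ordConnected x).isPreconnected
  have hU : IsOpen {y | y < ρ γ y} := isOpen_lt continuous_id (hρ.cont γ)
  have hV : IsOpen {y | ρ γ y < y} := isOpen_lt (hρ.cont γ) continuous_id
  have hd : Disjoint {y | y < ρ γ y} {y | ρ γ y < y} := by
    rw [Set.disjoint_left]
    intro w hw hw'
    exact absurd (show w < ρ γ w from hw) (not_lt.2 (le_of_lt hw'))
  have hsub : {y | Conn ρ x y} ⊆ {y | y < ρ γ y} ∪ {y | ρ γ y < y} := by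
    intro w hw
    rcases lt_or_gt_of_ne (hex w hw) with hc | hc
    · exact Or.inr hc
    · exact Or.inl hc
  rcases hpre.subset_or_subset hU hV hd hsub with hk | hk
  · exact Or.inl fun y hy => hk hy
  · exact Or.inr fun y hy => hk hy

end Pool.Agent.Lib.P9Q
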