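import Pool.Agent.Lib.P9Q.GCases

/-!
# P9Q.GStab: the stabiliser of a component acts as a cyclic group

Let `I = {y | Conn ρ x y}`, `x ∈ UU ρ`, and `Stab = {γ | Conn ρ x (ρ γ x)}` (a group by `comp_maps`,
`comp_bij`). Suppose some `γ ∈ Stab` is not the identity on `I`; by `comp_cases` (pass to the
inverse) some element of `Stab` satisfies `x < ρ γ x`. Let `s = sInf {ρ γ x | γ ∈ Stab, x < ρ γ x}`.
(1) `x < s`: take `a < x < b` with `Good ρ a b`; if `γ ∈ Stab` and `x < ρ γ x < b` then the first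
alternative fails at `x`, so `ρ γ x = x`, contradiction; so `ρ γ x ≥ b` for all these `γ`, `s ≥ b`.
(2) `s ∈ I` since `x < s ≤ ρ γ x ∈ I` and `I` is order connected.
(3) The infimum is attained: otherwise take `a < s < b` with `Good ρ a b` and `γ, δ ∈ Stab` with
`s < ρ δ x < ρ γ x < b` (two different values near the infimum). The element `η = γ δ⁻¹` maps
`ρ δ x ∈ (a, b)` to `ρ γ x ∈ (a, b)`, so by `Good` it is the identity on `(a, b)`: `ρ γ x = ρ δ x`,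
contradiction.
So there is `γ₀ ∈ Stab` with `ρ γ₀ x = s`; by `comp_cases` `y < ρ γ₀ y` on `I`.
(4) For `γ ∈ Stab` there is `n : ℤ` with `ρ (γ₀^n) x ≤ ρ γ x < ρ (γ₀^(n+1)) x`: the sequence
`ρ (γ₀^n) x` is strictly increasing in `n`, and it is not bounded above by a point of `I` (its
supremum would be a point of `I` fixed by the continuous map `ρ γ₀`), nor bounded below by a point
of `I`. Then `δ = γ₀^(-n) γ ∈ Stab` satisfies `x ≤ ρ δ x < ρ γ₀ x = s` (all the maps are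
increasing: `comp_sign`), so `ρ δ x = x` by the definition of `s`, and `ρ δ` is the identity on `I`
(`comp_rigid`); hence `ρ γ y = ρ (γ₀^n) y` on `I`.
-/

namespace Pool.Agent.Lib.P9Q

open Set

variable {Γ : Type*} [Group Γ] {ρ : Γ →* Equiv.Perm ℝ} {ε : Γ →* ℤˣ}

namespace GStabAux

theorem mulc (hρ : Mon ρ ε) {x : ℝ} {γ δ : Γ} (h : Conn ρ x (ρ γ x))
    (h' : Conn ρ x (ρ δ x)) : Conn ρ x (ρ (γ * δ) x) := by
  rw [map_mul, Equiv.Perm.mul_apply]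
  exact comp_maps hρ h h'

theorem invc (hρ : Mon ρ ε) {x : ℝ} {γ : Γ} (h : Conn ρ x (ρ γ x)) :
    Conn ρ x (ρ γ⁻¹ x) := by
  have h1 := (Conn_act hρ γ⁻¹).2 h
  rw [GBaseAux.inv_apply] at h1
  exact h1.symm

theorem powc (hρ : Mon ρ ε) {x : ℝ} (hx : x ∈ UU ρ) {γ : Γ} (h : Conn ρ x (ρ γ x)) (n : ℕ) :
    Conn ρ x (ρ (γ ^ n) x) := by
  induction n with
  | zero =>
    rw [pow_zero, map_one]
    exact Conn_self.2 hx
  | succ n ih =>
    rw [pow_succ]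
    exact mulc hρ ih h

theorem zpowc (hρ : Mon ρ ε) {x : ℝ} (hx : x ∈ UU ρ) {γ : Γ} (h : Conn ρ x (ρ γ x)) (n : ℤ) :
    Conn ρ x (ρ (γ ^ n) x) := by
  obtain ⟨m, rfl | rfl⟩ := n.eq_nat_or_neg
  · rw [zpow_natCast]
    exact powc hρ hx h m
  · rw [zpow_neg, zpow_natCast]
    exact invc hρ (powc hρ hx h m)

theorem mono (hρ : Mon ρ ε) {x : ℝ} {γ : Γ} (h : Conn ρ x (ρ γ x)) : StrictMono (ρ γ) :=
  hρ.inc γ (comp_sign hρ h)

theorem unbdd (hρ : Mon ρ ε) {x : ℝ} {γ : Γ} (h : Conn ρ x (ρ γ x))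
    (hp : ∀ y, Conn ρ x y → y < ρ γ y) {y z : ℝ} (hy : Conn ρ x y) (hz : Conn ρ x z) :
    ∃ n : ℕ, z < ρ (γ ^ n) y := by
  by_contra hc
  push Not at hc
  have hmem : ∀ n : ℕ, Conn ρ x (ρ (γ ^ n) y) := by
    intro n
    induction n with
    | zero =>
      rw [pow_zero, map_one]
      exact hy
    | succ n ih =>
      rw [pow_succ', map_mul, Equiv.Perm.mul_apply]
      exact comp_maps hρ h ih
  have hsucc : ∀ n : ℕ, ρ (γ ^ (n + 1)) y = ρ γ (ρ (γ ^ n) y) := fun n => by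
    rw [pow_succ', map_mul, Equiv.Perm.mul_apply]
  have hmono : Monotone fun n : ℕ => ρ (γ ^ n) y := by
    refine monotone_nat_of_le_succ fun n => ?_
    rw [hsucc]
    exact (hp _ (hmem n)).le
  have hbdd : BddAbove (range fun n : ℕ => ρ (γ ^ n) y) := ⟨z, by
    rintro _ ⟨n, rfl⟩
    exact hc n⟩
  have hlim := tendsto_atTop_ciSup hmono hbdd
  have hlim2 := hlim.comp (Filter.tendsto_add_atTop_nat 1)
  have hlim3 := ((hρ.cont γ).tendsto _).comp hlim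
  have heq : (fun n : ℕ => ρ (γ ^ n) y) ∘ (fun n => n + 1) =
      ρ γ ∘ fun n : ℕ => ρ (γ ^ n) y := by
    funext n
    exact hsucc n
  rw [heq] at hlim2
  have hfix := tendsto_nhds_unique hlim2 hlim3
  have hle : (⨆ n : ℕ, ρ (γ ^ n) y) ≤ z := ciSup_le hc
  have hge : y ≤ ⨆ n : ℕ, ρ (γ ^ n) y := by
    have := le_ciSup hbdd 0
    simpa using this
  have hin : Conn ρ x (⨆ n : ℕ, ρ (γ ^ n) y) :=
    (comp_ordConnected (ρ := ρ) x).out hy hz ⟨hge, hle⟩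
  exact absurd hfix (hp _ hin).ne

theorem exists_min {x : ℝ} (hx : x ∈ UU ρ)
    (h : ∃ γ, Conn ρ x (ρ γ x) ∧ x < ρ γ x) :
    ∃ γ₀, Conn ρ x (ρ γ₀ x) ∧ x < ρ γ₀ x ∧
      ∀ γ, Conn ρ x (ρ γ x) → x < ρ γ x → ρ γ₀ x ≤ ρ γ x := by
  set A : Set ℝ := {t | ∃ γ, Conn ρ x (ρ γ x) ∧ x < ρ γ x ∧ ρ γ x = t} with hA
  have hne : A.Nonempty := by
    obtain ⟨γ, h1, h2⟩ := h
    exact ⟨ρ γ x, γ, h1, h2, rfl⟩
  have hbdd : BddBelow A := ⟨x, by
    rintro _ ⟨γ, _, h2, rfl⟩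
    exact h2.le⟩
  have hs : sInf A ∈ A := by
    by_contra hn
    have hlt : ∀ t ∈ A, sInf A < t := fun t ht =>
      lt_of_le_of_ne (csInf_le hbdd ht) fun hc => hn (hc ▸ ht)
    have hsI : Conn ρ x (sInf A) := by
      obtain ⟨t, ht⟩ := hne
      have h1 := hlt t ht
      obtain ⟨γ, hγ, h2, rfl⟩ := ht
      refine (comp_ordConnected (ρ := ρ) x).out (Conn_self.2 hx) hγ ⟨?_, h1.le⟩
      refine le_csInf ⟨_, γ, hγ, h2, rfl⟩ ?_
      rintro _ ⟨δ, _, h3, rfl⟩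
      exact h3.le
    obtain ⟨a, b, ha, hb, hg⟩ := hsI.right
    obtain ⟨t, ht, htb⟩ := exists_lt_of_csInf_lt hne hb
    obtain ⟨t', ht', htt⟩ := exists_lt_of_csInf_lt hne (hlt t ht)
    have h1 := hlt t ht
    have h2 := hlt t' ht'
    obtain ⟨γ, hγ, _, rfl⟩ := ht
    obtain ⟨δ, hδ, _, rfl⟩ := ht'
    have hη : ρ (γ * δ⁻¹) (ρ δ x) = ρ γ x := by
      rw [map_mul, Equiv.Perm.mul_apply, GBaseAux.inv_apply]
    have hin : ρ δ x ∈ Ioo a b := ⟨ha.trans h2, htt.trans htb⟩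
    rcases hg (γ * δ⁻¹) with h3 | h3
    · refine h3 _ hin ?_
      rw [hη]
      exact ⟨ha.trans h1, htb⟩
    · have h4 := h3 _ hin
      rw [hη] at h4
      exact absurd h4 htt.ne'
  obtain ⟨γ₀, h1, h2, h3⟩ := hs
  refine ⟨γ₀, h1, h2, fun γ h4 h5 => ?_⟩
  rw [h3]
  exact csInf_le hbdd ⟨γ, h4, h5, rfl⟩

end GStabAux

open GStabAux

theorem stab (hρ : Mon ρ ε) {x : ℝ} (hx : x ∈ UU ρ) :
    (∀ γ, Conn ρ x (ρ γ x) → ∀ y, Conn ρ x y → ρ γ y = y) ∨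
      ∃ γ₀, Conn ρ x (ρ γ₀ x) ∧ (∀ y, Conn ρ x y → y < ρ γ₀ y) ∧
        ∀ γ, Conn ρ x (ρ γ x) → ∃ n : ℤ, ∀ y, Conn ρ x y → ρ γ y = ρ (γ₀ ^ n) y := by
  by_cases hall : ∀ γ, Conn ρ x (ρ γ x) → ∀ y, Conn ρ x y → ρ γ y = y
  · exact Or.inl hall
  right
  have hxx : Conn ρ x x := Conn_self.2 hx
  have hex : ∃ γ, Conn ρ x (ρ γ x) ∧ x < ρ γ x := by
    push Not at hall
    obtain ⟨γ, hγ, y, hy, hne⟩ := hall
    rcases comp_cases hρ hγ with h | h | h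
    · exact absurd (h y hy) hne
    · exact ⟨γ, hγ, h x hxx⟩
    · refine ⟨γ⁻¹, invc hρ hγ, ?_⟩
      have h1 := mono hρ (invc hρ hγ) (h x hxx)
      rwa [GBaseAux.inv_apply] at h1
  obtain ⟨γ₀, h0, h1, hmin⟩ := exists_min hx hex
  have hpos : ∀ y, Conn ρ x y → y < ρ γ₀ y := by
    rcases comp_cases hρ h0 with h | h | h
    · exact absurd (h x hxx) h1.ne'
    · exact h
    · exact absurd (h x hxx) h1.not_gt
  refine ⟨γ₀, h0, hpos, fun γ hγ => ?_⟩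
  have hu : StrictMono fun n : ℤ => ρ (γ₀ ^ n) x := by
    refine strictMono_int_of_lt_succ fun n => ?_
    have h2 := hpos _ (zpowc hρ hx h0 n)
    rwa [← Equiv.Perm.mul_apply, ← map_mul, mul_self_zpow] at h2
  obtain ⟨n, hn1, hn2⟩ : ∃ n : ℤ, ρ (γ₀ ^ n) x ≤ ρ γ x ∧ ρ γ x < ρ (γ₀ ^ (n + 1)) x := by
    obtain ⟨b, hb⟩ := unbdd hρ h0 hpos hxx hγ
    obtain ⟨c, hc⟩ := unbdd hρ h0 hpos hγ hxx
    obtain ⟨n, hn, hmax⟩ := Int.exists_greatest_of_bdd (P := fun n : ℤ => ρ (γ₀ ^ n) x ≤ ρ γ x)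
      ⟨(b : ℤ), fun m hm => by
        by_contra hlt
        have h2 := hu (not_le.1 hlt)
        simp only [zpow_natCast] at h2
        exact absurd (hm.trans_lt hb) h2.not_gt⟩
      ⟨-(c : ℤ), by
        have h2 := mono hρ (invc hρ (powc hρ hx h0 c)) hc
        rw [GBaseAux.inv_apply] at h2
        rw [zpow_neg, zpow_natCast]
        exact h2.le⟩
    refine ⟨n, hn, ?_⟩
    by_contra hcc
    have h3 := hmax (n + 1) (not_lt.1 hcc)
    omega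
  have hzn := zpowc hρ hx h0 n
  have hkey : ∀ y, ρ (γ₀ ^ n) (ρ ((γ₀ ^ n)⁻¹ * γ) y) = ρ γ y := fun y => by
    rw [← Equiv.Perm.mul_apply, ← map_mul, mul_inv_cancel_left]
  have hδ : Conn ρ x (ρ ((γ₀ ^ n)⁻¹ * γ) x) := mulc hρ (invc hρ hzn) hγ
  have hlt : ρ ((γ₀ ^ n)⁻¹ * γ) x < ρ γ₀ x := by
    rw [← (mono hρ hzn).lt_iff_lt, hkey, ← Equiv.Perm.mul_apply, ← map_mul, mul_zpow_self]
    exact hn2
  have hle : x ≤ ρ ((γ₀ ^ n)⁻¹ * γ) x := by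
    rw [← (mono hρ hzn).le_iff_le, hkey]
    exact hn1
  have heq : ρ ((γ₀ ^ n)⁻¹ * γ) x = x := by
    by_contra hne
    exact absurd (hmin _ hδ (lt_of_le_of_ne hle (Ne.symm hne))) (not_le.2 hlt)
  refine ⟨n, fun y hy => ?_⟩
  rw [← hkey y, comp_rigid hρ hδ hxx heq y hy]

end Pool.Agent.Lib.P9Q
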