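import Pool.Agent.Lib.P9Q.Defs

/-!
# P9Q.K1: continuous injective curves in a one-manifold are open embeddings

Proof of `openEmb_of_inj`. It suffices that `χ` is an open map
(`IsOpenEmbedding` from continuous, injective, open). Let `t : ℝ` and let `φ` be an arc (`hM`) with
`χ t ∈ range φ`. The set `O = χ ⁻¹' (range φ)` is open; choose `δ > 0` with
`J = Ioo (t - δ) (t + δ) ⊆ O`. On `J` the function `g = φ⁻¹ ∘ χ` (`hφ.toPartialHomeomorph` or
`hφ.isEmbedding.toHomeomorph`) is continuous and injective, hence strictly monotone or antitone on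
`J` (`ContinuousOn.strictMonoOn_of_injOn_Ioo` or `Continuous.strictMono_of_inj_rigidity` etc.), so
`g` maps every open subinterval of `J` onto an open interval; hence for every neighbourhood `N` of
`t`, `χ '' N ⊇ φ '' (open interval around g t)` is a neighbourhood of `χ t`.
(`IsOpenMap` via `nhds`: `IsOpenMap.of_nhds_le` or `isOpenMap_iff_nhds_le`.)

`inter_theta`: for arcs `φ, ψ` define `θ x` for `φ x ∈ range ψ` by `ψ (θ x) = φ x`
(`θ = Function.invFun ψ ∘ φ`); it is continuous and injective on the open set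
`V = φ ⁻¹' (range ψ)`.
-/

namespace Pool.Agent.Lib.P9Q

open Set Topology

namespace K1Aux

theorem lift_spec {X Y Z : Type*} [Nonempty X] {φ : X → Y} {χ : Z → Y} {x : Z}
    (h : χ x ∈ range φ) : φ ((Function.invFun φ ∘ χ) x) = χ x := by
  obtain ⟨y, hy⟩ := h
  exact Function.invFun_eq ⟨y, hy⟩

theorem lift_cont {X Y Z : Type*} [TopologicalSpace X] [TopologicalSpace Y] [TopologicalSpace Z]
    [Nonempty X] {φ : X → Y} {χ : Z → Y} (hφ : IsOpenEmbedding φ) (hc : Continuous χ) :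
    ContinuousOn (Function.invFun φ ∘ χ) (χ ⁻¹' range φ) := by
  rw [hφ.isInducing.continuousOn_iff]
  exact hc.continuousOn.congr fun x hx => lift_spec hx

theorem lift_inj {X Y Z : Type*} [Nonempty X] {φ : X → Y} {χ : Z → Y}
    (hi : Function.Injective χ) : InjOn (Function.invFun φ ∘ χ) (χ ⁻¹' range φ) := by
  intro x hx y hy hxy
  apply hi
  have h1 := lift_spec (φ := φ) (χ := χ) hx
  have h2 := lift_spec (φ := φ) (χ := χ) hy
  rw [← h1, ← h2, hxy]

end K1Aux

open K1Aux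

theorem openEmb_of_inj {M : Type*} [TopologicalSpace M] (hM : Arcs M) {χ : ℝ → M}
    (hc : Continuous χ) (hi : Function.Injective χ) : IsOpenEmbedding χ := by
  refine IsOpenEmbedding.of_continuous_injective_isOpenMap hc hi ?_
  rw [isOpenMap_iff_nhds_le]
  intro t N hN
  rw [Filter.mem_map] at hN
  obtain ⟨φ, hφ, ht⟩ := hM (χ t)
  have hO : χ ⁻¹' range φ ∈ 𝓝 t := (hφ.isOpen_range.preimage hc).mem_nhds ht
  obtain ⟨ε, hε, hb⟩ := Metric.mem_nhds_iff.1 (Filter.inter_mem hN hO)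
  set g := Function.invFun φ ∘ χ with hg
  have hsub : Icc (t - ε / 2) (t + ε / 2) ⊆ Metric.ball t ε := by
    intro x hx
    rw [Metric.mem_ball, Real.dist_eq, abs_lt]
    constructor <;> linarith [hx.1, hx.2]
  have hgc : ContinuousOn g (Icc (t - ε / 2) (t + ε / 2)) :=
    (lift_cont hφ hc).mono fun x hx => (hb (hsub hx)).2
  have hgi : InjOn g (Icc (t - ε / 2) (t + ε / 2)) :=
    (lift_inj (φ := φ) hi).mono fun x hx => (hb (hsub hx)).2
  have hle : t - ε / 2 ≤ t + ε / 2 := by linarith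
  have key : ∀ U : Set ℝ, IsOpen U → g t ∈ U → U ⊆ g '' Ioo (t - ε / 2) (t + ε / 2) →
      N ∈ 𝓝 (χ t) := by
    intro U hU htU hUs
    refine Filter.mem_of_superset ((hφ.isOpenMap U hU).mem_nhds ⟨g t, htU, lift_spec ht⟩) ?_
    rintro _ ⟨u, hu, rfl⟩
    obtain ⟨x, hx, rfl⟩ := hUs hu
    have hxb := hb (hsub (Ioo_subset_Icc_self hx))
    rw [hg, lift_spec hxb.2]
    exact hxb.1
  have htm : t ∈ Ioo (t - ε / 2) (t + ε / 2) := ⟨by linarith, by linarith⟩
  rcases ContinuousOn.strictMonoOn_of_injOn_Icc' hle hgc hgi with h | h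
  · have him := ContinuousOn.image_Ioo_of_strictMonoOn hle hgc h
    refine key _ isOpen_Ioo ?_ him.ge
    rw [← him]
    exact ⟨t, htm, rfl⟩
  · have him := ContinuousOn.image_Ioo_of_strictAntiOn hle hgc h
    refine key _ isOpen_Ioo ?_ him.ge
    rw [← him]
    exact ⟨t, htm, rfl⟩

theorem inter_theta {M : Type*} [TopologicalSpace M] {φ ψ : ℝ → M} (hφ : IsOpenEmbedding φ)
    (hψ : IsOpenEmbedding ψ) :
    ∃ θ : ℝ → ℝ, ContinuousOn θ (φ ⁻¹' range ψ) ∧ InjOn θ (φ ⁻¹' range ψ) ∧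
      ∀ x, φ x ∈ range ψ → ψ (θ x) = φ x :=
  ⟨Function.invFun ψ ∘ φ, lift_cont hψ hφ.continuous, lift_inj hφ.injective,
    fun _ hx => lift_spec hx⟩

end Pool.Agent.Lib.P9Q
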