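import Pool.Agent.Lib.P9Q.K1

/-!
# P9Q.K2: two facts on overlapping arcs

`glue`: put `χ t = φ (x₀ + t)` for `t ≤ 0` and `χ t = ψ (y₀ + t)` for `t ≥ 0` (the values at `0`
agree). It is continuous (`Continuous.if_le`), injective: if `χ t = χ t'` with `t < 0 ≤ t'` then
`φ (x₀ + t) = ψ (y₀ + t')` with `x₀ + t < x₀`, so `y₀ + t' < y₀` by `h`, a contradiction. The range
is `φ '' Iic x₀ ∪ ψ '' Ici y₀`. By `openEmb_of_inj` it is an open embedding.

`escape`: let `a` be a point with `φ a ∉ range ψ` and `K ⊆ ℝ` compact. Then `φ x ∉ ψ '' K` for all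
`x` near `a`: `ψ '' K` is compact, hence closed (`T2Space`), and does not contain `φ a`.
-/

namespace Pool.Agent.Lib.P9Q

open Set Topology

theorem glue {M : Type*} [TopologicalSpace M] (hM : Arcs M) {φ ψ : ℝ → M}
    (hφ : IsOpenEmbedding φ) (hψ : IsOpenEmbedding ψ) (x₀ y₀ : ℝ) (h0 : φ x₀ = ψ y₀)
    (h : ∀ x y, φ x = ψ y → x < x₀ → y < y₀) :
    ∃ χ : ℝ → M, IsOpenEmbedding χ ∧ range χ = φ '' Iic x₀ ∪ ψ '' Ici y₀ := by
  have key : ∀ s t : ℝ, s ≤ 0 → 0 < t → φ (x₀ + s) ≠ ψ (y₀ + t) := by
    intro s t hs ht e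
    rcases hs.lt_or_eq with hs | hs
    · have := h _ _ e (by linarith)
      linarith
    · rw [hs, add_zero, h0] at e
      have := hψ.injective e
      linarith
  refine ⟨fun t => if t ≤ 0 then φ (x₀ + t) else ψ (y₀ + t), ?_, ?_⟩
  · apply openEmb_of_inj hM
    · refine Continuous.if_le (hφ.continuous.comp (continuous_const.add continuous_id))
        (hψ.continuous.comp (continuous_const.add continuous_id)) continuous_id
        continuous_const ?_
      intro t ht
      rw [ht, add_zero, add_zero, h0]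
    · intro s t e
      simp only at e
      split_ifs at e with hs ht ht
      · have := hφ.injective e
        linarith
      · exact absurd e (key _ _ hs (not_le.1 ht))
      · exact absurd e.symm (key _ _ ht (not_le.1 hs))
      · have := hψ.injective e
        linarith
  · ext m
    constructor
    · rintro ⟨t, rfl⟩
      simp only
      split_ifs with ht
      · exact Or.inl ⟨x₀ + t, by simpa using ht, rfl⟩
      · exact Or.inr ⟨y₀ + t, by simpa using (not_le.1 ht).le, rfl⟩
    · rintro (⟨x, hx, rfl⟩ | ⟨y, hy, rfl⟩)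
      · refine ⟨x - x₀, ?_⟩
        have : x - x₀ ≤ 0 := by simpa using hx
        simp [this]
      · have hy' : y₀ ≤ y := hy
        rcases hy'.lt_or_eq with h1 | h1
        · refine ⟨y - y₀, ?_⟩
          have : ¬ (y - y₀ ≤ 0) := by simpa using h1
          simp only [this, if_false]
          congr 1
          ring
        · refine ⟨0, ?_⟩
          simp [h0, ← h1]

theorem escape {M : Type*} [TopologicalSpace M] [T2Space M] {φ ψ : ℝ → M}
    (hφ : IsOpenEmbedding φ) (hψ : IsOpenEmbedding ψ) {a : ℝ} (ha : φ a ∉ range ψ) {K : Set ℝ}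
    (hK : IsCompact K) : ∀ᶠ x in 𝓝 a, φ x ∉ ψ '' K := by
  have hcl : IsClosed (ψ '' K) := (hK.image hψ.continuous).isClosed
  have hna : φ a ∈ (ψ '' K)ᶜ := fun hmem => ha (image_subset_range _ _ hmem)
  exact hφ.continuous.continuousAt.eventually (hcl.isOpen_compl.mem_nhds hna)

end Pool.Agent.Lib.P9Q
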