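import Pool.Agent.Lib.P9Q.K2

/-!
# P9Q.K3: components of the overlap are half lines

Let `V = φ ⁻¹' (range ψ)` (open), `θ` from `inter_theta`.

`half`: suppose not: there are `b' > x` and `a' < x` outside `V`. Let `b = sInf {y ≥ x | y ∉ V}`,
`a = sSup {y ≤ x | y ∉ V}`; as `V` is open, `a, b ∉ V`, `a < x < b`, `Ioo a b ⊆ V`. `θ` is
continuous and injective on `Ioo a b`, so strictly monotone or antitone there; say monotone (the
antitone case: replace `ψ` by `ψ ∘ Neg.neg`, or argue in the same way). By `escape` (with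
`K = Icc (-n) n`) `|θ y| → ∞` as `y ↓ a` and as `y ↑ b`; `θ` is increasing, so `θ y → -∞` as
`y ↓ a` (the values are below `θ x`) and `θ y → +∞` as `y ↑ b`. By the intermediate value theorem
`θ '' Ioo a b = univ`, so `range ψ = ψ '' univ = φ '' Ioo a b ⊆ range φ`, contradiction.

`normal`: let `φ y ∈ range ψ` for all `y ≥ x` and let neither range contain the other. Let
`a = sSup {y | y ∉ V}` (nonempty since `range φ ⊄ range ψ`, bounded above by `x`): `a ∉ V`,
`Ioi a ⊆ V`. `θ` is strictly monotone or antitone on `Ioi a`; let `ψ' = ψ` in the first case and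
`ψ' = ψ ∘ Neg.neg` in the second (then `θ' = - θ` is strictly increasing). By `escape`
`θ' y → -∞` as `y ↓ a`. The set `θ' '' Ioi a` is an interval, unbounded below, open, without
maximum; if it were unbounded above it would be `univ` and `range ψ ⊆ range φ`; so it is `Iio c`
with `c = sSup (θ' '' Ioi a)`. Finally `ψ' c ∉ range φ`: suppose `ψ' c = φ y`; then `y ∈ V`, and
`y ∉ Ioi a` since `θ' y = c`. The map `z ↦ φ⁻¹ (ψ' z)` (`inter_theta` for `(ψ', φ)`) is continuous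
at `c` with value `y`, but for `z ↑ c` its value is `θ'⁻¹ z`, which exceeds every bound
(`θ' t < z` for `z` close to `c`, for every `t > a`): contradiction.
-/

namespace Pool.Agent.Lib.P9Q

open Set Topology

namespace K3

/-- Close to a point outside the overlap `θ` is large. -/
theorem esc {M : Type*} [TopologicalSpace M] [T2Space M] {φ ψ : ℝ → M}
    (hφ : IsOpenEmbedding φ) (hψ : IsOpenEmbedding ψ) {θ : ℝ → ℝ}
    (hθ : ∀ x, φ x ∈ range ψ → ψ (θ x) = φ x) {a : ℝ} (ha : φ a ∉ range ψ) (n : ℝ) :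
    ∀ᶠ x in 𝓝 a, φ x ∈ range ψ → θ x ∉ Icc (-n) n := by
  filter_upwards [escape hφ hψ ha (isCompact_Icc (a := -n) (b := n))] with x hx hV hK
  exact hx ⟨θ x, hK, hθ x hV⟩

theorem esc_right {M : Type*} [TopologicalSpace M] [T2Space M] {φ ψ : ℝ → M}
    (hφ : IsOpenEmbedding φ) (hψ : IsOpenEmbedding ψ) {θ : ℝ → ℝ}
    (hθ : ∀ x, φ x ∈ range ψ → ψ (θ x) = φ x) {a x : ℝ} (ha : φ a ∉ range ψ) (hax : a < x)
    (n : ℝ) : ∃ y ∈ Ioo a x, φ y ∈ range ψ → θ y ∉ Icc (-n) n := by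
  have h1 : ∀ᶠ y in 𝓝[>] a, y ∈ Ioo a x := Ioo_mem_nhdsGT hax
  have h2 := (esc hφ hψ hθ ha n).filter_mono (nhdsWithin_le_nhds (s := Ioi a))
  obtain ⟨y, hy1, hy2⟩ := (h1.and h2).exists
  exact ⟨y, hy1, hy2⟩

theorem esc_left {M : Type*} [TopologicalSpace M] [T2Space M] {φ ψ : ℝ → M}
    (hφ : IsOpenEmbedding φ) (hψ : IsOpenEmbedding ψ) {θ : ℝ → ℝ}
    (hθ : ∀ x, φ x ∈ range ψ → ψ (θ x) = φ x) {b x : ℝ} (hb : φ b ∉ range ψ) (hxb : x < b)
    (n : ℝ) : ∃ y ∈ Ioo x b, φ y ∈ range ψ → θ y ∉ Icc (-n) n := by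
  have h1 : ∀ᶠ y in 𝓝[<] b, y ∈ Ioo x b := Ioo_mem_nhdsLT hxb
  have h2 := (esc hφ hψ hθ hb n).filter_mono (nhdsWithin_le_nhds (s := Iio b))
  obtain ⟨y, hy1, hy2⟩ := (h1.and h2).exists
  exact ⟨y, hy1, hy2⟩

/-- A set which is connected and unbounded on both sides is everything. -/
theorem surj {S : Set ℝ} (hS : IsPreconnected S) (h1 : ∀ n : ℝ, ∃ y ∈ S, y < n)
    (h2 : ∀ n : ℝ, ∃ y ∈ S, n < y) (z : ℝ) : z ∈ S := by
  obtain ⟨y1, hy1, h1⟩ := h1 z
  obtain ⟨y2, hy2, h2⟩ := h2 z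
  exact hS.Icc_subset hy1 hy2 ⟨h1.le, h2.le⟩

/-- Monotone on a half line. -/
theorem mono_or {θ : ℝ → ℝ} {a : ℝ} (hc : ContinuousOn θ (Ioi a)) (hi : InjOn θ (Ioi a)) :
    StrictMonoOn θ (Ioi a) ∨ StrictAntiOn θ (Ioi a) := by
  have key : ∀ M : ℝ, a < M → StrictMonoOn θ (Ioo a M) ∨ StrictAntiOn θ (Ioo a M) := fun M hM =>
    (hc.mono Ioo_subset_Ioi_self).strictMonoOn_of_injOn_Ioo hM (hi.mono Ioo_subset_Ioi_self)
  have h1 : a + 1 ∈ Ioi a := by simp
  have h2 : a + 2 ∈ Ioi a := by simp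
  rcases lt_or_gt_of_ne (fun h => by
    have := hi h1 h2 h
    linarith : θ (a + 1) ≠ θ (a + 2)) with h | h
  · left
    intro u hu v hv huv
    have hu' : a < u := hu
    have hv' : a < v := hv
    have hM : a < max v (a + 2) + 1 := lt_of_lt_of_le hv' (by linarith [le_max_left v (a + 2)])
    have m1 := le_max_left v (a + 2)
    have m2 := le_max_right v (a + 2)
    rcases key _ hM with k | k
    · exact k ⟨hu', by linarith⟩ ⟨hv', by linarith⟩ huv
    · have := k (a := a + 1) (b := a + 2) ⟨by linarith, by linarith⟩ ⟨by linarith, by linarith⟩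
        (by linarith)
      exact absurd this (not_lt.2 h.le)
  · right
    intro u hu v hv huv
    have hu' : a < u := hu
    have hv' : a < v := hv
    have hM : a < max v (a + 2) + 1 := lt_of_lt_of_le hv' (by linarith [le_max_left v (a + 2)])
    have m1 := le_max_left v (a + 2)
    have m2 := le_max_right v (a + 2)
    rcases key _ hM with k | k
    · have := k (a := a + 1) (b := a + 2) ⟨by linarith, by linarith⟩ ⟨by linarith, by linarith⟩
        (by linarith)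
      exact absurd this (not_lt.2 h.le)
    · exact k ⟨hu', by linarith⟩ ⟨hv', by linarith⟩ huv

end K3

open K3

theorem half {M : Type*} [TopologicalSpace M] [T2Space M] {φ ψ : ℝ → M}
    (hφ : IsOpenEmbedding φ) (hψ : IsOpenEmbedding ψ) (h : ¬ range ψ ⊆ range φ) {x : ℝ}
    (hx : φ x ∈ range ψ) : (∀ y ≥ x, φ y ∈ range ψ) ∨ (∀ y ≤ x, φ y ∈ range ψ) := by
  by_contra hcon
  push Not at hcon
  obtain ⟨⟨b', hb', hbV⟩, a', ha', haV⟩ := hcon
  obtain ⟨θ, hc, hi, hθ⟩ := inter_theta hφ hψ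
  set V : Set ℝ := φ ⁻¹' range ψ with hV
  have hVo : IsOpen V := hψ.isOpen_range.preimage hφ.continuous
  -- the right end
  set B : Set ℝ := Ici x ∩ Vᶜ with hB
  have hBc : IsClosed B := isClosed_Ici.inter hVo.isClosed_compl
  have hBne : B.Nonempty := ⟨b', hb', hbV⟩
  have hBb : BddBelow B := ⟨x, fun y hy => hy.1⟩
  have hbB : sInf B ∈ B := hBc.csInf_mem hBne hBb
  set b := sInf B with hb
  have hxb : x < b := lt_of_le_of_ne hbB.1 fun e => hbB.2 (e ▸ hx)
  -- the left end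
  set A : Set ℝ := Iic x ∩ Vᶜ with hA
  have hAc : IsClosed A := isClosed_Iic.inter hVo.isClosed_compl
  have hAne : A.Nonempty := ⟨a', ha', haV⟩
  have hAb : BddAbove A := ⟨x, fun y hy => hy.1⟩
  have haA : sSup A ∈ A := hAc.csSup_mem hAne hAb
  set a := sSup A with ha
  have hax : a < x := lt_of_le_of_ne haA.1 fun e => haA.2 (e ▸ hx)
  have hsub : Ioo a b ⊆ V := by
    intro y hy
    by_contra hyV
    rcases le_total x y with hxy | hxy
    · exact absurd (csInf_le hBb ⟨hxy, hyV⟩) (not_le.2 hy.2)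
    · exact absurd (le_csSup hAb ⟨hxy, hyV⟩) (not_le.2 hy.1)
  have hab : a < b := hax.trans hxb
  have hcI : ContinuousOn θ (Ioo a b) := hc.mono hsub
  have hiI : InjOn θ (Ioo a b) := hi.mono hsub
  have hpre : IsPreconnected (θ '' Ioo a b) := isPreconnected_Ioo.image θ hcI
  have hxI : x ∈ Ioo a b := ⟨hax, hxb⟩
  have main : ∀ z, z ∈ θ '' Ioo a b := by
    rcases hcI.strictMonoOn_of_injOn_Ioo hab hiI with hm | hm
    · refine surj hpre (fun n => ?_) (fun n => ?_)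
      · obtain ⟨y, hy, hy2⟩ := esc_right hφ hψ hθ haA.2 hax (max |n| |θ x| + 1)
        have hyI : y ∈ Ioo a b := ⟨hy.1, hy.2.trans hxb⟩
        have h3 := hy2 (hsub hyI)
        have h4 := hm hyI hxI hy.2
        refine ⟨θ y, ⟨y, hyI, rfl⟩, ?_⟩
        by_contra h5
        refine h3 ⟨?_, ?_⟩
        · have := le_max_left |n| |θ x|
          linarith [neg_abs_le n]
        · have := le_max_right |n| |θ x|
          linarith [le_abs_self (θ x)]
      · obtain ⟨y, hy, hy2⟩ := esc_left hφ hψ hθ hbB.2 hxb (max |n| |θ x| + 1)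
        have hyI : y ∈ Ioo a b := ⟨hax.trans hy.1, hy.2⟩
        have h3 := hy2 (hsub hyI)
        have h4 := hm hxI hyI hy.1
        refine ⟨θ y, ⟨y, hyI, rfl⟩, ?_⟩
        by_contra h5
        refine h3 ⟨?_, ?_⟩
        · have := le_max_right |n| |θ x|
          linarith [neg_abs_le (θ x)]
        · have := le_max_left |n| |θ x|
          linarith [le_abs_self n]
    · refine surj hpre (fun n => ?_) (fun n => ?_)
      · obtain ⟨y, hy, hy2⟩ := esc_left hφ hψ hθ hbB.2 hxb (max |n| |θ x| + 1)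
        have hyI : y ∈ Ioo a b := ⟨hax.trans hy.1, hy.2⟩
        have h3 := hy2 (hsub hyI)
        have h4 := hm hxI hyI hy.1
        refine ⟨θ y, ⟨y, hyI, rfl⟩, ?_⟩
        by_contra h5
        refine h3 ⟨?_, ?_⟩
        · have := le_max_left |n| |θ x|
          linarith [neg_abs_le n]
        · have := le_max_right |n| |θ x|
          linarith [le_abs_self (θ x)]
      · obtain ⟨y, hy, hy2⟩ := esc_right hφ hψ hθ haA.2 hax (max |n| |θ x| + 1)
        have hyI : y ∈ Ioo a b := ⟨hy.1, hy.2.trans hxb⟩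
        have h3 := hy2 (hsub hyI)
        have h4 := hm hyI hxI hy.2
        refine ⟨θ y, ⟨y, hyI, rfl⟩, ?_⟩
        by_contra h5
        refine h3 ⟨?_, ?_⟩
        · have := le_max_right |n| |θ x|
          linarith [neg_abs_le (θ x)]
        · have := le_max_left |n| |θ x|
          linarith [le_abs_self n]
  refine h ?_
  rintro _ ⟨z, rfl⟩
  obtain ⟨w, hw, rfl⟩ := main z
  exact ⟨w, (hθ w (hsub hw)).symm⟩

namespace K3

/-- The case of an increasing transition map. -/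
theorem core {M : Type*} [TopologicalSpace M] [T2Space M] {φ ψ : ℝ → M}
    (hφ : IsOpenEmbedding φ) (hψ : IsOpenEmbedding ψ) (h : ¬ range ψ ⊆ range φ)
    {θ : ℝ → ℝ} {a : ℝ} (ha : φ a ∉ range ψ) (hsub : ∀ y > a, φ y ∈ range ψ)
    (hc : ContinuousOn θ (Ioi a)) (hθ : ∀ x, φ x ∈ range ψ → ψ (θ x) = φ x)
    (hm : StrictMonoOn θ (Ioi a)) :
    ∃ c : ℝ, ψ c ∉ range φ ∧ BijOn θ (Ioi a) (Iio c) := by
  set S : Set ℝ := θ '' Ioi a with hS
  have hpre : IsPreconnected S := isPreconnected_Ioi.image θ hc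
  have hmem : ∀ y > a, θ y ∈ S := fun y hy => ⟨y, hy, rfl⟩
  have low : ∀ n : ℝ, ∃ y ∈ S, y < n := by
    intro n
    have hax : a < a + 1 := by linarith
    obtain ⟨y, hy, hy2⟩ := esc_right hφ hψ hθ ha hax (max |n| |θ (a + 1)| + 1)
    have h3 := hy2 (hsub y hy.1)
    have h4 := hm (show y ∈ Ioi a from hy.1) (show a + 1 ∈ Ioi a from hax) hy.2
    refine ⟨θ y, hmem y hy.1, ?_⟩
    by_contra h5
    refine h3 ⟨?_, ?_⟩
    · have := le_max_left |n| |θ (a + 1)|
      linarith [neg_abs_le n]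
    · have := le_max_right |n| |θ (a + 1)|
      linarith [le_abs_self (θ (a + 1))]
  have hbdd : BddAbove S := by
    by_contra hnb
    rw [not_bddAbove_iff] at hnb
    refine h ?_
    rintro _ ⟨z, rfl⟩
    obtain ⟨w, hw, rfl⟩ := surj hpre low hnb z
    exact ⟨w, (hθ w (hsub w hw)).symm⟩
  have hne : S.Nonempty := ⟨θ (a + 1), hmem _ (by linarith)⟩
  have hlt : ∀ y > a, θ y < sSup S := by
    intro y hy
    have hy' : y + 1 > a := by linarith
    exact (hm (show y ∈ Ioi a from hy) (show y + 1 ∈ Ioi a from hy') (by linarith)).trans_le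
      (le_csSup hbdd (hmem _ hy'))
  have hbij : BijOn θ (Ioi a) (Iio (sSup S)) := by
    refine ⟨fun y hy => hlt y hy, hm.injOn, fun z hz => ?_⟩
    obtain ⟨s1, hs1, h1⟩ := low z
    obtain ⟨s2, hs2, h2⟩ := exists_lt_of_lt_csSup hne hz
    exact hpre.Icc_subset hs1 hs2 ⟨h1.le, h2.le⟩
  refine ⟨sSup S, ?_, hbij⟩
  rintro ⟨y, hy⟩
  have hyV : φ y ∈ range ψ := ⟨sSup S, hy.symm⟩
  have h1 : θ y = sSup S := hψ.injective ((hθ y hyV).trans hy)
  have h2 : y < a := by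
    rcases lt_trichotomy y a with h3 | h3 | h3
    · exact h3
    · exact absurd (h3 ▸ hyV) ha
    · exact absurd h1 (hlt y h3).ne
  have ho : IsOpen (ψ ⁻¹' (φ '' Iio a)) :=
    (hφ.isOpenMap _ isOpen_Iio).preimage hψ.continuous
  have hmemc : sSup S ∈ ψ ⁻¹' (φ '' Iio a) := ⟨y, h2, hy⟩
  have hev : ∀ᶠ z in 𝓝[<] (sSup S), z ∈ ψ ⁻¹' (φ '' Iio a) :=
    mem_nhdsWithin_of_mem_nhds (ho.mem_nhds hmemc)
  obtain ⟨z, hz, hz2⟩ := (hev.and self_mem_nhdsWithin).exists
  obtain ⟨u, hu, hu2⟩ := hz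
  obtain ⟨v, hv, rfl⟩ := hbij.surjOn hz2
  rw [hθ v (hsub v hv)] at hu2
  have := hφ.injective hu2
  rw [this] at hu
  exact lt_asymm (show v < a from hu) (show a < v from hv)

end K3

theorem normal {M : Type*} [TopologicalSpace M] [T2Space M] {φ ψ : ℝ → M}
    (hφ : IsOpenEmbedding φ) (hψ : IsOpenEmbedding ψ) (h : ¬ range ψ ⊆ range φ)
    (h' : ¬ range φ ⊆ range ψ) {x : ℝ} (hx : ∀ y ≥ x, φ y ∈ range ψ) :
    ∃ (ψ' : ℝ → M) (θ : ℝ → ℝ) (a c : ℝ), (ψ' = ψ ∨ ψ' = ψ ∘ Neg.neg) ∧ IsOpenEmbedding ψ' ∧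
      range ψ' = range ψ ∧ φ a ∉ range ψ' ∧ ψ' c ∉ range φ ∧ StrictMonoOn θ (Ioi a) ∧
      BijOn θ (Ioi a) (Iio c) ∧ ∀ x > a, ψ' (θ x) = φ x := by
  obtain ⟨θ, hc, hi, hθ⟩ := inter_theta hφ hψ
  set V : Set ℝ := φ ⁻¹' range ψ with hV
  have hVo : IsOpen V := hψ.isOpen_range.preimage hφ.continuous
  have hne : (Vᶜ).Nonempty := by
    by_contra hcon
    rw [not_nonempty_iff_eq_empty] at hcon
    refine h' ?_
    rintro _ ⟨y, rfl⟩
    by_contra hy
    have : y ∈ Vᶜ := hy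
    rw [hcon] at this
    exact this
  have hbd : BddAbove Vᶜ := ⟨x, fun y hy => by
    by_contra hxy
    exact hy (hx y (not_le.1 hxy).le)⟩
  have haA : sSup Vᶜ ∈ Vᶜ := hVo.isClosed_compl.csSup_mem hne hbd
  set a := sSup Vᶜ with ha
  have hsub : ∀ y > a, φ y ∈ range ψ := by
    intro y hy
    by_contra hyV
    exact absurd (le_csSup hbd (show y ∈ Vᶜ from hyV)) (not_le.2 hy)
  have hcI : ContinuousOn θ (Ioi a) := hc.mono fun y hy => hsub y hy
  have hiI : InjOn θ (Ioi a) := hi.mono fun y hy => hsub y hy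
  rcases mono_or hcI hiI with hm | hm
  · obtain ⟨c, hc1, hc2⟩ := core hφ hψ h haA hsub hcI hθ hm
    exact ⟨ψ, θ, a, c, Or.inl rfl, hψ, rfl, haA, hc1, hm, hc2, fun x hx => hθ x (hsub x hx)⟩
  · have hψ' : IsOpenEmbedding (ψ ∘ Neg.neg) := hψ.comp (Homeomorph.neg ℝ).isOpenEmbedding
    have hr : range (ψ ∘ Neg.neg) = range ψ := (Homeomorph.neg ℝ).surjective.range_comp ψ
    have hθ' : ∀ x, φ x ∈ range (ψ ∘ Neg.neg) → (ψ ∘ Neg.neg) (-θ x) = φ x := by
      intro x hx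
      rw [hr] at hx
      simp only [Function.comp_apply, neg_neg]
      exact hθ x hx
    have hm' : StrictMonoOn (fun x => -θ x) (Ioi a) := fun u hu v hv huv =>
      neg_lt_neg (hm hu hv huv)
    obtain ⟨c, hc1, hc2⟩ := core (θ := fun x => -θ x) hφ hψ' (by rwa [hr]) (by rwa [hr])
      (by rwa [hr]) hcI.neg hθ' hm'
    refine ⟨ψ ∘ Neg.neg, fun x => -θ x, a, c, Or.inr rfl, hψ', hr, by rw [hr]; exact haA, hc1, hm',
      hc2, fun x hx => hθ' x (by rw [hr]; exact hsub x hx)⟩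

end Pool.Agent.Lib.P9Q
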