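import Pool.Agent.Lib.P9Q.K3

/-!
# P9Q.K4b: merging two arcs, second case (a circle)

Data in normal form (as produced by `normal`): `φ a ∉ range ψ`, `ψ c ∉ range φ`, `θ` maps `Ioi a`
increasingly onto `Iio c`, `ψ (θ x) = φ x` for `x > a`; moreover `φ x₁ ∈ range ψ` for some
`x₁ ≤ a` (so `x₁ < a`).
Let `V = φ ⁻¹' (range ψ)` (open) and `η` from `inter_theta` (`ψ (η y) = φ y` on `V`, continuous and
injective on `V`; `η = θ` on `Ioi a`). By `half` (`range ψ ⊄ range φ` because of `c`) applied to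
`x₁`: `Iic x₁ ⊆ V` (the upper half line contains `a ∉ V`). Let `b = sInf {y | x₁ ≤ y ∧ y ∉ V}`:
`x₁ < b ≤ a`, `b ∉ V`, `Iio b ⊆ V` (`V` open). Every `y ∈ V` is in `Iio b` or in `Ioi a` (the half
line of `half` for `y` would contain `a` or `b` otherwise).
On `Iio b` `η` is continuous and injective, so strictly monotone or antitone. For `y < b`:
`η y > c`: it is not in `Iio c = θ '' Ioi a` (`φ` is injective) and not `c` (`ψ c ∉ range φ`). By
`escape` at `b` with `K = Icc c n`: `η y > n` for `y` close to `b`, `y < b`. Hence `η` is strictly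
increasing on `Iio b` and unbounded above.
Let `z₁ = η x₁ > c`, `p = φ x₁ = ψ z₁`. By the intermediate value theorem `η` maps `Ioo x₁ b` onto
`Ioi z₁`.
(*) If `φ x = ψ y`, `x > x₁` and `y < z₁` then `x > a` and `y = θ x`: otherwise `x₁ < x < b` and
`y = η x > z₁`.
Let `φ' t = φ (x₁ + exp t)`, `ψ' t = ψ (z₁ - exp (-t))`: open embeddings with ranges
`φ '' Ioi x₁`, `ψ '' Iio z₁` (`openEmb_of_inj`: continuous and injective). Apply `glue` to
`φ', ψ'` with `x₀' = log (a + 1 - x₁)` and `y₀'` with `z₁ - exp (-y₀') = θ (a + 1)`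
(`θ (a + 1) < c < z₁`); the hypothesis of `glue` follows from (*) and the monotonicity of `θ`. The
range of `χ` is `φ '' Ioc x₁ (a + 1) ∪ ψ '' Ico (θ (a + 1)) z₁`. This is
`(range φ ∪ range ψ) \ {p}`: `φ x` for `x > a + 1` is `ψ (θ x)` with
`θ (a + 1) < θ x < c < z₁`; `ψ y` for `y < θ (a + 1)` is `φ x` with `a < x < a + 1`; `φ y` for
`y < x₁` is `ψ (η y)` with `c < η y < z₁`; `ψ z` for `z > z₁` is `φ y` with `y ∈ Ioo x₁ b`; and
`p` is not in the range by injectivity of `φ` and of `ψ`.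
Finally `range φ ∪ range ψ = φ '' Icc x₁ (a + 1) ∪ ψ '' Icc (θ (a + 1)) z₁` is compact.
-/

namespace Pool.Agent.Lib.P9Q

open Set Topology

theorem merge2 {M : Type*} [TopologicalSpace M] [T2Space M] (hM : Arcs M) {φ ψ : ℝ → M}
    (hφ : IsOpenEmbedding φ) (hψ : IsOpenEmbedding ψ) {θ : ℝ → ℝ} {a c : ℝ}
    (ha : φ a ∉ range ψ) (hc : ψ c ∉ range φ)
    (hθ : StrictMonoOn θ (Ioi a)) (hb : BijOn θ (Ioi a) (Iio c)) (he : ∀ x > a, ψ (θ x) = φ x)
    {x₁ : ℝ} (hx₁ : x₁ ≤ a) (hn : φ x₁ ∈ range ψ) :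
    IsCompact (range φ ∪ range ψ) ∧ ∃ (p : M) (χ : ℝ → M), p ∈ range φ ∪ range ψ ∧
      IsOpenEmbedding χ ∧ range χ = (range φ ∪ range ψ) \ {p} := by
  obtain ⟨η, hηc, hηi, hη⟩ := inter_theta hφ hψ
  set V : Set ℝ := φ ⁻¹' range ψ with hV
  have hVo : IsOpen V := hψ.isOpen_range.preimage hφ.continuous
  have hnot : ¬ range ψ ⊆ range φ := fun h => hc (h ⟨c, rfl⟩)
  have hx₁a : x₁ < a := lt_of_le_of_ne hx₁ fun e => ha (e ▸ hn)
  have hlow : ∀ y ≤ x₁, φ y ∈ range ψ := by
    rcases half hφ hψ hnot hn with h | h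
    · exact absurd (h a hx₁) ha
    · exact h
  -- the point `b`
  set B : Set ℝ := Ici x₁ ∩ Vᶜ with hB
  have hBc : IsClosed B := isClosed_Ici.inter hVo.isClosed_compl
  have hBa : a ∈ B := ⟨hx₁, ha⟩
  have hBb : BddBelow B := ⟨x₁, fun y hy => hy.1⟩
  have hbB : sInf B ∈ B := hBc.csInf_mem ⟨a, hBa⟩ hBb
  have hba : sInf B ≤ a := csInf_le hBb hBa
  have hbl : ∀ y ∈ B, sInf B ≤ y := fun y hy => csInf_le hBb hy
  obtain ⟨b, hbdef⟩ : ∃ b, b = sInf B := ⟨_, rfl⟩
  rw [← hbdef] at hbB hba hbl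
  have hx₁b : x₁ < b := lt_of_le_of_ne hbB.1 fun e => hbB.2 (e ▸ hn)
  have hsub : Iio b ⊆ V := by
    intro y hy
    rcases le_or_gt y x₁ with h | h
    · exact hlow y h
    · by_contra hyV
      exact absurd (hbl y ⟨h.le, hyV⟩) (not_le.2 hy)
  have hdich : ∀ y, φ y ∈ range ψ → y < b ∨ a < y := by
    intro y hy
    by_contra hcon
    push Not at hcon
    obtain ⟨h1, h2⟩ := hcon
    rcases half hφ hψ hnot hy with h | h
    · exact ha (h a h2)
    · exact hbB.2 (h b h1)
  have hcI : ContinuousOn η (Iio b) := hηc.mono hsub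
  have hiI : InjOn η (Iio b) := hηi.mono hsub
  -- values of `η` below `b` are above `c`
  have hgt : ∀ y < b, c < η y := by
    intro y hy
    have h1 : ψ (η y) = φ y := hη y (hsub hy)
    rcases lt_trichotomy (η y) c with h | h | h
    · obtain ⟨x, hx, hx2⟩ := hb.surjOn h
      have h2 : φ x = φ y := by rw [← he x hx, hx2, h1]
      have h3 := hφ.injective h2
      have h4 : a < x := hx
      linarith
    · exact absurd ⟨y, by rw [← h1, h]⟩ hc
    · exact h
  have hesc : ∀ n L : ℝ, L < b → ∃ y ∈ Ioo L b, n < η y := by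
    intro n L hL
    have h1 : ∀ᶠ y in 𝓝[<] b, y ∈ Ioo L b := Ioo_mem_nhdsLT hL
    have h2 := (escape hφ hψ hbB.2 (isCompact_Icc (a := c) (b := n))).filter_mono
      (nhdsWithin_le_nhds (s := Iio b))
    obtain ⟨y, hy1, hy2⟩ := (h1.and h2).exists
    refine ⟨y, hy1, ?_⟩
    by_contra hcon
    exact hy2 ⟨η y, ⟨(hgt y hy1.2).le, not_lt.1 hcon⟩, hη y (hsub hy1.2)⟩
  have hmono : StrictMonoOn η (Iio b) := by
    intro u hu v hv huv
    have hu' : u < b := hu
    have hv' : v < b := hv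
    have hLb : u - 1 < b := by linarith
    have hS : Ioo (u - 1) b ⊆ Iio b := Ioo_subset_Iio_self
    have hu1 : u ∈ Ioo (u - 1) b := ⟨by linarith, hu'⟩
    have hv1 : v ∈ Ioo (u - 1) b := ⟨by linarith, hv'⟩
    rcases (hcI.mono hS).strictMonoOn_of_injOn_Ioo hLb (hiI.mono hS) with k | k
    · exact k hu1 hv1 huv
    · obtain ⟨y, hy, hy2⟩ := hesc (η v) v hv'
      have := k hv1 (show y ∈ Ioo (u - 1) b from ⟨by linarith [hy.1], hy.2⟩) hy.1
      exact absurd this (not_lt.2 hy2.le)
  obtain ⟨z₁, hz₁⟩ : ∃ z, z = η x₁ := ⟨_, rfl⟩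
  have hcz : c < z₁ := by rw [hz₁]; exact hgt x₁ hx₁b
  have hp : ψ z₁ = φ x₁ := by rw [hz₁]; exact hη x₁ hn
  have hsurj : ∀ z > z₁, ∃ x ∈ Ioo x₁ b, ψ z = φ x := by
    intro z hz
    obtain ⟨y, hy, hy2⟩ := hesc z x₁ hx₁b
    have hIcc : Icc x₁ y ⊆ Iio b := fun t ht => lt_of_le_of_lt ht.2 hy.2
    obtain ⟨x, hx, hx2⟩ := intermediate_value_Icc hy.1.le (hcI.mono hIcc)
      (show z ∈ Icc (η x₁) (η y) from ⟨by rw [← hz₁]; exact hz.le, hy2.le⟩)
    refine ⟨x, ⟨lt_of_le_of_ne hx.1 fun e => ?_, hIcc hx⟩, ?_⟩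
    · rw [← e, ← hz₁] at hx2
      exact absurd hx2 (ne_of_lt hz)
    · rw [← hx2]
      exact hη x (hsub (hIcc hx))
  have hstar : ∀ x y, φ x = ψ y → x₁ < x → y < z₁ → a < x ∧ y = θ x := by
    intro x y h hx hy
    rcases hdich x ⟨y, h.symm⟩ with h1 | h1
    · have h2 : y = η x := hψ.injective (by rw [← h, hη x (hsub h1)])
      have h3 := hmono (show x₁ ∈ Iio b from hx₁b) (show x ∈ Iio b from h1) hx
      rw [← hz₁, ← h2] at h3
      exact absurd hy (not_lt.2 h3.le)
    · exact ⟨h1, hψ.injective (by rw [← h, he x h1])⟩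
  -- gluing
  have ha1 : a + 1 ∈ Ioi a := by simp
  have hθc : θ (a + 1) < c := hb.mapsTo ha1
  have hθz : 0 < z₁ - θ (a + 1) := by linarith
  have hax : 0 < a + 1 - x₁ := by linarith
  have hφ' : IsOpenEmbedding fun t : ℝ => φ (x₁ + Real.exp t) := by
    apply openEmb_of_inj hM
    · exact hφ.continuous.comp (continuous_const.add Real.continuous_exp)
    · intro s t h
      have := hφ.injective h
      exact Real.exp_injective (by linarith)
  have hψ' : IsOpenEmbedding fun t : ℝ => ψ (z₁ - Real.exp (-t)) := by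
    apply openEmb_of_inj hM
    · exact hψ.continuous.comp (continuous_const.sub (Real.continuous_exp.comp continuous_neg))
    · intro s t h
      have := hψ.injective h
      exact neg_injective (Real.exp_injective (by linarith))
  obtain ⟨χ, hχ, hr⟩ := glue hM hφ' hψ' (Real.log (a + 1 - x₁)) (-Real.log (z₁ - θ (a + 1)))
    (by
      simp only [neg_neg]
      rw [Real.exp_log hax, Real.exp_log hθz]
      rw [show x₁ + (a + 1 - x₁) = a + 1 by ring, show z₁ - (z₁ - θ (a + 1)) = θ (a + 1) by ring]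
      exact (he _ ha1).symm)
    (by
      intro x y h hlt
      have e1 := Real.exp_pos x
      have e2 := Real.exp_pos (-y)
      obtain ⟨h1, h2⟩ := hstar _ _ h (by linarith) (by linarith)
      have h3 : Real.exp x < a + 1 - x₁ := by
        rw [← Real.exp_log hax]
        exact Real.exp_lt_exp.2 hlt
      have h4 := hθ (show x₁ + Real.exp x ∈ Ioi a from h1) ha1 (by linarith)
      rw [← h2] at h4
      have h5 : Real.exp (Real.log (z₁ - θ (a + 1))) < Real.exp (-y) := by
        rw [Real.exp_log hθz]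
        linarith
      have h6 := Real.exp_lt_exp.1 h5
      linarith)
  have hφm : ∀ x, x₁ < x → x ≤ a + 1 →
      φ x ∈ (fun t : ℝ => φ (x₁ + Real.exp t)) '' Iic (Real.log (a + 1 - x₁)) := by
    intro x h1 h2
    have h3 : 0 < x - x₁ := by linarith
    refine ⟨Real.log (x - x₁), Real.log_le_log h3 (by linarith), ?_⟩
    simp only
    rw [Real.exp_log h3]
    congr 1
    ring
  have hψm : ∀ w, θ (a + 1) ≤ w → w < z₁ →
      ψ w ∈ (fun t : ℝ => ψ (z₁ - Real.exp (-t))) '' Ici (-Real.log (z₁ - θ (a + 1))) := by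
    intro w h1 h2
    have h3 : 0 < z₁ - w := by linarith
    refine ⟨-Real.log (z₁ - w), neg_le_neg (Real.log_le_log h3 (by linarith)), ?_⟩
    simp only [neg_neg]
    rw [Real.exp_log h3]
    congr 1
    ring
  have hrange : range χ = (range φ ∪ range ψ) \ {φ x₁} := by
    rw [hr]
    apply Subset.antisymm
    · rintro _ (⟨t, -, rfl⟩ | ⟨t, -, rfl⟩)
      · refine ⟨Or.inl ⟨_, rfl⟩, fun h => ?_⟩
        have := hφ.injective h
        have e1 := Real.exp_pos t
        linarith
      · refine ⟨Or.inr ⟨_, rfl⟩, fun h => ?_⟩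
        have h1 : ψ (z₁ - Real.exp (-t)) = ψ z₁ := by rw [hp]; exact h
        have := hψ.injective h1
        have e1 := Real.exp_pos (-t)
        linarith
    · rintro _ ⟨⟨x, rfl⟩ | ⟨y, rfl⟩, hne⟩
      · rcases lt_trichotomy x x₁ with h | h | h
        · right
          have h1 : x < b := h.trans hx₁b
          rw [← hη x (hsub h1)]
          refine hψm _ (hθc.trans (hgt x h1)).le ?_
          rw [hz₁]
          exact hmono (show x ∈ Iio b from h1) (show x₁ ∈ Iio b from hx₁b) h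
        · exact absurd (by rw [h]; rfl) hne
        · rcases le_or_gt x (a + 1) with h1 | h1
          · exact Or.inl (hφm x h h1)
          · right
            have h2 : a < x := by linarith
            rw [← he x h2]
            refine hψm _ (hθ ha1 h2 h1).le ?_
            have h3 : θ x < c := hb.mapsTo h2
            linarith
      · rcases lt_trichotomy y z₁ with h | h | h
        · rcases lt_or_ge y (θ (a + 1)) with h1 | h1
          · left
            obtain ⟨x, hx, rfl⟩ := hb.surjOn (show y ∈ Iio c from lt_trans h1 hθc)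
            have hx' : a < x := hx
            have h2 : x < a + 1 := (hθ.lt_iff_lt hx ha1).1 h1
            rw [he x hx]
            exact hφm x (by linarith) h2.le
          · exact Or.inr (hψm y h1 h)
        · exact absurd (by rw [h, hp]; rfl) hne
        · left
          obtain ⟨x, hx, hx2⟩ := hsurj y h
          rw [hx2]
          exact hφm x hx.1 (by linarith [hx.2])
  refine ⟨?_, φ x₁, χ, Or.inl ⟨x₁, rfl⟩, hχ, hrange⟩
  have hset : range φ ∪ range ψ = φ '' Icc x₁ (a + 1) ∪ ψ '' Icc (θ (a + 1)) z₁ := by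
    apply Subset.antisymm
    · intro m hm
      by_cases hmp : m = φ x₁
      · left
        exact ⟨x₁, ⟨le_rfl, by linarith⟩, hmp.symm⟩
      · have h1 : m ∈ range χ := by
          rw [hrange]
          exact ⟨hm, hmp⟩
        rw [hr] at h1
        rcases h1 with ⟨t, ht, rfl⟩ | ⟨t, ht, rfl⟩
        · left
          have e1 := Real.exp_pos t
          have e2 : Real.exp t ≤ a + 1 - x₁ := by
            rw [← Real.exp_log hax]
            exact Real.exp_le_exp.2 ht
          exact ⟨_, ⟨by linarith, by linarith⟩, rfl⟩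
        · right
          have e1 := Real.exp_pos (-t)
          have ht' : -Real.log (z₁ - θ (a + 1)) ≤ t := ht
          have e2 : Real.exp (-t) ≤ z₁ - θ (a + 1) := by
            rw [← Real.exp_log hθz]
            exact Real.exp_le_exp.2 (by linarith)
          exact ⟨_, ⟨by linarith, by linarith⟩, rfl⟩
    · rintro _ (⟨x, -, rfl⟩ | ⟨y, -, rfl⟩)
      · exact Or.inl ⟨x, rfl⟩
      · exact Or.inr ⟨y, rfl⟩
  rw [hset]
  exact (isCompact_Icc.image hφ.continuous).union (isCompact_Icc.image hψ.continuous)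

end Pool.Agent.Lib.P9Q
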