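import Pool.Agent.Lib.P9Q.K4a
import Pool.Agent.Lib.P9Q.K4b

/-!
# P9Q.K4: merging two overlapping arcs

If one range contains the other we are in the first alternative (`χ = φ` or `χ = ψ`). Otherwise let
`φ x ∈ range ψ`; by `half` either `φ y ∈ range ψ` for all `y ≥ x`, or for all `y ≤ x`; in the second
case replace `φ` by `φ ∘ Neg.neg` (an open embedding with the same range). By `normal` we may
replace `ψ` by `ψ'` (same range). Now `merge1` or `merge2`, according to whether some `y ≤ a`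
satisfies `φ y ∈ range ψ`.
-/

namespace Pool.Agent.Lib.P9Q

open Set Topology

namespace K4Aux

theorem core {M : Type*} [TopologicalSpace M] [T2Space M] (hM : Arcs M) {φ ψ : ℝ → M}
    (hφ : IsOpenEmbedding φ) (hψ : IsOpenEmbedding ψ) (h1 : ¬ range ψ ⊆ range φ)
    (h2 : ¬ range φ ⊆ range ψ) {x : ℝ} (hx : ∀ y ≥ x, φ y ∈ range ψ) :
    (∃ χ : ℝ → M, IsOpenEmbedding χ ∧ range χ = range φ ∪ range ψ) ∨
      (IsCompact (range φ ∪ range ψ) ∧ ∃ (p : M) (χ : ℝ → M), p ∈ range φ ∪ range ψ ∧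
        IsOpenEmbedding χ ∧ range χ = (range φ ∪ range ψ) \ {p}) := by
  obtain ⟨ψ', θ, a, c, -, hψ', hr, ha, hc, hθ, hb, he⟩ := normal hφ hψ h1 h2 hx
  rw [← hr]
  by_cases hn : ∀ y ≤ a, φ y ∉ range ψ'
  · exact Or.inl (merge1 hM hφ hψ' hθ hb he hn)
  · push Not at hn
    obtain ⟨y, hy, hyn⟩ := hn
    exact Or.inr (merge2 hM hφ hψ' ha hc hθ hb he hy hyn)

end K4Aux

theorem merge {M : Type*} [TopologicalSpace M] [T2Space M] (hM : Arcs M) {φ ψ : ℝ → M}
    (hφ : IsOpenEmbedding φ) (hψ : IsOpenEmbedding ψ) (h : (range φ ∩ range ψ).Nonempty) :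
    (∃ χ : ℝ → M, IsOpenEmbedding χ ∧ range χ = range φ ∪ range ψ) ∨
      (IsCompact (range φ ∪ range ψ) ∧ ∃ (p : M) (χ : ℝ → M), p ∈ range φ ∪ range ψ ∧
        IsOpenEmbedding χ ∧ range χ = (range φ ∪ range ψ) \ {p}) := by
  by_cases h1 : range ψ ⊆ range φ
  · exact Or.inl ⟨φ, hφ, (union_eq_self_of_subset_right h1).symm⟩
  by_cases h2 : range φ ⊆ range ψ
  · exact Or.inl ⟨ψ, hψ, (union_eq_self_of_subset_left h2).symm⟩
  obtain ⟨m, ⟨x, rfl⟩, hx⟩ := h
  rcases half hφ hψ h1 hx with hh | hh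
  · exact K4Aux.core hM hφ hψ h1 h2 hh
  · have hφ' : IsOpenEmbedding (φ ∘ Neg.neg) := hφ.comp (Homeomorph.neg ℝ).isOpenEmbedding
    have hr : range (φ ∘ Neg.neg) = range φ := (Homeomorph.neg ℝ).surjective.range_comp φ
    have key := K4Aux.core hM hφ' hψ (by rwa [hr]) (by rwa [hr]) (x := -x)
      (fun y hy => hh (-y) (by linarith))
    rwa [hr] at key

end Pool.Agent.Lib.P9Q
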