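import Pool.Agent.Lib.P9Q.K3

/-!
# P9Q.K4a: merging two arcs, first case

Data in normal form (as produced by `normal`): `θ` maps `Ioi a` increasingly onto `Iio c` and
`ψ (θ x) = φ x` for `x > a`; no point `φ y`, `y ≤ a`, is in `range ψ`. Then `φ x = ψ y` implies
`x > a` and `y = θ x` (`ψ` is injective). Take `x₀ = a + 1`, `y₀ = θ x₀`; if `φ x = ψ y` and
`x < x₀` then `y = θ x < y₀`. `glue` gives `χ` with range `φ '' Iic x₀ ∪ ψ '' Ici y₀`, which is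
`range φ ∪ range ψ`: for `x > x₀`, `φ x = ψ (θ x)` with `θ x ≥ y₀`; for `y < y₀ < c`, `y = θ x` with
`a < x < x₀`, `ψ y = φ x`.
-/

namespace Pool.Agent.Lib.P9Q

open Set Topology

theorem merge1 {M : Type*} [TopologicalSpace M] (hM : Arcs M) {φ ψ : ℝ → M}
    (hφ : IsOpenEmbedding φ) (hψ : IsOpenEmbedding ψ) {θ : ℝ → ℝ} {a c : ℝ}
    (hθ : StrictMonoOn θ (Ioi a)) (hb : BijOn θ (Ioi a) (Iio c)) (he : ∀ x > a, ψ (θ x) = φ x)
    (hn : ∀ y ≤ a, φ y ∉ range ψ) :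
    ∃ χ : ℝ → M, IsOpenEmbedding χ ∧ range χ = range φ ∪ range ψ := by
  have hx0 : a + 1 ∈ Ioi a := by simp
  have key : ∀ x y, φ x = ψ y → a < x ∧ y = θ x := by
    intro x y h
    have hxa : a < x := by
      by_contra hc
      exact hn x (not_lt.1 hc) ⟨y, h.symm⟩
    refine ⟨hxa, hψ.injective ?_⟩
    rw [he x hxa, h]
  obtain ⟨χ, hχ, hr⟩ := glue hM hφ hψ (a + 1) (θ (a + 1)) (he _ hx0).symm (by
    intro x y h hlt
    obtain ⟨hxa, rfl⟩ := key x y h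
    exact hθ hxa hx0 hlt)
  refine ⟨χ, hχ, ?_⟩
  rw [hr]
  apply Subset.antisymm
  · rintro _ (⟨x, -, rfl⟩ | ⟨y, -, rfl⟩)
    · exact Or.inl ⟨x, rfl⟩
    · exact Or.inr ⟨y, rfl⟩
  · rintro _ (⟨x, rfl⟩ | ⟨y, rfl⟩)
    · rcases le_or_gt x (a + 1) with h | h
      · exact Or.inl ⟨x, h, rfl⟩
      · have hxa : a < x := lt_trans (by simp) h
        exact Or.inr ⟨θ x, (hθ hx0 hxa h).le, he x hxa⟩
    · rcases lt_or_ge y (θ (a + 1)) with h | h
      · have hc : θ (a + 1) < c := hb.mapsTo hx0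
        obtain ⟨x, hxa, rfl⟩ := hb.surjOn (show y ∈ Iio c from lt_trans h hc)
        have hx : x < a + 1 := (hθ.lt_iff_lt hxa hx0).1 h
        exact Or.inl ⟨x, hx.le, (he x hxa).symm⟩
      · exact Or.inr ⟨y, h, rfl⟩

end Pool.Agent.Lib.P9Q
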