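import Pool.Agent.Lib.P9Q.K4

/-!
# P9Q.K5: a compact connected one-manifold is a circle

`circle_of_connected`. Suppose that for some pair of arcs with a common point the second
alternative of `merge` holds: `N = range φ ∪ range ψ` is compact (closed) and open, so `N = univ`
(connectedness), and we are done. Otherwise any two arcs with a common point can be merged. By
compactness finitely many arcs `φ_i`, `i ∈ s`, cover `M`. Choose a set `t ⊆ s` of maximal
cardinality such that `⋃ i ∈ t, range φ_i` is the range of one arc `χ` (singletons qualify; `s` is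
nonempty). If `range χ ≠ univ` then by connectedness the nonempty open sets `⋃ i ∈ t` and
`⋃ i ∈ s \ t` (which cover `M`) meet, so some `φ_i`, `i ∈ s \ t`, meets `range χ`, and merging
contradicts the maximality of `t`. So `range χ = univ` and `ℝ` is homeomorphic to the compact
space `M`, a contradiction
(`IsOpenEmbedding` and surjective gives a homeomorphism; `ℝ` is noncompact:
`not_compactSpace_iff`).

`circle_homeo`. `M` is homeomorphic to `OnePoint ℝ` by `OnePoint.equivOfIsEmbeddingOfRangeEq`, and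
so is `TC`: the map `t ↦ ((exp t / (1 + exp t) : ℝ) : TC)` is an embedding with range `{0}ᶜ`
(for instance `openEmb_of_inj`, as `TC` satisfies `Arcs`; or restrict the quotient map to
`Ioo 0 1`, `AddCircle.openPartialHomeomorphCoe`).
-/

namespace Pool.Agent.Lib.P9Q

open Set Topology

namespace K5Aux

theorem no_line {M : Type*} [TopologicalSpace M] [CompactSpace M] {χ : ℝ → M}
    (hχ : IsOpenEmbedding χ) (hr : range χ = univ) : False := by
  apply noncompact_univ ℝ
  rw [hχ.isEmbedding.isCompact_iff, image_univ, hr]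
  exact isCompact_univ

theorem of_merge {M : Type*} [TopologicalSpace M] [CompactSpace M]
    [ConnectedSpace M] (hM : Arcs M)
    (hmerge : ∀ φ ψ : ℝ → M, IsOpenEmbedding φ → IsOpenEmbedding ψ →
      (range φ ∩ range ψ).Nonempty → ∃ χ : ℝ → M, IsOpenEmbedding χ ∧
        range χ = range φ ∪ range ψ) : False := by
  classical
  choose φ hφ hx using hM
  obtain ⟨s, hs⟩ := isCompact_univ.elim_finite_subcover (fun x => range (φ x))
    (fun x => (hφ x).isOpen_range) (fun x _ => mem_iUnion.2 ⟨x, hx x⟩)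
  have hcov : ∀ y : M, ∃ x ∈ s, y ∈ range (φ x) := by
    intro y
    have := hs (mem_univ y)
    simpa only [mem_iUnion, exists_prop] using this
  obtain ⟨y₀⟩ := (inferInstance : Nonempty M)
  obtain ⟨x₀, hx₀, -⟩ := hcov y₀
  let P : Finset M → Prop := fun t => ∃ χ : ℝ → M, IsOpenEmbedding χ ∧
    range χ = ⋃ i ∈ t, range (φ i)
  have hne : ((s.powerset).filter P).Nonempty := by
    refine ⟨{x₀}, Finset.mem_filter.2 ⟨Finset.mem_powerset.2 (Finset.singleton_subset_iff.2 hx₀),
      φ x₀, hφ x₀, ?_⟩⟩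
    simp
  obtain ⟨t, ht, hmax⟩ := Finset.exists_max_image _ (fun t => t.card) hne
  obtain ⟨hts, χ, hχ, hr⟩ := Finset.mem_filter.1 ht
  rw [Finset.mem_powerset] at hts
  -- no further arc meets `range χ`
  have hno : ∀ i ∈ s, i ∉ t → ¬ (range χ ∩ range (φ i)).Nonempty := by
    intro i hi hit hne2
    obtain ⟨χ', hχ', hr'⟩ := hmerge χ (φ i) hχ (hφ i) hne2
    have h1 : insert i t ∈ (s.powerset).filter P := by
      refine Finset.mem_filter.2 ⟨Finset.mem_powerset.2 (Finset.insert_subset hi hts), χ', hχ', ?_⟩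
      rw [hr', hr, Finset.set_biUnion_insert, union_comm]
    have h2 := hmax _ h1
    simp only [Finset.card_insert_of_notMem hit] at h2
    omega
  have hcompl : (range χ)ᶜ = ⋃ i ∈ {i | i ∈ s ∧ i ∉ t}, range (φ i) := by
    ext y
    simp only [mem_compl_iff, mem_iUnion, exists_prop, mem_ofPred_eq]
    constructor
    · intro hy
      obtain ⟨x, hxs, hyx⟩ := hcov y
      refine ⟨x, ⟨hxs, fun hxt => hy ?_⟩, hyx⟩
      rw [hr]
      exact mem_iUnion₂.2 ⟨x, hxt, hyx⟩
    · rintro ⟨i, ⟨hi, hit⟩, hyi⟩ hy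
      exact hno i hi hit ⟨y, hy, hyi⟩
  have hclopen : IsClopen (range χ) := by
    refine ⟨⟨?_⟩, hχ.isOpen_range⟩
    rw [hcompl]
    exact isOpen_biUnion (fun i _ => (hφ i).isOpen_range)
  exact no_line hχ (hclopen.eq_univ (range_nonempty χ))

end K5Aux

theorem circle_of_connected {M : Type*} [TopologicalSpace M] [T2Space M] [CompactSpace M]
    [ConnectedSpace M] (hM : Arcs M) :
    ∃ (p : M) (χ : ℝ → M), IsOpenEmbedding χ ∧ range χ = {p}ᶜ := by
  by_cases hcase : ∃ φ ψ : ℝ → M, IsOpenEmbedding φ ∧ IsOpenEmbedding ψ ∧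
      IsCompact (range φ ∪ range ψ) ∧ ∃ (p : M) (χ : ℝ → M), p ∈ range φ ∪ range ψ ∧
        IsOpenEmbedding χ ∧ range χ = (range φ ∪ range ψ) \ {p}
  · obtain ⟨φ, ψ, hφ, hψ, hcomp, p, χ, -, hχ, hr⟩ := hcase
    have hclopen : IsClopen (range φ ∪ range ψ) :=
      ⟨hcomp.isClosed, hφ.isOpen_range.union hψ.isOpen_range⟩
    have huniv := hclopen.eq_univ ((range_nonempty φ).mono subset_union_left)
    refine ⟨p, χ, hχ, ?_⟩
    rw [hr, huniv, compl_eq_univ_sdiff]
  · exfalso
    refine K5Aux.of_merge hM (fun φ ψ hφ hψ hne => ?_)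
    rcases merge hM hφ hψ hne with h | ⟨h1, h2⟩
    · exact h
    · exact absurd ⟨φ, ψ, hφ, hψ, h1, h2⟩ hcase

namespace K5Aux

theorem circle_line : ∃ (q : TC) (g : ℝ → TC), IsEmbedding g ∧ range g = {q}ᶜ := by
  let e1 : ℝ ≃o Ioo (-1 : ℝ) 1 := orderIsoIooNegOneOne ℝ
  let f : ℝ → ℝ := fun t => (e1 t : ℝ) / 2
  have hf : IsEmbedding f := by
    have h1 : IsEmbedding (fun t : ℝ => (e1 t : ℝ)) :=
      IsEmbedding.subtypeVal.comp e1.toHomeomorph.isEmbedding
    have h2 : IsEmbedding (fun x : ℝ => x / 2) := by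
      have h3 := (Homeomorph.mulRight₀ (2⁻¹ : ℝ) (by norm_num)).isEmbedding
      have h4 : (fun x : ℝ => x / 2) = ⇑(Homeomorph.mulRight₀ (2⁻¹ : ℝ) (by norm_num)) := by
        funext x
        simp [div_eq_mul_inv]
      rw [h4]
      exact h3
    exact h2.comp h1
  have hfr : range f = Ioo (-1 / 2 : ℝ) (-1 / 2 + 1) := by
    ext y
    constructor
    · rintro ⟨t, rfl⟩
      have := (e1 t).2
      simp only [mem_Ioo] at this
      constructor
      · show (-1 / 2 : ℝ) < (e1 t : ℝ) / 2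
        linarith
      · show (e1 t : ℝ) / 2 < (-1 / 2 + 1 : ℝ)
        linarith
    · rintro ⟨h1, h2⟩
      refine ⟨e1.symm ⟨2 * y, by constructor <;> linarith⟩, ?_⟩
      show ((e1 (e1.symm ⟨2 * y, _⟩) : Ioo (-1 : ℝ) 1) : ℝ) / 2 = y
      rw [OrderIso.apply_symm_apply]
      simp
  let e2 := AddCircle.openPartialHomeomorphCoe (1 : ℝ) (-1 / 2 : ℝ)
  have hsrc : e2.source = Ioo (-1 / 2 : ℝ) (-1 / 2 + 1) := rfl
  have hmem : ∀ t, f t ∈ e2.source := by
    intro t
    rw [hsrc, ← hfr]
    exact mem_range_self t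
  refine ⟨((-1 / 2 : ℝ) : TC), e2.source.domRestrict e2 ∘ codRestrict f e2.source hmem, ?_, ?_⟩
  · exact e2.isOpenEmbedding_restrict.isEmbedding.comp (hf.codRestrict _ hmem)
  · have h3 : range (e2.source.domRestrict e2 ∘ codRestrict f e2.source hmem) = e2 '' range f := by
      rw [← range_comp]
      rfl
    rw [h3, hfr, ← hsrc, e2.image_source_eq_target]
    rfl

end K5Aux

theorem circle_homeo {M : Type*} [TopologicalSpace M] [T2Space M] [CompactSpace M]
    [ConnectedSpace M] (hM : Arcs M) : Nonempty (M ≃ₜ TC) := by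
  obtain ⟨p, χ, hχ, hr⟩ := circle_of_connected hM
  obtain ⟨q, g, hg, hgr⟩ := K5Aux.circle_line
  exact ⟨(OnePoint.equivOfIsEmbeddingOfRangeEq p χ hχ.isEmbedding hr).symm.trans
    (OnePoint.equivOfIsEmbeddingOfRangeEq q g hg hgr)⟩

end Pool.Agent.Lib.P9Q
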