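import Pool.Agent.Lib.P9Q.LDefs
import Pool.Agent.Lib.P9Q.GStab

/-!
# P9Q.LCorr: an isomorphism of line structures gives a correspondence

Let `σ` be an isomorphism of `lineStr ρ` with `lineStr ρ'`. The relation symbol `some (1, false)`
shows: `q` is valid (`q = inl r` with `r ∈ UU ρ`) iff `σ q` is valid, and for valid
`q = inl r`, `q₁ = inl r₁`, `σ q = inl s`, `σ q₁ = inl s₁`: `Conn ρ r r₁ ↔ Conn ρ' s s₁`
(`ρ 1 = 1`).
Put `R x x' := ∃ r s : ℚ, Conn ρ x r ∧ σ (inl r) = inl s ∧ Conn ρ' s x'`.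
`dom`: `Conn.left`, `Conn.right`. `left`: `Conn_exists`; `σ (inl r)` is valid. `right`: the same
with `σ⁻¹`. `conn`: from the displayed equivalence and transitivity. `sat`: transitivity (both
components contain the same rationals `r`, `s`).
`lt`: let `x < y`, not connected, rationals `r, r₁` with `Conn ρ x r`, `Conn ρ y r₁`. By `lt_of_lt`
`r < r₁`, so the relation `none` holds for `inl r, inl r₁` (`¬ Conn ρ r r₁`), hence for
`inl s, inl s₁`: `s < s₁`, not connected; by `lt_of_lt` for `ρ'`, `x' < y'`.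
`eqv`: let `R x x'` with `r, s`. Choose a rational `t` with `Conn ρ (ρ γ x) t` (`UU_inv`); by
`Conn_act`, `Conn ρ (ρ γ r) t`, so the relation `some (γ, false)` holds for `inl r, inl t`, hence
`σ (inl t) = inl t'` (valid) and `Conn ρ' (ρ' γ s) t'`; so `R (ρ γ x) (ρ' γ x')` with `t, t'`.
`pos`: let `Conn ρ x (ρ γ x)`; then `Conn ρ r (ρ γ r)` and `Conn ρ' s (ρ' γ s)` (by the relation
`some (γ, false)` for `inl r, inl r`) and `Conn ρ' x' (ρ' γ x')`. By `comp_cases` `x < ρ γ x` iff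
`r < ρ γ r` (both in the same component), iff (relation `some (γ, true)` for `inl r`)
`s < ρ' γ s`, iff `x' < ρ' γ x'`.
-/

namespace Pool.Agent.Lib.P9Q

open Set

variable {Γ : Type*} [Group Γ] {ρ ρ' : Γ →* Equiv.Perm ℝ} {ε : Γ →* ℤˣ}

namespace LCorrAux

theorem pos_iff (hρ : Mon ρ ε) {x y : ℝ} {γ : Γ} (h : Conn ρ x (ρ γ x)) (hy : Conn ρ x y) :
    x < ρ γ x ↔ y < ρ γ y := by
  have hx : Conn ρ x x := Conn_self.2 h.left
  rcases comp_cases hρ h with h1 | h1 | h1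
  · rw [h1 x hx, h1 y hy]
    exact ⟨fun h => absurd h (lt_irrefl _), fun h => absurd h (lt_irrefl _)⟩
  · exact ⟨fun _ => h1 y hy, fun _ => h1 x hx⟩
  · exact ⟨fun h => absurd h (lt_asymm (h1 x hx)), fun h => absurd h (lt_asymm (h1 y hy))⟩

end LCorrAux

open LCorrAux

theorem exists_corr (hρ : Mon ρ ε) (hρ' : Mon ρ' ε) (h : SIso (lineStr ρ) (lineStr ρ')) :
    ∃ R, Corr ρ ρ' R := by
  obtain ⟨σ, hσ⟩ := h
  have one : ∀ (τ : Γ →* Equiv.Perm ℝ) (x : ℝ), τ 1 x = x := by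
    intro τ x
    rw [map_one]
    rfl
  have A1 : ∀ r : ℚ, Conn ρ r r → ∃ s : ℚ, σ (Sum.inl r) = Sum.inl s ∧ Conn ρ' s s := by
    intro r hr
    have h1 := (hσ (some (1, false)) (Sum.inl r) (Sum.inl r)).1
      (show Conn ρ (ρ 1 r) r by rw [one]; exact hr)
    rcases h2 : σ (Sum.inl r) with s | n
    · rw [h2] at h1
      have h3 : Conn ρ' (ρ' 1 s) s := h1
      rw [one] at h3
      exact ⟨s, rfl, h3⟩
    · rw [h2] at h1
      exact absurd h1 (fun h => h)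
  have A2 : ∀ s : ℚ, Conn ρ' s s → ∃ r : ℚ, σ (Sum.inl r) = Sum.inl s ∧ Conn ρ r r := by
    intro s hs
    have h1 := (hσ (some (1, false)) (σ.symm (Sum.inl s)) (σ.symm (Sum.inl s))).2 (by
      rw [Equiv.apply_symm_apply]
      show Conn ρ' (ρ' 1 s) s
      rw [one]
      exact hs)
    rcases h2 : σ.symm (Sum.inl s) with r | n
    · rw [h2] at h1
      have h3 : Conn ρ (ρ 1 r) r := h1
      rw [one] at h3
      refine ⟨r, ?_, h3⟩
      rw [← h2, Equiv.apply_symm_apply]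
    · rw [h2] at h1
      exact absurd h1 (fun h => h)
  have F1 : ∀ (γ : Γ) (r s t t' : ℚ), σ (Sum.inl r) = Sum.inl s → σ (Sum.inl t) = Sum.inl t' →
      (Conn ρ (ρ γ r) t ↔ Conn ρ' (ρ' γ s) t') := by
    intro γ r s t t' h1 h2
    have h3 := hσ (some (γ, false)) (Sum.inl r) (Sum.inl t)
    rw [h1, h2] at h3
    exact h3
  have F2 : ∀ (γ : Γ) (r s : ℚ), σ (Sum.inl r) = Sum.inl s →
      ((Conn ρ (ρ γ r) r ∧ (r : ℝ) < ρ γ r) ↔ (Conn ρ' (ρ' γ s) s ∧ (s : ℝ) < ρ' γ s)) := by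
    intro γ r s h1
    have h3 := hσ (some (γ, true)) (Sum.inl r) (Sum.inl r)
    rw [h1] at h3
    exact h3
  have F3 : ∀ (r s t t' : ℚ), σ (Sum.inl r) = Sum.inl s → σ (Sum.inl t) = Sum.inl t' →
      (((r : ℝ) < t ∧ Conn ρ r r ∧ Conn ρ t t ∧ ¬ Conn ρ r t) ↔
        ((s : ℝ) < t' ∧ Conn ρ' s s ∧ Conn ρ' t' t' ∧ ¬ Conn ρ' s t')) := by
    intro r s t t' h1 h2
    have h3 := hσ none (Sum.inl r) (Sum.inl t)
    rw [h1, h2] at h3
    exact h3
  refine ⟨fun x x' => ∃ r s : ℚ, Conn ρ x r ∧ σ (Sum.inl r) = Sum.inl s ∧ Conn ρ' s x',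
    ?_, ?_, ?_, ?_, ?_, ?_, ?_, ?_⟩
  · rintro x x' ⟨r, s, h1, _, h3⟩
    exact ⟨h1.left, h3.right⟩
  · intro x hx
    obtain ⟨r, hr⟩ := Conn_exists hx
    obtain ⟨s, h1, h2⟩ := A1 r (Conn_self.2 hr.right)
    exact ⟨s, r, s, hr, h1, h2⟩
  · intro x' hx'
    obtain ⟨s, hs⟩ := Conn_exists hx'
    obtain ⟨r, h1, h2⟩ := A2 s (Conn_self.2 hs.right)
    exact ⟨r, r, s, h2, h1, hs.symm⟩
  · rintro x x' y y' ⟨r, s, h1, h2, h3⟩ ⟨t, t', h4, h5, h6⟩
    have h7 := F1 1 r s t t' h2 h5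
    rw [one, one] at h7
    constructor
    · intro h
      exact (h3.symm.trans (h7.1 ((h1.symm.trans h).trans h4))).trans h6
    · intro h
      exact (h1.trans (h7.2 ((h3.trans h).trans h6.symm))).trans h4.symm
  · rintro x x' y y' ⟨r, s, h1, h2, h3⟩ h4 h5
    exact ⟨r, s, h4.symm.trans h1, h2, h3.trans h5⟩
  · rintro x x' y y' ⟨r, s, h1, h2, h3⟩ ⟨t, t', h4, h5, h6⟩ hlt hn
    have h7 : (r : ℝ) < t := lt_of_lt hlt hn h1 h4
    have h8 : ¬ Conn ρ r t := fun h => hn ((h1.trans h).trans h4.symm)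
    obtain ⟨h9, _, _, h10⟩ := (F3 r s t t' h2 h5).1
      ⟨h7, Conn_self.2 h1.right, Conn_self.2 h4.right, h8⟩
    exact lt_of_lt h9 h10 h3 h6
  · rintro γ x x' ⟨r, s, h1, h2, h3⟩
    obtain ⟨t, ht⟩ := Conn_exists ((UU_inv hρ γ).2 h1.left)
    obtain ⟨t', h4, _⟩ := A1 t (Conn_self.2 ht.right)
    have h5 : Conn ρ (ρ γ r) t := ((Conn_act hρ γ).2 h1).symm.trans ht
    have h6 := (F1 γ r s t t' h2 h4).1 h5
    exact ⟨t, t', ht, h4, h6.symm.trans ((Conn_act hρ' γ).2 h3)⟩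
  · rintro γ x x' ⟨r, s, h1, h2, h3⟩ hx
    have h4 : Conn ρ (ρ γ r) r := (((Conn_act hρ γ).2 h1).symm.trans hx.symm).trans h1
    have h5 : Conn ρ' (ρ' γ s) s := (F1 γ r s r s h2 h2).1 h4
    have h6 := pos_iff hρ hx h1
    have h7 := pos_iff hρ' h5.symm h3
    have h8 := F2 γ r s h2
    rw [h6, ← h7]
    constructor
    · intro h
      exact (h8.1 ⟨h4, h⟩).2
    · intro h
      exact (h8.2 ⟨h5, h⟩).2

end Pool.Agent.Lib.P9Q
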