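import Pool.Agent.Lib.P9Q.Defs

/-!
# P9Q.LDefs: correspondences between good sets (complete, nothing to prove)
-/

namespace Pool.Agent.Lib.P9Q

open Set

variable {Γ : Type*} [Group Γ]

/-- A correspondence between the components of two good sets: `R x x'` says that the component of
`x'` corresponds to the component of `x`. -/
structure Corr (ρ ρ' : Γ →* Equiv.Perm ℝ) (R : ℝ → ℝ → Prop) : Prop where
  dom : ∀ x x', R x x' → x ∈ UU ρ ∧ x' ∈ UU ρ'
  left : ∀ x ∈ UU ρ, ∃ x', R x x'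
  right : ∀ x' ∈ UU ρ', ∃ x, R x x'
  conn : ∀ x x' y y', R x x' → R y y' → (Conn ρ x y ↔ Conn ρ' x' y')
  sat : ∀ x x' y y', R x x' → Conn ρ x y → Conn ρ' x' y' → R y y'
  lt : ∀ x x' y y', R x x' → R y y' → x < y → ¬ Conn ρ x y → x' < y'
  eqv : ∀ γ x x', R x x' → R (ρ γ x) (ρ' γ x')
  pos : ∀ γ x x', R x x' → Conn ρ x (ρ γ x) → (x < ρ γ x ↔ x' < ρ' γ x')

end Pool.Agent.Lib.P9Q
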