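import Pool.Agent.Lib.P9Q.LLoc
import Pool.Agent.Lib.P9Q.Eqv

/-!
# P9Q.LExt: the equivariant monotone bijection of the good sets

Apply `equivariant_extension` with `X = X' = ℝ`, `S = UU ρ`, `S' = UU ρ'`, `A = A' = Set ℝ`,
`c x = {y | Conn ρ x y}`, `c' x' = {y' | Conn ρ' x' y'}` (for `x, y ∈ UU ρ`: `c x = c y` iff
`Conn ρ x y`), `τ I = {y' | ∃ x x', x ∈ I ∧ R x x' ∧ Conn ρ' x' y'}`, so that `τ (c x) = c' x'` iff
`R x x'`, for `x ∈ UU ρ`, `x' ∈ UU ρ'` (`left`, `conn`, `sat`). For `a ∈ UU ρ` choose `a'` with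
`R a a'` and `loc a` from `exists_loc`. All hypotheses follow from `Corr`, `UU_inv`, `Conn_act`.
The result is `h : ℝ → ℝ`, bijective from `UU ρ` onto `UU ρ'` and equivariant, with
`R x (h x)` for `x ∈ UU ρ`. It is strictly increasing: let `x < y` be in `UU ρ`. If `¬ Conn ρ x y`
use `lt`. If `Conn ρ x y` then by the last clause of `equivariant_extension` (with `a = x`) there
are `γ, b` with `h z = ρ' γ (loc b (ρ γ⁻¹ z))` for `z = x, y`; `loc b` is strictly increasing on the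
component of `b`, and `ρ γ⁻¹` and `ρ' γ` are both increasing or both antitone (`ε γ⁻¹ = ε γ`).
-/

namespace Pool.Agent.Lib.P9Q

open Set

variable {Γ : Type*} [Group Γ] {ρ ρ' : Γ →* Equiv.Perm ℝ} {ε : Γ →* ℤˣ}

namespace LExtAux

theorem cls_eq {x y : ℝ} (hy : y ∈ UU ρ) :
    {z | Conn ρ x z} = {z | Conn ρ y z} ↔ Conn ρ x y := by
  constructor
  · intro h
    have h1 : y ∈ {z | Conn ρ y z} := Conn_self.2 hy
    rw [← h] at h1
    exact h1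
  · intro h
    ext z
    exact ⟨fun hz => h.symm.trans hz, fun hz => h.trans hz⟩

/-- the corresponding class -/
def tau (ρ' : Γ →* Equiv.Perm ℝ) (R : ℝ → ℝ → Prop) (I : Set ℝ) : Set ℝ :=
  {y' | ∃ x x', x ∈ I ∧ R x x' ∧ Conn ρ' x' y'}

theorem tau_eq {R : ℝ → ℝ → Prop} (hR : Corr ρ ρ' R) {x x' : ℝ} (hx : x ∈ UU ρ)
    (hx' : x' ∈ UU ρ') : tau ρ' R {z | Conn ρ x z} = {z | Conn ρ' x' z} ↔ R x x' := by
  constructor
  · intro h
    have h1 : x' ∈ {z | Conn ρ' x' z} := Conn_self.2 hx'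
    rw [← h] at h1
    obtain ⟨z, z', hz, hzz, hz'⟩ := h1
    exact hR.sat z z' x x' hzz (Conn.symm hz) hz'
  · intro h
    ext y'
    constructor
    · rintro ⟨z, z', hz, hzz, hz'⟩
      exact ((hR.conn x x' z z' h hzz).1 hz).trans hz'
    · intro hy
      exact ⟨x, x', Conn_self.2 hx, h, hy⟩

theorem act_inv_act (γ : Γ) (x : ℝ) : ρ γ⁻¹ (ρ γ x) = x := by
  rw [← Equiv.Perm.mul_apply, ← map_mul, inv_mul_cancel, map_one, Equiv.Perm.one_apply]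

end LExtAux

theorem exists_ext (hρ : Mon ρ ε) (hρ' : Mon ρ' ε) {R : ℝ → ℝ → Prop} (hR : Corr ρ ρ' R) :
    ∃ h : ℝ → ℝ, BijOn h (UU ρ) (UU ρ') ∧ StrictMonoOn h (UU ρ) ∧
      ∀ γ, ∀ x ∈ UU ρ, h (ρ γ x) = ρ' γ (h x) := by
  classical
  have hl : ∀ a ∈ UU ρ, ∃ (h : ℝ → ℝ) (a' : ℝ), R a a' ∧
      BijOn h {y | Conn ρ a y} {y' | Conn ρ' a' y'} ∧ StrictMonoOn h {y | Conn ρ a y} ∧
      ∀ γ, Conn ρ a (ρ γ a) → ∀ y, Conn ρ a y → h (ρ γ y) = ρ' γ (h y) := by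
    intro a ha
    obtain ⟨a', ha'⟩ := hR.left a ha
    obtain ⟨h, h1, h2, h3⟩ := exists_loc hρ hρ' hR ha'
    exact ⟨h, a', ha', h1, h2, h3⟩
  choose! loc a' hRa hbij hmono hst using hl
  have hcc : ∀ x, ∀ y ∈ UU ρ, ({z | Conn ρ x z} = {z | Conn ρ y z} ↔ Conn ρ x y) :=
    fun x y hy => LExtAux.cls_eq hy
  have hτR : ∀ x ∈ UU ρ, ∀ x' ∈ UU ρ',
      (LExtAux.tau ρ' R {z | Conn ρ x z} = {z | Conn ρ' x' z} ↔ R x x') :=
    fun x hx x' hx' => LExtAux.tau_eq hR hx hx'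
  have hinvS : ∀ γ, ∀ x ∈ UU ρ, ρ γ x ∈ UU ρ := fun γ x hx => (UU_inv hρ γ).2 hx
  have hinvS' : ∀ γ, ∀ x ∈ UU ρ', ρ' γ x ∈ UU ρ' := fun γ x hx => (UU_inv hρ' γ).2 hx
  have hset : ∀ a ∈ UU ρ, {x | x ∈ UU ρ ∧ {z | Conn ρ x z} = {z | Conn ρ a z}} =
      {y | Conn ρ a y} := by
    intro a ha
    ext x
    constructor
    · rintro ⟨_, h2⟩
      exact Conn.symm ((hcc x a ha).1 h2)
    · intro h
      exact ⟨Conn.right h, (hcc x a ha).2 (Conn.symm h)⟩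
  have hset' : ∀ a ∈ UU ρ, {z' | z' ∈ UU ρ' ∧ {z | Conn ρ' z' z} =
      LExtAux.tau ρ' R {z | Conn ρ a z}} = {y' | Conn ρ' (a' a) y'} := by
    intro a ha
    have h0 : a' a ∈ UU ρ' := (hR.dom a (a' a) (hRa a ha)).2
    have h1 : LExtAux.tau ρ' R {z | Conn ρ a z} = {z | Conn ρ' (a' a) z} :=
      (hτR a ha (a' a) h0).2 (hRa a ha)
    ext x
    rw [h1]
    constructor
    · rintro ⟨_, h2⟩
      exact Conn.symm ((LExtAux.cls_eq h0).1 h2)
    · intro h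
      exact ⟨Conn.right h, (LExtAux.cls_eq h0).2 (Conn.symm h)⟩
  obtain ⟨H, hH, heq, hcl, hlast⟩ := equivariant_extension ρ ρ' (UU ρ) (UU ρ') hinvS hinvS'
    (fun x => {y | Conn ρ x y}) (fun x => {y | Conn ρ' x y}) (LExtAux.tau ρ' R)
    (fun γ x _ y hy h => (LExtAux.cls_eq (hinvS γ y hy)).2
      ((Conn_act hρ γ).2 ((LExtAux.cls_eq hy).1 h)))
    (fun γ x _ y hy h => (LExtAux.cls_eq (hinvS' γ y hy)).2
      ((Conn_act hρ' γ).2 ((LExtAux.cls_eq hy).1 h)))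
    (by
      intro x hx y hy h
      obtain ⟨x', hx'⟩ := hR.left x hx
      have h0 := (hR.dom x x' hx').2
      have h1 : LExtAux.tau ρ' R {z | Conn ρ y z} = {z | Conn ρ' x' z} :=
        h.symm.trans ((hτR x hx x' h0).2 hx')
      have h2 : R y x' := (hτR y hy x' h0).1 h1
      exact (LExtAux.cls_eq hy).2 ((hR.conn x x' y x' hx' h2).2 (Conn_self.2 h0)))
    (by
      intro z hz
      obtain ⟨x, hx⟩ := hR.right z hz
      exact ⟨x, (hR.dom x z hx).1, (hτR x (hR.dom x z hx).1 z hz).2 hx⟩)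
    (fun γ x hx z hz h => (hτR (ρ γ x) (hinvS γ x hx) (ρ' γ z) (hinvS' γ z hz)).2
      (hR.eqv γ x z ((hτR x hx z hz).1 h)))
    loc
    (by
      intro a ha
      have h1 := hbij a ha
      rw [← hset a ha, ← hset' a ha] at h1
      exact h1)
    (by
      intro a ha γ h x _ h2
      exact hst a ha γ (Conn.symm ((hcc (ρ γ a) a ha).1 h)) x (Conn.symm ((hcc x a ha).1 h2)))
  refine ⟨H, hH, ?_, heq⟩
  have hRH : ∀ x ∈ UU ρ, R x (H x) := fun x hx =>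
    (hτR x hx (H x) (hH.mapsTo hx)).1 (hcl x hx).symm
  intro x hx y hy hxy
  by_cases hc : Conn ρ x y
  · obtain ⟨γ, b, hb, hγb, hz⟩ := hlast x hx
    have hx1 : H x = ρ' γ (loc b (ρ γ⁻¹ x)) := hz x hx rfl
    have hy1 : H y = ρ' γ (loc b (ρ γ⁻¹ y)) :=
      hz y hy ((LExtAux.cls_eq hx).2 (Conn.symm hc))
    have hbx : Conn ρ (ρ γ b) x := (LExtAux.cls_eq hx).1 hγb
    have hbx' : Conn ρ b (ρ γ⁻¹ x) := by
      have := (Conn_act hρ γ⁻¹).2 hbx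
      rwa [LExtAux.act_inv_act] at this
    have hby' : Conn ρ b (ρ γ⁻¹ y) := by
      have := (Conn_act hρ γ⁻¹).2 (hbx.trans hc)
      rwa [LExtAux.act_inv_act] at this
    rw [hx1, hy1]
    rcases Int.units_eq_one_or (ε γ) with he | he
    · have he' : ε γ⁻¹ = 1 := by rw [map_inv, he, inv_one]
      exact hρ'.inc γ he (hmono b hb hbx' hby' (hρ.inc γ⁻¹ he' hxy))
    · have he' : ε γ⁻¹ = -1 := by rw [map_inv, he]; rfl
      exact hρ'.dec γ he (hmono b hb hby' hbx' (hρ.dec γ⁻¹ he' hxy))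
  · exact hR.lt x (H x) y (H y) (hRH x hx) (hRH y hy) hxy hc

end Pool.Agent.Lib.P9Q
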