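import Pool.Agent.Lib.P9Q.Loc0

/-!
# P9Q.Loc1: fixed point free increasing maps of an interval are conjugate

Proof of `conj_translation`. The orbit of `0` is strictly increasing and unbounded in both
directions: if the increasing sequence `R^n 0` were bounded its supremum `s` would satisfy
`R s = s` (an order isomorphism of `ℝ` is continuous, `OrderIso.continuous`), contradiction;
similarly for `R^(-n) 0`. Hence for every `x` there is a unique `n : ℤ` with
`(R^n) 0 ≤ x < (R^(n+1)) 0`. Put `w t = t * R 0` (an increasing bijection of `[0, 1)` onto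
`[0, R 0)`) and `ψ x = (R ^ ⌊x⌋) (w (Int.fract x))` (powers in the group `ℝ ≃o ℝ`). Then
`ψ (x + 1) = R (ψ x)`; `ψ` is strictly increasing (compare floors: if `⌊x⌋ < ⌊y⌋` then
`ψ x < (R^(⌊x⌋+1)) 0 ≤ (R^⌊y⌋) 0 ≤ ψ y`) and surjective. `StrictMono.orderIsoOfSurjective`.

Proof of `loc_conj`. Transport `r` and `r'` to `ℝ` with `exists_bij_real`
(`R t = u (r (v t))`, an increasing bijection of `ℝ` with `t < R t`), take `ψ, ψ'` from
`conj_translation` for `R, R'`, and `h = v' ∘ ψ' ∘ ψ⁻¹ ∘ u`.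
-/

namespace Pool.Agent.Lib.P9Q

open Set

namespace Loc1Aux

variable (R : ℝ ≃o ℝ)

/-- The orbit of `0`. -/
def orb (n : ℤ) : ℝ := (R ^ n) 0

theorem orb_succ (n : ℤ) : orb R (n + 1) = R (orb R n) := by
  unfold orb
  rw [add_comm, zpow_one_add]
  rfl

theorem pow_succ_apply (n : ℤ) (x : ℝ) : (R ^ (n + 1)) x = R ((R ^ n) x) := by
  rw [add_comm, zpow_one_add]
  rfl

theorem pow_succ_apply' (n : ℤ) (x : ℝ) : (R ^ (n + 1)) x = (R ^ n) (R x) := by
  rw [zpow_add_one]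
  rfl

theorem orb_mono (hR : ∀ x, x < R x) : StrictMono (orb R) := by
  apply strictMono_int_of_lt_succ
  intro n
  rw [orb_succ]
  exact hR _

theorem orb_above (hR : ∀ x, x < R x) (x : ℝ) : ∃ n, x < orb R n := by
  by_contra hcon
  push Not at hcon
  have hb : BddAbove (range (orb R)) := ⟨x, by rintro _ ⟨n, rfl⟩; exact hcon n⟩
  have hne : (range (orb R)).Nonempty := ⟨_, ⟨0, rfl⟩⟩
  have h1 : R.symm (sSup (range (orb R))) < sSup (range (orb R)) := by
    have h2 := hR (R.symm (sSup (range (orb R))))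
    rwa [OrderIso.apply_symm_apply] at h2
  obtain ⟨_, ⟨n, rfl⟩, h3⟩ := exists_lt_of_lt_csSup hne h1
  have h4 : sSup (range (orb R)) < orb R (n + 1) := by
    rw [orb_succ]
    have h5 := R.strictMono h3
    rwa [OrderIso.apply_symm_apply] at h5
  exact absurd (le_csSup hb ⟨n + 1, rfl⟩) (not_le.2 h4)

theorem orb_below (hR : ∀ x, x < R x) (x : ℝ) : ∃ n, orb R n < x := by
  by_contra hcon
  push Not at hcon
  have hb : BddBelow (range (orb R)) := ⟨x, by rintro _ ⟨n, rfl⟩; exact hcon n⟩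
  have hne : (range (orb R)).Nonempty := ⟨_, ⟨0, rfl⟩⟩
  have h1 := hR (sInf (range (orb R)))
  obtain ⟨_, ⟨n, rfl⟩, h3⟩ := exists_lt_of_csInf_lt hne h1
  have h4 : orb R (n - 1) < sInf (range (orb R)) := by
    have h5 : R (orb R (n - 1)) = orb R n := by
      rw [← orb_succ, sub_add_cancel]
    rw [← h5] at h3
    exact R.lt_iff_lt.1 h3
  exact absurd (csInf_le hb ⟨n - 1, rfl⟩) (not_le.2 h4)

theorem orb_cell (hR : ∀ x, x < R x) (x : ℝ) : ∃ n, orb R n ≤ x ∧ x < orb R (n + 1) := by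
  obtain ⟨m, hm⟩ := orb_above R hR x
  obtain ⟨k, hk⟩ := orb_below R hR x
  obtain ⟨n, hn, hn'⟩ := Int.exists_greatest_of_bdd (P := fun n => orb R n ≤ x)
    ⟨m, fun z hz => by
      by_contra h
      push Not at h
      have := orb_mono R hR h
      linarith⟩ ⟨k, hk.le⟩
  refine ⟨n, hn, ?_⟩
  by_contra h
  push Not at h
  have := hn' (n + 1) h
  omega

/-- The conjugation. -/
noncomputable def psi (x : ℝ) : ℝ := (R ^ ⌊x⌋) (Int.fract x * R 0)

theorem psi_add (x : ℝ) : psi R (x + 1) = R (psi R x) := by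
  unfold psi
  rw [Int.floor_add_one, Int.fract_add_one, pow_succ_apply]

theorem psi_mono (hR : ∀ x, x < R x) : StrictMono (psi R) := by
  intro x y hxy
  have hc : 0 < R 0 := hR 0
  unfold psi
  rcases (Int.floor_mono hxy.le).lt_or_eq with h | h
  · have h1 : (R ^ ⌊x⌋) (Int.fract x * R 0) < orb R (⌊x⌋ + 1) := by
      unfold orb
      rw [pow_succ_apply']
      apply (R ^ ⌊x⌋).strictMono
      have := Int.fract_lt_one x
      nlinarith
    have h2 : orb R (⌊x⌋ + 1) ≤ orb R ⌊y⌋ := (orb_mono R hR).monotone h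
    have h3 : orb R ⌊y⌋ ≤ (R ^ ⌊y⌋) (Int.fract y * R 0) := by
      unfold orb
      apply (R ^ ⌊y⌋).monotone
      have := Int.fract_nonneg y
      positivity
    linarith
  · rw [h]
    apply (R ^ ⌊y⌋).strictMono
    apply mul_lt_mul_of_pos_right _ hc
    unfold Int.fract
    rw [h]
    linarith

theorem psi_surj (hR : ∀ x, x < R x) : Function.Surjective (psi R) := by
  intro y
  have hc : 0 < R 0 := hR 0
  obtain ⟨n, h1, h2⟩ := orb_cell R hR y
  obtain ⟨t, ht⟩ : ∃ t, (R ^ n) t = y := ⟨(R ^ n).symm y, OrderIso.apply_symm_apply _ _⟩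
  have ht0 : 0 ≤ t := by
    rw [← ht] at h1
    exact (R ^ n).le_iff_le.1 h1
  have ht1 : t < R 0 := by
    unfold orb at h2
    rw [← ht, pow_succ_apply'] at h2
    exact (R ^ n).lt_iff_lt.1 h2
  have q0 : 0 ≤ t / R 0 := div_nonneg ht0 hc.le
  have q1 : t / R 0 < 1 := by rwa [div_lt_one hc]
  have hf : ⌊(n : ℝ) + t / R 0⌋ = n := by
    rw [Int.floor_eq_iff]
    constructor
    · linarith
    · linarith
  refine ⟨(n : ℝ) + t / R 0, ?_⟩
  unfold psi Int.fract
  rw [hf, add_sub_cancel_left, div_mul_cancel₀ _ hc.ne']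
  exact ht

end Loc1Aux

open Loc1Aux

theorem conj_translation (R : ℝ ≃o ℝ) (hR : ∀ x, x < R x) :
    ∃ ψ : ℝ ≃o ℝ, ∀ x, ψ (x + 1) = R (ψ x) := by
  refine ⟨StrictMono.orderIsoOfSurjective (psi R) (psi_mono R hR) (psi_surj R hR), fun x => ?_⟩
  simp only [StrictMono.coe_orderIsoOfSurjective]
  exact psi_add R x

namespace Loc1Aux

/-- Transport of a map of an interval to the real line. -/
theorem transport {I : Set ℝ} (hI : IsOpen I) (hc : I.OrdConnected) (hn : I.Nonempty)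
    (r : ℝ → ℝ) (hr : BijOn r I I) (hrm : StrictMonoOn r I) (hlt : ∀ x ∈ I, x < r x) :
    ∃ (u v : ℝ → ℝ) (ψ : ℝ ≃o ℝ), StrictMonoOn u I ∧ StrictMono v ∧ (∀ x ∈ I, v (u x) = x) ∧
      (∀ t, v t ∈ I ∧ u (v t) = t) ∧ ∀ x, r (v (ψ x)) = v (ψ (x + 1)) := by
  obtain ⟨u, v, hu, hv, hvu, huv⟩ := exists_bij_real hI hc hn
  have hm : StrictMono (fun t => u (r (v t))) := by
    intro s t hst
    exact hu (hr.mapsTo (huv s).1) (hr.mapsTo (huv t).1) (hrm (huv s).1 (huv t).1 (hv hst))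
  have hs : Function.Surjective (fun t => u (r (v t))) := by
    intro t
    obtain ⟨x, hx, hxt⟩ := hr.surjOn (huv t).1
    refine ⟨u x, ?_⟩
    show u (r (v (u x))) = t
    rw [hvu x hx, hxt, (huv t).2]
  obtain ⟨ψ, hψ⟩ := conj_translation (StrictMono.orderIsoOfSurjective _ hm hs) (by
    intro t
    simp only [StrictMono.coe_orderIsoOfSurjective]
    have h1 := hu (huv t).1 (hr.mapsTo (huv t).1) (hlt _ (huv t).1)
    rwa [(huv t).2] at h1)
  refine ⟨u, v, ψ, hu, hv, hvu, huv, fun x => ?_⟩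
  rw [hψ x]
  simp only [StrictMono.coe_orderIsoOfSurjective]
  rw [hvu _ (hr.mapsTo (huv _).1)]

end Loc1Aux

theorem loc_conj {I I' : Set ℝ} (hI : IsOpen I) (hc : I.OrdConnected) (hn : I.Nonempty)
    (hI' : IsOpen I') (hc' : I'.OrdConnected) (hn' : I'.Nonempty)
    (r r' : ℝ → ℝ) (hr : BijOn r I I) (hrm : StrictMonoOn r I) (hlt : ∀ x ∈ I, x < r x)
    (hr' : BijOn r' I' I') (hrm' : StrictMonoOn r' I') (hlt' : ∀ x ∈ I', x < r' x) :
    ∃ h : ℝ → ℝ, BijOn h I I' ∧ StrictMonoOn h I ∧ ∀ x ∈ I, h (r x) = r' (h x) := by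
  obtain ⟨u, v, ψ, hu, hv, hvu, huv, hψ⟩ := transport hI hc hn r hr hrm hlt
  obtain ⟨u', v', ψ', hu', hv', hvu', huv', hψ'⟩ := transport hI' hc' hn' r' hr' hrm' hlt'
  have hmono : StrictMonoOn (fun x => v' (ψ' (ψ.symm (u x)))) I := by
    intro x hx y hy hxy
    exact hv' (ψ'.strictMono (ψ.symm.strictMono (hu hx hy hxy)))
  refine ⟨fun x => v' (ψ' (ψ.symm (u x))), ⟨?_, hmono.injOn, ?_⟩, hmono, ?_⟩
  · intro x _
    exact (huv' _).1
  · intro y hy
    refine ⟨v (ψ (ψ'.symm (u' y))), (huv _).1, ?_⟩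
    show v' (ψ' (ψ.symm (u (v (ψ (ψ'.symm (u' y))))))) = y
    rw [(huv _).2, OrderIso.symm_apply_apply, OrderIso.apply_symm_apply, hvu' y hy]
  · intro x hx
    show v' (ψ' (ψ.symm (u (r x)))) = r' (v' (ψ' (ψ.symm (u x))))
    have h1 : r x = v (ψ (ψ.symm (u x) + 1)) := by
      rw [← hψ, OrderIso.apply_symm_apply, hvu x hx]
    rw [h1, (huv _).2, OrderIso.symm_apply_apply, hψ']

end Pool.Agent.Lib.P9Q
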