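import Pool.Agent.Lib.P9Q.LDefs
import Pool.Agent.Lib.P9Q.GStab
import Pool.Agent.Lib.P9Q.Loc1

/-!
# P9Q.LLoc: local conjugacies between corresponding components

Let `I = {y | Conn ρ x y}`, `I' = {y' | Conn ρ' x' y'}`: nonempty, open, order connected. For
`γ : Γ`, `Conn ρ x (ρ γ x)` iff `Conn ρ' x' (ρ' γ x')` (`eqv` and `conn`), and in this case
`x < ρ γ x` iff `x' < ρ' γ x'` (`pos`). Apply `stab` to `ρ` and `x`.
Case 1: the stabiliser acts trivially on `I`. Then it acts trivially on `I'`: for `γ` in it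
`x < ρ γ x` and `x < ρ γ⁻¹ x` are false, so `x' < ρ' γ x'` and `x' < ρ' γ⁻¹ x'` are false; by
`comp_cases` for `ρ'` the map `ρ' γ` is the identity on `I'` (if it moved all points to the left,
`ρ' γ⁻¹` would move them to the right: `comp_cases` at the point `x'` and `comp_maps`). Take `h`
from `exists_mono_bij`.
Case 2: there is `γ₀`. Then `x' < ρ' γ₀ x'`, so by `comp_cases` `y' < ρ' γ₀ y'` on `I'`; `ρ γ₀` and
`ρ' γ₀` are increasing (`comp_sign`) and bijective on `I`, `I'` (`comp_bij`). Take `h` from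
`loc_conj` for `r = ρ γ₀`, `r' = ρ' γ₀`: `h (ρ γ₀ y) = ρ' γ₀ (h y)` on `I`; by induction the same
for all powers `γ₀ ^ n`, `n : ℤ`. For `γ` in the stabiliser `ρ γ = ρ (γ₀ ^ n)` on `I`; the element
`δ = γ * (γ₀ ^ n)⁻¹` acts trivially on `I`, so (as in case 1, by `pos` for `δ` and `δ⁻¹`) trivially
on `I'`: `ρ' γ = ρ' (γ₀ ^ n)` on `I'`. Hence `h (ρ γ y) = ρ' γ (h y)`.
-/

namespace Pool.Agent.Lib.P9Q

open Set

variable {Γ : Type*} [Group Γ] {ρ ρ' : Γ →* Equiv.Perm ℝ} {ε : Γ →* ℤˣ}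

namespace LLocAux

open GStabAux

/-- A stabilising element which moves no point of `I` to the right, and whose inverse neither,
is the identity on `I`. -/
theorem triv_of (hρ : Mon ρ ε) {x : ℝ} (hx : x ∈ UU ρ) {γ : Γ} (h : Conn ρ x (ρ γ x))
    (h1 : ¬ x < ρ γ x) (h2 : ¬ x < ρ γ⁻¹ x) : ∀ y, Conn ρ x y → ρ γ y = y := by
  rcases comp_cases hρ h with h3 | h3 | h3
  · exact h3
  · exact absurd (h3 x (Conn_self.2 hx)) h1
  · have h4 := mono hρ (invc hρ h) (h3 x (Conn_self.2 hx))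
    rw [GBaseAux.inv_apply] at h4
    exact absurd h4 h2

/-- Stabilisers correspond. -/
theorem stab_iff {R : ℝ → ℝ → Prop} (hR : Corr ρ ρ' R) {x x' : ℝ} (hx : R x x') (γ : Γ) :
    Conn ρ x (ρ γ x) ↔ Conn ρ' x' (ρ' γ x') :=
  hR.conn _ _ _ _ hx (hR.eqv γ _ _ hx)

/-- An element which acts trivially on `I` acts trivially on `I'`. -/
theorem triv_transfer (hρ : Mon ρ ε) (hρ' : Mon ρ' ε) {R : ℝ → ℝ → Prop} (hR : Corr ρ ρ' R)
    {x x' : ℝ} (hx : R x x') {γ : Γ} (hγ : Conn ρ x (ρ γ x))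
    (ht : ρ γ x = x) : ∀ y, Conn ρ' x' y → ρ' γ y = y := by
  have hinv := invc hρ hγ
  have hi : ρ γ⁻¹ x = x := by
    have h1 := GBaseAux.inv_apply (ρ := ρ) γ x
    rwa [ht] at h1
  refine triv_of hρ' (hR.dom _ _ hx).2 ((stab_iff hR hx γ).1 hγ) ?_ ?_
  · rw [← hR.pos γ _ _ hx hγ, ht]
    exact lt_irrefl x
  · rw [← hR.pos γ⁻¹ _ _ hx hinv, hi]
    exact lt_irrefl x

theorem zpow_conj (hρ : Mon ρ ε) {x : ℝ} {γ : Γ}
    (hγ : Conn ρ x (ρ γ x)) {h : ℝ → ℝ}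
    (hh : ∀ y, Conn ρ x y → h (ρ γ y) = ρ' γ (h y)) (n : ℤ) :
    ∀ y, Conn ρ x y → h (ρ (γ ^ n) y) = ρ' (γ ^ n) (h y) := by
  have hnat : ∀ m : ℕ, ∀ y, Conn ρ x y →
      h (ρ (γ ^ m) y) = ρ' (γ ^ m) (h y) := by
    intro m
    induction m with
    | zero =>
      intro y _
      simp
    | succ m ih =>
      intro y hy
      rw [pow_succ, map_mul, map_mul, Equiv.Perm.mul_apply, Equiv.Perm.mul_apply,
        ih _ (comp_maps hρ hγ hy), hh y hy]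
  obtain ⟨m, rfl | rfl⟩ := n.eq_nat_or_neg
  · simpa using hnat m
  · intro y hy
    rw [zpow_neg, zpow_natCast]
    have hx : x ∈ UU ρ := hγ.left
    have hm : Conn ρ x (ρ (γ ^ m)⁻¹ x) := invc hρ (powc hρ hx hγ m)
    have h1 := hnat m _ (comp_maps hρ hm hy)
    have h2 : ρ (γ ^ m) (ρ (γ ^ m)⁻¹ y) = y := by
      rw [← Equiv.Perm.mul_apply, ← map_mul, mul_inv_cancel, map_one]
      rfl
    rw [h2] at h1
    rw [h1, GBaseAux.inv_apply]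

end LLocAux

open LLocAux GStabAux

theorem exists_loc (hρ : Mon ρ ε) (hρ' : Mon ρ' ε) {R : ℝ → ℝ → Prop} (hR : Corr ρ ρ' R)
    {x x' : ℝ} (hx : R x x') :
    ∃ h : ℝ → ℝ, BijOn h {y | Conn ρ x y} {y' | Conn ρ' x' y'} ∧
      StrictMonoOn h {y | Conn ρ x y} ∧
      ∀ γ, Conn ρ x (ρ γ x) → ∀ y, Conn ρ x y → h (ρ γ y) = ρ' γ (h y) := by
  obtain ⟨hxU, hxU'⟩ := hR.dom _ _ hx
  have hxx : Conn ρ x x := Conn_self.2 hxU
  have hxx' : Conn ρ' x' x' := Conn_self.2 hxU'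
  rcases stab hρ hxU with hs | ⟨γ₀, h0, hpos, hall⟩
  · obtain ⟨h, hb, hm⟩ := exists_mono_bij (comp_open (ρ := ρ) x) (comp_ordConnected (ρ := ρ) x)
      ⟨x, hxx⟩ (comp_open (ρ := ρ') x') (comp_ordConnected (ρ := ρ') x') ⟨x', hxx'⟩
    refine ⟨h, hb, hm, fun γ hγ y hy => ?_⟩
    rw [hs γ hγ y hy, triv_transfer hρ hρ' hR hx hγ (hs γ hγ x hxx) _ (hb.mapsTo hy)]
  · have h0' : Conn ρ' x' (ρ' γ₀ x') := (stab_iff hR hx γ₀).1 h0
    have hlt' : x' < ρ' γ₀ x' := (hR.pos γ₀ _ _ hx h0).1 (hpos x hxx)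
    have hpos' : ∀ y, Conn ρ' x' y → y < ρ' γ₀ y := by
      rcases comp_cases hρ' h0' with h3 | h3 | h3
      · exact absurd (h3 x' hxx') hlt'.ne'
      · exact h3
      · exact absurd (h3 x' hxx') hlt'.not_gt
    obtain ⟨h, hb, hm, hc⟩ := loc_conj (comp_open (ρ := ρ) x) (comp_ordConnected (ρ := ρ) x)
      ⟨x, hxx⟩ (comp_open (ρ := ρ') x') (comp_ordConnected (ρ := ρ') x') ⟨x', hxx'⟩
      (ρ γ₀) (ρ' γ₀) (comp_bij hρ h0) ((mono hρ h0).strictMonoOn _) hpos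
      (comp_bij hρ' h0') ((mono hρ' h0').strictMonoOn _) hpos'
    refine ⟨h, hb, hm, fun γ hγ y hy => ?_⟩
    obtain ⟨n, hn⟩ := hall γ hγ
    have hzn := zpowc hρ hxU h0 n
    have hδ : Conn ρ x (ρ ((γ₀ ^ n)⁻¹ * γ) x) := mulc hρ (invc hρ hzn) hγ
    have hδx : ρ ((γ₀ ^ n)⁻¹ * γ) x = x := by
      rw [map_mul, Equiv.Perm.mul_apply, hn x hxx, GBaseAux.inv_apply]
    have htr := triv_transfer hρ hρ' hR hx hδ hδx (h y) (hb.mapsTo hy)
    have hkey : ρ' γ (h y) = ρ' (γ₀ ^ n) (h y) := by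
      have h5 : ρ' (γ₀ ^ n) (ρ' ((γ₀ ^ n)⁻¹ * γ) (h y)) = ρ' γ (h y) := by
        rw [← Equiv.Perm.mul_apply, ← map_mul, mul_inv_cancel_left]
      rw [← h5, htr]
    rw [hn y hy, hkey]
    exact zpow_conj hρ h0 hc n y hy

end Pool.Agent.Lib.P9Q
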