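import Pool.Agent.Lib.P9Q.LCorr
import Pool.Agent.Lib.P9Q.LExt

/-!
# P9Q.LMain: isomorphic line structures give conjugate actions

`exists_corr`, `exists_ext`, then `dense_ext` gives `H : ℝ ≃o ℝ` with `H = h` on `UU ρ`. For
`γ : Γ` the functions `H ∘ ρ γ` and `ρ' γ ∘ H` are both strictly monotone or antitone and
surjective, and they agree on the dense set `UU ρ` (which is invariant, `UU_inv`); by `eq_of_dense`
they are equal.
-/

namespace Pool.Agent.Lib.P9Q

open Set

variable {Γ : Type*} [Group Γ] {ρ ρ' : Γ →* Equiv.Perm ℝ} {ε : Γ →* ℤˣ}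

theorem line_conj (hρ : Mon ρ ε) (hρ' : Mon ρ' ε) (hd : Dense (UU ρ)) (hd' : Dense (UU ρ'))
    (h : SIso (lineStr ρ) (lineStr ρ')) :
    ∃ H : ℝ ≃o ℝ, ∀ γ x, H (ρ γ x) = ρ' γ (H x) := by
  obtain ⟨R, hR⟩ := exists_corr hρ hρ' h
  obtain ⟨f, hb, hm, he⟩ := exists_ext hρ hρ' hR
  obtain ⟨H, hH⟩ := dense_ext hd hd' f hb hm
  refine ⟨H, fun γ => ?_⟩
  have key : (fun x => H (ρ γ x)) = fun x => ρ' γ (H x) := by
    refine eq_of_dense hd ?_ ?_ ?_ ?_ ?_
    · rcases hρ.mono γ with h1 | h1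
      · exact Or.inl (H.strictMono.comp h1)
      · exact Or.inr (H.strictMono.comp_strictAnti h1)
    · exact H.surjective.comp (ρ γ).surjective
    · rcases hρ'.mono γ with h1 | h1
      · exact Or.inl (h1.comp H.strictMono)
      · exact Or.inr (h1.comp_strictMono H.strictMono)
    · exact (ρ' γ).surjective.comp H.surjective
    · intro x hx
      show H (ρ γ x) = ρ' γ (H x)
      rw [hH x hx, hH _ ((UU_inv hρ γ).2 hx), he γ x hx]
  intro x
  exact congrFun key x

end Pool.Agent.Lib.P9Q
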