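import Pool.Agent.Lib.P9Q.AWord
import Pool.Agent.Lib.P9Q.DExt

/-!
# P9Q.Lift: lifts of circle homeomorphisms

`exists_lift`. The projection `π : ℝ → TC` is a covering map (`AddCircle.isCoveringMap_coe`), `ℝ`
is simply connected and locally path connected, so for every continuous `g : ℝ → TC` and every
`e` with `π e = g 0` there is a unique continuous `G` with `π ∘ G = g`, `G 0 = e`
(`IsCoveringMap.existsUnique_continuousMap_lifts`). Let `F` be the lift of `f ∘ π` with
`F 0 ∈ [0, 1)` and `F'` a lift of `f.symm ∘ π`. Then `F' ∘ F` and `F ∘ F'` are lifts of `π`: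
`F' (F x) - x` is a continuous integer valued function, so a constant integer, hence `F` is
bijective. A continuous injective function on `ℝ` is strictly monotone or antitone
(`Continuous.strictMono_of_inj`). `F (x + 1) - F x` is a constant integer `k`; `F⁻¹` has a similar
constant `k'` and `k k' = 1`, so `k = ± 1`, with the sign of the monotonicity. (Alternatively: `F`
induces an injection of `[x, x+1)` to the circle, so `|k| = 1`.)

`lift_unique`: `F' x - F x` is continuous (`continuous_of_mono`) and integer valued, so constant.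
`lift_sign`: if `F` and `G` are lifts of the same `f`, the signs agree (by `lift_unique`).
`IsLift.mul`, `IsLift.inv`: immediate. `descend`: `h (π x) = π (H x)` is well defined
(`QuotientAddGroup.lift` or `Quotient.map'`) and continuous (quotient map), the same for
`H.symm`. `lift_inc_or_dec` : every homeomorphism of the circle has a lift which is an order
isomorphism, or `h ∘ neg` has one (apply `exists_lift`; if the sign is `-1` use
`H x = F (-x)`, a lift of `h ∘ neg`).
-/

namespace Pool.Agent.Lib.P9Q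

open Set

namespace LiftAux

theorem coe_eq (x y : ℝ) : ((x : ℝ) : TC) = (y : TC) ↔ ∃ m : ℤ, y = x + m := by
  rw [QuotientAddGroup.eq, AddSubgroup.mem_zmultiples_iff]
  constructor
  · rintro ⟨m, hm⟩
    refine ⟨m, ?_⟩
    rw [zsmul_eq_mul, mul_one] at hm
    linarith
  · rintro ⟨m, hm⟩
    refine ⟨m, ?_⟩
    rw [zsmul_eq_mul, mul_one]
    linarith

theorem coe_add_int (x : ℝ) (m : ℤ) : ((x + m : ℝ) : TC) = (x : TC) :=
  ((coe_eq x (x + m)).2 ⟨m, rfl⟩).symm

theorem const_of_int {g : ℝ → ℝ} (hg : Continuous g) (h : ∀ x, ∃ m : ℤ, g x = m) :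
    ∃ m : ℤ, ∀ x, g x = m := by
  obtain ⟨m, hm⟩ := h 0
  refine ⟨m, fun x => ?_⟩
  have hd : DiscreteTopology (range ((↑) : ℤ → ℝ)) :=
    (Int.isClosedEmbedding_coe_real.isEmbedding.toHomeomorph.symm).isEmbedding.discreteTopology
  obtain ⟨y, _, hy⟩ := isPreconnected_univ.eqOn_const_of_mapsTo (T := range ((↑) : ℤ → ℝ))
    ⟨hd⟩ hg.continuousOn (fun x _ => by obtain ⟨k, hk⟩ := h x; exact ⟨k, hk.symm⟩) ⟨0, 0, by simp⟩
  have h1 : g x = y := hy (mem_univ x)
  have h2 : g 0 = y := hy (mem_univ 0)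
  rw [h1, ← h2, hm]

theorem add_int_of {G : ℝ → ℝ} {k : ℝ} (h : ∀ y, G (y + 1) = G y + k) (m : ℤ) (y : ℝ) :
    G (y + m) = G y + m * k := by
  induction m using Int.induction_on with
  | zero => simp
  | succ n ih =>
    have : y + ((n + 1 : ℤ) : ℝ) = (y + ((n : ℤ) : ℝ)) + 1 := by push_cast; ring
    rw [this, h, ih]
    push_cast
    ring
  | pred n ih =>
    have h1 := h (y + ((-(n : ℤ) - 1 : ℤ) : ℝ))
    have : y + ((-(n : ℤ) - 1 : ℤ) : ℝ) + 1 = y + ((-(n : ℤ) : ℤ) : ℝ) := by push_cast; ring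
    rw [this, ih] at h1
    push_cast at h1 ⊢
    linarith

theorem lift_exists (f : TC ≃ₜ TC) (a e : ℝ) (he : (e : TC) = f (a : TC)) :
    ∃ F : ℝ → ℝ, Continuous F ∧ F a = e ∧ ∀ x : ℝ, ((F x : ℝ) : TC) = f (x : TC) := by
  have cov := AddCircle.isCoveringMap_coe (1 : ℝ)
  let g : C(ℝ, TC) := ⟨fun x : ℝ => f (x : TC), f.continuous.comp cov.continuous⟩
  obtain ⟨F, ⟨h1, h2⟩, _⟩ := cov.existsUnique_continuousMap_lifts g a e he
  exact ⟨F, F.continuous, h1, fun x => congrFun h2 x⟩

theorem comp_id {F F' : ℝ → ℝ} (hF : Continuous F) (hF' : Continuous F') {a : ℝ}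
    (ha : F' (F a) = a) (h : ∀ x, ((F' (F x) : ℝ) : TC) = (x : TC)) : ∀ x, F' (F x) = x := by
  obtain ⟨m, hm⟩ := const_of_int (g := fun x => F' (F x) - x) ((hF'.comp hF).sub continuous_id)
    (fun x => by
      obtain ⟨m, hm⟩ := (coe_eq _ _).1 (h x)
      refine ⟨-m, ?_⟩
      push_cast
      linarith)
  intro x
  have h1 : F' (F x) - x = m := hm x
  have h2 : F' (F a) - a = m := hm a
  rw [ha, sub_self] at h2
  rw [← h2] at h1
  linarith

theorem per_int {F : ℝ → ℝ} (hF : Continuous F) (f : TC ≃ₜ TC)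
    (h : ∀ x : ℝ, ((F x : ℝ) : TC) = f (x : TC)) : ∃ k : ℤ, ∀ x, F (x + 1) = F x + k := by
  obtain ⟨m, hm⟩ := const_of_int (g := fun x => F (x + 1) - F x)
    ((hF.comp (continuous_id.add continuous_const)).sub hF)
    (fun x => by
      have h1 : ((F x : ℝ) : TC) = ((F (x + 1) : ℝ) : TC) := by
        rw [h, h]
        congr 1
        have := coe_add_int x 1
        push_cast at this
        exact this.symm
      obtain ⟨m, hm⟩ := (coe_eq _ _).1 h1
      exact ⟨m, by linarith⟩)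
  refine ⟨m, fun x => ?_⟩
  have h1 : F (x + 1) - F x = m := hm x
  linarith

theorem perm_surj (F : Equiv.Perm ℝ) : Function.Surjective F := F.surjective

theorem HL.mono {F : Equiv.Perm ℝ} {s : ℤˣ} (hF : HL F s) : StrictMono F ∨ StrictAnti F := by
  rcases Int.units_eq_one_or s with h | h
  · exact Or.inl (hF.inc h)
  · exact Or.inr (hF.dec h)

end LiftAux

open LiftAux

theorem exists_lift (f : TC ≃ₜ TC) :
    ∃ (F : Equiv.Perm ℝ) (s : ℤˣ), HL F s ∧ IsLift F f ∧ 0 ≤ F 0 ∧ F 0 < 1 := by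
  obtain ⟨e0, he0⟩ := QuotientAddGroup.mk_surjective (f ((0 : ℝ) : TC))
  have he : ((Int.fract e0 : ℝ) : TC) = f ((0 : ℝ) : TC) := by
    rw [← he0]
    refine (coe_eq _ _).2 ⟨⌊e0⌋, ?_⟩
    exact (Int.fract_add_floor e0).symm
  obtain ⟨F, hFc, hF0, hF⟩ := lift_exists f 0 (Int.fract e0) he
  obtain ⟨F', hF'c, hF'0, hF'⟩ := lift_exists f.symm (Int.fract e0) 0 (by
    rw [he, Homeomorph.symm_apply_apply])
  have h1 : ∀ x, F' (F x) = x := comp_id hFc hF'c (a := 0) (by rw [hF0, hF'0]) (fun x => by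
    rw [hF', hF, Homeomorph.symm_apply_apply])
  have h2 : ∀ x, F (F' x) = x := comp_id hF'c hFc (a := Int.fract e0) (by rw [hF'0, hF0])
    (fun x => by rw [hF, hF', Homeomorph.apply_symm_apply])
  let P : Equiv.Perm ℝ := ⟨F, F', h1, h2⟩
  obtain ⟨k, hk⟩ := per_int hFc f hF
  obtain ⟨k', hk'⟩ := per_int hF'c f.symm hF'
  have hkk : k * k' = 1 := by
    have h3 := add_int_of hk' k (F 0)
    rw [← hk 0, h1, h1] at h3
    have h4 : ((k * k' : ℤ) : ℝ) = ((1 : ℤ) : ℝ) := by push_cast; linarith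
    exact_mod_cast h4
  have hinj : Function.Injective F := fun x y hxy => by rw [← h1 x, ← h1 y, hxy]
  have hP0 : 0 ≤ P 0 ∧ P 0 < 1 := by
    have : P 0 = Int.fract e0 := hF0
    rw [this]
    exact ⟨Int.fract_nonneg _, Int.fract_lt_one _⟩
  rcases Int.eq_one_or_neg_one_of_mul_eq_one hkk with hk1 | hk1
  · have hm : StrictMono F := by
      rcases hFc.strictMono_of_inj hinj with h | h
      · exact h
      · have h3 : F (0 + 1) < F 0 := h (by norm_num)
        rw [hk 0, hk1] at h3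
        push_cast at h3
        linarith
    refine ⟨P, 1, ⟨fun _ => hm, fun h => absurd h (by decide), fun x => ?_⟩, hF, hP0⟩
    have h3 : P (x + 1) = P x + (k : ℝ) := hk x
    rw [h3, hk1]
    simp
  · have hm : StrictAnti F := by
      rcases hFc.strictMono_of_inj hinj with h | h
      · have h3 : F 0 < F (0 + 1) := h (by norm_num)
        rw [hk 0, hk1] at h3
        push_cast at h3
        linarith
      · exact h
    refine ⟨P, -1, ⟨fun h => absurd h (by decide), fun _ => hm, fun x => ?_⟩, hF, hP0⟩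
    have h3 : P (x + 1) = P x + (k : ℝ) := hk x
    rw [h3, hk1]
    simp

theorem TT_zpow (m : ℤ) (x : ℝ) : (TT ^ m) x = x + m := by
  have h1 : ∀ y, TT y = y + 1 := fun y => rfl
  induction m using Int.induction_on with
  | zero => simp
  | succ n ih =>
    rw [add_comm (n : ℤ) 1, zpow_add, zpow_one, Equiv.Perm.mul_apply, ih, h1]
    push_cast
    ring
  | pred n ih =>
    have h2 : (TT ^ (-(n : ℤ))) x = TT ((TT ^ (-(n : ℤ) - 1)) x) := by
      rw [← Equiv.Perm.mul_apply, ← zpow_one_add]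
      congr 2
      ring
    rw [h1, ih] at h2
    push_cast at h2 ⊢
    linarith

theorem lift_unique {f : TC ≃ₜ TC} {F F' : Equiv.Perm ℝ} {s s' : ℤˣ} (hF : HL F s)
    (hF' : HL F' s') (h : IsLift F f) (h' : IsLift F' f) : ∃ m : ℤ, F' = TT ^ m * F := by
  have c1 : Continuous F := continuous_of_mono (HL.mono hF) F.surjective
  have c2 : Continuous F' := continuous_of_mono (HL.mono hF') F'.surjective
  obtain ⟨m, hm⟩ := const_of_int (g := fun x => F' x - F x) (c2.sub c1) (fun x => by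
    obtain ⟨m, hm⟩ := (coe_eq (F x) (F' x)).1 ((h x).trans (h' x).symm)
    exact ⟨m, by linarith⟩)
  refine ⟨m, ?_⟩
  ext x
  rw [Equiv.Perm.mul_apply, TT_zpow]
  have h1 : F' x - F x = m := hm x
  linarith

theorem lift_sign {f : TC ≃ₜ TC} {F F' : Equiv.Perm ℝ} {s s' : ℤˣ} (hF : HL F s)
    (hF' : HL F' s') (h : IsLift F f) (h' : IsLift F' f) : s = s' := by
  obtain ⟨m, hm⟩ := lift_unique hF hF' h h'
  have h1 := hF.per 0
  have h2 := hF'.per 0
  rw [hm, Equiv.Perm.mul_apply, Equiv.Perm.mul_apply, TT_zpow, TT_zpow, h1] at h2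
  have h3 : (((s : ℤˣ) : ℤ) : ℝ) = (((s' : ℤˣ) : ℤ) : ℝ) := by linarith
  have h4 : ((s : ℤˣ) : ℤ) = ((s' : ℤˣ) : ℤ) := by exact_mod_cast h3
  exact Units.ext h4

theorem HL.trans_mul {F : Equiv.Perm ℝ} {s : ℤˣ} (hF : HL F s) (m : ℤ) : HL (TT ^ m * F) s := by
  refine ⟨fun hs x y hxy => ?_, fun hs x y hxy => ?_, fun x => ?_⟩
  · rw [Equiv.Perm.mul_apply, Equiv.Perm.mul_apply, TT_zpow, TT_zpow]
    have := hF.inc hs hxy
    linarith
  · rw [Equiv.Perm.mul_apply, Equiv.Perm.mul_apply, TT_zpow, TT_zpow]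
    have := hF.dec hs hxy
    linarith
  · rw [Equiv.Perm.mul_apply, Equiv.Perm.mul_apply, TT_zpow, TT_zpow, hF.per]
    ring

theorem IsLift.trans_mul {F : Equiv.Perm ℝ} {f : TC ≃ₜ TC} (h : IsLift F f) (m : ℤ) :
    IsLift (TT ^ m * F) f := by
  intro x
  rw [Equiv.Perm.mul_apply, TT_zpow, coe_add_int]
  exact h x

theorem descend (H : ℝ ≃o ℝ) (hH : ∀ x, H (x + 1) = H x + 1) :
    ∃ h : TC ≃ₜ TC, ∀ x : ℝ, h (x : TC) = ((H x : ℝ) : TC) := by
  have hH' : ∀ x, H.symm (x + 1) = H.symm x + 1 := by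
    intro x
    apply H.injective
    rw [H.apply_symm_apply, hH, H.apply_symm_apply]
  have p1 : Function.Periodic (fun x : ℝ => ((H x : ℝ) : TC)) 1 := by
    intro x
    show ((H (x + 1) : ℝ) : TC) = ((H x : ℝ) : TC)
    rw [hH]
    have := coe_add_int (H x) 1
    push_cast at this
    exact this
  have p2 : Function.Periodic (fun x : ℝ => ((H.symm x : ℝ) : TC)) 1 := by
    intro x
    show ((H.symm (x + 1) : ℝ) : TC) = ((H.symm x : ℝ) : TC)
    rw [hH']
    have := coe_add_int (H.symm x) 1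
    push_cast at this
    exact this
  have cov := (AddCircle.isCoveringMap_coe (1 : ℝ)).continuous
  have q : Topology.IsQuotientMap ((↑) : ℝ → TC) := QuotientAddGroup.isQuotientMap_mk _
  have c1 : Continuous p1.lift := by
    rw [q.continuous_iff]
    exact cov.comp H.continuous
  have c2 : Continuous p2.lift := by
    rw [q.continuous_iff]
    exact cov.comp H.symm.continuous
  refine ⟨⟨⟨p1.lift, p2.lift, ?_, ?_⟩, c1, c2⟩, ?_⟩
  · intro t
    obtain ⟨x, rfl⟩ := QuotientAddGroup.mk_surjective t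
    show p2.lift (p1.lift (x : TC)) = (x : TC)
    rw [Function.Periodic.lift_coe, Function.Periodic.lift_coe, H.symm_apply_apply]
  · intro t
    obtain ⟨x, rfl⟩ := QuotientAddGroup.mk_surjective t
    show p1.lift (p2.lift (x : TC)) = (x : TC)
    rw [Function.Periodic.lift_coe, Function.Periodic.lift_coe, H.apply_symm_apply]
  · intro x
    show p1.lift (x : TC) = _
    rw [Function.Periodic.lift_coe]

/-- Every homeomorphism of the circle, perhaps after composition with the reflection, has an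
increasing lift. -/
theorem lift_inc_or_dec (h : TC ≃ₜ TC) :
    ∃ H : ℝ ≃o ℝ, (∀ x, H (x + 1) = H x + 1) ∧
      ((∀ x : ℝ, h (x : TC) = ((H x : ℝ) : TC)) ∨ (∀ x : ℝ, h (-(x : TC)) = ((H x : ℝ) : TC))) := by
  obtain ⟨F, s, hF, hL, _, _⟩ := exists_lift h
  rcases Int.units_eq_one_or s with hs | hs
  · have hm := hF.inc hs
    refine ⟨StrictMono.orderIsoOfSurjective F hm F.surjective, fun x => ?_, Or.inl fun x => ?_⟩
    · show F (x + 1) = F x + 1
      rw [hF.per, hs]
      simp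
    · show h (x : TC) = ((F x : ℝ) : TC)
      exact (hL x).symm
  · have hm := hF.dec hs
    have hm' : StrictMono (fun x => F (-x)) := fun x y hxy => hm (neg_lt_neg hxy)
    have hs' : Function.Surjective (fun x => F (-x)) := by
      intro y
      obtain ⟨x, hx⟩ := F.surjective y
      exact ⟨-x, by simp [hx]⟩
    refine ⟨StrictMono.orderIsoOfSurjective _ hm' hs', fun x => ?_, Or.inr fun x => ?_⟩
    · show F (-(x + 1)) = F (-x) + 1
      have := hF.per (-(x + 1))
      rw [hs, show -(x + 1) + 1 = -x by ring] at this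
      rw [this]
      push_cast
      simp
    · show h (-(x : TC)) = ((F (-x) : ℝ) : TC)
      rw [hL (-x)]
      rfl

/-- The lift of the conjugate by the reflection. -/
theorem IsLift.rfl' {F : Equiv.Perm ℝ} {s : ℤˣ} {f : TC ≃ₜ TC} (hF : HL F s) (h : IsLift F f) :
    ∃ G : Equiv.Perm ℝ, HL G s ∧ IsLift G (rfl' f) ∧ ∀ x, G x = -F (-x) := by
  let G : Equiv.Perm ℝ := ((Equiv.neg ℝ).trans F).trans (Equiv.neg ℝ)
  have hG : ∀ x, G x = -F (-x) := fun x => rfl
  refine ⟨G, ⟨fun hs x y hxy => ?_, fun hs x y hxy => ?_, fun x => ?_⟩, fun x => ?_, hG⟩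
  · rw [hG, hG]
    exact neg_lt_neg (hF.inc hs (neg_lt_neg hxy))
  · rw [hG, hG]
    exact neg_lt_neg (hF.dec hs (neg_lt_neg hxy))
  · rw [hG, hG]
    have := hF.per (-(x + 1))
    rw [show -(x + 1) + 1 = -x by ring] at this
    rw [this]
    ring
  · rw [hG, rfl'_apply]
    have h1 : ((-F (-x) : ℝ) : TC) = -((F (-x) : ℝ) : TC) := rfl
    rw [h1, h (-x)]
    rfl

end Pool.Agent.Lib.P9Q
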