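import Pool.Agent.Lib.P9Q.Defs

/-!
# P9Q.Loc0: open intervals are order isomorphic to the real line

Proof. A nonempty open order connected subset of `ℝ` is `univ`, `Ioi a`, `Iio b` or `Ioo a b` with
`a < b` (look at `BddAbove`, `BddBelow`, `sSup`, `sInf`; the end points do not belong to the set as
it is open). Maps to `ℝ`: `id`, `x ↦ log (x - a)`, `x ↦ - log (b - x)`,
`x ↦ log ((x - a) / (b - x))`, with explicit inverses. The second theorem composes the first for
`I` with an inverse of the first for `I'`.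
-/

namespace Pool.Agent.Lib.P9Q

open Set

namespace Loc0Aux

theorem mk {I : Set ℝ} (u v : ℝ → ℝ) (hv : StrictMono v) (h1 : ∀ x ∈ I, v (u x) = x)
    (h2 : ∀ t, v t ∈ I ∧ u (v t) = t) :
    ∃ u v : ℝ → ℝ, StrictMonoOn u I ∧ StrictMono v ∧ (∀ x ∈ I, v (u x) = x) ∧
      ∀ t, v t ∈ I ∧ u (v t) = t := by
  refine ⟨u, v, ?_, hv, h1, h2⟩
  intro x hx y hy hxy
  by_contra hcon
  push Not at hcon
  have := hv.monotone hcon
  rw [h1 x hx, h1 y hy] at this
  exact absurd hxy (not_lt.mpr this)

theorem forms {I : Set ℝ} (hI : IsOpen I) (hc : I.OrdConnected) (hn : I.Nonempty) :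
    I = univ ∨ (∃ a, I = Ioi a) ∨ (∃ b, I = Iio b) ∨ ∃ a b, a < b ∧ I = Ioo a b := by
  have hint := hI.interior_eq
  have hmem := hc.isPreconnected.mem_intervals
  have hioo : ∀ a b, I = Ioo a b → ∃ a b, a < b ∧ I = Ioo a b := by
    intro a b h
    refine ⟨a, b, ?_, h⟩
    obtain ⟨x, hx⟩ := hn
    rw [h] at hx
    exact hx.1.trans hx.2
  simp only [mem_insert_iff, mem_singleton_iff] at hmem
  rcases hmem with h | h | h | h | h | h | h | h | h | h
  · right; right; right
    apply hioo (sInf I) (sSup I)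
    rw [← interior_Icc, ← h, hint]
  · right; right; right
    apply hioo (sInf I) (sSup I)
    rw [← interior_Ico, ← h, hint]
  · right; right; right
    apply hioo (sInf I) (sSup I)
    rw [← interior_Ioc, ← h, hint]
  · right; right; right
    exact hioo _ _ h
  · right; left
    refine ⟨sInf I, ?_⟩
    rw [← interior_Ici, ← h, hint]
  · right; left
    exact ⟨_, h⟩
  · right; right; left
    refine ⟨sSup I, ?_⟩
    rw [← interior_Iic, ← h, hint]
  · right; right; left
    exact ⟨_, h⟩
  · left; exact h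
  · rw [h] at hn
    exact absurd hn not_nonempty_empty

end Loc0Aux

theorem exists_bij_real {I : Set ℝ} (hI : IsOpen I) (hc : I.OrdConnected) (hn : I.Nonempty) :
    ∃ u v : ℝ → ℝ, StrictMonoOn u I ∧ StrictMono v ∧ (∀ x ∈ I, v (u x) = x) ∧
      ∀ t, v t ∈ I ∧ u (v t) = t := by
  rcases Loc0Aux.forms hI hc hn with rfl | ⟨a, rfl⟩ | ⟨b, rfl⟩ | ⟨a, b, hab, rfl⟩
  · exact Loc0Aux.mk id id strictMono_id (fun _ _ => rfl) (fun _ => ⟨mem_univ _, rfl⟩)
  · refine Loc0Aux.mk (fun x => Real.log (x - a)) (fun t => a + Real.exp t) ?_ ?_ ?_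
    · intro s t hst
      simpa using hst
    · intro x hx
      have : 0 < x - a := sub_pos.mpr hx
      rw [Real.exp_log this]
      ring
    · intro t
      refine ⟨?_, ?_⟩
      · simp only [mem_Ioi]
        linarith [Real.exp_pos t]
      · simp
  · refine Loc0Aux.mk (fun x => - Real.log (b - x)) (fun t => b - Real.exp (-t)) ?_ ?_ ?_
    · intro s t hst
      have : Real.exp (-t) < Real.exp (-s) := Real.exp_lt_exp.mpr (by linarith)
      simp only []
      linarith
    · intro x hx
      have : 0 < b - x := sub_pos.mpr hx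
      simp only [neg_neg]
      rw [Real.exp_log this]
      ring
    · intro t
      refine ⟨?_, ?_⟩
      · simp only [mem_Iio]
        linarith [Real.exp_pos (-t)]
      · simp
  · have hd : 0 < b - a := sub_pos.mpr hab
    refine Loc0Aux.mk (fun x => Real.log (x - a) - Real.log (b - x))
      (fun t => b - (b - a) / (1 + Real.exp t)) ?_ ?_ ?_
    · intro s t hst
      have h1 : Real.exp s < Real.exp t := Real.exp_lt_exp.mpr hst
      have h2 : (b - a) / (1 + Real.exp t) < (b - a) / (1 + Real.exp s) :=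
        div_lt_div_of_pos_left hd (by linarith [Real.exp_pos s]) (by linarith)
      simp only []
      linarith
    · intro x hx
      have h1 : 0 < x - a := sub_pos.mpr hx.1
      have h2 : 0 < b - x := sub_pos.mpr hx.2
      rw [Real.exp_sub, Real.exp_log h1, Real.exp_log h2]
      have h3 : 1 + (x - a) / (b - x) = (b - a) / (b - x) := by
        field_simp
        ring
      rw [h3]
      field_simp
      ring
    · intro t
      have he := Real.exp_pos t
      have h1 : (0 : ℝ) < 1 + Real.exp t := by linarith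
      have h2 : 0 < (b - a) / (1 + Real.exp t) := div_pos hd h1
      have h3 : b - (b - a) / (1 + Real.exp t) - a
          = Real.exp t * ((b - a) / (1 + Real.exp t)) := by
        field_simp
        ring
      refine ⟨⟨?_, ?_⟩, ?_⟩
      · have : 0 < Real.exp t * ((b - a) / (1 + Real.exp t)) := mul_pos he h2
        rw [← h3] at this
        linarith
      · linarith
      · rw [h3, sub_sub_cancel, Real.log_mul he.ne' h2.ne', Real.log_exp]
        ring

theorem exists_mono_bij {I I' : Set ℝ} (hI : IsOpen I) (hc : I.OrdConnected) (hn : I.Nonempty)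
    (hI' : IsOpen I') (hc' : I'.OrdConnected) (hn' : I'.Nonempty) :
    ∃ h : ℝ → ℝ, BijOn h I I' ∧ StrictMonoOn h I := by
  obtain ⟨u, v, hu, hv, h1, h2⟩ := exists_bij_real hI hc hn
  obtain ⟨u', v', hu', hv', h1', h2'⟩ := exists_bij_real hI' hc' hn'
  have hm : StrictMonoOn (fun x => v' (u x)) I := fun x hx y hy hxy => hv' (hu hx hy hxy)
  refine ⟨fun x => v' (u x), ⟨fun x _ => (h2' _).1, hm.injOn, ?_⟩, hm⟩
  intro y hy
  refine ⟨v (u' y), (h2 _).1, ?_⟩
  change v' (u (v (u' y))) = y
  rw [(h2 _).2, h1' y hy]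

end Pool.Agent.Lib.P9Q
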