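import Pool.Agent.Lib.P9Q.AWord

/-!
# P9Q.TNum: facts about the translation number

For `HL F 1` the condition in `trn` holds and `trn F` is the translation number of the
`CircleDeg1Lift` `⟨⟨F, _⟩, _⟩` (`dif_pos`).
`trn_tconj`: `H` as in `TConj` gives a `CircleDeg1Lift`; use
`CircleDeg1Lift.translationNumber_eq_of_semiconj`.
`trn_add`: `x ↦ F x + m` is the product of the commuting lifts `F` and the translation by `m`:
`CircleDeg1Lift.translationNumber_mul_of_commute`, `translationNumber_translate`.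
`trn_rat`: `CircleDeg1Lift.translationNumber_eq_rat_iff` (continuity: `OrderIso.continuous` or
`StrictMono.orderIsoOfSurjective`; powers: `CircleDeg1Lift.coe_pow`, `Equiv.Perm.coe_pow`) applied
to `q = (trn F rational number)`, numerator and denominator.
`trn_fix`: if `F^n x = x + m` with `n : ℤ` then `m = n * trn F`
(`translationNumber_of_eq_add_int`, `translationNumber_pow`, `translationNumber_units_inv` or
iterate by hand for negative `n`).
`trn_tendsto`: `CircleDeg1Lift.tendsto_translation_number₀`.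
`trn_semi`: `CircleDeg1Lift.units_semiconj_of_translationNumber_eq` for the unit `F` and the
translation by `trn F`.
-/

namespace Pool.Agent.Lib.P9Q

open Set

namespace TNumAux

theorem per1 {F : Equiv.Perm ℝ} (hF : HL F 1) (x : ℝ) : F (x + 1) = F x + 1 := by
  have h := hF.per x
  simpa using h

/-- The lift as a `CircleDeg1Lift`. -/
noncomputable def cl (F : Equiv.Perm ℝ) (hF : HL F 1) : CircleDeg1Lift :=
  ⟨⟨F, (hF.inc rfl).monotone⟩, per1 hF⟩

theorem trn_eq {F : Equiv.Perm ℝ} (hF : HL F 1) : trn F = (cl F hF).translationNumber := by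
  unfold trn
  rw [dif_pos ⟨hF.inc rfl, per1 hF⟩]
  rfl

theorem cl_apply {F : Equiv.Perm ℝ} (hF : HL F 1) (x : ℝ) : cl F hF x = F x := rfl

theorem cl_cont {F : Equiv.Perm ℝ} (hF : HL F 1) : Continuous (cl F hF) :=
  (CircleDeg1Lift.continuous_iff_surjective _).2 F.surjective

theorem cl_pow {F : Equiv.Perm ℝ} (hF : HL F 1) (n : ℕ) (x : ℝ) : ((cl F hF) ^ n) x = (F ^ n) x := by
  rw [CircleDeg1Lift.coe_pow, ← Equiv.Perm.iterate_eq_pow]
  rfl

theorem TT_zpow (k : ℤ) (y : ℝ) : (TT ^ k) y = y + k := by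
  induction k using Int.induction_on generalizing y with
  | zero => simp
  | succ k ih =>
    have e : TT y = y + 1 := rfl
    rw [zpow_add_one, Equiv.Perm.mul_apply, ih, e]
    push_cast
    ring
  | pred k ih =>
    have e : TT⁻¹ y = y - 1 := rfl
    rw [zpow_sub_one, Equiv.Perm.mul_apply, ih, e]
    push_cast
    ring

theorem add_apply (F : Equiv.Perm ℝ) (m : ℤ) (x : ℝ) : (TT ^ m * F) x = F x + m := by
  rw [Equiv.Perm.mul_apply, TT_zpow]

theorem fix_nat {F : Equiv.Perm ℝ} (hF : HL F 1) {n : ℕ} {m : ℤ} {x : ℝ} (h : (F ^ n) x = x + m) :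
    (m : ℝ) = n * trn F := by
  rcases Nat.eq_zero_or_pos n with rfl | hn
  · rw [pow_zero, Equiv.Perm.one_apply] at h
    push_cast
    linarith
  · have h1 : ((cl F hF) ^ n) x = x + m := by rw [cl_pow, h]
    have h2 := (cl F hF).translationNumber_of_map_pow_eq_add_int h1 hn
    have hn' : (n : ℝ) ≠ 0 := by
      have : (0 : ℝ) < n := by exact_mod_cast hn
      exact this.ne'
    rw [trn_eq hF, h2]
    field_simp

end TNumAux

open TNumAux

theorem trn_tconj {F G : Equiv.Perm ℝ} (hF : HL F 1) (hG : HL G 1) (h : TConj F G) :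
    trn F = trn G := by
  obtain ⟨H, h1, h2⟩ := h
  rw [trn_eq hF, trn_eq hG]
  exact CircleDeg1Lift.translationNumber_eq_of_semiconj
    (f := ⟨⟨H, H.monotone⟩, h1⟩) (g₁ := cl F hF) (g₂ := cl G hG) (fun x => h2 x)

theorem trn_add {F : Equiv.Perm ℝ} (hF : HL F 1) (m : ℤ) :
    HL (TT ^ m * F) 1 ∧ trn (TT ^ m * F) = m + trn F := by
  have h1 : HL (TT ^ m * F) 1 := by
    refine ⟨fun _ => ?_, fun h => absurd h (by decide), fun x => ?_⟩
    · intro a b hab
      rw [add_apply, add_apply]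
      have := hF.inc rfl hab
      linarith
    · rw [add_apply, add_apply, hF.per x]
      ring
  refine ⟨h1, ?_⟩
  rw [trn_eq h1, trn_eq hF]
  set t : CircleDeg1Lift := (CircleDeg1Lift.translate (Multiplicative.ofAdd (m : ℝ)) : CircleDeg1Lift) with ht
  have ht1 : ∀ x, t x = m + x := fun x => CircleDeg1Lift.translate_apply _ _
  have hc : Commute t (cl F hF) := by
    rw [CircleDeg1Lift.commute_iff_commute]
    intro x
    rw [ht1, ht1]
    exact ((cl F hF).map_int_add m x).symm
  have he : cl (TT ^ m * F) h1 = t * cl F hF := by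
    apply CircleDeg1Lift.ext
    intro x
    rw [CircleDeg1Lift.mul_apply, ht1, cl_apply, cl_apply, add_apply, add_comm]
  rw [he, CircleDeg1Lift.translationNumber_mul_of_commute hc, ht,
    CircleDeg1Lift.translationNumber_translate]

theorem trn_rat {F : Equiv.Perm ℝ} (hF : HL F 1) (h : ¬ Irrational (trn F)) :
    ∃ (q : ℕ) (p : ℤ) (x : ℝ), 0 < q ∧ IsCoprime p (q : ℤ) ∧ (F ^ q) x = x + p := by
  unfold Irrational at h
  rw [not_not] at h
  obtain ⟨r, hr⟩ := h
  have hq : 0 < r.den := r.pos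
  have h1 : (cl F hF).translationNumber = (r.num : ℝ) / (r.den : ℝ) := by
    rw [← trn_eq hF, ← hr]
    exact Rat.cast_def r
  obtain ⟨x, hx⟩ := ((cl F hF).translationNumber_eq_rat_iff (cl_cont hF) hq).1 h1
  refine ⟨r.den, r.num, x, hq, ?_, ?_⟩
  · rw [Int.isCoprime_iff_gcd_eq_one]
    exact r.reduced
  · rw [← cl_pow hF, hx]

theorem trn_fix {F : Equiv.Perm ℝ} (hF : HL F 1) {n m : ℤ} {x : ℝ} (h : (F ^ n) x = x + m) :
    (m : ℝ) = n * trn F := by
  obtain ⟨k, rfl | rfl⟩ := Int.eq_nat_or_neg n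
  · rw [zpow_natCast] at h
    have := fix_nat hF h
    push_cast
    exact this
  · rw [zpow_neg, Equiv.Perm.inv_eq_iff_eq] at h
    have h1 := hF.zpow_add (k : ℤ) m x
    rw [← h] at h1
    have h2 : (F ^ k) x = x + ((-m : ℤ) : ℝ) := by
      rw [one_zpow, zpow_natCast] at h1
      push_cast at h1 ⊢
      linarith
    have h3 := fix_nat hF h2
    push_cast at h3 ⊢
    linarith

theorem trn_tendsto {F : Equiv.Perm ℝ} (hF : HL F 1) :
    Filter.Tendsto (fun n : ℕ => (F ^ n) 0 / n) Filter.atTop (nhds (trn F)) := by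
  rw [trn_eq hF]
  have h := (cl F hF).tendsto_translation_number₀
  refine h.congr fun n => ?_
  rw [cl_pow]

theorem trn_semi {F : Equiv.Perm ℝ} (hF : HL F 1) :
    ∃ Φ : ℝ → ℝ, Monotone Φ ∧ (∀ x, Φ (x + 1) = Φ x + 1) ∧ ∀ x, Φ (F x) = Φ x + trn F := by
  have hb : Function.Bijective
      ((CircleDeg1Lift.translate (Multiplicative.ofAdd (trn F)) : CircleDeg1Lift) : ℝ → ℝ) :=
    CircleDeg1Lift.isUnit_iff_bijective.1 (Units.isUnit _)
  obtain ⟨G, hG⟩ := CircleDeg1Lift.semiconj_of_bijective_of_translationNumber_eq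
    (f₁ := cl F hF) (f₂ := (CircleDeg1Lift.translate (Multiplicative.ofAdd (trn F)) : CircleDeg1Lift))
    F.bijective hb (by rw [CircleDeg1Lift.translationNumber_translate, trn_eq hF])
  refine ⟨G, G.monotone, G.map_add_one, fun x => ?_⟩
  have h1 := hG x
  rw [CircleDeg1Lift.translate_apply, cl_apply] at h1
  rw [h1, add_comm]

end Pool.Agent.Lib.P9Q
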