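import Pool.Agent.Lib.P9Q.MGood
import Pool.Agent.Lib.P9Q.TNum

/-!
# P9Q.MTrn: measurability of the translation number and of `BB`

`meas_trn`: let `A = {ω | s ω = 1}` (measurable, `meas_sign`). On `A` the function `trn (F ω)` is
the limit of `((F ω)^n 0) / n` (`trn_tendsto`), measurable by induction on `n` with `meas_comp`
(or `meas_act` for the word `of false ^ n`); off `A` the lift is antitone, so not strictly
monotone, and `trn (F ω) = 0` (`dif_neg`). Use `Measurable.ite` and `measurable_of_tendsto_metrizable`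
for the functions which are `0` off `A`.
`meas_BB`: `meas_line` with `act_mon`, `meas_act`; and `meas_sign`, `meas_trn`.
-/

namespace Pool.Agent.Lib.P9Q

open Set

variable {Ω : Type*} [MeasurableSpace Ω]

namespace MTrnAux

theorem pow_act (F : Equiv.Perm ℝ) (n : ℕ) (x : ℝ) :
    (F ^ n) x = act F (FreeGroup.of false ^ n) x := by
  rw [map_pow]
  have h : act F (FreeGroup.of false) = F := by
    unfold act
    rw [FreeGroup.lift_apply_of]
    simp
  rw [h]

theorem trn_neg {F : Equiv.Perm ℝ} {s : ℤˣ} (hF : HL F s) (h : ¬ s = 1) : trn F = 0 := by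
  have h1 : s = -1 := (Int.units_eq_one_or s).resolve_left h
  have h2 : ¬ (StrictMono F ∧ ∀ x, F (x + 1) = F x + 1) := by
    rintro ⟨h3, -⟩
    exact lt_asymm (h3 zero_lt_one) (hF.dec h1 zero_lt_one)
  unfold trn
  rw [dif_neg h2]

end MTrnAux

open MTrnAux

theorem meas_trn {F : Ω → Equiv.Perm ℝ} {s : Ω → ℤˣ} (hF : ∀ ω, HL (F ω) (s ω))
    (hm : ∀ x, Measurable fun ω => F ω x) : Measurable fun ω => trn (F ω) := by
  classical
  have hA := meas_sign hF hm
  have hpow : ∀ n : ℕ, Measurable fun ω => (F ω ^ n) 0 / (n : ℝ) := by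
    intro n
    have h : (fun ω => (F ω ^ n) 0 / (n : ℝ)) =
        fun ω => act (F ω) (FreeGroup.of false ^ n) 0 / (n : ℝ) := by
      funext ω
      rw [pow_act]
    rw [h]
    exact (meas_act hF hm _ 0).div_const _
  have hg : ∀ n : ℕ, Measurable fun ω => if s ω = 1 then (F ω ^ n) 0 / (n : ℝ) else 0 := by
    intro n
    exact Measurable.ite hA (hpow n) measurable_const
  refine measurable_of_tendsto_metrizable hg ?_
  rw [tendsto_pi_nhds]
  intro ω
  by_cases h : s ω = 1
  · simp only [h, if_true]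
    refine trn_tendsto ?_
    have := hF ω
    rwa [h] at this
  · simp only [h, if_false]
    rw [trn_neg (hF ω) h]
    exact tendsto_const_nhds

theorem meas_BB {F : Ω → Equiv.Perm ℝ} {s : Ω → ℤˣ} (hF : ∀ ω, HL (F ω) (s ω))
    (hm : ∀ x, Measurable fun ω => F ω x) (k : Option (FreeGroup Bool × Bool) ⊕ ℚ)
    (x y : ℚ ⊕ ℕ) : MeasurableSet {ω | BB (F ω) (s ω) k x y} := by
  cases k with
  | inl k =>
    exact meas_line (ρ := fun ω => act (F ω)) (ε := fun ω => sgn (s ω))
      (fun ω => act_mon (hF ω)) (fun γ x => meas_act hF hm γ x) k x y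
  | inr c =>
    have h : {ω | BB (F ω) (s ω) (Sum.inr c) x y} =
        {ω | s ω = 1} ∩ {ω | trn (F ω) < (c : ℝ)} := rfl
    rw [h]
    exact (meas_sign hF hm).inter (measurableSet_lt (meas_trn hF hm) measurable_const)

end Pool.Agent.Lib.P9Q
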