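import Pool.Agent.Lib.P9Q.MLift
import Pool.Agent.Lib.P9Q.MTrn

/-!
# P9Q.MCirc: measurability of the circle structure

`meas_sg`: `meas_sign` with `clift_HL`. `meas_LL`: unfold; on `{ω | sg (f ω) = 1}` the value is
`clift (f ω) x + (-⌊trn (clift (f ω))⌋)` (`TT_zpow`), measurable by `meas_clift`, `meas_trn`,
`Int.measurable_floor`; off it `clift (f ω) x` or `clift (f ω) x + 1`. `Measurable.ite`.
`meas_rfl`: `rfl' (f ω) x = - f ω (- x)`. `meas_circ`: `meas_BB` for `F ω = LL b.2 (orf b.1 (f ω))`.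
-/

namespace Pool.Agent.Lib.P9Q

open Set

variable {Ω : Type*} [MeasurableSpace Ω]

theorem meas_sg {f : Ω → TC ≃ₜ TC} (hm : ∀ x, Measurable fun ω => f ω x) :
    MeasurableSet {ω | sg (f ω) = 1} :=
  meas_sign (fun ω => clift_HL (f ω)) (meas_clift hm)

namespace MCircAux

/-- The value of the distinguished lifts. -/
theorem LL_apply (b : Bool) (f : TC ≃ₜ TC) (x : ℝ) :
    LL b f x = if sg f = 1 then clift f x + ((-⌊trn (clift f)⌋ : ℤ) : ℝ)
      else if b = true then clift f x + ((1 : ℤ) : ℝ) else clift f x := by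
  have h1 : L1 f x = if sg f = 1 then clift f x + ((-⌊trn (clift f)⌋ : ℤ) : ℝ)
      else clift f x := by
    unfold L1
    by_cases h : sg f = 1
    · rw [if_pos h, if_pos h, Equiv.Perm.mul_apply, TT_zpow]
    · rw [if_neg h, if_neg h]
  have h2 : L2 f x = if sg f = 1 then clift f x + ((-⌊trn (clift f)⌋ : ℤ) : ℝ)
      else clift f x + ((1 : ℤ) : ℝ) := by
    unfold L2
    by_cases h : sg f = 1
    · rw [if_pos h, if_pos h, h1, if_pos h]
    · rw [if_neg h, if_neg h, Equiv.Perm.mul_apply, TT_zpow]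
  unfold LL
  cases b with
  | false => simpa using h1
  | true => simpa using h2

end MCircAux

theorem meas_LL {f : Ω → TC ≃ₜ TC} (hm : ∀ x, Measurable fun ω => f ω x) (b : Bool) (x : ℝ) :
    Measurable fun ω => LL b (f ω) x := by
  have hc := meas_clift hm
  have ht : Measurable fun ω => trn (clift (f ω)) :=
    meas_trn (fun ω => clift_HL (f ω)) hc
  have hfl : Measurable fun ω => ((-⌊trn (clift (f ω))⌋ : ℤ) : ℝ) :=
    (measurable_from_top (f := fun n : ℤ => ((-n : ℤ) : ℝ))).comp (Int.measurable_floor.comp ht)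
  simp only [MCircAux.LL_apply]
  refine Measurable.ite (meas_sg hm) ((hc x).add hfl) ?_
  cases b with
  | false => simpa using hc x
  | true => simpa using (hc x).add_const ((1 : ℤ) : ℝ)

theorem meas_orf {f : Ω → TC ≃ₜ TC} (hm : ∀ x, Measurable fun ω => f ω x) (b : Bool) (x : TC) :
    Measurable fun ω => orf b (f ω) x := by
  cases b with
  | false => exact hm x
  | true =>
    have : (fun ω => orf true (f ω) x) = fun ω => -(f ω (-x)) := rfl
    rw [this]
    exact (hm (-x)).neg

theorem meas_circ {f : Ω → TC ≃ₜ TC} (hm : ∀ x, Measurable fun ω => f ω x) (b : Bool × Bool)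
    (k : Option (FreeGroup Bool × Bool) ⊕ ℚ) (x y : ℚ ⊕ ℕ) :
    MeasurableSet {ω | circ (f ω) b k x y} :=
  meas_BB (F := fun ω => LL b.2 (orf b.1 (f ω))) (s := fun ω => sg (orf b.1 (f ω)))
    (fun ω => LL_HL b.2 (orf b.1 (f ω))) (meas_LL (meas_orf hm b.1) b.2) k x y

end Pool.Agent.Lib.P9Q
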