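import Pool.Agent.Lib.P9Q.AWord
import Pool.Agent.Lib.P9Q.DExt

/-!
# P9Q.MWord: measurability of the action of words

`meas_comp`: `(x, ω) ↦ F ω x` is continuous in `x` and measurable in `ω`, hence jointly measurable
(`MeasureTheory.measurable_uncurry_of_continuous_of_measurable` or
`stronglyMeasurable_uncurry_of_continuous_of_stronglyMeasurable`); compose with `ω ↦ (u ω, ω)`.
`meas_sign`: `s ω = 1` iff `F ω 0 < F ω 1` (`Int.units_eq_one_or`).
`meas_inv`: `{ω | (F ω)⁻¹ y < c} = ({s ω = 1} ∩ {y < F ω c}) ∪ ({s ω ≠ 1} ∩ {F ω c < y})`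
(`measurable_of_Iio`).
`meas_act`: induction over the free group: the set of `γ` such that `ω ↦ act (F ω) γ x` is
measurable for all `x` contains the generators and their inverses and is closed under products
by `meas_comp` (continuity of `act (F ω) γ`: `act_mon`, `continuous_of_mono`).
-/

namespace Pool.Agent.Lib.P9Q

open Set

variable {Ω : Type*} [MeasurableSpace Ω]

theorem meas_comp {F : Ω → ℝ → ℝ} (hc : ∀ ω, Continuous (F ω))
    (hm : ∀ x, Measurable fun ω => F ω x) {u : Ω → ℝ} (hu : Measurable u) :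
    Measurable fun ω => F ω (u ω) := by
  have h := MeasureTheory.measurable_uncurry_of_continuous_of_measurable
    (u := fun (x : ℝ) (ω : Ω) => F ω x) hc hm
  exact h.comp (hu.prodMk measurable_id)

namespace MWordAux

theorem lt_iff {F : Equiv.Perm ℝ} {s : ℤˣ} (hF : HL F s) : s = 1 ↔ F 0 < F 1 := by
  constructor
  · intro h
    exact hF.inc h zero_lt_one
  · intro h
    rcases Int.units_eq_one_or s with h1 | h1
    · exact h1
    · exact absurd (hF.dec h1 zero_lt_one) (not_lt.2 h.le)

theorem ne_one {s : ℤˣ} (h : s ≠ 1) : s = -1 := (Int.units_eq_one_or s).resolve_left h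

theorem inv_lt {F : Equiv.Perm ℝ} {s : ℤˣ} (hF : HL F s) (y c : ℝ) :
    F⁻¹ y < c ↔ (s = 1 ∧ y < F c) ∨ (s ≠ 1 ∧ F c < y) := by
  have e : F (F⁻¹ y) = y := F.apply_symm_apply y
  by_cases h : s = 1
  · have h1 := (hF.inc h).lt_iff_lt (a := F⁻¹ y) (b := c)
    rw [e] at h1
    constructor
    · intro h2
      exact Or.inl ⟨h, h1.2 h2⟩
    · rintro (⟨-, h2⟩ | ⟨h2, -⟩)
      · exact h1.1 h2
      · exact absurd h h2
  · have h1 := (hF.dec (ne_one h)).lt_iff_gt (a := c) (b := F⁻¹ y)
    rw [e] at h1
    constructor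
    · intro h2
      exact Or.inr ⟨h, h1.2 h2⟩
    · rintro (⟨h2, -⟩ | ⟨-, h2⟩)
      · exact absurd h2 h
      · exact h1.1 h2

end MWordAux

open MWordAux

theorem meas_sign {F : Ω → Equiv.Perm ℝ} {s : Ω → ℤˣ} (hF : ∀ ω, HL (F ω) (s ω))
    (hm : ∀ x, Measurable fun ω => F ω x) : MeasurableSet {ω | s ω = 1} := by
  have h : {ω | s ω = 1} = {ω | F ω 0 < F ω 1} := by
    ext ω
    exact lt_iff (hF ω)
  rw [h]
  exact measurableSet_lt (hm 0) (hm 1)

theorem meas_inv {F : Ω → Equiv.Perm ℝ} {s : Ω → ℤˣ} (hF : ∀ ω, HL (F ω) (s ω))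
    (hm : ∀ x, Measurable fun ω => F ω x) (y : ℝ) : Measurable fun ω => (F ω)⁻¹ y := by
  refine measurable_of_Iio fun c => ?_
  have h : (fun ω => (F ω)⁻¹ y) ⁻¹' Iio c =
      ({ω | s ω = 1} ∩ {ω | y < F ω c}) ∪ ({ω | s ω = 1}ᶜ ∩ {ω | F ω c < y}) := by
    ext ω
    exact inv_lt (hF ω) y c
  rw [h]
  exact ((meas_sign hF hm).inter (measurableSet_lt measurable_const (hm c))).union
    ((meas_sign hF hm).compl.inter (measurableSet_lt (hm c) measurable_const))

theorem meas_act {F : Ω → Equiv.Perm ℝ} {s : Ω → ℤˣ} (hF : ∀ ω, HL (F ω) (s ω))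
    (hm : ∀ x, Measurable fun ω => F ω x) (γ : FreeGroup Bool) (x : ℝ) :
    Measurable fun ω => act (F ω) γ x := by
  have hcont : ∀ ω γ, Continuous (act (F ω) γ) := by
    intro ω γ
    refine continuous_of_mono ?_ (act (F ω) γ).surjective
    rcases Int.units_eq_one_or (sgn (s ω) γ) with h | h
    · exact Or.inl ((act_mon (hF ω)).inc γ h)
    · exact Or.inr ((act_mon (hF ω)).dec γ h)
  revert x
  induction γ using FreeGroup.induction_on with
  | C1 =>
    intro x
    have h : (fun ω => act (F ω) 1 x) = fun _ => x := by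
      funext ω
      rw [map_one]
      rfl
    rw [h]
    exact measurable_const
  | of b =>
    intro x
    cases b with
    | true =>
      have h : (fun ω => act (F ω) (FreeGroup.of true) x) = fun _ => x + 1 := by
        funext ω
        exact act_true (F ω) x
      rw [h]
      exact measurable_const
    | false =>
      have h : (fun ω => act (F ω) (FreeGroup.of false) x) = fun ω => F ω x := by
        funext ω
        exact act_false (F ω) x
      rw [h]
      exact hm x
  | inv_of b _ =>
    intro x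
    cases b with
    | true =>
      have h : (fun ω => act (F ω) (FreeGroup.of true)⁻¹ x) = fun _ => x - 1 := by
        funext ω
        rw [map_inv, Equiv.Perm.inv_eq_iff_eq]
        have h1 := act_true (F ω) (x - 1)
        rw [sub_add_cancel] at h1
        exact h1.symm
      rw [h]
      exact measurable_const
    | false =>
      have h : (fun ω => act (F ω) (FreeGroup.of false)⁻¹ x) = fun ω => (F ω)⁻¹ x := by
        funext ω
        rw [map_inv, Equiv.Perm.inv_eq_iff_eq]
        have h1 := act_false (F ω) ((F ω)⁻¹ x)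
        rw [show F ω ((F ω)⁻¹ x) = x from (F ω).apply_symm_apply x] at h1
        exact h1.symm
      rw [h]
      exact meas_inv hF hm x
  | mul a b ha hb =>
    intro x
    have h : (fun ω => act (F ω) (a * b) x) = fun ω => act (F ω) a (act (F ω) b x) := by
      funext ω
      rw [map_mul]
      rfl
    rw [h]
    exact meas_comp (F := fun ω => act (F ω) a) (fun ω => hcont ω a) ha (hb x)

end Pool.Agent.Lib.P9Q
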