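import Pool.Agent.Lib.P9Q.GBase
import Pool.Agent.Lib.P9Q.MWord

/-!
# P9Q.MGood: measurability of the line structure

`meas_good`: if `b ≤ a` then `Good` holds. Let `a < b`. `{ω | Good (ρ ω) a b}` is the countable
intersection over `γ` of the union of
`{ω | ∀ x ∈ Ioo a b, ρ ω γ x ∉ Ioo a b}`
`= {ω | max (ρ ω γ a) (ρ ω γ b) ≤ a ∨ b ≤ min (ρ ω γ a) (ρ ω γ b)}` (a monotone or antitone
bijection maps `Ioo a b` onto the nonempty interval with these ends) and
`{ω | ∀ x ∈ Ioo a b, ρ ω γ x = x} = {ω | ∀ r : ℚ, (r : ℝ) ∈ Ioo a b → ρ ω γ r = r}` (continuity,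
`Mon.cont`).
`conn_iff`. (⇒) `uIcc x y` is compact and covered by the open intervals `Ioo a b` with
`Good ρ a b`; let `d` be a Lebesgue number (`lebesgue_number_lemma_of_metric`) and
`2 / (n + 1) ≤ d`. If `t` is within `1 / (n + 1)` of `uIcc x y`, the interval of radius
`1 / (n + 1)` around `t` lies in the interval of radius `d` around a point of `uIcc x y`, hence in a
good interval; a subinterval of a good interval is good. (⇐) For `z ∈ uIcc x y` choose a rational
`t` with `|t - z| < 1 / (n + 1)`.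
`meas_conn`: `conn_iff`, countable union and intersection; for fixed `n, t` the conditions
`min (u ω) (v ω) - 1 / (n + 1) < t` etc. are measurable and `meas_good` applies.
`meas_line`: case distinction; `meas_conn` with `u = fun ω => ρ ω γ r` or constants.
-/

namespace Pool.Agent.Lib.P9Q

open Set

variable {Γ : Type*} [Group Γ]

theorem Good.mono {ρ : Γ →* Equiv.Perm ℝ} {a b a' b' : ℝ} (h : Good ρ a b) (ha : a ≤ a')
    (hb : b' ≤ b) : Good ρ a' b' := by
  intro γ
  have hs : Ioo a' b' ⊆ Ioo a b := Ioo_subset_Ioo ha hb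
  rcases h γ with h1 | h1
  · exact Or.inl fun x hx hc => h1 x (hs hx) (hs hc)
  · exact Or.inr fun x hx => h1 x (hs hx)

theorem conn_iff {ρ : Γ →* Equiv.Perm ℝ} {x y : ℝ} :
    Conn ρ x y ↔ ∃ n : ℕ, ∀ t : ℚ, min x y - 1 / ((n : ℝ) + 1) < t →
      (t : ℝ) < max x y + 1 / ((n : ℝ) + 1) →
      Good ρ ((t : ℝ) - 1 / ((n : ℝ) + 1)) ((t : ℝ) + 1 / ((n : ℝ) + 1)) := by
  constructor
  · intro h
    obtain ⟨δ, hδ, hl⟩ := lebesgue_number_lemma_of_metric (s := uIcc x y)
      (c := fun p : {p : ℝ × ℝ // Good ρ p.1 p.2} => Ioo p.1.1 p.1.2) isCompact_uIcc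
      (fun p => isOpen_Ioo) (by
        intro z hz
        obtain ⟨a, b, ha, hb, hg⟩ := h hz
        exact mem_iUnion.2 ⟨⟨(a, b), hg⟩, ha, hb⟩)
    obtain ⟨n, hn⟩ := exists_nat_one_div_lt (half_pos hδ)
    refine ⟨n, fun t h1 h2 => ?_⟩
    have hpos : (0 : ℝ) < 1 / ((n : ℝ) + 1) := by positivity
    obtain ⟨z, hz, hzl, hzu⟩ : ∃ z ∈ uIcc x y, (t : ℝ) - 1 / ((n : ℝ) + 1) < z ∧
        z < (t : ℝ) + 1 / ((n : ℝ) + 1) := by
      rcases le_total (t : ℝ) (min x y) with h3 | h3
      · refine ⟨min x y, ⟨le_rfl, min_le_max⟩, ?_, ?_⟩ <;> linarith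
      · rcases le_total (max x y) (t : ℝ) with h4 | h4
        · refine ⟨max x y, ⟨min_le_max, le_rfl⟩, ?_, ?_⟩ <;> linarith
        · refine ⟨t, ⟨h3, h4⟩, ?_, ?_⟩ <;> linarith
    obtain ⟨⟨⟨a, b⟩, hg⟩, hab⟩ := hl z hz
    have hsub : Ioo ((t : ℝ) - 1 / ((n : ℝ) + 1)) ((t : ℝ) + 1 / ((n : ℝ) + 1)) ⊆ Ioo a b := by
      intro w hw
      refine hab ?_
      rw [Metric.mem_ball, Real.dist_eq, abs_lt]
      constructor <;> linarith [hw.1, hw.2]
    rw [Ioo_subset_Ioo_iff (by linarith)] at hsub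
    exact hg.mono hsub.1 hsub.2
  · rintro ⟨n, hn⟩ z hz
    have hpos : (0 : ℝ) < 1 / ((n : ℝ) + 1) := by positivity
    obtain ⟨t, ht1, ht2⟩ := exists_rat_btwn (show z < z + 1 / ((n : ℝ) + 1) by linarith)
    have h1 : min x y ≤ z := hz.1
    have h2 : z ≤ max x y := hz.2
    exact ⟨_, _, by linarith, by linarith, hn t (by linarith) (by linarith)⟩

namespace MGoodAux

theorem btwn {f : Equiv.Perm ℝ} (hf : StrictMono f ∨ StrictAnti f) {a b : ℝ} (hab : a < b)
    (x : ℝ) : x ∈ Ioo a b ↔ min (f a) (f b) < f x ∧ f x < max (f a) (f b) := by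
  rcases hf with h | h
  · rw [min_eq_left (h hab).le, max_eq_right (h hab).le, h.lt_iff_lt, h.lt_iff_lt]
    rfl
  · rw [min_eq_right (h hab).le, max_eq_left (h hab).le, h.lt_iff_gt, h.lt_iff_gt, and_comm]
    rfl

theorem off_iff {f : Equiv.Perm ℝ} (hf : StrictMono f ∨ StrictAnti f) {a b : ℝ} (hab : a < b) :
    (∀ x ∈ Ioo a b, f x ∉ Ioo a b) ↔ max (f a) (f b) ≤ a ∨ b ≤ min (f a) (f b) := by
  constructor
  · intro h
    by_contra hc
    rw [not_or, not_le, not_le] at hc
    have hne : f a ≠ f b := fun he => hab.ne (f.injective he)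
    have hlt : min (f a) (f b) < max (f a) (f b) := min_lt_max.2 hne
    obtain ⟨y, hy1, hy2⟩ := exists_between
      (show max (min (f a) (f b)) a < min (max (f a) (f b)) b from
        lt_min (max_lt hlt hc.1) (max_lt hc.2 hab))
    obtain ⟨x, rfl⟩ := f.surjective y
    rw [max_lt_iff] at hy1
    rw [lt_min_iff] at hy2
    exact h x ((btwn hf hab x).2 ⟨hy1.1, hy2.1⟩) ⟨hy1.2, hy2.2⟩
  · rintro h x hx ⟨h1, h2⟩
    obtain ⟨h3, h4⟩ := (btwn hf hab x).1 hx
    rcases h with h | h
    · linarith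
    · linarith

theorem fix_iff {f : ℝ → ℝ} (hf : Continuous f) {a b : ℝ} :
    (∀ x ∈ Ioo a b, f x = x) ↔ ∀ r : ℚ, (r : ℝ) ∈ Ioo a b → f r = r := by
  constructor
  · exact fun h r hr => h r hr
  · intro h x hx
    by_contra hc
    have ho : IsOpen ({y | f y ≠ y} ∩ Ioo a b) :=
      (isOpen_ne_fun hf continuous_id).inter isOpen_Ioo
    obtain ⟨r, hr1, hr2⟩ := Rat.denseRange_cast.exists_mem_open ho ⟨x, hc, hx⟩
    exact hr1 (h r hr2)

end MGoodAux

open MGoodAux

variable {Ω : Type*} [MeasurableSpace Ω] [Countable Γ] {ρ : Ω → Γ →* Equiv.Perm ℝ}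
  {ε : Ω → Γ →* ℤˣ}

theorem meas_good (hρ : ∀ ω, Mon (ρ ω) (ε ω)) (hm : ∀ γ x, Measurable fun ω => ρ ω γ x)
    (a b : ℝ) : MeasurableSet {ω | Good (ρ ω) a b} := by
  rcases le_or_gt b a with hab | hab
  · have h : {ω | Good (ρ ω) a b} = univ := by
      refine eq_univ_of_forall fun ω γ => Or.inl fun x hx => ?_
      rw [Ioo_eq_empty (not_lt.2 hab)] at hx
      exact absurd hx (notMem_empty x)
    rw [h]
    exact MeasurableSet.univ
  · have h : {ω | Good (ρ ω) a b} = ⋂ γ, ({ω | max (ρ ω γ a) (ρ ω γ b) ≤ a} ∪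
        {ω | b ≤ min (ρ ω γ a) (ρ ω γ b)}) ∪
        ⋂ r : ℚ, ⋂ _ : (r : ℝ) ∈ Ioo a b, {ω | ρ ω γ r = r} := by
      ext ω
      simp only [mem_setOf_eq, mem_iInter, mem_union]
      unfold Good
      refine forall_congr' fun γ => ?_
      rw [off_iff ((hρ ω).mono γ) hab, fix_iff ((hρ ω).cont γ)]
    rw [h]
    refine MeasurableSet.iInter fun γ => ((measurableSet_le ((hm γ a).max (hm γ b))
      measurable_const).union (measurableSet_le measurable_const
      ((hm γ a).min (hm γ b)))).union ?_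
    exact MeasurableSet.iInter fun r => MeasurableSet.iInter fun _ =>
      measurableSet_eq_fun (hm γ r) measurable_const

theorem meas_conn (hρ : ∀ ω, Mon (ρ ω) (ε ω)) (hm : ∀ γ x, Measurable fun ω => ρ ω γ x)
    {u v : Ω → ℝ} (hu : Measurable u) (hv : Measurable v) :
    MeasurableSet {ω | Conn (ρ ω) (u ω) (v ω)} := by
  simp only [conn_iff]
  rw [setOf_exists]
  refine MeasurableSet.iUnion fun n => ?_
  rw [setOf_forall]
  refine MeasurableSet.iInter fun t => ?_
  rw [measurableSet_setOf]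
  refine Measurable.imp (measurableSet_setOf.1 (measurableSet_lt
    ((hu.min hv).sub measurable_const) measurable_const)) (Measurable.imp
    (measurableSet_setOf.1 (measurableSet_lt measurable_const
    ((hu.max hv).add measurable_const))) (measurableSet_setOf.1 (meas_good hρ hm _ _)))

theorem meas_line (hρ : ∀ ω, Mon (ρ ω) (ε ω)) (hm : ∀ γ x, Measurable fun ω => ρ ω γ x)
    (k : Option (Γ × Bool)) (x y : ℚ ⊕ ℕ) : MeasurableSet {ω | lineStr (ρ ω) k x y} := by
  have hc : ∀ {u v : Ω → ℝ}, Measurable u → Measurable v →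
      MeasurableSet {ω | Conn (ρ ω) (u ω) (v ω)} := fun hu hv => meas_conn hρ hm hu hv
  rcases k with _ | ⟨γ, b⟩
  · rcases x with r | i <;> rcases y with s | j
    · exact (MeasurableSet.const _).inter ((hc measurable_const measurable_const).inter
        ((hc measurable_const measurable_const).inter
        (hc measurable_const measurable_const).compl))
    all_goals exact MeasurableSet.const _
  · rcases b with _ | _
    · rcases x with r | i <;> rcases y with s | j
      · exact hc (hm γ r) measurable_const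
      all_goals exact MeasurableSet.const _
    · rcases x with r | i
      · exact (hc (hm γ r) measurable_const).inter (measurableSet_lt measurable_const (hm γ r))
      · exact MeasurableSet.const _

end Pool.Agent.Lib.P9Q
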