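import Pool.Agent.Lib.P9Q.CDefs

/-!
# P9Q.MLift: measurability of the lift

Let `F ω = clift (f ω)`, a continuous lift with `0 ≤ F ω 0 < 1` (`HL`, `continuous_of_mono`).
Let `d : TC → ℝ` be the measurable representative in `[-1/2, 1/2)`
(`AddCircle.measurableEquivIco 1 (-1/2)`) and `e : TC → ℝ` the representative in `[0, 1)`.
`F ω 0 = e (f ω 0)`. If `|F ω y - F ω x| < 1/2` then `F ω y - F ω x = d (f ω y - f ω x)`. For
`x : ℝ` and `m ≥ 1` let `S m ω = e (f ω 0) + ∑ j ∈ range m, d (f ω ((j+1) x / m) - f ω (j x / m))`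
(points of `ℝ` mapped to `TC`); measurable in `ω`. By uniform continuity of `F ω` on the compact
interval `uIcc 0 x`, for all large `m` all the differences are less than `1/2` and `S m ω = F ω x`
(telescoping sum). So `ω ↦ F ω x` is the limit of the measurable functions `S m`
(`measurable_of_tendsto_metrizable`).
-/

namespace Pool.Agent.Lib.P9Q

open Set

variable {Ω : Type*} [MeasurableSpace Ω]

namespace MLiftAux

/-- The representative in `[-1/2, 1/2)`. -/
noncomputable def dd (z : TC) : ℝ := (AddCircle.measurableEquivIco 1 (-1 / 2) z : ℝ)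

/-- The representative in `[0, 1)`. -/
noncomputable def ee (z : TC) : ℝ := (AddCircle.measurableEquivIco 1 0 z : ℝ)

theorem dd_meas : Measurable dd :=
  measurable_subtype_coe.comp (AddCircle.measurableEquivIco 1 (-1 / 2)).measurable

theorem ee_meas : Measurable ee :=
  measurable_subtype_coe.comp (AddCircle.measurableEquivIco 1 0).measurable

theorem dd_coe {t : ℝ} (h : |t| < 1 / 2) : dd (t : TC) = t := by
  have h' := abs_lt.1 h
  exact AddCircle.equivIco_coe_of_mem (p := (1 : ℝ)) (a := (-1 / 2 : ℝ)) (y := t)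
    ⟨by linarith [h'.1], by linarith [h'.2]⟩

theorem ee_coe {t : ℝ} (h : 0 ≤ t) (h' : t < 1) : ee (t : TC) = t := by
  exact AddCircle.equivIco_coe_of_mem (p := (1 : ℝ)) (a := (0 : ℝ)) (y := t)
    ⟨h, by linarith⟩

theorem cont (f : TC ≃ₜ TC) : Continuous (clift f) := by
  have h := clift_HL f
  refine continuous_of_mono ?_ (clift f).surjective
  rcases Int.units_eq_one_or (sg f) with hs | hs
  · exact Or.inl (h.inc hs)
  · exact Or.inr (h.dec hs)

/-- The approximations. -/
noncomputable def SS (f : TC ≃ₜ TC) (x : ℝ) (m : ℕ) : ℝ :=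
  ee (f ((0 : ℝ) : TC)) + ∑ j ∈ Finset.range m,
    dd (f ((((j + 1 : ℕ) : ℝ) * x / m : ℝ) : TC) - f ((((j : ℕ) : ℝ) * x / m : ℝ) : TC))

theorem mem_seg (x : ℝ) {m j : ℕ} (hm : 0 < m) (hj : j ≤ m) : (j : ℝ) * x / m ∈ uIcc 0 x := by
  have hm' : (0 : ℝ) < m := by exact_mod_cast hm
  have h1 : (j : ℝ) * x / m = ((j : ℝ) / m) * x := by ring
  have h2 : (0 : ℝ) ≤ (j : ℝ) / m := by positivity
  have h3 : (j : ℝ) / m ≤ 1 := by
    rw [div_le_one hm']
    exact_mod_cast hj
  rw [h1]
  rcases le_total 0 x with hx | hx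
  · rw [uIcc_of_le hx]
    exact ⟨by positivity, by nlinarith⟩
  · rw [uIcc_of_ge hx]
    exact ⟨by nlinarith, mul_nonpos_of_nonneg_of_nonpos h2 hx⟩

theorem SS_eq (f : TC ≃ₜ TC) (x : ℝ) : ∃ N : ℕ, ∀ m, N ≤ m → SS f x m = clift f x := by
  have hu := (isCompact_uIcc (a := (0 : ℝ)) (b := x)).uniformContinuousOn_of_continuous
    (cont f).continuousOn
  rw [Metric.uniformContinuousOn_iff] at hu
  obtain ⟨δ, hδ, hu⟩ := hu (1 / 2) (by norm_num)
  obtain ⟨N, hN⟩ := exists_nat_gt (|x| / δ)
  refine ⟨max N 1, fun m hm => ?_⟩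
  have hm1 : 0 < m := by
    have := le_trans (le_max_right N 1) hm
    omega
  have hmN : N ≤ m := le_trans (le_max_left N 1) hm
  have hm' : (0 : ℝ) < m := by exact_mod_cast hm1
  have hNm : |x| / δ < m := lt_of_lt_of_le hN (by exact_mod_cast hmN)
  have hxm : |x| / m < δ := by
    rw [div_lt_iff₀ hm']
    rw [div_lt_iff₀ hδ] at hNm
    linarith
  have key : ∀ j ∈ Finset.range m,
      dd (f ((((j + 1 : ℕ) : ℝ) * x / m : ℝ) : TC) - f ((((j : ℕ) : ℝ) * x / m : ℝ) : TC)) =
        clift f (((j + 1 : ℕ) : ℝ) * x / m) - clift f (((j : ℕ) : ℝ) * x / m) := by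
    intro j hj
    have hj' := Finset.mem_range.1 hj
    rw [← clift_isLift f, ← clift_isLift f, ← AddCircle.coe_sub]
    apply dd_coe
    have h := hu _ (mem_seg x hm1 (show j + 1 ≤ m from hj')) _ (mem_seg x hm1 hj'.le) (by
      rw [Real.dist_eq]
      have : ((j + 1 : ℕ) : ℝ) * x / m - (j : ℝ) * x / m = x / m := by
        push_cast
        ring
      rw [this, abs_div, abs_of_pos hm']
      exact hxm)
    rwa [Real.dist_eq] at h
  unfold SS
  rw [Finset.sum_congr rfl key, Finset.sum_range_sub (fun j : ℕ => clift f ((j : ℝ) * x / m)),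
    ← clift_isLift f, ee_coe (clift_nonneg f) (clift_lt f)]
  have h1 : (m : ℝ) * x / m = x := by field_simp
  rw [h1]
  simp

end MLiftAux

open MLiftAux in
theorem meas_clift {f : Ω → TC ≃ₜ TC} (hm : ∀ x, Measurable fun ω => f ω x) (x : ℝ) :
    Measurable fun ω => clift (f ω) x := by
  refine measurable_of_tendsto_metrizable (f := fun m ω => SS (f ω) x m) (fun m => ?_) ?_
  · unfold SS
    refine (ee_meas.comp (hm _)).add ?_
    refine Finset.measurable_sum _ fun j _ => ?_
    exact dd_meas.comp ((hm _).sub (hm _))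
  · rw [tendsto_pi_nhds]
    intro ω
    obtain ⟨N, hN⟩ := SS_eq (f ω) x
    refine tendsto_const_nhds.congr' ?_
    filter_upwards [Filter.eventually_ge_atTop N] with m hm
    exact (hN m hm).symm

end Pool.Agent.Lib.P9Q
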