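import Pool.Agent.Lib.P9Q.NDefs

/-!
# P9Q.MRet: measurability of the permutation of the circles and of the return maps

`meas_pm`: `pm (f ω) = π` iff `(f ω (i, 0)).1 = π i` for all `i` (finite intersection of
measurable sets).
`meas_iter`: for fixed `k` and `z` the function `ω ↦ (f ω)^[k] z` is measurable: induction on `k`;
`(z, ω) ↦ f ω z` is continuous in `z` and measurable in `ω`, so jointly measurable
(`MeasureTheory.measurable_uncurry_of_continuous_of_measurable` or the strongly measurable version;
`NC n` is a second countable metrizable Borel space).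
`meas_ret`: `Ω` is the finite disjoint union of the measurable sets `{ω | pm (f ω) = π}`; on each of
them `ret (f ω) i x` is the second component of `(f ω)^[k] (i, x)` with the constant
`k = minimalPeriod π i` (`ret_spec`). (`measurable_to_countable`-like gluing: for a measurable set
`B`, `{ω | ret (f ω) i x ∈ B} = ⋃ π, {pm (f ω) = π} ∩ {((f ω)^[k π] (i, x)).2 ∈ B}`.)
-/

namespace Pool.Agent.Lib.P9Q

open Set

variable {Ω : Type*} [MeasurableSpace Ω]

theorem meas_pm {n : ℕ} {f : Ω → NC n ≃ₜ NC n} (hm : ∀ x, Measurable fun ω => f ω x)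
    (π : Equiv.Perm (Fin n)) : MeasurableSet {ω | pm (f ω) = π} := by
  have h : {ω | pm (f ω) = π} = ⋂ i, {ω | (f ω (i, 0)).1 = π i} := by
    ext ω
    simp only [Set.mem_setOf_eq, Set.mem_iInter]
    constructor
    · intro h i
      rw [pm_spec, h]
    · intro h
      refine Equiv.ext fun i => ?_
      rw [← pm_spec (f ω) i 0]
      exact h i
  rw [h]
  exact MeasurableSet.iInter fun i =>
    (measurable_fst.comp (hm (i, 0))) (measurableSet_singleton (π i))

theorem meas_iter {n : ℕ} {f : Ω → NC n ≃ₜ NC n} (hm : ∀ x, Measurable fun ω => f ω x)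
    (k : ℕ) (z : NC n) : Measurable fun ω => (⇑(f ω))^[k] z := by
  have hu : Measurable (Function.uncurry fun (z : NC n) (ω : Ω) => f ω z) :=
    MeasureTheory.measurable_uncurry_of_continuous_of_measurable (fun ω => (f ω).continuous) hm
  induction k with
  | zero =>
    simp only [Function.iterate_zero, id_eq]
    exact measurable_const
  | succ k ih =>
    have h : (fun ω => (⇑(f ω))^[k + 1] z) =
        fun ω => Function.uncurry (fun (z : NC n) (ω : Ω) => f ω z) ((⇑(f ω))^[k] z, ω) := by
      funext ω
      rw [Function.iterate_succ_apply']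
      rfl
    rw [h]
    exact hu.comp (ih.prodMk measurable_id)

theorem meas_ret {n : ℕ} {f : Ω → NC n ≃ₜ NC n} (hm : ∀ x, Measurable fun ω => f ω x)
    (i : Fin n) (x : TC) : Measurable fun ω => ret (f ω) i x := by
  intro B hB
  have h : (fun ω => ret (f ω) i x) ⁻¹' B = ⋃ π : Equiv.Perm (Fin n), {ω | pm (f ω) = π} ∩
      (fun ω => ((⇑(f ω))^[Function.minimalPeriod π i] (i, x)).2) ⁻¹' B := by
    ext ω
    simp only [Set.mem_preimage, Set.mem_iUnion, Set.mem_inter_iff, Set.mem_setOf_eq]
    constructor
    · intro h1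
      refine ⟨pm (f ω), rfl, ?_⟩
      rw [ret_spec]
      exact h1
    · rintro ⟨π, h1, h2⟩
      rw [← h1, ret_spec] at h2
      exact h2
  rw [h]
  exact MeasurableSet.iUnion fun π => (meas_pm hm π).inter
    ((measurable_snd.comp (meas_iter hm _ (i, x))) hB)

end Pool.Agent.Lib.P9Q
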