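import Pool.Agent.Lib.P9Q.Defs

/-!
# P9Q.SCls: structures on a countable set with countably many relations

Proof. `Q` is countable and infinite, so there is `q : Q ≃ ℕ`; `K` is countable, so there is an
injection `j : K → ℕ`. Put `b x n u v := ∃ k, j k = n ∧ a x k (q.symm u) (q.symm v)`. For `n = j k`
this is `a x k (q.symm u) (q.symm v)` (injectivity), for `n` outside the range of `j` it is false.
Hence `SIso (a x) (a y) ↔ SIso (b x) (b y)` (conjugate the permutations with `q`). The set
`{x | b x n u v}` is a countable union of measurable sets.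
-/

namespace Pool.Agent.Lib.P9Q

open Set

theorem Cls.of_str {X : Type*} [MeasurableSpace X] {K Q : Type*} [Countable K] [Countable Q]
    [Infinite Q] {E : X → X → Prop} (a : X → Str K Q)
    (hm : ∀ k p q, MeasurableSet {x | a x k p q}) (h : ∀ x y, E x y ↔ SIso (a x) (a y)) :
    Cls E := by
  obtain ⟨q⟩ : Nonempty (Q ≃ ℕ) := nonempty_equiv_of_countable
  obtain ⟨j, hj⟩ := exists_injective_nat K
  refine ⟨fun x n u v => ∃ k, j k = n ∧ a x k (q.symm u) (q.symm v), ?_, ?_⟩
  · intro n u v
    have : {x | ∃ k, j k = n ∧ a x k (q.symm u) (q.symm v)} =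
        ⋃ k, ({_x : X | j k = n} ∩ {x | a x k (q.symm u) (q.symm v)}) := by
      ext x
      simp only [mem_ofPred_eq, mem_iUnion, mem_inter_iff]
    rw [this]
    exact MeasurableSet.iUnion fun k => (MeasurableSet.const _).inter (hm k _ _)
  · intro x y
    rw [h x y]
    constructor
    · rintro ⟨σ, hσ⟩
      refine ⟨(q.symm.trans σ).trans q, fun n u v => ?_⟩
      constructor
      · rintro ⟨k, hk, h1⟩
        refine ⟨k, hk, ?_⟩
        simp only [Equiv.trans_apply, Equiv.symm_apply_apply]
        exact (hσ k _ _).1 h1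
      · rintro ⟨k, hk, h1⟩
        refine ⟨k, hk, ?_⟩
        simp only [Equiv.trans_apply, Equiv.symm_apply_apply] at h1
        exact (hσ k _ _).2 h1
    · rintro ⟨τ, hτ⟩
      refine ⟨(q.trans τ).trans q.symm, fun k u v => ?_⟩
      have h1 := hτ (j k) (q u) (q v)
      constructor
      · intro h2
        obtain ⟨k', hk', h3⟩ := h1.1 ⟨k, rfl, by simpa using h2⟩
        rw [hj hk'] at h3
        exact h3
      · intro h2
        obtain ⟨k', hk', h3⟩ := h1.2 ⟨k, rfl, h2⟩
        rw [hj hk'] at h3
        simpa using h3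

end Pool.Agent.Lib.P9Q
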