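import Pool.Agent.Lib.P9Q.NIso
import Pool.Agent.Lib.P9Q.MCirc
import Pool.Agent.Lib.P9Q.MRet
import Pool.Agent.Lib.P9Q.SCls

/-!
# P9Q.NCls: conjugacy of homeomorphisms of `n` circles is classifiable

`Cls.of_str` with `a ω = ncs (f ω)`: the index types are countable, `Fin n × _` is infinite for
`n > 0`; `niso`. Measurability of `{ω | ncs (f ω) k p q}`: case distinction on `k`: `none` and
`some (some none)`: constant conditions; `some none`: `q.1 = pm (f ω) p.1`, a finite union of the
sets of `meas_pm`; `some (some (some (some k)))`: `meas_circ` for `ω ↦ ret (f ω) i` with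
`meas_ret`, intersected with constant conditions.
-/

namespace Pool.Agent.Lib.P9Q

open Set

namespace NClsAux

theorem countable_fg : Countable (FreeGroup Bool) :=
  Function.Surjective.countable (f := fun l : List (Bool × Bool) => FreeGroup.mk l)
    fun x => ⟨x.toWord, FreeGroup.mk_toWord⟩

theorem meas_perm {Ω : Type*} [MeasurableSpace Ω] {n : ℕ} {f : Ω → NC n ≃ₜ NC n}
    (hm : ∀ x, Measurable fun ω => f ω x) (i j : Fin n) :
    MeasurableSet {ω | j = pm (f ω) i} := by
  have h : {ω | j = pm (f ω) i} =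
      ⋃ π : Equiv.Perm (Fin n), ({_ω : Ω | j = π i} ∩ {ω | pm (f ω) = π}) := by
    ext ω
    simp only [Set.mem_setOf_eq, Set.mem_iUnion, Set.mem_inter_iff]
    constructor
    · intro h
      exact ⟨pm (f ω), h, rfl⟩
    · rintro ⟨π, h1, h2⟩
      rw [h2]
      exact h1
  rw [h]
  exact MeasurableSet.iUnion fun π => (MeasurableSet.const _).inter (meas_pm hm π)

end NClsAux

theorem ncls {Ω : Type*} [MeasurableSpace Ω] {n : ℕ} (hn : 0 < n) (f : Ω → NC n ≃ₜ NC n)
    (hm : ∀ x, Measurable fun ω => f ω x) : Cls fun ω ω' => HConj (f ω) (f ω') := by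
  haveI := NClsAux.countable_fg
  haveI : Nonempty (Fin n) := ⟨⟨0, hn⟩⟩
  refine Cls.of_str (fun ω => ncs (f ω)) ?_ fun ω ω' => niso (f ω) (f ω')
  rintro k ⟨i, b, x⟩ ⟨j, c, y⟩
  rcases k with _ | _ | _ | _ | k
  · exact MeasurableSet.const (i = j)
  · exact NClsAux.meas_perm hm i j
  · exact MeasurableSet.const (i = j ∧ b = c)
  · exact MeasurableSet.const (i = j ∧ c = id b)
  · exact (MeasurableSet.const (i = j)).inter ((MeasurableSet.const (b = c)).inter
      (meas_circ (meas_ret hm i) b k x y))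

end Pool.Agent.Lib.P9Q
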