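import Pool.Agent.Lib.P9Q.NDefs
import Pool.Agent.Lib.P9Q.Eqv

/-!
# P9Q.NConj: conjugacy of homeomorphisms of finitely many circles

(⇒) Let `h` conjugate `f` to `g` and `τ = pm h`. First components of `h (f (i, x)) = g (h (i, x))`:
`τ (pm f i) = pm g (τ i)`, so the minimal period `k` of `i` under `pm f` is the minimal period of
`τ i` under `pm g`. `h (i, x) = (τ i, h_i x)` with a homeomorphism `h_i`
(`h_i x = (h (i, x)).2`, inverse `x ↦ (h.symm (τ i, x)).2`). From `h ∘ f^[k] = g^[k] ∘ h`: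
`h_i (ret f i x) = ret g (τ i) (h_i x)`.
(⇐) For every `i` choose a homeomorphism `h i` conjugating `ret f i` to `ret g (τ i)`. Apply
`equivariant_extension` to `Γ = Multiplicative ℤ`, `ρ = zpowersHom _ f.toEquiv`,
`ρ' = zpowersHom _ g.toEquiv`, `S = S' = univ`, `c = c' = Prod.fst`, `loc a (j, x) =
(τ a.1, h a.1 x)`. Classes: the first component of `(f^m) (i, x)` is `((pm f)^m) i`. Stabiliser:
if `((pm f)^m) i = i` then `k ∣ m` (`k` the minimal period of `i`, which is also the minimal period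
of `τ i`), `m = k l`, and `(f^m) (i, x) = (i, ((ret f i)^l) x)`,
`(g^m) (τ i, y) = (τ i, ((ret g (τ i))^l) y)`; use `h i ((ret f i)^l x) = (ret g (τ i))^l (h i x)`.
The result `H` is bijective and commutes with `f`, `g`. It is continuous: the sets `{i} × TC` are
open and on each of them `H x = ρ' γ (loc b (ρ γ⁻¹ x))` for fixed `γ`, `b`, a composition of
continuous maps. A continuous bijection of the compact Hausdorff space `NC n` is a homeomorphism
(`Continuous.homeoOfEquivCompactToT2`).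
-/

namespace Pool.Agent.Lib.P9Q

open Set

namespace NConjAux

theorem zstep {X : Type*} (A : Equiv.Perm X) (P : X → X → Prop) (h0 : ∀ x, P x x)
    (h1 : ∀ m x, P (A x) m → P x m) (h2 : ∀ m x, P (A⁻¹ x) m → P x m) (m : ℤ) (x : X) :
    P x ((A ^ m) x) := by
  induction m using Int.induction_on generalizing x with
  | zero => simpa using h0 x
  | succ k ih =>
    have h := h1 _ x (ih (A x))
    rwa [zpow_add_one, Equiv.Perm.mul_apply]
  | pred k ih =>
    have h := h2 _ x (ih (A⁻¹ x))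
    rwa [zpow_sub_one, Equiv.Perm.mul_apply]

theorem semi {X Y : Type*} (A : Equiv.Perm X) (B : Equiv.Perm Y) (e : X → Y)
    (h : ∀ x, e (A x) = B (e x)) (m : ℤ) (x : X) : e ((A ^ m) x) = (B ^ m) (e x) := by
  have h' : ∀ x, e (A⁻¹ x) = B⁻¹ (e x) := by
    intro x
    rw [Equiv.Perm.eq_inv_iff_eq, ← h]
    simp
  induction m using Int.induction_on generalizing x with
  | zero => simp
  | succ k ih => rw [zpow_add_one, Equiv.Perm.mul_apply, ih, h, zpow_add_one, Equiv.Perm.mul_apply]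
  | pred k ih => rw [zpow_sub_one, Equiv.Perm.mul_apply, ih, h', zpow_sub_one, Equiv.Perm.mul_apply]

theorem zp1 {n : ℕ} (f : NC n ≃ₜ NC n) (m : ℤ) (a : NC n) :
    ((f.toEquiv ^ m : Equiv.Perm (NC n)) a).1 = (pm f ^ m) a.1 :=
  semi (f.toEquiv : Equiv.Perm (NC n)) (pm f) Prod.fst
    (fun a => by
      have := pm_spec f a.1 a.2
      simpa using this) m a

theorem cont {n : ℕ} (f : NC n ≃ₜ NC n) (m : ℤ) :
    Continuous ((f.toEquiv ^ m : Equiv.Perm (NC n)) : NC n → NC n) := by
  induction m using Int.induction_on with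
  | zero => simpa using continuous_id
  | succ k ih =>
    have : ((f.toEquiv ^ ((k : ℤ) + 1) : Equiv.Perm (NC n)) : NC n → NC n) =
        (f.toEquiv ^ (k : ℤ) : Equiv.Perm (NC n)) ∘ f := by
      funext x
      rw [zpow_add_one, Equiv.Perm.mul_apply]; rfl
    rw [this]
    exact ih.comp f.continuous
  | pred k ih =>
    have : ((f.toEquiv ^ (-(k : ℤ) - 1) : Equiv.Perm (NC n)) : NC n → NC n) =
        (f.toEquiv ^ (-(k : ℤ)) : Equiv.Perm (NC n)) ∘ f.symm := by
      funext x
      rw [zpow_sub_one, Equiv.Perm.mul_apply]; rfl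
    rw [this]
    exact ih.comp f.symm.continuous

theorem retpow {n : ℕ} (f : NC n ≃ₜ NC n) (i : Fin n) (l : ℤ) (x : TC) :
    (f.toEquiv ^ ((Function.minimalPeriod (pm f) i : ℤ) * l) : Equiv.Perm (NC n)) (i, x) =
      (i, ((ret f i).toEquiv ^ l : Equiv.Perm TC) x) := by
  set k := Function.minimalPeriod (pm f) i with hk
  have h0 : ∀ x, (f.toEquiv ^ (k : ℤ) : Equiv.Perm (NC n)) (i, x) = (i, ret f i x) := by
    intro x
    rw [zpow_natCast]
    have := ret_spec f i x
    rw [← hk] at this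
    rw [← this, ← Equiv.Perm.iterate_eq_pow]
    rfl
  rw [zpow_mul]
  have := semi ((ret f i).toEquiv : Equiv.Perm TC) (f.toEquiv ^ (k : ℤ) : Equiv.Perm (NC n))
    (fun x => (i, x)) (fun x => (h0 x).symm) l x
  exact this.symm

theorem per {n : ℕ} (f : NC n ≃ₜ NC n) (i : Fin n) (m : ℤ) (h : (pm f ^ m) i = i) :
    ∃ l : ℤ, m = (Function.minimalPeriod (pm f) i : ℤ) * l := by
  have h' : (pm f ^ m.natAbs) i = i := by
    rcases Int.natAbs_eq m with hm | hm
    · rw [hm, zpow_natCast] at h; exact h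
    · rw [hm, zpow_neg, zpow_natCast, Equiv.Perm.inv_eq_iff_eq] at h
      exact h.symm
  have h2 : Function.IsPeriodicPt (pm f) m.natAbs i := by
    unfold Function.IsPeriodicPt Function.IsFixedPt
    rw [Equiv.Perm.iterate_eq_pow]
    exact h'
  exact Int.natCast_dvd.mpr h2.minimalPeriod_dvd

theorem minp {n : ℕ} (f g : NC n ≃ₜ NC n) (τ : Equiv.Perm (Fin n))
    (hτ : ∀ i, τ (pm f i) = pm g (τ i)) (i : Fin n) :
    Function.minimalPeriod (pm f) i = Function.minimalPeriod (pm g) (τ i) := by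
  rw [Function.minimalPeriod_eq_minimalPeriod_iff]
  intro k
  unfold Function.IsPeriodicPt Function.IsFixedPt
  rw [Equiv.Perm.iterate_eq_pow, Equiv.Perm.iterate_eq_pow]
  have := semi (pm f) (pm g) τ hτ k i
  rw [zpow_natCast, zpow_natCast] at this
  rw [← this]
  exact τ.injective.eq_iff.symm

theorem mp {n : ℕ} (f g : NC n ≃ₜ NC n) (h : NC n ≃ₜ NC n) (hh : ∀ m, h (f m) = g (h m)) :
    (∀ i, pm h (pm f i) = pm g (pm h i)) ∧ ∀ i, HConj (ret f i) (ret g (pm h i)) := by
  have h1 : ∀ i, pm h (pm f i) = pm g (pm h i) := by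
    intro i
    have e1 := pm_spec h (f (i, 0)).1 (f (i, 0)).2
    rw [Prod.mk.eta, hh, pm_spec f] at e1
    have e2 := pm_spec g (h (i, 0)).1 (h (i, 0)).2
    rw [Prod.mk.eta, pm_spec h] at e2
    rw [← e1, ← e2]
  refine ⟨h1, fun i => ?_⟩
  have hsym : ∀ x, (h.symm (pm h i, x)).1 = i := by
    intro x
    have e := pm_spec h (h.symm (pm h i, x)).1 (h.symm (pm h i, x)).2
    rw [Prod.mk.eta, h.apply_symm_apply] at e
    exact (pm h).injective e.symm
  have hf : ∀ x, h (i, x) = (pm h i, (h (i, x)).2) := fun x => Prod.ext (pm_spec h i x) rfl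
  have hg : ∀ x, h.symm (pm h i, x) = (i, (h.symm (pm h i, x)).2) :=
    fun x => Prod.ext (hsym x) rfl
  refine ⟨⟨⟨fun x => (h (i, x)).2, fun x => (h.symm (pm h i, x)).2, ?_, ?_⟩, ?_, ?_⟩, ?_⟩
  · intro x
    show (h.symm (pm h i, (h (i, x)).2)).2 = x
    rw [← hf x, h.symm_apply_apply]
  · intro x
    show (h (i, (h.symm (pm h i, x)).2)).2 = x
    rw [← hg x, h.apply_symm_apply]
  · exact continuous_snd.comp (h.continuous.comp (Continuous.prodMk continuous_const continuous_id))
  · exact continuous_snd.comp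
      (h.symm.continuous.comp (Continuous.prodMk continuous_const continuous_id))
  · intro x
    show (h (i, ret f i x)).2 = ret g (pm h i) (h (i, x)).2
    have e1 := ret_spec f i x
    have e2 := ret_spec g (pm h i) (h (i, x)).2
    rw [← hf x, ← minp f g (pm h) h1 i] at e2
    have e3 : h ((⇑f)^[Function.minimalPeriod (pm f) i] (i, x)) =
        (⇑g)^[Function.minimalPeriod (pm f) i] (h (i, x)) :=
      (Function.Semiconj.iterate_right hh _) (i, x)
    rw [e1, e2] at e3
    rw [e3]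

theorem mpr {n : ℕ} (f g : NC n ≃ₜ NC n) (τ : Equiv.Perm (Fin n))
    (hτ : ∀ i, τ (pm f i) = pm g (τ i)) (hr : ∀ i, HConj (ret f i) (ret g (τ i))) :
    HConj f g := by
  choose h hh using hr
  let ρ : Multiplicative ℤ →* Equiv.Perm (NC n) := zpowersHom _ (f.toEquiv : Equiv.Perm (NC n))
  let ρ' : Multiplicative ℤ →* Equiv.Perm (NC n) := zpowersHom _ (g.toEquiv : Equiv.Perm (NC n))
  have hρ : ∀ γ, ρ γ = (f.toEquiv ^ (Multiplicative.toAdd γ) : Equiv.Perm (NC n)) := fun γ => rfl
  have hρ' : ∀ γ, ρ' γ = (g.toEquiv ^ (Multiplicative.toAdd γ) : Equiv.Perm (NC n)) := fun γ => rfl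
  have hconj : ∀ (m : ℤ) (i : Fin n), τ ((pm f ^ m) i) = (pm g ^ m) (τ i) :=
    fun m i => semi (pm f) (pm g) τ hτ m i
  obtain ⟨H, hH1, hH2, hH3, hH4⟩ := equivariant_extension ρ ρ' Set.univ Set.univ
    (fun _ _ _ => Set.mem_univ _) (fun _ _ _ => Set.mem_univ _)
    (Prod.fst : NC n → Fin n) (Prod.fst : NC n → Fin n) τ
    (by
      intro γ x _ y _ hxy
      rw [hρ, zp1, zp1, hxy])
    (by
      intro γ x _ y _ hxy
      rw [hρ', zp1, zp1, hxy])
    (by
      intro x _ y _ hxy
      exact τ.injective hxy)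
    (by
      intro z _
      exact ⟨(τ.symm z.1, 0), Set.mem_univ _, by simp⟩)
    (by
      intro γ x _ z _ hxz
      rw [hρ, hρ', zp1, zp1, hconj, hxz])
    (fun a p => (τ a.1, h a.1 p.2))
    (by
      intro a _
      refine ⟨?_, ?_, ?_⟩
      · intro p _
        exact ⟨Set.mem_univ _, rfl⟩
      · rintro ⟨i, x⟩ ⟨_, hp⟩ ⟨j, y⟩ ⟨_, hq⟩ hpq
        have hp' : i = a.1 := hp
        have hq' : j = a.1 := hq
        have h2 : h a.1 x = h a.1 y := congrArg Prod.snd hpq
        rw [hp', hq', (h a.1).injective h2]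
      · rintro ⟨j, y⟩ ⟨_, hq⟩
        have hq' : j = τ a.1 := hq
        refine ⟨(a.1, (h a.1).symm y), ⟨Set.mem_univ _, rfl⟩, ?_⟩
        rw [hq']
        simp)
    (by
      intro a _ γ hγ x _ hx
      rw [hρ, zp1] at hγ
      obtain ⟨l, hl⟩ := per f a.1 _ hγ
      obtain ⟨i, y⟩ := x
      have hx' : i = a.1 := hx
      subst hx'
      rw [hρ, hρ', hl]
      have e1 := retpow f a.1 l y
      have e2 := retpow g (τ a.1) l (h a.1 y)
      rw [← minp f g τ hτ a.1] at e2
      have e3 := semi ((ret f a.1).toEquiv : Equiv.Perm TC) ((ret g (τ a.1)).toEquiv : Equiv.Perm TC)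
        (h a.1) (hh a.1) l y
      rw [e1]
      show (τ a.1, h a.1 (((ret f a.1).toEquiv ^ l : Equiv.Perm TC) y)) = _
      rw [e3]
      exact e2.symm)
  have hcont : Continuous H := by
    rw [continuous_iff_continuousAt]
    intro a
    obtain ⟨γ, b, _, _, hb⟩ := hH4 a (Set.mem_univ _)
    have hopen : IsOpen {x : NC n | x.1 = a.1} :=
      (isOpen_discrete ({a.1} : Set (Fin n))).preimage continuous_fst
    have hmem : {x : NC n | x.1 = a.1} ∈ nhds a := hopen.mem_nhds rfl
    have hc : Continuous fun x : NC n =>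
        ρ' γ ((fun p : NC n => ((τ b.1, h b.1 p.2) : NC n)) (ρ γ⁻¹ x)) := by
      have h1 : Continuous fun p : NC n => ((τ b.1, h b.1 p.2) : NC n) :=
        Continuous.prodMk continuous_const ((h b.1).continuous.comp continuous_snd)
      exact (cont g _).comp (h1.comp (cont f _))
    refine hc.continuousAt.congr ?_
    filter_upwards [hmem] with x hx
    exact (hb x (Set.mem_univ _) hx).symm
  let E : NC n ≃ NC n := Equiv.ofBijective H (Set.bijOn_univ.mp hH1)
  have hE : Continuous E := hcont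
  refine ⟨hE.homeoOfEquivCompactToT2, fun m => ?_⟩
  have := hH2 (Multiplicative.ofAdd 1) m (Set.mem_univ _)
  rw [hρ, hρ'] at this
  have h3 : H (f m) = g (H m) := by simpa using this
  exact h3

end NConjAux

theorem nconj {n : ℕ} (f g : NC n ≃ₜ NC n) :
    HConj f g ↔ ∃ τ : Equiv.Perm (Fin n), (∀ i, τ (pm f i) = pm g (τ i)) ∧
      ∀ i, HConj (ret f i) (ret g (τ i)) := by
  constructor
  · rintro ⟨h, hh⟩
    obtain ⟨h1, h2⟩ := NConjAux.mp f g h hh
    exact ⟨pm h, h1, h2⟩
  · rintro ⟨τ, h1, h2⟩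
    exact NConjAux.mpr f g τ h1 h2

end Pool.Agent.Lib.P9Q
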