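import Pool.Agent.Lib.P9Q.Defs

/-!
# P9Q.NDefs: homeomorphisms of finitely many circles

`exists_pm`: for every `i` the map `x ↦ (f (i, x)).1` is continuous from the connected space `TC` to
a discrete space, so constant, say `π i`; `π` is surjective since `f` is, hence bijective
(`Finite.injective_iff_surjective`).
`exists_ret`: let `k` be the minimal period. `f^[k]` is the power `f ^ k` of homeomorphisms
(`Homeomorph` has a group structure), its first component on `{i} × TC` is `π^[k] i = i`
(`Function.iterate_minimalPeriod`), and by bijectivity it maps `{i} × TC` bijectively onto itself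
(the preimage of a point of `{i} × TC` has first component `j` with `π^[k] j = i = π^[k] i`);
continuous maps `x ↦ ((f ^ k) (i, x)).2` and `x ↦ ((f ^ k)⁻¹ (i, x)).2` are inverse to each other.
-/

namespace Pool.Agent.Lib.P9Q

open Set

/-- `n` circles. -/
abbrev NC (n : ℕ) := Fin n × TC

theorem exists_pm {n : ℕ} (f : NC n ≃ₜ NC n) :
    ∃ π : Equiv.Perm (Fin n), ∀ i x, (f (i, x)).1 = π i := by
  have hc : ∀ i : Fin n, ∀ x y : TC, (f (i, x)).1 = (f (i, y)).1 := by
    intro i x y
    have hcont : Continuous fun x : TC => (f (i, x)).1 :=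
      continuous_fst.comp (f.continuous.comp (Continuous.prodMk continuous_const continuous_id))
    have hcon : IsPreconnected (Set.univ : Set TC) := isPreconnected_univ
    exact (IsPreconnected.image hcon _ hcont.continuousOn).subsingleton
      (mem_image_of_mem _ (mem_univ x)) (mem_image_of_mem _ (mem_univ y))
  let p : Fin n → Fin n := fun i => (f (i, 0)).1
  have hp : ∀ i x, (f (i, x)).1 = p i := fun i x => hc i x 0
  have hs : Function.Surjective p := by
    intro j
    obtain ⟨⟨i, x⟩, hix⟩ := f.surjective (j, 0)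
    exact ⟨i, by rw [← hp i x, hix]⟩
  have hb : Function.Bijective p := ⟨Finite.injective_iff_surjective.mpr hs, hs⟩
  exact ⟨Equiv.ofBijective p hb, fun i x => by simpa using hp i x⟩

/-- The permutation of the circles. -/
noncomputable def pm {n : ℕ} (f : NC n ≃ₜ NC n) : Equiv.Perm (Fin n) := (exists_pm f).choose

theorem pm_spec {n : ℕ} (f : NC n ≃ₜ NC n) (i : Fin n) (x : TC) : (f (i, x)).1 = pm f i :=
  (exists_pm f).choose_spec i x

theorem exists_ret {n : ℕ} (f : NC n ≃ₜ NC n) (i : Fin n) :
    ∃ r : TC ≃ₜ TC, ∀ x, (⇑f)^[Function.minimalPeriod (pm f) i] (i, x) = (i, r x) := by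
  have h1 : ∀ (k : ℕ) (j : Fin n) (x : TC), ((⇑f)^[k] (j, x)).1 = (⇑(pm f))^[k] j := by
    intro k
    induction k with
    | zero => intro j x; rfl
    | succ k ih =>
      intro j x
      rw [Function.iterate_succ_apply', Function.iterate_succ_apply']
      have h := pm_spec f ((⇑f)^[k] (j, x)).1 ((⇑f)^[k] (j, x)).2
      rw [Prod.mk.eta] at h
      rw [h, ih j x]
  set k := Function.minimalPeriod (pm f) i with hk
  have hki : (⇑(pm f))^[k] i = i := Function.iterate_minimalPeriod
  have hinj : Function.Injective (⇑(pm f))^[k] := (pm f).injective.iterate k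
  have hfi : Function.LeftInverse ((⇑f.symm)^[k]) ((⇑f)^[k]) :=
    Function.LeftInverse.iterate f.symm_apply_apply k
  have hfi' : Function.LeftInverse ((⇑f)^[k]) ((⇑f.symm)^[k]) :=
    Function.LeftInverse.iterate f.apply_symm_apply k
  have hc1 : Continuous (⇑f)^[k] := f.continuous.iterate k
  have hc2 : Continuous (⇑f.symm)^[k] := f.symm.continuous.iterate k
  have hF : ∀ x, (⇑f)^[k] (i, x) = (i, ((⇑f)^[k] (i, x)).2) := by
    intro x
    exact Prod.ext (by rw [h1 k i x, hki]) rfl
  have hG : ∀ x, (⇑f.symm)^[k] (i, x) = (i, ((⇑f.symm)^[k] (i, x)).2) := by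
    intro x
    refine Prod.ext ?_ rfl
    have h := h1 k ((⇑f.symm)^[k] (i, x)).1 ((⇑f.symm)^[k] (i, x)).2
    rw [Prod.mk.eta, hfi' (i, x)] at h
    exact (hinj (by rw [← h, hki]))
  refine ⟨⟨⟨fun x => ((⇑f)^[k] (i, x)).2, fun x => ((⇑f.symm)^[k] (i, x)).2, ?_, ?_⟩, ?_, ?_⟩, ?_⟩
  · intro x
    show ((⇑f.symm)^[k] (i, ((⇑f)^[k] (i, x)).2)).2 = x
    rw [← hF x, hfi (i, x)]
  · intro x
    show ((⇑f)^[k] (i, ((⇑f.symm)^[k] (i, x)).2)).2 = x
    rw [← hG x, hfi' (i, x)]
  · exact continuous_snd.comp (hc1.comp (Continuous.prodMk continuous_const continuous_id))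
  · exact continuous_snd.comp (hc2.comp (Continuous.prodMk continuous_const continuous_id))
  · intro x
    exact hF x

/-- The first return map to the circle `i`. -/
noncomputable def ret {n : ℕ} (f : NC n ≃ₜ NC n) (i : Fin n) : TC ≃ₜ TC := (exists_ret f i).choose

theorem ret_spec {n : ℕ} (f : NC n ≃ₜ NC n) (i : Fin n) (x : TC) :
    (⇑f)^[Function.minimalPeriod (pm f) i] (i, x) = (i, ret f i x) :=
  (exists_ret f i).choose_spec x

end Pool.Agent.Lib.P9Q
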