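import Pool.Agent.Lib.P9Q.NConj
import Pool.Agent.Lib.P9Q.CMain

/-!
# P9Q.NIso: the complete invariant of a homeomorphism of `n` circles

`nconj`, `circ_iso` and `Bun_iso` (`Q = (Bool × Bool) × (ℚ ⊕ ℕ)` is nonempty).
-/

namespace Pool.Agent.Lib.P9Q

open Set

/-- The structure attached to a homeomorphism of `n` circles. -/
noncomputable def ncs {n : ℕ} (f : NC n ≃ₜ NC n) :
    Str (Option (Option (Option (Option (Option (FreeGroup Bool × Bool) ⊕ ℚ)))))
      (Fin n × ((Bool × Bool) × (ℚ ⊕ ℕ))) :=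
  Bun (pm f) fun i => Bun id (circ (ret f i))

theorem niso {n : ℕ} (f g : NC n ≃ₜ NC n) : HConj f g ↔ SIso (ncs f) (ncs g) := by
  unfold ncs
  rw [nconj, Bun_iso]
  exact exists_congr fun τ => and_congr Iff.rfl (forall_congr' fun i => circ_iso _ _)

end Pool.Agent.Lib.P9Q
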