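import Pool.Agent.Lib.P9Q.NCls
import Pool.Agent.Lib.P9Q.K6
import Pool.Agent.Lib.P9Q.K7

/-!
# P9Q.One: conjugacy of homeomorphisms of a closed one-manifold is classifiable

Take `φ : M ≃ₜ Fin n × TC` from `classify` and apply `ncls` to
`f ω = (φ.symm.trans (F ω)).trans φ`: `f ω x = φ (F ω (φ.symm x))` is measurable in `ω` (`φ` is
continuous, so Borel measurable), and `HConj (f ω) (f ω') ↔ HConj (F ω) (F ω')` (conjugate the
conjugating homeomorphisms with `φ`).
-/

namespace Pool.Agent.Lib.P9Q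

open Set Topology

theorem one_cls {M : Type*} [TopologicalSpace M] [T2Space M] [CompactSpace M] [Nonempty M]
    (hM : Arcs M) {Ω : Type*} [MeasurableSpace Ω] (F : Ω → M ≃ₜ M)
    (hF : ∀ m, @Measurable Ω M _ (borel M) fun ω => F ω m) :
    Cls fun ω ω' => HConj (F ω) (F ω') := by
  obtain ⟨n, hn, ⟨φ⟩⟩ := classify hM
  have hφ : @Measurable M (Fin n × TC) (borel M) _ φ := by
    let _ : MeasurableSpace M := borel M
    have : BorelSpace M := ⟨rfl⟩
    exact φ.continuous.measurable
  obtain ⟨a, ha, hc⟩ := ncls hn (fun ω => (φ.symm.trans (F ω)).trans φ)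
    (fun x => hφ.comp (hF (φ.symm x)))
  refine ⟨a, ha, fun ω ω' => ?_⟩
  rw [← hc ω ω']
  constructor
  · rintro ⟨h, hh⟩
    refine ⟨(φ.symm.trans h).trans φ, fun m => ?_⟩
    simp only [Homeomorph.trans_apply, Homeomorph.symm_apply_apply]
    rw [hh]
  · rintro ⟨h, hh⟩
    refine ⟨(φ.trans h).trans φ.symm, fun m => ?_⟩
    have h1 := hh (φ m)
    simp only [Homeomorph.trans_apply, Homeomorph.symm_apply_apply] at h1
    simp only [Homeomorph.trans_apply]
    rw [h1, Homeomorph.symm_apply_apply]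

end Pool.Agent.Lib.P9Q
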