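import Pool.Agent.Lib.P9Q.Defs

/-!
# P9Q.SAct: from structures on `ℕ` to a Borel action of the permutation group

Proof. Take `Y = ℕ → ℕ → ℕ → Prop` (product σ-algebra, standard Borel as a countable product of
finite discrete spaces) with `(σ • a) k x y = a k (σ⁻¹ x) (σ⁻¹ y)`. `SIso a b` iff `σ • a = b` for
some `σ`: if `a k x y ↔ b k (σ x) (σ y)` then `(σ • a) k x y = a k (σ⁻¹ x) (σ⁻¹ y) = b k x y`
(`funext`, `propext`), and conversely. The action map is measurable: it is enough to look at one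
coordinate `(k, x, y)`; `{(σ, a) | a k (σ⁻¹ x) (σ⁻¹ y)}` is the countable union over `m, m'` of
`{σ | σ m = x} ∩ {σ | σ m' = y}` times `{a | a k m m'}`. `θ = a` is measurable coordinate by
coordinate.
-/

namespace Pool.Agent.Lib.P9Q

open Set

/-- The σ-algebra generated by the evaluations on the group of all permutations of `ℕ`. -/
def permSig : MeasurableSpace (Equiv.Perm ℕ) :=
  ⨆ n : ℕ, MeasurableSpace.comap (fun g : Equiv.Perm ℕ => g n) ⊤

namespace SActAux

/-- The logic action. -/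
def lact : MulAction (Equiv.Perm ℕ) (ℕ → ℕ → ℕ → Prop) where
  smul σ a := fun k x y => a k (σ⁻¹ x) (σ⁻¹ y)
  one_smul a := rfl
  mul_smul σ τ a := rfl

theorem measurable_ev (n : ℕ) :
    @Measurable _ _ permSig _ (fun g : Equiv.Perm ℕ => g n) := by
  rw [measurable_iff_comap_le]
  exact le_iSup (fun n : ℕ => MeasurableSpace.comap (fun g : Equiv.Perm ℕ => g n) ⊤) n

theorem coord (k x y : ℕ) :
    @MeasurableSet _ (@Prod.instMeasurableSpace _ _ permSig _)
      {p : Equiv.Perm ℕ × (ℕ → ℕ → ℕ → Prop) | p.2 k (p.1⁻¹ x) (p.1⁻¹ y)} := by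
  letI : MeasurableSpace (Equiv.Perm ℕ) := permSig
  have h : {p : Equiv.Perm ℕ × (ℕ → ℕ → ℕ → Prop) | p.2 k (p.1⁻¹ x) (p.1⁻¹ y)} =
      ⋃ m : ℕ, ⋃ m' : ℕ, ({p | p.1 m = x} ∩ {p | p.1 m' = y}) ∩ {p | p.2 k m m'} := by
    ext p
    simp only [mem_setOf_eq, mem_iUnion, mem_inter_iff]
    constructor
    · intro hp
      exact ⟨p.1⁻¹ x, p.1⁻¹ y, ⟨by simp, by simp⟩, hp⟩
    · rintro ⟨m, m', ⟨h1, h2⟩, h3⟩
      subst h1
      subst h2
      simpa using h3
  rw [h]
  refine MeasurableSet.iUnion fun m => MeasurableSet.iUnion fun m' => ?_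
  have e1 : ∀ m x : ℕ, MeasurableSet {p : Equiv.Perm ℕ × (ℕ → ℕ → ℕ → Prop) | p.1 m = x} := by
    intro m x
    have : Measurable fun p : Equiv.Perm ℕ × (ℕ → ℕ → ℕ → Prop) => p.1 m :=
      (measurable_ev m).comp measurable_fst
    exact this (measurableSet_singleton x)
  refine ((e1 m x).inter (e1 m' y)).inter ?_
  have : Measurable fun p : Equiv.Perm ℕ × (ℕ → ℕ → ℕ → Prop) => p.2 k m m' := by
    have h1 : Measurable fun a : ℕ → ℕ → ℕ → Prop => a k m m' :=
      (measurable_pi_apply m').comp ((measurable_pi_apply m).comp (measurable_pi_apply k))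
    exact h1.comp measurable_snd
  exact measurableSet_setOf.2 this

end SActAux

theorem Cls.action {X : Type*} [MeasurableSpace X] {E : X → X → Prop} (h : Cls E) :
    ∃ (Y : Type) (_ : MeasurableSpace Y) (_ : StandardBorelSpace Y)
      (_ : MulAction (Equiv.Perm ℕ) Y),
      (@Measurable _ _ (@Prod.instMeasurableSpace _ _ permSig _) _
        fun p : Equiv.Perm ℕ × Y => p.1 • p.2) ∧
      ∃ θ : X → Y, Measurable θ ∧ ∀ x y, E x y ↔ ∃ σ : Equiv.Perm ℕ, σ • θ x = θ y := by
  obtain ⟨a, ha, hE⟩ := h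
  refine ⟨ℕ → ℕ → ℕ → Prop, inferInstance, inferInstance, SActAux.lact, ?_, a, ?_, ?_⟩
  · letI : MeasurableSpace (Equiv.Perm ℕ) := permSig
    refine measurable_pi_iff.2 fun k => measurable_pi_iff.2 fun x => measurable_pi_iff.2 fun y => ?_
    exact measurableSet_setOf.1 (SActAux.coord k x y)
  · refine measurable_pi_iff.2 fun k => measurable_pi_iff.2 fun x => measurable_pi_iff.2 fun y => ?_
    exact measurableSet_setOf.1 (ha k x y)
  · intro x y
    rw [hE]
    constructor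
    · rintro ⟨σ, hσ⟩
      refine ⟨σ, ?_⟩
      funext k u v
      change a x k (σ⁻¹ u) (σ⁻¹ v) = a y k u v
      refine propext ?_
      rw [hσ]
      simp
    · rintro ⟨σ, hσ⟩
      refine ⟨σ, fun k u v => ?_⟩
      have h1 := congrFun (congrFun (congrFun hσ k) (σ u)) (σ v)
      change a x k (σ⁻¹ (σ u)) (σ⁻¹ (σ v)) = a y k (σ u) (σ v) at h1
      rw [← h1]
      simp

end Pool.Agent.Lib.P9Q
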